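import Pool.Agent.Lib.MP_e8750f_nt.Hyper

/-! Trigonometric iterated integrals as hyperlogarithms along the unit circle. -/

namespace Pool.Agent.Lib.MP_e8750f_nt

set_option linter.unusedSectionVars false

open Ser Filter Topology Set MeasureTheory Real

/-- the forms `dφ`, `cot`, `tan`, `cot + tan` -/
inductive Fm : Type
  | d | c | t | s
  deriving DecidableEq

def Rf : Fm → List (ℚ × SignType)
  | .d => [(1, 0)]
  | .c => [(1, 1), (-1 / 2, 0)]
  | .t => [(-1, -1), (1 / 2, 0)]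
  | .s => [(1, 1), (-1, -1)]

noncomputable def fm : Fm → ℝ → ℝ
  | .d, _ => 1
  | .c, φ => cos φ / sin φ
  | .t, φ => sin φ / cos φ
  | .s, φ => cos φ / sin φ + sin φ / cos φ

/-- trigonometric iterated integrals -/
noncomputable def G : List Fm → ℝ → ℝ
  | [], _ => 1
  | f :: fs, φ => ∫ θ in (0 : ℝ)..φ, fm f θ * G fs θ

noncomputable def zz (ρ φ : ℝ) : ℂ := ρ * Complex.exp (2 * Complex.I * φ)

noncomputable def fr (f : Fm) (z : ℂ) : ℂ :=
  ((Rf f).map fun x => (x.1 : ℂ) * (z * (2 * Complex.I) / (z - x.2))).sum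

noncomputable def kap (fs : List Fm) : ℂ := (2 * Complex.I) ^ fs.count .d

noncomputable def A (ρ φ : ℝ) : Ser Fm ℂ :=
  lin Rf (hyp (zz ρ φ) (Real.log ρ + 2 * Complex.I * φ) * rev (F ρ))

theorem zz_eq (ρ φ : ℝ) : zz ρ φ = ρ * ((cos φ : ℝ) + (sin φ : ℝ) * Complex.I) ^ 2 := by
  rw [zz, Complex.ofReal_cos, Complex.ofReal_sin, ← Complex.exp_mul_I, ← Complex.exp_nat_mul]
  congr 2; push_cast; ring

theorem norm_zz {ρ : ℝ} (h : 0 ≤ ρ) (φ : ℝ) : ‖zz ρ φ‖ = ρ := by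
  rw [zz, norm_mul, show 2 * Complex.I * φ = (2 * φ : ℝ) * Complex.I by push_cast; ring,
    Complex.norm_exp_ofReal_mul_I, Complex.norm_real, mul_one, Real.norm_of_nonneg h]

theorem A_deriv {ρ : ℝ} (hρ : ρ ∈ Ioo (0 : ℝ) 1) (φ : ℝ) (f : Fm) (fs : List Fm) :
    HasDerivAt (fun φ => A ρ φ (f :: fs)) (fr f (zz ρ φ) * A ρ φ fs) φ := by
  have h0 : HasDerivAt (fun φ : ℝ => 2 * Complex.I * φ) (2 * Complex.I) φ := by
    simpa using (Complex.ofRealCLM.hasDerivAt (x := φ)).const_mul (2 * Complex.I)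
  have h1 : HasDerivAt (zz ρ) (zz ρ φ * (2 * Complex.I)) φ :=
    (h0.cexp.const_mul (ρ : ℂ)).congr_deriv (by rw [zz]; ring)
  have h2 : zz ρ φ ≠ 0 := by
    rw [← norm_ne_zero_iff, norm_zz hρ.1.le]; exact hρ.1.ne'
  simp only [A, lin_cons, fr]
  rw [← List.sum_map_mul_right]
  refine hasDerivAt_list_sum _ fun x _ => ?_
  rw [mul_assoc]
  refine HasDerivAt.const_mul _ ?_
  rw [← smul_eq_mul (_ / _), ← smul_app, ← lin_smul]
  refine lin_deriv Rf (fun w => ?_) fs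
  simp only [der_apply, mul_cons, hyp_nil]
  have h3 : SerDeriv (fun φ : ℝ => der x.2 (hyp (zz ρ φ) (Real.log ρ + 2 * Complex.I * φ)))
      ((zz ρ φ * (2 * Complex.I) / (zz ρ φ - x.2)) •
        hyp (zz ρ φ) (Real.log ρ + 2 * Complex.I * φ)) φ := fun v =>
    (hyp_deriv h1 (h0.const_add _) (by rw [norm_zz hρ.1.le]; exact hρ.2) h2 x.2 v).congr_deriv
      (mul_comm _ _)
  have h4 := h3.mul (SerDeriv.const (rev (F ρ)) φ) w
  rw [mul_zero, add_zero, smul_mul_assoc] at h4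
  exact h4.const_add _

theorem A_nil (ρ φ : ℝ) : A ρ φ [] = 1 := by simp [A, rev]

theorem A_zero {ρ : ℝ} (hρ : ρ ∈ Ioo (0 : ℝ) 1) (f : Fm) (fs : List Fm) : A ρ 0 (f :: fs) = 0 := by
  have : hyp (zz ρ 0) (Real.log ρ + 2 * Complex.I * (0 : ℝ)) = F ρ := by simp [zz, F]
  rw [A, this, (isChar_F hρ).mul_rev, lin_cons]
  simp [lin_zero]

theorem A_cont {ρ : ℝ} (hρ : ρ ∈ Ioo (0 : ℝ) 1) (fs : List Fm) : Continuous fun φ => A ρ φ fs := by
  cases fs with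
  | nil => simpa [A_nil] using continuous_const
  | cons f fs => exact continuous_iff_continuousAt.mpr fun φ => (A_deriv hρ φ f fs).continuousAt

theorem fr_cont {ρ : ℝ} (hρ : ρ ∈ Ioo (0 : ℝ) 1) (f : Fm) : Continuous fun φ => fr f (zz ρ φ) := by
  have h1 : Continuous (zz ρ) := by unfold zz; fun_prop
  refine continuous_list_sum _ fun x _ => continuous_const.mul
    ((h1.mul continuous_const).div (h1.sub continuous_const) fun φ h => ?_)
  have h2 := norm_zz hρ.1.le φ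
  rw [sub_eq_zero.mp h] at h2
  have := hρ.1; have := hρ.2
  generalize x.2 = a at h2
  cases a <;> simp at h2 <;> linarith

theorem A_eq {ρ : ℝ} (hρ : ρ ∈ Ioo (0 : ℝ) 1) (φ : ℝ) (f : Fm) (fs : List Fm) :
    A ρ φ (f :: fs) = ∫ θ in (0 : ℝ)..φ, fr f (zz ρ θ) * A ρ θ fs := by
  rw [intervalIntegral.integral_eq_sub_of_hasDerivAt (fun θ _ => A_deriv hρ θ f fs)
    (((fr_cont hρ f).mul (A_cont hρ fs)).intervalIntegrable _ _), A_zero hρ, sub_zero]

theorem fr_eq {z : ℂ} (h0 : z ≠ 0) (h1 : z - 1 ≠ 0) (h2 : z + 1 ≠ 0) :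
    fr .d z = 2 * Complex.I ∧ fr .c z = Complex.I * ((z + 1) / (z - 1)) ∧
      fr .t z = Complex.I * ((1 - z) / (z + 1)) ∧ fr .s z = fr .c z + fr .t z := by
  refine ⟨?_, ?_, ?_, ?_⟩ <;> simp [fr, Rf] <;> field_simp <;> ring

abbrev J : Set ℝ := Ioo 0 (π / 2)

theorem sin_pos' {φ : ℝ} (h : φ ∈ J) : 0 < sin φ :=
  sin_pos_of_pos_of_lt_pi h.1 (by linarith [h.2, pi_pos])
theorem cos_pos' {φ : ℝ} (h : φ ∈ J) : 0 < cos φ :=
  cos_pos_of_mem_Ioo ⟨by linarith [h.1, pi_pos], h.2⟩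

theorem zz_far {ρ φ : ℝ} (hρ : 1 / 2 ≤ ρ) (h : φ ∈ J) :
    sin φ ≤ ‖zz ρ φ - 1‖ ∧ cos φ ≤ ‖zz ρ φ + 1‖ := by
  have h1 := sin_sq_add_cos_sq φ
  constructor
  · refine (pow_le_pow_iff_left₀ (sin_pos' h).le (norm_nonneg _) two_ne_zero).mp ?_
    have : ‖zz ρ φ - 1‖ ^ 2 = (1 - ρ) ^ 2 + 4 * ρ * sin φ ^ 2 := by
      rw [Complex.sq_norm, zz_eq, Complex.normSq_apply]
      generalize sin φ = s at *
      generalize cos φ = c at *
      simp [pow_two]
      linear_combination (ρ ^ 2 * (s ^ 2 + c ^ 2 + 1) - 2 * ρ) * h1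
    rw [this]; nlinarith [sq_nonneg (1 - ρ), sq_nonneg (sin φ)]
  · refine (pow_le_pow_iff_left₀ (cos_pos' h).le (norm_nonneg _) two_ne_zero).mp ?_
    have : ‖zz ρ φ + 1‖ ^ 2 = (1 - ρ) ^ 2 + 4 * ρ * cos φ ^ 2 := by
      rw [Complex.sq_norm, zz_eq, Complex.normSq_apply]
      generalize sin φ = s at *
      generalize cos φ = c at *
      simp [pow_two]
      linear_combination (ρ ^ 2 * (s ^ 2 + c ^ 2 + 1) - 2 * ρ) * h1
    rw [this]; nlinarith [sq_nonneg (1 - ρ), sq_nonneg (cos φ)]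

theorem zz_ne {ρ φ : ℝ} (hρ : 1 / 2 ≤ ρ) (h : φ ∈ J) :
    zz ρ φ ≠ 0 ∧ zz ρ φ - 1 ≠ 0 ∧ zz ρ φ + 1 ≠ 0 := by
  obtain ⟨h1, h2⟩ := zz_far hρ h
  refine ⟨?_, norm_pos_iff.mp ((sin_pos' h).trans_le h1), norm_pos_iff.mp ((cos_pos' h).trans_le h2)⟩
  rw [← norm_ne_zero_iff, norm_zz (by linarith)]; linarith

theorem fr_bound {ρ φ : ℝ} (hρ : ρ ∈ Ico (1 / 2 : ℝ) 1) (h : φ ∈ J) (f : Fm) :
    ‖fr f (zz ρ φ)‖ ≤ 4 / (sin φ * cos φ) ∧ (f = .d ∨ f = .c → ‖fr f (zz ρ φ)‖ ≤ 2 / sin φ) ∧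
      (f = .d ∨ f = .t → ‖fr f (zz ρ φ)‖ ≤ 2 / cos φ) := by
  obtain ⟨h1, h2⟩ := zz_far hρ.1 h
  obtain ⟨h3, h4, h5⟩ := zz_ne hρ.1 h
  obtain ⟨e1, e2, e3, e4⟩ := fr_eq h3 h4 h5
  have hs := sin_pos' h
  have hc := cos_pos' h
  have hz := norm_zz (show 0 ≤ ρ by linarith [hρ.1]) φ
  have b2 : ‖fr .c (zz ρ φ)‖ ≤ 2 / sin φ := by
    rw [e2, norm_mul, Complex.norm_I, one_mul, norm_div]
    refine div_le_div₀ (by norm_num) ((norm_add_le _ _).trans ?_) hs h1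
    rw [hz, norm_one]; linarith [hρ.2]
  have b3 : ‖fr .t (zz ρ φ)‖ ≤ 2 / cos φ := by
    rw [e3, norm_mul, Complex.norm_I, one_mul, norm_div]
    refine div_le_div₀ (by norm_num) ((norm_sub_le _ _).trans ?_) hc h2
    rw [hz, norm_one]; linarith [hρ.2]
  have b1 : ‖fr .d (zz ρ φ)‖ = 2 := by rw [e1]; simp
  have c1 : 2 ≤ 2 / sin φ := by rw [le_div_iff₀ hs]; linarith [sin_le_one φ]
  have c2 : 2 ≤ 2 / cos φ := by rw [le_div_iff₀ hc]; linarith [cos_le_one φ]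
  have c3 : 2 / sin φ + 2 / cos φ ≤ 4 / (sin φ * cos φ) := by
    rw [div_add_div _ _ hs.ne' hc.ne']
    gcongr
    linarith [sin_le_one φ, cos_le_one φ]
  cases f
  · exact ⟨by linarith, fun _ => by linarith, fun _ => by linarith⟩
  · exact ⟨by linarith, fun _ => b2, by simp⟩
  · exact ⟨by linarith, by simp, fun _ => b3⟩
  · exact ⟨by rw [e4]; linarith [norm_add_le (fr .c (zz ρ φ)) (fr .t (zz ρ φ))], by simp, by simp⟩

theorem fr_tendsto {φ : ℝ} (h : φ ∈ J) (f : Fm) :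
    Tendsto (fun ρ => fr f (zz ρ φ)) (𝓝[<] 1) (𝓝 (kap [f] * fm f φ)) := by
  obtain ⟨h3, h4, h5⟩ := zz_ne (ρ := 1) (by norm_num) h
  obtain ⟨e1, e2, e3, e4⟩ := fr_eq h3 h4 h5
  have hs : ((sin φ : ℝ) : ℂ) ≠ 0 := by exact_mod_cast (sin_pos' h).ne'
  have hc : ((cos φ : ℝ) : ℂ) ≠ 0 := by exact_mod_cast (cos_pos' h).ne'
  have h1 : ((sin φ : ℝ) : ℂ) ^ 2 + ((cos φ : ℝ) : ℂ) ^ 2 = 1 := by
    exact_mod_cast sin_sq_add_cos_sq φ
  have b2 : fr .c (zz 1 φ) = ((cos φ / sin φ : ℝ) : ℂ) := by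
    rw [e2, Complex.ofReal_div, ← mul_div_assoc, div_eq_div_iff h4 hs, zz_eq]
    generalize ((sin φ : ℝ) : ℂ) = s at *
    generalize ((cos φ : ℝ) : ℂ) = c at *
    push_cast
    linear_combination (c * s ^ 2 + s ^ 3 * Complex.I) * Complex.I_sq + (-c - s * Complex.I) * h1
  have b3 : fr .t (zz 1 φ) = ((sin φ / cos φ : ℝ) : ℂ) := by
    rw [e3, Complex.ofReal_div, ← mul_div_assoc, div_eq_div_iff h5 hc, zz_eq]
    generalize ((sin φ : ℝ) : ℂ) = s at *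
    generalize ((cos φ : ℝ) : ℂ) = c at *
    push_cast
    linear_combination (-2 * c ^ 2 * s - s ^ 3 - c * s ^ 2 * Complex.I) * Complex.I_sq +
      (s - c * Complex.I) * h1
  have h6 : fr f (zz 1 φ) = kap [f] * fm f φ := by
    cases f
    · simp [e1, kap, fm]
    · simp only [b2, kap, fm]; simp
    · simp only [b3, kap, fm]; simp
    · simp only [e4, b2, b3, kap, fm]; simp
  rw [← h6]
  have h7 : ContinuousAt (fun ρ => zz ρ φ) 1 := by unfold zz; fun_prop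
  refine Tendsto.mono_left ?_ nhdsWithin_le_nhds
  refine tendsto_list_sum' _ fun x _ => Tendsto.const_mul _
    ((h7.tendsto.mul_const _).div (h7.tendsto.sub_const _) ?_)
  generalize x.2 = a
  cases a <;> simp_all

/-- the gauge -/
noncomputable def hh (φ : ℝ) : ℝ := √(sin φ / cos φ)

theorem hh_deriv {φ : ℝ} (h : φ ∈ J) : HasDerivAt hh (hh φ / (sin φ * cos φ) / 2) φ := by
  have hs := sin_pos' h
  have hc := cos_pos' h
  have h1 : 0 < sin φ / cos φ := by positivity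
  refine (((hasDerivAt_sin φ).div (hasDerivAt_cos φ) hc.ne').sqrt h1.ne').congr_deriv ?_
  have h2 : 0 < hh φ := sqrt_pos.mpr h1
  have h3 : hh φ ^ 2 = sin φ / cos φ := sq_sqrt h1.le
  change _ / (2 * hh φ) = _
  rw [eq_div_iff hc.ne'] at h3
  field_simp
  linear_combination sin φ * sin_sq_add_cos_sq φ - h3

theorem hh_int {φ : ℝ} (h : φ ∈ J) :
    IntervalIntegrable (fun θ => hh θ / (sin θ * cos θ) / 2) volume 0 φ ∧
      ∫ θ in (0 : ℝ)..φ, hh θ / (sin θ * cos θ) / 2 = hh φ := by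
  have h1 : ContinuousOn hh (Icc 0 φ) := by
    refine ContinuousOn.sqrt (continuousOn_sin.div continuousOn_cos fun θ hθ => ?_)
    exact (cos_pos_of_mem_Ioo ⟨by linarith [hθ.1, pi_pos], hθ.2.trans_lt h.2⟩).ne'
  have h2 : ∀ θ ∈ Ioo 0 φ, θ ∈ J := fun θ hθ => ⟨hθ.1, hθ.2.trans h.2⟩
  have h3 : IntervalIntegrable (fun θ => hh θ / (sin θ * cos θ) / 2) volume 0 φ := by
    refine intervalIntegral.intervalIntegrable_deriv_of_nonneg (g := hh) ?_ ?_ ?_
    · rwa [uIcc_of_le h.1.le]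
    · rw [min_eq_left h.1.le, max_eq_right h.1.le]
      exact fun θ hθ => hh_deriv (h2 θ hθ)
    · rw [min_eq_left h.1.le, max_eq_right h.1.le]
      intro θ hθ
      have := sin_pos' (h2 θ hθ); have := cos_pos' (h2 θ hθ); have := sqrt_nonneg (sin θ / cos θ)
      unfold hh; positivity
  refine ⟨h3, ?_⟩
  rw [intervalIntegral.integral_eq_sub_of_hasDerivAt_of_le h.1.le h1
    (fun θ hθ => hh_deriv (h2 θ hθ)) h3]
  simp [hh]

theorem hh_int' : IntervalIntegrable (fun θ => hh θ / sin θ) volume 0 (π / 2) := by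
  have h0 : (0 : ℝ) ≤ π / 2 := by positivity
  have h3 : IntervalIntegrable (fun θ => cos θ / (2 * √(sin θ)) - -sin θ / (2 * √(cos θ)))
      volume 0 (π / 2) := by
    refine intervalIntegral.intervalIntegrable_deriv_of_nonneg
      (g := fun θ => √(sin θ) - √(cos θ)) (by fun_prop) ?_ ?_
    · rw [min_eq_left h0, max_eq_right h0]
      exact fun θ hθ => ((hasDerivAt_sin θ).sqrt (sin_pos' hθ).ne').sub
        ((hasDerivAt_cos θ).sqrt (cos_pos' hθ).ne')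
    · rw [min_eq_left h0, max_eq_right h0]
      intro θ hθ
      have := sin_pos' hθ; have := cos_pos' hθ
      rw [neg_div, sub_neg_eq_add]; positivity
  refine intInt_of_bound h0 ?_ (h3.const_mul 2) fun θ hθ => ?_
  · exact fun θ hθ => ((hh_deriv hθ).continuousAt.div continuous_sin.continuousAt
      (sin_pos' hθ).ne').continuousWithinAt
  · have hs := sin_pos' hθ
    have hc := cos_pos' hθ
    have h1 := sin_sq_add_cos_sq θ
    have h2 := sin_le_one θ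
    have h4 := cos_le_one θ
    rw [hh, sqrt_div hs.le, Real.norm_of_nonneg (by positivity)]
    have h5 := sq_sqrt hs.le
    have h6 := sq_sqrt hc.le
    have h7 := sqrt_pos.mpr hs
    have h8 := sqrt_pos.mpr hc
    have h9 := sqrt_le_one.mpr h2
    have h10 := sqrt_le_one.mpr h4
    generalize √(sin θ) = a at *
    generalize √(cos θ) = b at *
    rw [← h5, ← h6] at h1 ⊢
    have : 2 * (b ^ 2 / (2 * a) - -a ^ 2 / (2 * b)) - a / b / a ^ 2
        = (a ^ 3 * (1 - a) + b ^ 3 * (1 - b)) / (a * b) := by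
      field_simp
      linear_combination h1
    rw [← sub_nonneg, this]
    have : 0 ≤ 1 - a := by linarith
    have : 0 ≤ 1 - b := by linarith
    positivity

theorem kap_cons (f : Fm) (fs : List Fm) : kap (f :: fs) = kap [f] * kap fs := by
  cases f <;> simp [kap, pow_succ']

theorem one_le_kap (fs : List Fm) : 1 ≤ ‖kap fs‖ := by
  rw [kap, norm_pow]; exact one_le_pow₀ (by simp)

/-- admissible at the origin -/
def Adm (fs : List Fm) : Prop := fs.getLast? = some .d ∨ fs.getLast? = some .t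

theorem ev_half : ∀ᶠ ρ in 𝓝[<] (1 : ℝ), ρ ∈ Ico (1 / 2 : ℝ) 1 := Ico_mem_nhdsLT (by norm_num)

theorem half_sub {ρ : ℝ} (h : ρ ∈ Ico (1 / 2 : ℝ) 1) : ρ ∈ Ioo (0 : ℝ) 1 := ⟨by linarith [h.1], h.2⟩

theorem fm_cont (f : Fm) : ContinuousOn (fm f) J := by
  have h1 : ContinuousOn (fun φ => cos φ / sin φ) J :=
    continuousOn_cos.div continuousOn_sin fun φ h => (sin_pos' h).ne'
  have h2 : ContinuousOn (fun φ => sin φ / cos φ) J :=
    continuousOn_sin.div continuousOn_cos fun φ h => (cos_pos' h).ne'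
  cases f
  exacts [continuousOn_const, h1, h2, h1.add h2]

theorem arc_dct (f : Fm) (fs : List Fm) {φ : ℝ} (hφ : φ ∈ Icc 0 (π / 2)) (b : ℝ → ℝ)
    (hb : IntervalIntegrable b volume 0 φ)
    (h1 : ∀ ρ ∈ Ico (1 / 2 : ℝ) 1, ∀ θ ∈ J, ‖fr f (zz ρ θ) * A ρ θ fs‖ ≤ b θ)
    (h2 : ∀ θ ∈ J, Tendsto (fun ρ => A ρ θ fs) (𝓝[<] 1) (𝓝 (kap fs * G fs θ))) :
    Tendsto (fun ρ => A ρ φ (f :: fs)) (𝓝[<] 1) (𝓝 (kap (f :: fs) * G (f :: fs) φ)) := by
  have h3 : ∀ᵐ θ : ℝ, θ ∈ uIoc 0 φ → θ ∈ J := by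
    filter_upwards [compl_mem_ae_iff.mpr (show volume {π / 2} = 0 by simp)] with θ h hθ
    rw [uIoc_of_le hφ.1] at hθ
    exact ⟨hθ.1, lt_of_le_of_ne (hθ.2.trans hφ.2) h⟩
  have := intervalIntegral.tendsto_integral_filter_of_dominated_convergence (l := 𝓝[<] (1 : ℝ))
    (F := fun ρ θ => fr f (zz ρ θ) * A ρ θ fs)
    (f := fun θ => kap (f :: fs) * ((fm f θ * G fs θ : ℝ) : ℂ)) b ?_ ?_ hb ?_
  · rw [intervalIntegral.integral_const_mul, intervalIntegral.integral_ofReal] at this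
    refine this.congr' ?_
    filter_upwards [ev_Ioo] with ρ hρ
    exact (A_eq hρ φ f fs).symm
  · filter_upwards [ev_Ioo] with ρ hρ
    exact ((fr_cont hρ f).mul (A_cont hρ fs)).aestronglyMeasurable
  · filter_upwards [ev_half] with ρ hρ
    filter_upwards [h3] with θ h hθ
    exact h1 ρ hρ θ (h hθ)
  · filter_upwards [h3] with θ h hθ
    have := (fr_tendsto (h hθ) f).mul (h2 θ (h hθ))
    rw [kap_cons]
    push_cast
    rwa [mul_mul_mul_comm] at this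

structure ArcOK (fs : List Fm) : Prop where
  cont : ContinuousOn (G fs) J
  lim : ∀ θ ∈ J, Tendsto (fun ρ => A ρ θ fs) (𝓝[<] 1) (𝓝 (kap fs * G fs θ))
  bd : fs ≠ [] → ∃ C, ∀ ρ ∈ Ico (1 / 2 : ℝ) 1, ∀ θ ∈ J, ‖A ρ θ fs‖ ≤ C * hh θ

theorem arc_step {f : Fm} {fs : List Fm} (h : Adm (f :: fs)) (ih : ArcOK fs) :
    ArcOK (f :: fs) ∧ ∀ φ ∈ J, HasDerivAt (G (f :: fs)) (fm f φ * G fs φ) φ := by
  obtain ⟨C, hC⟩ : ∃ C, ∀ ρ ∈ Ico (1 / 2 : ℝ) 1, ∀ θ ∈ J,
      ‖fr f (zz ρ θ) * A ρ θ fs‖ ≤ C * (hh θ / (sin θ * cos θ) / 2) := by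
    by_cases hfs : fs = []
    · subst hfs
      refine ⟨4, fun ρ hρ θ hθ => ?_⟩
      have hs := sin_pos' hθ
      have hc := cos_pos' hθ
      rw [A_nil, mul_one]
      refine ((fr_bound hρ hθ f).2.2 (by simpa [Adm] using h)).trans ?_
      have : sin θ ≤ hh θ := by
        refine le_sqrt_of_sq_le ?_
        rw [le_div_iff₀ hc]
        nlinarith [sin_le_one θ, cos_le_one θ, mul_pos hs hc]
      calc 2 / cos θ = 4 * (sin θ / (sin θ * cos θ) / 2) := by field_simp; norm_num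
        _ ≤ _ := by gcongr
    · obtain ⟨C, hC⟩ := ih.bd hfs
      refine ⟨8 * C, fun ρ hρ θ hθ => ?_⟩
      rw [norm_mul]
      refine (mul_le_mul (fr_bound hρ hθ f).1 (hC ρ hρ θ hθ) (norm_nonneg _)
        ((norm_nonneg _).trans (fr_bound hρ hθ f).1)).trans_eq (by ring)
  have hG : ∀ θ ∈ J, ‖fm f θ * G fs θ‖ ≤ C * (hh θ / (sin θ * cos θ) / 2) := fun θ hθ => by
    have h1 := le_of_tendsto ((fr_tendsto hθ f).mul (ih.lim θ hθ)).norm
      (ev_half.mono fun ρ hρ => hC ρ hρ θ hθ)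
    rw [mul_mul_mul_comm, ← kap_cons, norm_mul, ← Complex.ofReal_mul, Complex.norm_real] at h1
    exact (le_mul_of_one_le_left (norm_nonneg _) (one_le_kap _)).trans h1
  have hc := (fm_cont f).mul ih.cont
  have hd : ∀ φ ∈ J, HasDerivAt (G (f :: fs)) (fm f φ * G fs φ) φ := fun φ hφ =>
    intervalIntegral.integral_hasDerivAt_right (f := fun θ => fm f θ * G fs θ)
      (intInt_of_bound hφ.1.le (hc.mono (Ioo_subset_Ioo_right hφ.2.le))
        ((hh_int hφ).1.const_mul C) fun θ hθ => hG θ ⟨hθ.1, hθ.2.trans hφ.2⟩)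
      (hc.stronglyMeasurableAtFilter isOpen_Ioo φ hφ) (hc.continuousAt (isOpen_Ioo.mem_nhds hφ))
  refine ⟨⟨fun φ hφ => (hd φ hφ).continuousAt.continuousWithinAt, fun φ hφ =>
    arc_dct f fs (Ioo_subset_Icc_self hφ) _ ((hh_int hφ).1.const_mul C) hC ih.lim,
    fun _ => ⟨C, fun ρ hρ φ hφ => ?_⟩⟩, hd⟩
  rw [A_eq (half_sub hρ), ← (hh_int hφ).2, ← intervalIntegral.integral_const_mul]
  exact intervalIntegral.norm_integral_le_of_norm_le hφ.1.le
    (Eventually.of_forall fun θ hθ => hC ρ hρ θ ⟨hθ.1, hθ.2.trans_lt hφ.2⟩)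
    ((hh_int hφ).1.const_mul C)

theorem arcOK {fs : List Fm} (h : fs = [] ∨ Adm fs) : ArcOK fs := by
  induction fs with
  | nil => exact ⟨continuousOn_const, fun θ _ => by simp [A_nil, kap, G], by simp⟩
  | cons f fs ih =>
    refine (arc_step (h.resolve_left (by simp)) (ih ?_)).1
    cases fs with
    | nil => simp
    | cons g fs => simpa [Adm] using h

theorem Adm.tail {f : Fm} {fs : List Fm} (h : Adm (f :: fs)) : fs = [] ∨ Adm fs := by
  cases fs with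
  | nil => simp
  | cons g fs => simpa [Adm] using h

theorem G_deriv {f : Fm} {fs : List Fm} (h : Adm (f :: fs)) {φ : ℝ} (hφ : φ ∈ J) :
    HasDerivAt (G (f :: fs)) (fm f φ * G fs φ) φ := (arc_step h (arcOK h.tail)).2 φ hφ

theorem G_tendsto {fs : List Fm} (h : Adm fs) : Tendsto (G fs) (𝓝[>] 0) (𝓝 0) := by
  obtain ⟨C, hC⟩ := (arcOK (Or.inr h)).bd (by rintro rfl; simp [Adm] at h)
  have h1 : Tendsto (fun θ => C * hh θ) (𝓝[>] 0) (𝓝 0) := by
    have : ContinuousAt hh 0 :=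
      ContinuousAt.sqrt (continuous_sin.continuousAt.div continuous_cos.continuousAt (by simp))
    simpa [hh] using (this.tendsto.mono_left nhdsWithin_le_nhds).const_mul C
  refine squeeze_zero_norm' ?_ h1
  filter_upwards [Ioo_mem_nhdsGT (show (0 : ℝ) < π / 2 by positivity)] with θ hθ
  have h2 := le_of_tendsto ((arcOK (Or.inr h)).lim θ hθ).norm
    (ev_half.mono fun ρ hρ => hC ρ hρ θ hθ)
  rw [norm_mul, Complex.norm_real] at h2
  exact (le_mul_of_one_le_left (norm_nonneg _) (one_le_kap _)).trans h2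

theorem arc_end {f : Fm} {fs : List Fm} (h : Adm fs) (hf : f = .d ∨ f = .c) :
    Tendsto (fun ρ => A ρ (π / 2) (f :: fs)) (𝓝[<] 1) (𝓝 (kap (f :: fs) * G (f :: fs) (π / 2))) := by
  obtain ⟨C, hC⟩ := (arcOK (Or.inr h)).bd (by rintro rfl; simp [Adm] at h)
  refine arc_dct f fs ⟨by positivity, le_rfl⟩ _ (hh_int'.const_mul (2 * C)) (fun ρ hρ θ hθ => ?_)
    (arcOK (Or.inr h)).lim
  rw [norm_mul]
  exact (mul_le_mul ((fr_bound hρ hθ f).2.1 hf) (hC ρ hρ θ hθ) (norm_nonneg _)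
    ((norm_nonneg _).trans ((fr_bound hρ hθ f).2.1 hf))).trans_eq (by ring)

end Pool.Agent.Lib.MP_e8750f_nt
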