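import Pool.Agent.Lib.MP_e8750f_nt.Defs

/-! Motivic vanishing through the infinitesimal coactions (Goncharov, Brown, Glanois). -/

namespace Pool.Agent.Lib.MP_e8750f_nt

/-- Auxiliary recursion for the shuffles of `a :: u` with a word. -/
def shuffleAux (a : SignType) (u : Word) (f : Word → List Word) : Word → List Word
  | [] => [a :: u]
  | b :: v => (f (b :: v)).map (a :: ·) ++ (shuffleAux a u f v).map (b :: ·)

/-- The list of all shuffles of two words, with multiplicity. -/
def shuffles : Word → Word → List Word
  | [] => fun v => [v]
  | a :: u => shuffleAux a u (shuffles u)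

/-- `l` is a linear form on the weight `r` part of the Lie coalgebra of `DR / J`: it lives in
weight `r` and kills `J`, the products of words of positive weight, and the word of `ζ(2)`. -/
def IsCoLie (J : Submodule ℚ DR) (r : ℕ) (l : Word → ℚ) : Prop :=
  (∀ w, w.length ≠ r → l w = 0) ∧ (∀ η ∈ J, (η.sum fun w c => c * l w) = 0) ∧
    (∀ u v, u ≠ [] → v ≠ [] → ((shuffles u v).map l).sum = 0) ∧ l [0, 1] = 0

/-- The value of `l` on the class of the integral of `u` from `0` to `a`. -/
def ell (l : Word → ℚ) : SignType → Word → ℚ
  | SignType.zero, _ => 0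
  | SignType.pos, u => l u
  | SignType.neg, u => l (u.map fun a => -a)

/-- Goncharov's formula for `D_r` on a word, contracted with `l` on the left factor: cut out the
subword of length `r` after position `p`; its end point is the letter before it (or `1`), its
starting point the letter after it (or `0`). -/
noncomputable def coactWord (r : ℕ) (l : Word → ℚ) (w : Word) : DR :=
  ∑ p ∈ Finset.range (w.length + 1 - r),
    (ell l ((1 :: w).getD p 0) ((w.drop p).take r) - ell l (w.getD (p + r) 0) ((w.drop p).take r)) •
      Finsupp.single (w.take p ++ w.drop (p + r)) 1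

/-- The operator `D_r` contracted with `l`. -/
noncomputable def coact (r : ℕ) (l : Word → ℚ) (η : DR) : DR :=
  η.sum fun w c => c • coactWord r l w

/-- `J` contains every class of pure weight `N` whose period vanishes and all of whose
`D_r`, `1 ≤ r < N`, vanish modulo `J`. -/
def CoactionClosed (J : Submodule ℚ DR) : Prop :=
  ∀ (N : ℕ) (η : DR), (∀ w ∈ η.support, w.length = N) → pair (cx η) straight = 0 →
    (∀ r, 1 ≤ r → r < N → ∀ l, IsCoLie J r l → coact r l η ∈ J) → η ∈ J

/-- Modulo every closed `J`, the class `η` is a rational combination of multiple zeta words. -/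
def CoactionUnramified (η : DR) : Prop :=
  ∃ ξ ∈ Submodule.span ℚ {x : DR | ∃ w, IsMZVWord w ∧ x = Finsupp.single w 1},
    ∀ J, CoactionClosed J → η - ξ ∈ J

end Pool.Agent.Lib.MP_e8750f_nt
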