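import Pool.Agent.Lib.MP_e8750f_nt.Table2OK

/-! The associator satisfies the table. -/

namespace Pool.Agent.Lib.MP_e8750f_nt

def acc (K : Tab) (es : List Entry) : Tab := es.foldl (fun K e => (e.1, e.2.1) :: K) K

theorem chkAll2_append (K : Tab2) (K' : Tab) (l l' : List Entry) :
    chkAll2 K K' (l ++ l') = (chkAll2 K K' l && chkAll2 K (acc K' l) l') := by
  induction l generalizing K' with
  | nil => rfl
  | cons e l ih => rw [List.cons_append, chkAll2, chkAll2, ih, Bool.and_assoc]; rfl

theorem chk_step {K : Tab2} {l : List Entry} {a n : ℕ}
    (h1 : chkAll2 K (acc [] (l.take a)) ((l.drop a).take n) = true)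
    (h2 : chkAll2 K (acc [] (l.take (a + n))) (l.drop (a + n)) = true) :
    chkAll2 K (acc [] (l.take a)) (l.drop a) = true := by
  rw [List.take_add, acc, List.foldl_append] at h2
  rw [← List.take_append_drop n (l.drop a), chkAll2_append, h1, List.drop_drop]
  exact h2

theorem qx0 : chkAll2 t12 (acc [] (entries.take 0)) ((entries.drop 0).take 23) = true := by
  decide +kernel
theorem qx23 : chkAll2 t12 (acc [] (entries.take 23)) ((entries.drop 23).take 1) = true := by
  decide +kernel
theorem qx24 : chkAll2 t12 (acc [] (entries.take 24)) ((entries.drop 24).take 1) = true := by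
  decide +kernel
theorem qx25 : chkAll2 t12 (acc [] (entries.take 25)) ((entries.drop 25).take 30) = true := by
  decide +kernel
theorem qx55 : chkAll2 t12 (acc [] (entries.take 55)) ((entries.drop 55).take 5) = true := by
  decide +kernel
theorem qx60 : chkAll2 t12 (acc [] (entries.take 60)) ((entries.drop 60).take 4) = true := by
  decide +kernel
theorem qx64 : chkAll2 t12 (acc [] (entries.take 64)) ((entries.drop 64).take 4) = true := by
  decide +kernel
theorem qx68 : chkAll2 t12 (acc [] (entries.take 68)) ((entries.drop 68).take 4) = true := by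
  decide +kernel
theorem qx72 : chkAll2 t12 (acc [] (entries.take 72)) ((entries.drop 72).take 4) = true := by
  decide +kernel
theorem qx76 : chkAll2 t12 (acc [] (entries.take 76)) ((entries.drop 76).take 4) = true := by
  decide +kernel
theorem qx80 : chkAll2 t12 (acc [] (entries.take 80)) ((entries.drop 80).take 4) = true := by
  decide +kernel
theorem qx84 : chkAll2 t12 (acc [] (entries.take 84)) ((entries.drop 84).take 4) = true := by
  decide +kernel
theorem qx88 : chkAll2 t12 (acc [] (entries.take 88)) ((entries.drop 88).take 4) = true := by
  decide +kernel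
theorem qx92 : chkAll2 t12 (acc [] (entries.take 92)) ((entries.drop 92).take 4) = true := by
  decide +kernel
theorem qx96 : chkAll2 t12 (acc [] (entries.take 96)) ((entries.drop 96).take 4) = true := by
  decide +kernel
theorem qx100 : chkAll2 t12 (acc [] (entries.take 100)) ((entries.drop 100).take 4) = true := by
  decide +kernel
theorem qx104 : chkAll2 t12 (acc [] (entries.take 104)) ((entries.drop 104).take 4) = true := by
  decide +kernel
theorem qx108 : chkAll2 t12 (acc [] (entries.take 108)) ((entries.drop 108).take 4) = true := by
  decide +kernel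
theorem qx112 : chkAll2 t12 (acc [] (entries.take 112)) ((entries.drop 112).take 4) = true := by
  decide +kernel
theorem qx116 : chkAll2 t12 (acc [] (entries.take 116)) ((entries.drop 116).take 4) = true := by
  decide +kernel
theorem qx120 : chkAll2 t12 (acc [] (entries.take 120)) ((entries.drop 120).take 4) = true := by
  decide +kernel
theorem qx124 : chkAll2 t12 (acc [] (entries.take 124)) ((entries.drop 124).take 4) = true := by
  decide +kernel
theorem qx128 : chkAll2 t12 (acc [] (entries.take 128)) ((entries.drop 128).take 3) = true := by
  decide +kernel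
theorem qy131 : chkAll2 t12 (acc [] (entries.take 131)) (entries.drop 131) = true := by
  decide +kernel
theorem qy128 : chkAll2 t12 (acc [] (entries.take 128)) (entries.drop 128) = true :=
  chk_step qx128 qy131
theorem qy124 : chkAll2 t12 (acc [] (entries.take 124)) (entries.drop 124) = true :=
  chk_step qx124 qy128
theorem qy120 : chkAll2 t12 (acc [] (entries.take 120)) (entries.drop 120) = true :=
  chk_step qx120 qy124
theorem qy116 : chkAll2 t12 (acc [] (entries.take 116)) (entries.drop 116) = true :=
  chk_step qx116 qy120
theorem qy112 : chkAll2 t12 (acc [] (entries.take 112)) (entries.drop 112) = true :=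
  chk_step qx112 qy116
theorem qy108 : chkAll2 t12 (acc [] (entries.take 108)) (entries.drop 108) = true :=
  chk_step qx108 qy112
theorem qy104 : chkAll2 t12 (acc [] (entries.take 104)) (entries.drop 104) = true :=
  chk_step qx104 qy108
theorem qy100 : chkAll2 t12 (acc [] (entries.take 100)) (entries.drop 100) = true :=
  chk_step qx100 qy104
theorem qy96 : chkAll2 t12 (acc [] (entries.take 96)) (entries.drop 96) = true :=
  chk_step qx96 qy100
theorem qy92 : chkAll2 t12 (acc [] (entries.take 92)) (entries.drop 92) = true :=
  chk_step qx92 qy96
theorem qy88 : chkAll2 t12 (acc [] (entries.take 88)) (entries.drop 88) = true :=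
  chk_step qx88 qy92
theorem qy84 : chkAll2 t12 (acc [] (entries.take 84)) (entries.drop 84) = true :=
  chk_step qx84 qy88
theorem qy80 : chkAll2 t12 (acc [] (entries.take 80)) (entries.drop 80) = true :=
  chk_step qx80 qy84
theorem qy76 : chkAll2 t12 (acc [] (entries.take 76)) (entries.drop 76) = true :=
  chk_step qx76 qy80
theorem qy72 : chkAll2 t12 (acc [] (entries.take 72)) (entries.drop 72) = true :=
  chk_step qx72 qy76
theorem qy68 : chkAll2 t12 (acc [] (entries.take 68)) (entries.drop 68) = true :=
  chk_step qx68 qy72
theorem qy64 : chkAll2 t12 (acc [] (entries.take 64)) (entries.drop 64) = true :=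
  chk_step qx64 qy68
theorem qy60 : chkAll2 t12 (acc [] (entries.take 60)) (entries.drop 60) = true :=
  chk_step qx60 qy64
theorem qy55 : chkAll2 t12 (acc [] (entries.take 55)) (entries.drop 55) = true :=
  chk_step qx55 qy60
theorem qy25 : chkAll2 t12 (acc [] (entries.take 25)) (entries.drop 25) = true :=
  chk_step qx25 qy55
theorem qy24 : chkAll2 t12 (acc [] (entries.take 24)) (entries.drop 24) = true :=
  chk_step qx24 qy25
theorem qy23 : chkAll2 t12 (acc [] (entries.take 23)) (entries.drop 23) = true :=
  chk_step qx23 qy24
theorem qy0 : chkAll2 t12 (acc [] (entries.take 0)) (entries.drop 0) = true :=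
  chk_step qx0 qy23

theorem prim_Φ : Prim basis entries Φ := fun e he _ =>
  prim_of_chk basis pi_rr v12 (fun _ _ h => by simp [acc] at h) qy0 e he

end Pool.Agent.Lib.MP_e8750f_nt
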