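import Pool.Agent.Lib.MP_e8750f_nt.Table

/-! Verification of the table. -/

namespace Pool.Agent.Lib.MP_e8750f_nt

theorem all_step {α : Type} {l : List α} {f : α → Bool} {a n : ℕ}
    (h1 : ((l.drop a).take n).all f = true) (h2 : (l.drop (a + n)).all f = true) :
    (l.drop a).all f = true := by
  rw [← List.take_append_drop n (l.drop a), List.all_append, h1, List.drop_drop, h2]; rfl

theorem chk1 : chkAll [] entries = true := by decide +kernel

def f2 : ℕ → Bool := chkDB basis (table entries) dbasis

def f3 (e : Entry) : Bool :=
  e.2.2.isSome || (chkH basis e.1 e.2.1 && chkD (table entries) dbasis e.1 e.2.1)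

theorem c2x0 : (((List.range 21).drop 0).take 7).all f2 = true := by decide +kernel
theorem c2x7 : (((List.range 21).drop 7).take 5).all f2 = true := by decide +kernel
theorem c2x12 : (((List.range 21).drop 12).take 3).all f2 = true := by decide +kernel
theorem c2x15 : (((List.range 21).drop 15).take 2).all f2 = true := by decide +kernel
theorem c2x17 : (((List.range 21).drop 17).take 1).all f2 = true := by decide +kernel
theorem c2x18 : (((List.range 21).drop 18).take 1).all f2 = true := by decide +kernel
theorem c2x19 : (((List.range 21).drop 19).take 1).all f2 = true := by decide +kernel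
theorem c2x20 : (((List.range 21).drop 20).take 1).all f2 = true := by decide +kernel
theorem c2y21 : ((List.range 21).drop 21).all f2 = true := by decide +kernel
theorem c2y20 : ((List.range 21).drop 20).all f2 = true := all_step c2x20 c2y21
theorem c2y19 : ((List.range 21).drop 19).all f2 = true := all_step c2x19 c2y20
theorem c2y18 : ((List.range 21).drop 18).all f2 = true := all_step c2x18 c2y19
theorem c2y17 : ((List.range 21).drop 17).all f2 = true := all_step c2x17 c2y18
theorem c2y15 : ((List.range 21).drop 15).all f2 = true := all_step c2x15 c2y17
theorem c2y12 : ((List.range 21).drop 12).all f2 = true := all_step c2x12 c2y15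
theorem c2y7 : ((List.range 21).drop 7).all f2 = true := all_step c2x7 c2y12
theorem c2y0 : ((List.range 21).drop 0).all f2 = true := all_step c2x0 c2y7

theorem c3x0 : ((entries.drop 0).take 12).all f3 = true := by decide +kernel
theorem c3x12 : ((entries.drop 12).take 5).all f3 = true := by decide +kernel
theorem c3x17 : ((entries.drop 17).take 3).all f3 = true := by decide +kernel
theorem c3x20 : ((entries.drop 20).take 3).all f3 = true := by decide +kernel
theorem c3x23 : ((entries.drop 23).take 1).all f3 = true := by decide +kernel
theorem c3x24 : ((entries.drop 24).take 1).all f3 = true := by decide +kernel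
theorem c3x25 : ((entries.drop 25).take 5).all f3 = true := by decide +kernel
theorem c3x30 : ((entries.drop 30).take 4).all f3 = true := by decide +kernel
theorem c3x34 : ((entries.drop 34).take 4).all f3 = true := by decide +kernel
theorem c3x38 : ((entries.drop 38).take 4).all f3 = true := by decide +kernel
theorem c3x42 : ((entries.drop 42).take 4).all f3 = true := by decide +kernel
theorem c3x46 : ((entries.drop 46).take 4).all f3 = true := by decide +kernel
theorem c3x50 : ((entries.drop 50).take 4).all f3 = true := by decide +kernel
theorem c3x54 : ((entries.drop 54).take 4).all f3 = true := by decide +kernel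
theorem c3x58 : ((entries.drop 58).take 4).all f3 = true := by decide +kernel
theorem c3x62 : ((entries.drop 62).take 4).all f3 = true := by decide +kernel
theorem c3x66 : ((entries.drop 66).take 4).all f3 = true := by decide +kernel
theorem c3x70 : ((entries.drop 70).take 4).all f3 = true := by decide +kernel
theorem c3x74 : ((entries.drop 74).take 4).all f3 = true := by decide +kernel
theorem c3x78 : ((entries.drop 78).take 4).all f3 = true := by decide +kernel
theorem c3x82 : ((entries.drop 82).take 4).all f3 = true := by decide +kernel
theorem c3x86 : ((entries.drop 86).take 4).all f3 = true := by decide +kernel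
theorem c3x90 : ((entries.drop 90).take 4).all f3 = true := by decide +kernel
theorem c3x94 : ((entries.drop 94).take 4).all f3 = true := by decide +kernel
theorem c3x98 : ((entries.drop 98).take 4).all f3 = true := by decide +kernel
theorem c3x102 : ((entries.drop 102).take 4).all f3 = true := by decide +kernel
theorem c3x106 : ((entries.drop 106).take 4).all f3 = true := by decide +kernel
theorem c3x110 : ((entries.drop 110).take 4).all f3 = true := by decide +kernel
theorem c3x114 : ((entries.drop 114).take 4).all f3 = true := by decide +kernel
theorem c3x118 : ((entries.drop 118).take 4).all f3 = true := by decide +kernel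
theorem c3x122 : ((entries.drop 122).take 4).all f3 = true := by decide +kernel
theorem c3x126 : ((entries.drop 126).take 4).all f3 = true := by decide +kernel
theorem c3x130 : ((entries.drop 130).take 1).all f3 = true := by decide +kernel
theorem c3y131 : (entries.drop 131).all f3 = true := by decide +kernel
theorem c3y130 : (entries.drop 130).all f3 = true := all_step c3x130 c3y131
theorem c3y126 : (entries.drop 126).all f3 = true := all_step c3x126 c3y130
theorem c3y122 : (entries.drop 122).all f3 = true := all_step c3x122 c3y126
theorem c3y118 : (entries.drop 118).all f3 = true := all_step c3x118 c3y122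
theorem c3y114 : (entries.drop 114).all f3 = true := all_step c3x114 c3y118
theorem c3y110 : (entries.drop 110).all f3 = true := all_step c3x110 c3y114
theorem c3y106 : (entries.drop 106).all f3 = true := all_step c3x106 c3y110
theorem c3y102 : (entries.drop 102).all f3 = true := all_step c3x102 c3y106
theorem c3y98 : (entries.drop 98).all f3 = true := all_step c3x98 c3y102
theorem c3y94 : (entries.drop 94).all f3 = true := all_step c3x94 c3y98
theorem c3y90 : (entries.drop 90).all f3 = true := all_step c3x90 c3y94
theorem c3y86 : (entries.drop 86).all f3 = true := all_step c3x86 c3y90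
theorem c3y82 : (entries.drop 82).all f3 = true := all_step c3x82 c3y86
theorem c3y78 : (entries.drop 78).all f3 = true := all_step c3x78 c3y82
theorem c3y74 : (entries.drop 74).all f3 = true := all_step c3x74 c3y78
theorem c3y70 : (entries.drop 70).all f3 = true := all_step c3x70 c3y74
theorem c3y66 : (entries.drop 66).all f3 = true := all_step c3x66 c3y70
theorem c3y62 : (entries.drop 62).all f3 = true := all_step c3x62 c3y66
theorem c3y58 : (entries.drop 58).all f3 = true := all_step c3x58 c3y62
theorem c3y54 : (entries.drop 54).all f3 = true := all_step c3x54 c3y58
theorem c3y50 : (entries.drop 50).all f3 = true := all_step c3x50 c3y54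
theorem c3y46 : (entries.drop 46).all f3 = true := all_step c3x46 c3y50
theorem c3y42 : (entries.drop 42).all f3 = true := all_step c3x42 c3y46
theorem c3y38 : (entries.drop 38).all f3 = true := all_step c3x38 c3y42
theorem c3y34 : (entries.drop 34).all f3 = true := all_step c3x34 c3y38
theorem c3y30 : (entries.drop 30).all f3 = true := all_step c3x30 c3y34
theorem c3y25 : (entries.drop 25).all f3 = true := all_step c3x25 c3y30
theorem c3y24 : (entries.drop 24).all f3 = true := all_step c3x24 c3y25
theorem c3y23 : (entries.drop 23).all f3 = true := all_step c3x23 c3y24
theorem c3y20 : (entries.drop 20).all f3 = true := all_step c3x20 c3y23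
theorem c3y17 : (entries.drop 17).all f3 = true := all_step c3x17 c3y20
theorem c3y12 : (entries.drop 12).all f3 = true := all_step c3x12 c3y17
theorem c3y0 : (entries.drop 0).all f3 = true := all_step c3x0 c3y12

theorem checked : Checked basis entries dbasis := by
  refine ⟨chk1, fun j hj => List.all_eq_true.mp c2y0 j (List.mem_range.mpr hj), fun e he hn => ?_,
    rfl, by decide⟩
  have := List.all_eq_true.mp c3y0 e he
  simpa [f3, hn] using this

end Pool.Agent.Lib.MP_e8750f_nt
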