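import Pool.Agent.Lib.MP_e8750f_nt.Kappa
import Pool.Agent.Lib.MP_e8750f_nt.RealOK
import Pool.Agent.Lib.MP_e8750f_nt.TableOK

/-! The unramified value. -/

namespace Pool.Agent.Lib.MP_e8750f_nt

set_option linter.unusedSectionVars false

open Ser

theorem mem_shuf {α : Type} : ∀ (u v w : List α), w ∈ shuf u v → (∀ a ∈ w, a ∈ u ∨ a ∈ v) ∧
    (w.head? = u.head? ∨ w.head? = v.head?) ∧ (w.getLast? = u.getLast? ∨ w.getLast? = v.getLast?) := by
  intro u
  induction u with
  | nil => intro v w h; simp at h; simp [h]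
  | cons a u ihu =>
    intro v
    induction v with
    | nil => intro w h; simp at h; simp [h]
    | cons b v ihv =>
      intro w h
      rw [shuf_cons_cons, List.mem_append, List.mem_map, List.mem_map] at h
      rcases h with ⟨x, hx, rfl⟩ | ⟨x, hx, rfl⟩
      · obtain ⟨h1, -, h3⟩ := ihu _ _ hx
        have hl := length_of_mem_shuf _ _ _ hx
        refine ⟨fun c hc => ?_, Or.inl rfl, ?_⟩
        · rcases List.mem_cons.mp hc with rfl | hc
          · simp
          · exact (h1 c hc).imp (List.mem_cons_of_mem _) id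
        · cases x with
          | nil => simp at hl
          | cons y x => cases u <;> simp_all
      · obtain ⟨h1, -, h3⟩ := ihv _ hx
        have hl := length_of_mem_shuf _ _ _ hx
        refine ⟨fun c hc => ?_, Or.inr rfl, ?_⟩
        · rcases List.mem_cons.mp hc with rfl | hc
          · simp
          · exact (h1 c hc).imp id (List.mem_cons_of_mem _)
        · cases x with
          | nil => simp at hl; omega
          | cons y x => cases v <;> simp_all

theorem IsMZVWord.shuf {u v w : Word} (hu : IsMZVWord u) (hv : IsMZVWord v) (h : w ∈ shuf u v) :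
    IsMZVWord w := by
  obtain ⟨h1, h2, h3⟩ := mem_shuf _ _ _ h
  refine ⟨fun a ha => (h1 a ha).elim (hu.1 a) (hv.1 a), ?_, ?_⟩
  · rcases h2 with h | h <;> rw [h]
    exacts [hu.2.1, hv.2.1]
  · rcases h3 with h | h <;> rw [h]
    exacts [hu.2.2, hv.2.2]

/-- functionals given by combinations of multiple zeta words -/
def Rep (φ : S → ℂ) : Prop :=
  ∃ L : LC Word, (∀ t ∈ L, IsMZVWord t.2) ∧ ∀ g, IsChar g → Dist g → evalF g L = φ g

theorem Rep.add {φ ψ : S → ℂ} (h : Rep φ) (h' : Rep ψ) : Rep fun g => φ g + ψ g := by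
  obtain ⟨L, h1, h2⟩ := h
  obtain ⟨L', h3, h4⟩ := h'
  exact ⟨L ++ L', fun t ht => (List.mem_append.mp ht).elim (h1 t) (h3 t), fun g a b => by
    rw [evalF_append, h2 g a b, h4 g a b]⟩

theorem Rep.smul {φ : S → ℂ} (h : Rep φ) (q : ℚ) : Rep fun g => q * φ g := by
  obtain ⟨L, h1, h2⟩ := h
  refine ⟨scl q L, fun t ht => ?_, fun g a b => by rw [evalF_scl, h2 g a b]⟩
  obtain ⟨s, hs, rfl⟩ := List.mem_map.mp ht
  exact h1 s hs

theorem rep_one : Rep fun _ => 1 :=
  ⟨[(1, [])], by simp [IsMZVWord], fun g a _ => by simp [a.1]⟩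

theorem Rep.mul {φ ψ : S → ℂ} (h : Rep φ) (h' : Rep ψ) : Rep fun g => φ g * ψ g := by
  obtain ⟨L, h1, h2⟩ := h
  obtain ⟨L', h3, h4⟩ := h'
  refine ⟨L.flatMap fun s => L'.flatMap fun t => (shuf s.2 t.2).map fun w => (s.1 * t.1, w),
    fun x hx => ?_, fun g a b => ?_⟩
  · simp only [List.mem_flatMap, List.mem_map] at hx
    obtain ⟨s, hs, t, ht, w, hw, rfl⟩ := hx
    exact (h1 s hs).shuf (h3 t ht) hw
  · simp only [← h2 g a b, ← h4 g a b, evalF_flatMap]
    rw [← evalF_mul_right, evalF]
    refine congrArg List.sum (List.map_congr_left fun s _ => ?_)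
    rw [← evalF_mul_left, ← evalF_mul_left, evalF]
    refine congrArg List.sum (List.map_congr_left fun t _ => ?_)
    rw [mul_left_comm, ← a.cop_apply, cop, evalF, List.map_map, ← List.sum_map_mul_left,
      ← List.sum_map_mul_left]
    refine congrArg List.sum (List.map_congr_left fun w _ => ?_)
    simp [mul_assoc]

def toS : Om → SignType
  | .z => 0
  | .p => 1
  | .m => -1

def cW : OW → ℚ
  | [] => 1
  | .z :: W => 1 / 2 * cW W
  | _ :: W => -cW W

theorem om_eq_Mk {W : OW} (hW : .m ∉ W) (g : S) : om g W = cW W * lin Mk g (W.map toS) := by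
  induction W generalizing g with
  | nil => simp [om, cW]
  | cons o W ih =>
    simp only [om] at ih ⊢
    cases o
    · simp [lin_cons, Rw, cW, toS, ih (by simpa using hW)]; ring
    · simp [lin_cons, Rw, cW, toS, ih (by simpa using hW)]; ring
    · simp at hW

theorem lin_Mi {w : Word} (hw : ∀ a ∈ w, a ≠ -1) (g : S) : lin Mi g w = g w := by
  induction w generalizing g with
  | nil => rfl
  | cons a w ih =>
    have := ih fun b hb => hw b (by simp [hb])
    rcases sign_cases a with rfl | rfl | rfl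
    · simp [lin_cons, this]
    · simp [lin_cons, this]
    · simp at hw

instance (w : Word) : Decidable (IsMZVWord w) := by unfold IsMZVWord; infer_instance

def good (W : OW) : Bool := decide (.m ∉ W) && decide (IsMZVWord (W.map toS))

theorem rep_om {W : OW} (h : good W = true) : Rep fun g => om g W := by
  simp only [good, Bool.and_eq_true, decide_eq_true_eq] at h
  refine ⟨[(cW W, W.map toS)], by simpa using h.2, fun g _ b => ?_⟩
  simp [om_eq_Mk h.1, b _ h.2.2.1, lin_Mi h.2.1]

theorem rep_evalP (Bs : List OW) {P : Poly} (h : ∀ t ∈ P, ∀ i ∈ t.2, good (bw Bs i) = true) :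
    Rep fun g => evalP (rho Bs (om g)) P := by
  have h1 : ∀ m : Mono, (∀ i ∈ m, good (bw Bs i) = true) → Rep fun g => evalM (rho Bs (om g)) m := by
    intro m hm
    induction m with
    | nil => exact rep_one
    | cons i m ih =>
      simp only [evalM_cons]
      exact (rep_om (hm i (by simp))).mul (ih fun j hj => hm j (by simp [hj]))
  induction P with
  | nil => exact ⟨[], by simp, fun _ _ _ => rfl⟩
  | cons t P ih =>
    simp only [evalP, evalF_cons]
    exact ((h1 _ (h t (by simp))).smul _).add (ih fun s hs => h s (by simp [hs]))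

theorem IsChar.scale {g : S} (h : IsChar g) (c : ℂ) : IsChar (scale c g) := by
  refine (isChar_iff _).mpr ⟨by simp [Pool.Agent.Lib.MP_e8750f_nt.scale, h.1], fun u v => ?_⟩
  rw [cop, List.map_congr_left (g := fun w => c ^ (u.length + v.length) * g w) fun w hw => by
    rw [Pool.Agent.Lib.MP_e8750f_nt.scale, length_of_mem_shuf _ _ _ hw], List.sum_map_mul_left,
    ← cop, h.cop_apply, Pool.Agent.Lib.MP_e8750f_nt.scale, Pool.Agent.Lib.MP_e8750f_nt.scale]
  ring

theorem cop_mapQ (Q : ℂ →ₗ[ℚ] ℂ) (g : S) (u v : Word) : cop (mapQ Q g) u v = Q (cop g u v) := by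
  rw [cop, cop, map_list_sum, List.map_map]; rfl

theorem IsLie.mapQ {g : S} (h : IsLie g) (Q : ℂ →ₗ[ℚ] ℂ) : IsLie (mapQ Q g) :=
  (isLie_iff _).mpr ⟨by rw [Pool.Agent.Lib.MP_e8750f_nt.mapQ, h.nil, map_zero], fun u v hu hv => by
    rw [cop_mapQ, h.cop_apply hu hv, map_zero]⟩

theorem lie_step {r : ℕ} (hr : 1 ≤ r) {h : S} (hc : IsChar h) (hh : RatW r h) (Q : ℂ →ₗ[ℚ] ℂ)
    (hQ : ∀ q : ℚ, Q ((2 * Real.pi * Complex.I : ℂ) ^ r * q) = 0) :
    IsLie (projW r (mapQ Q h)) := by
  refine (isLie_iff _).mpr ⟨by simp [projW]; omega, fun u v hu hv => ?_⟩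
  by_cases hl : u.length + v.length = r
  · have h1 := List.length_pos_iff.mpr hu
    have h2 := List.length_pos_iff.mpr hv
    obtain ⟨q, hq⟩ := hh u (by omega)
    obtain ⟨q', hq'⟩ := hh v (by omega)
    rw [cop, List.map_congr_left (g := mapQ Q h) fun w hw => by
      rw [projW, length_of_mem_shuf _ _ _ hw, if_pos hl], ← cop, cop_mapQ, hc.cop_apply, hq, hq',
      ← hQ (q * q'), ← hl]
    congr 1; push_cast; ring
  · rw [cop, List.map_congr_left (g := fun _ => 0) fun w hw => by
      rw [projW, length_of_mem_shuf _ _ _ hw, if_neg hl]]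
    simp

theorem unramified_of_rep (η : DR) {φ : S → ℂ} (h : Rep φ)
    (hη : ∀ g, IsChar g → Prim basis entries g → pair (cx η) g = φ g) : Unramified η := by
  obtain ⟨L, h1, h2⟩ := h
  have h3 : ∀ g, pair (cx (L.map fun t => Finsupp.single t.2 t.1).sum) g = evalF g L := fun g => by
    clear h1 h2
    induction L with
    | nil => simp [cx_zero, pair]
    | cons t L ih => rw [List.map_cons, List.sum_cons, cx_add, pair_add, ih, cx_single, pair_single,
        evalF_cons]
  refine ⟨(L.map fun t => Finsupp.single t.2 t.1).sum, list_sum_mem fun x hx => ?_,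
    machine {g | IsChar g ∧ Prim basis entries g ∧ Dist g}
      {g | (IsChar g ∧ Prim basis entries g ∧ Dist g) ∧ rho basis (om g) 0 = Real.pi ^ 2 / 12}
      {ψ | IsLie ψ ∧ PrimL basis entries ψ ∧ Dist ψ} (fun g hg => hg.1) (fun g hg => hg.1)
      (fun g hg c => ⟨hg.1.scale c, hg.2.1.scale basis checked c, fun w hw => ?_⟩)
      ⟨⟨isChar_Φ, prim_Φ, dist_Φ⟩, om_zp⟩ (fun ψ hψ => hψ.1)
      (fun ψ hψ Q => ⟨hψ.1.mapQ Q, hψ.2.1.mapQ basis Q, fun w hw => ?_⟩)
      (fun g hg ψ hψ t => ⟨hg.1.expT (psi_lie hψ.1) hψ.1 t,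
        hg.2.1.expT basis checked hg.1 hψ.1 hψ.2.1 t, hg.2.2.expT hψ.1 hψ.2.2 t⟩)
      (fun g hg ψ hψ t => ⟨⟨hg.1.1.expT (psi_lie hψ.1) hψ.1 t,
        hg.1.2.1.expT basis checked hg.1.1 hψ.1 hψ.2.1 t, hg.1.2.2.expT hψ.1 hψ.2.2 t⟩,
        (rho_zero_expT basis checked hg.1.1 hg.1.2.1 hψ.1 hψ.2.1 t).trans hg.2⟩)
      (fun r hr g hg hh Q hQ => ⟨lie_step hr hg.1.1 hh Q hQ,
        primL_step basis checked hr hg.1.2.1 ⟨-1 / 48, ?_⟩ hh Q hQ, fun w hw => ?_⟩)
      _ fun g hg => ?_⟩
  · obtain ⟨t, ht, rfl⟩ := List.mem_map.mp hx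
    rw [← Finsupp.smul_single_one]
    exact Submodule.smul_mem _ _ (Submodule.subset_span ⟨_, h1 t ht, rfl⟩)
  · rw [lin_scale, lin_scale, scale, scale, hg.2.2 w hw]
  · rw [lin_mapQ, lin_mapQ, mapQ, mapQ, hψ.2.2 w hw]
  · rw [hg.2, show (bw basis 0).length = 2 from rfl]
    push_cast
    linear_combination (Real.pi : ℂ) ^ 2 / 12 * Complex.I_sq
  · rw [lin_projW, lin_projW, lin_mapQ, lin_mapQ, projW, projW, mapQ, mapQ, hg.1.2.2 w hw]
  · rw [cx_sub, pair_sub, hη g hg.1 hg.2.1, h3, h2 g hg.1 hg.2.2, sub_self]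

theorem pair_cons (a : SignType) (η : DR) (g : S) :
    pair (cx (η.mapDomain fun w => a :: w)) g = pair (cx η) (der a g) := by
  induction η using Finsupp.induction_linear with
  | zero => simp [cx_zero, pair]
  | add x y hx hy => rw [Finsupp.mapDomain_add, cx_add, cx_add, pair_add, pair_add, hx, hy]
  | single w q => rw [Finsupp.mapDomain_single, cx_single, cx_single, pair_single, pair_single]; rfl

def Is (η : DR) (W : OW) : Prop := ∀ g : S, pair (cx η) g = om g W

theorem Is.z {η : DR} {W : OW} (h : Is η W) : Is (omegaZero η) (.z :: W) := fun g => by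
  rw [omegaZero, pair_cons, h]; simp [om, lin_cons, Rw]

theorem Is.sign {η : DR} {W : OW} (h : Is η W) :
    Is (omegaSign 1 η) (.p :: W) ∧ Is (omegaSign (-1) η) (.m :: W) := by
  constructor <;> intro g <;>
    rw [omegaSign, ← neg_one_smul ℚ, cx_sub, pair_sub, cx_smul, cx_smul, pair_smul, pair_smul,
      pair_cons, pair_cons, h, h] <;> simp [om, lin_cons, Rw]
  ring

theorem is_nil : Is (Finsupp.single [] 1) [] := fun g => by
  rw [cx_single, pair_single]; simp [om]

open Om in
theorem is_X : Is (mmv ![2, 2, 2, 3, 1, 2] ![1, 1, 1, 1, -1, 1])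
    [z, m, m, z, z, p, z, p, z, p, z, p] := by
  have := is_nil.sign.1.z.sign.1.z.sign.1.z.sign.1.z.z.sign.2.sign.2.z
  simpa [mmv, mmvAux, List.ofFn_succ] using this

open Om in
theorem unramified_X : Unramified (mmv ![2, 2, 2, 3, 1, 2] ![1, 1, 1, 1, -1, 1]) := by
  let eX := entries.getD 23 ([], [], none)
  let eH := entries.getD 24 ([], [], none)
  let D := nrm (eX.2.1 ++ scl (-1 / 2) eH.2.1)
  have h1 : D.all (fun t => t.2.all fun i => good (bw basis i)) = true := by decide +kernel
  refine unramified_of_rep _ (((rep_om (W := eH.1) (by decide +kernel)).smul (1 / 2)).add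
    (rep_evalP basis (P := D) fun t ht i hi =>
      List.all_eq_true.mp (List.all_eq_true.mp h1 t ht) i hi)) fun g _ hp => ?_
  have h2 := hp eX (List.getElem_mem (show 23 < entries.length by decide +kernel)) rfl
  have h3 := hp eH (List.getElem_mem (show 24 < entries.length by decide +kernel)) rfl
  rw [is_X g, h3, evalP, evalP, evalF_nrm, evalF_append, evalF_scl]
  refine h2.trans ?_
  rw [evalP]; push_cast; ring

theorem Φ_neg_ne : Φ [-1] ≠ 0 := by
  have h1 : ∀ x ∈ Set.Ioo (0 : ℝ) 1, F x [-1] - Real.log (1 + x) = 0 := fun x hx => by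
    refine zero_of_deriv (f := fun x => F x [-1] - Real.log (1 + x)) hx (fun t ht => ?_) ?_
    · have h2 : 1 + t ≠ 0 := by linarith [ht.1]
      refine ((F_deriv ht (-1) []).sub
        (((hasDerivAt_id t).const_add 1).log h2).ofReal_comp).congr_deriv ?_
      simp [add_comm]
    · have h2 : ContinuousAt (fun x : ℝ => (Real.log (1 + x) : ℂ)) 0 :=
        Complex.continuous_ofReal.continuousAt.comp
          (ContinuousAt.log (by fun_prop) (by norm_num))
      simpa using (F_tendsto_zero (w := [-1]) (by simp)).sub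
        (h2.tendsto.mono_left nhdsWithin_le_nhds)
  have h2 : ContinuousAt (fun x : ℝ => (Real.log (1 + x) : ℂ)) 1 :=
    Complex.continuous_ofReal.continuousAt.comp (ContinuousAt.log (by fun_prop) (by norm_num))
  have h3 := tendsto_nhds_unique (F_tendsto (w := [-1]) (by simp))
    ((h2.tendsto.mono_left nhdsWithin_le_nhds).congr'
      (ev_Ioo.mono fun x hx => (sub_eq_zero.mp (h1 x hx)).symm))
  rw [h3, Complex.ofReal_ne_zero]
  exact (Real.log_pos (by norm_num)).ne'

theorem log_two_ramified : ¬ Unramified (Finsupp.single [-1] 1) := by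
  rintro ⟨ξ, hξ, N, hN, h1, h2⟩
  have h3 : ξ.filter (fun w => w.length = 1) = 0 := by
    clear h1
    induction hξ using Submodule.span_induction with
    | zero => exact Finsupp.filter_zero _
    | add x y _ _ hx hy => rw [Finsupp.filter_add, hx, hy, add_zero]
    | smul c x _ hx => rw [Finsupp.filter_smul, hx, smul_zero]
    | mem x hx =>
      obtain ⟨w, hw, rfl⟩ := hx
      refine Finsupp.filter_single_of_neg _ fun h => ?_
      obtain ⟨a, rfl⟩ := List.length_eq_one_iff.mp h
      rcases sign_cases a with rfl | rfl | rfl <;> simp [IsMZVWord] at hw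
  have h4 := h2 _ (hN.1 _ h1 1)
  rw [Finsupp.filter_sub, h3, sub_zero, Finsupp.filter_single_of_pos (fun w : Word => w.length = 1) rfl, cx_single,
    pair_single] at h4
  exact Φ_neg_ne (by simpa [Φ] using h4)

end Pool.Agent.Lib.MP_e8750f_nt
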