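import Pool.Agent.Lib.MP_e8750f_nt.CDefs
import Pool.Agent.Lib.MP_e8750f_nt.Final

/-! The unramified value in the coaction model. -/

namespace Pool.Agent.Lib.MP_e8750f_nt

open Ser

theorem shuffles_eq (u v : Word) : shuffles u v = shuf u v := by
  induction u generalizing v with
  | nil => rfl
  | cons a u ih =>
    rw [shuffles, shuf, funext ih]
    induction v with
    | nil => rfl
    | cons b v ihv => rw [shuffleAux, shufAux, ihv]

theorem mul_hom {X : S} {r : ℕ} (hX : ∀ w : Word, w.length ≠ r → X w = 0) (F : S) (W : Word) :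
    (X * F) W = if r ≤ W.length then X (W.take r) * F (W.drop r) else 0 := by
  rw [mul_app]
  have h : ∀ i ∈ Finset.range (W.length + 1), i ≠ r → X (W.take i) * F (W.drop i) = 0 :=
    fun i hi hir => by
      have := Finset.mem_range.mp hi
      rw [hX _ (by rw [List.length_take]; omega), zero_mul]
  split_ifs with hr
  · exact Finset.sum_eq_single_of_mem r (Finset.mem_range.mpr (by omega)) h
  · exact Finset.sum_eq_zero fun i hi => h i hi (by have := Finset.mem_range.mp hi; omega)

theorem psi_hom {ψ : S} {r : ℕ} (h : ∀ w : Word, w.length ≠ r → ψ w = 0) (a : SignType) (w : Word)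
    (hw : w.length ≠ r) : psi ψ a w = 0 := by
  cases a
  exacts [rfl, h _ (by simpa using hw), h _ hw]

theorem gon {ψ : S} {r : ℕ} (hr : 1 ≤ r) (h : ∀ w : Word, w.length ≠ r → ψ w = 0) (w : Word)
    (a : SignType) (F : S) :
    ∑ p ∈ Finset.range (w.length + 1 - r), (psi ψ ((a :: w).getD p 0) ((w.drop p).take r) -
      psi ψ (w.getD (p + r) 0) ((w.drop p).take r)) * F (w.take p ++ w.drop (p + r)) =
      (psi ψ a * F) w + dS (comm (psi ψ)) F w := by
  induction w generalizing a F with
  | nil =>
    rw [List.length_nil, show 0 + 1 - r = 0 by omega]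
    simp [psi_hom h a [] (by simp; omega)]
  | cons b w ih =>
    have h1 : (∑ c, comm (psi ψ) c * der c F : S) (b :: w) = (psi ψ b * der b F) w -
        if r ≤ (b :: w).length then psi ψ ((b :: w).getD r 0) ((b :: w).take r) *
          F ((b :: w).drop r) else 0 := by
      simp only [comm, sub_mul, mul_assoc, Finset.sum_sub_distrib, sub_app, sum_app, e_mul_cons,
        mul_hom (psi_hom h _) (e _ * _)]
      congr 1
      · simp
      · split_ifs with hr'
        · rw [List.getD_eq_getElem?_getD, ← List.head?_drop]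
          cases (b :: w).drop r with
          | nil => simp
          | cons c v => simp [e_mul_cons]
        · simp
    rw [dS_cons, h1, mul_hom (psi_hom h a), add_comm _ (dS _ _ _), sub_eq_add_neg,
      ← add_assoc (dS _ _ _), add_comm (dS _ _ _), ← ih]
    split_ifs with hr'
    · rw [List.length_cons] at hr'
      rw [show (b :: w).length + 1 - r = w.length + 1 - r + 1 by simp; omega,
        Finset.sum_range_succ']
      simp only [Nat.add_right_comm _ 1 r, List.getD_cons_succ, List.drop_succ_cons,
        List.take_succ_cons, List.cons_append, der_apply, List.getD_cons_zero, List.drop_zero,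
        zero_add, List.take_zero, List.nil_append]
      ring
    · rw [List.length_cons] at hr'
      rw [show (b :: w).length + 1 - r = 0 by simp; omega, show w.length + 1 - r = 0 by omega]
      simp

theorem pair_zero (F : S) : pair (cx 0) F = 0 := by simp [cx_zero, pair]

theorem pair_sum {ι : Type} (s : Finset ι) (f : ι → DR) (F : S) :
    pair (cx (∑ i ∈ s, f i)) F = ∑ i ∈ s, pair (cx (f i)) F := by
  classical
  induction s using Finset.induction_on with
  | empty => simp [pair_zero]
  | insert a s ha ih => rw [Finset.sum_insert ha, Finset.sum_insert ha, cx_add, pair_add, ih]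

/-- the series of a linear form -/
noncomputable def ser (l : Word → ℚ) : S := fun w => l w

theorem ell_eq (l : Word → ℚ) (a : SignType) (u : Word) : (ell l a u : ℂ) = psi (ser l) a u := by
  cases a
  exacts [Rat.cast_zero, rfl, rfl]

theorem pair_coact {r : ℕ} (hr : 1 ≤ r) {l : Word → ℚ} (h : ∀ w, w.length ≠ r → l w = 0) (η : DR)
    (F : S) : pair (cx (coact r l η)) F = pair (cx η) (T (ser l) F) := by
  rw [coact, Finsupp.sum, pair_sum, pair_cx]
  refine Finset.sum_congr rfl fun w _ => ?_
  rw [cx_smul, pair_smul, coactWord, pair_sum]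
  congr 1
  refine Eq.trans ?_ (gon hr (fun w hw => by simp [ser, h w hw]) w 1 F)
  refine Finset.sum_congr rfl fun p _ => ?_
  rw [cx_smul, pair_smul, cx_single, pair_single, Rat.cast_sub, ell_eq, ell_eq]
  simp

theorem coact_hom {r N : ℕ} (l : Word → ℚ) {η : DR} (h : ∀ w ∈ η.support, w.length = N) :
    ∀ w ∈ (coact r l η).support, w.length = N - r := by
  intro w hw
  obtain ⟨v, hv, h1⟩ := Finsupp.mem_support_finsetSum _ hw
  obtain ⟨p, hp, h2⟩ := Finsupp.mem_support_finsetSum _ (Finsupp.support_smul h1)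
  have h3 := Finset.mem_singleton.mp (Finsupp.support_single_subset (Finsupp.support_smul h2))
  have h4 := Finset.mem_range.mp hp
  rw [h3, ← h v hv, List.length_append, List.length_take, List.length_drop]
  omega

theorem deriv_pair (η : DR) {ψ : S} (hψ : IsLie ψ) (g : S) :
    HasDerivAt (fun t => pair (cx η) (expT (T ψ) t g)) (pair (cx η) (T ψ g)) 0 := by
  simp only [pair_cx]
  have h3 : HasDerivAt (fun t => ∑ w ∈ η.support, (η w : ℂ) * expT (T ψ) t g w)
      (∑ w ∈ η.support, (η w : ℂ) * T ψ (expT (T ψ) 0 g) w) 0 :=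
    HasDerivAt.fun_sum fun w _ => (expT_deriv (raises_T hψ.nil) g 0 w).const_mul _
  rwa [expT_zero] at h3

theorem machineC (G Tg : Set S) (hscale : ∀ g ∈ G, ∀ c, scale c g ∈ G) (hΦ : Φ ∈ G)
    (hexp : ∀ g ∈ G, ∀ ψ ∈ Tg, ∀ t, expT (T ψ) t g ∈ G)
    (hT : ∀ ψ : S, IsLie ψ → ψ [0, 1] = 0 →
      (∀ η : DR, (∀ g ∈ G, pair (cx η) g = 0) → pair (cx η) ψ = 0) → ψ ∈ Tg)
    (η : DR) (hη : ∀ g ∈ G, pair (cx η) g = 0) {J : Submodule ℚ DR} (hJ : CoactionClosed J) :
    η ∈ J := by
  have hgr : ∀ η : DR, (∀ g ∈ G, pair (cx η) g = 0) → ∀ n : ℕ, ∀ g ∈ G,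
      pair (cx (η.filter fun w => w.length = n)) g = 0 :=
    fun η hη n g hg => graded_of_scale η g (fun c => hη _ (hscale g hg c)) n
  have hfil : ∀ (η : DR) (n : ℕ), ∀ w ∈ (η.filter fun w => w.length = n).support, w.length = n :=
    fun η n w hw => by rw [Finsupp.support_filter] at hw; exact (Finset.mem_filter.mp hw).2
  have key : ∀ (N : ℕ) (η : DR), (∀ w ∈ η.support, w.length = N) → (∀ g ∈ G, pair (cx η) g = 0) →
      η ∈ J := by
    intro N
    induction N using Nat.strong_induction_on with
    | _ N ih =>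
    intro η h1 h2
    refine hJ N η h1 (h2 _ hΦ) fun r hr hr' l hl => ih (N - r) (by omega) _ (coact_hom l h1)
      fun g hg => ?_
    have h3 : IsLie (ser l) := (isLie_iff _).mpr ⟨by simp [ser, hl.1 [] (by simp; omega)],
      fun u v hu hv => by
        have := congrArg (Rat.cast : ℚ → ℂ) (hl.2.2.1 u v hu hv)
        rw [shuffles_eq, Rat.cast_list_sum, List.map_map, Rat.cast_zero] at this
        exact this⟩
    have h4 : ser l ∈ Tg := hT _ h3 (by simp [ser, hl.2.2.2]) fun ξ hξ => by
      have := congrArg (Rat.cast : ℚ → ℂ) (hl.2.1 _ (ih r hr' _ (hfil ξ r) (hgr ξ hξ r)))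
      rw [Finsupp.sum, Finsupp.support_filter, Finset.sum_filter, Rat.cast_sum,
        Rat.cast_zero] at this
      rw [pair_cx, ← this]
      refine Finset.sum_congr rfl fun w _ => ?_
      by_cases hw : w.length = r
      · simp [hw, ser]
      · simp [hw, ser, hl.1 w hw]
    have h5 := deriv_pair η h3 g
    rw [show (fun t => pair (cx η) (expT (T (ser l)) t g)) = fun _ => 0 from
      funext fun t => h2 _ (hexp g hg _ h4 t)] at h5
    rw [pair_coact hr hl.1]
    exact h5.unique (hasDerivAt_const _ _)
  have h1 : η = ∑ n ∈ η.support.image List.length, η.filter fun w => w.length = n := by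
    ext w
    rw [Finsupp.finsetSum_apply]
    simp only [Finsupp.filter_apply, Finset.sum_ite_eq]
    split_ifs with h
    · rfl
    · by_contra h'
      exact h (Finset.mem_image_of_mem _ (Finsupp.mem_support_iff.mpr h'))
  rw [h1]
  exact sum_mem fun n _ => key n _ (hfil η n) (hgr η hη n)

/-- the class of a formal combination -/
noncomputable def toDR (L : LC Word) : DR := (L.map fun t => Finsupp.single t.2 t.1).sum

theorem pair_toDR (L : LC Word) (g : S) : pair (cx (toDR L)) g = evalF g L := by
  induction L with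
  | nil => exact pair_zero g
  | cons t L ih =>
    rw [toDR, List.map_cons, List.sum_cons, cx_add, pair_add, ← toDR, ih, cx_single, pair_single,
      evalF_cons]

theorem pair_lin {β : Type} (R : β → List (ℚ × SignType)) (W : List β) (g : S) :
    pair (cx (toDR (expandW R W))) g = lin R g W := by
  rw [pair_toDR, lin_eq_expandW]; rfl

/-- polynomial functionals on characters -/
def Rep0 (φ : S → ℂ) : Prop := ∃ L : LC Word, ∀ g, IsChar g → evalF g L = φ g

theorem Rep0.mul {φ ψ : S → ℂ} (h : Rep0 φ) (h' : Rep0 ψ) : Rep0 fun g => φ g * ψ g := by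
  obtain ⟨L, h2⟩ := h
  obtain ⟨L', h4⟩ := h'
  refine ⟨L.flatMap fun s => L'.flatMap fun t => (shuf s.2 t.2).map fun w => (s.1 * t.1, w),
    fun g a => ?_⟩
  simp only [← h2 g a, ← h4 g a, evalF_flatMap]
  rw [← evalF_mul_right, evalF]
  refine congrArg List.sum (List.map_congr_left fun s _ => ?_)
  rw [← evalF_mul_left, ← evalF_mul_left, evalF]
  refine congrArg List.sum (List.map_congr_left fun t _ => ?_)
  rw [mul_left_comm, ← a.cop_apply, cop, evalF, List.map_map, ← List.sum_map_mul_left,
    ← List.sum_map_mul_left]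
  refine congrArg List.sum (List.map_congr_left fun w _ => ?_)
  simp [mul_assoc]

theorem rep0_evalP (Bs : List OW) (P : Poly) : Rep0 fun g => evalP (rho Bs (om g)) P := by
  have h1 : ∀ m : Mono, Rep0 fun g => evalM (rho Bs (om g)) m := by
    intro m
    induction m with
    | nil => exact ⟨[(1, [])], fun g a => by simp [a.1]⟩
    | cons i m ih =>
      simp only [evalM_cons]
      exact Rep0.mul ⟨expandW Rw (bw Bs i), fun g _ => (lin_eq_expandW Rw g _).symm⟩ ih
  induction P with
  | nil => exact ⟨[], fun _ _ => rfl⟩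
  | cons t P ih =>
    obtain ⟨L, h2⟩ := h1 t.2
    obtain ⟨L', h3⟩ := ih
    exact ⟨scl t.1 L ++ L', fun g a => by
      rw [evalF_append, evalF_scl, h2 g a, h3 g a]; simp only [evalP, evalF_cons]⟩

theorem T_one (ψ : S) : T ψ 1 = ψ := by
  change sOp _ _ _ = _
  rw [sOp, dS_one, add_zero, mul_one, psi_one]

theorem deriv_evalP (Bs : List OW) {ψ : S} (hψ : IsLie ψ) {P : Poly}
    (hP : ∀ t ∈ P, ∀ i ∈ t.2, 1 ≤ (bw Bs i).length) :
    HasDerivAt (fun t => evalP (rho Bs (om (expT (T ψ) t 1))) P)
      (evalF (rho Bs (om ψ)) (linP P)) 0 := by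
  have h1 : ∀ i, HasDerivAt (fun t => rho Bs (om (expT (T ψ) t 1)) i) (rho Bs (om ψ) i) 0 := by
    intro i
    have := lin_deriv Rw (expT_deriv (raises_T hψ.nil) 1 0) (bw Bs i)
    rwa [expT_zero, T_one] at this
  have h2 : ∀ i, 1 ≤ (bw Bs i).length → rho Bs (om (expT (T ψ) 0 1)) i = 0 := by
    intro i hi
    rw [expT_zero, rho, om, ← C_one, lin_congr Rw (G := 0) fun w hw => ?_, lin_zero, zero_app]
    cases w with
    | nil => have := hw.length; simp at this; omega
    | cons a w => simp
  induction P with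
  | nil => exact hasDerivAt_const _ _
  | cons t P ih =>
    have ih' := ih fun s hs => hP s (by simp [hs])
    have h4 := hP t (by simp)
    obtain ⟨c, m⟩ := t
    simp only [evalP, evalF_cons] at ih' ⊢
    match m with
    | [] => simpa [linP] using ih'.const_add (c : ℂ)
    | [i] => simpa [linP] using ((h1 i).const_mul (c : ℂ)).fun_add ih'
    | i :: j :: m =>
      have h5 := ((h1 i).fun_mul (hasDerivAt_evalM h1 (j :: m))).const_mul (c : ℂ)
      rw [evalM_cons, h2 i (h4 i (by simp)), h2 j (h4 j (by simp))] at h5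
      simpa [linP] using h5.fun_add ih'

theorem cunram_of_rep (η : DR) {φ : S → ℂ} (h : Rep φ)
    (hη : ∀ g, IsChar g → Prim basis entries g → pair (cx η) g = φ g) : CoactionUnramified η := by
  obtain ⟨L, h1, h2⟩ := h
  refine ⟨toDR L, list_sum_mem fun x hx => ?_, fun J hJ =>
    machineC {g | IsChar g ∧ Prim basis entries g ∧ Dist g}
      {ψ | IsLie ψ ∧ PrimL basis entries ψ ∧ Dist ψ}
      (fun g hg c => ⟨hg.1.scale c, hg.2.1.scale basis checked c, fun w hw => ?_⟩)
      ⟨isChar_Φ, prim_Φ, dist_Φ⟩
      (fun g hg ψ hψ t => ⟨hg.1.expT (psi_lie hψ.1) hψ.1 t,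
        hg.2.1.expT basis checked hg.1 hψ.1 hψ.2.1 t, hg.2.2.expT hψ.1 hψ.2.2 t⟩)
      (fun ψ hψ h0 hN => ?_) _ (fun g hg => ?_) hJ⟩
  · obtain ⟨t, ht, rfl⟩ := List.mem_map.mp hx
    rw [← Finsupp.smul_single_one]
    exact Submodule.smul_mem _ _ (Submodule.subset_span ⟨_, h1 t ht, rfl⟩)
  · rw [lin_scale, lin_scale, scale, scale, hg.2.2 w hw]
  · have hd : Dist ψ := fun w hw => by
      have := hN (toDR (expandW Mk w) - toDR (expandW Mi w)) fun g hg => by
        rw [cx_sub, pair_sub, pair_lin, pair_lin, hg.2.2 w hw, sub_self]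
      rwa [cx_sub, pair_sub, pair_lin, pair_lin, sub_eq_zero] at this
    refine ⟨hψ, ⟨?_, fun e he hn => ?_⟩, hd⟩
    · have := hd [0, 1] (by simp)
      simp [lin_cons, h0] at this
      simp [rho, bw, basis, om, lin_cons, Rw, h0, this]
    · obtain ⟨M, hM⟩ := rep0_evalP basis e.2.1
      have h3 := hN (toDR (expandW Rw e.1) - toDR M) fun g hg => by
        rw [cx_sub, pair_sub, pair_lin, pair_toDR, hM g hg.1]
        exact sub_eq_zero.mpr (hg.2.1 e he hn)
      rw [cx_sub, pair_sub, pair_lin, sub_eq_zero] at h3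
      have h4 := deriv_pair (toDR M) hψ 1
      rw [T_one, show (fun t => pair (cx (toDR M)) (expT (T ψ) t 1)) =
        fun t => evalP (rho basis (om (expT (T ψ) t 1))) e.2.1 from funext fun t =>
          (pair_toDR M _).trans (hM _ (isChar_one.expT (psi_lie hψ) hψ t))] at h4
      exact h3.trans (h4.unique (deriv_evalP basis hψ fun t ht =>
        (chkH_spec basis (checked.2.2.1 e he hn).1 ht).2))
  · rw [cx_sub, pair_sub, hη g hg.1 hg.2.1, pair_toDR, h2 g hg.1 hg.2.2, sub_self]

theorem cunram_X : CoactionUnramified (mmv ![2, 2, 2, 3, 1, 2] ![1, 1, 1, 1, -1, 1]) := by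
  let eX := entries.getD 23 ([], [], none)
  let eH := entries.getD 24 ([], [], none)
  let D := nrm (eX.2.1 ++ scl (-1 / 2) eH.2.1)
  have h1 : D.all (fun t => t.2.all fun i => good (bw basis i)) = true := by decide +kernel
  refine cunram_of_rep _ (((rep_om (W := eH.1) (by decide +kernel)).smul (1 / 2)).add
    (rep_evalP basis (P := D) fun t ht i hi =>
      List.all_eq_true.mp (List.all_eq_true.mp h1 t ht) i hi)) fun g _ hp => ?_
  have h2 := hp eX (List.getElem_mem (show 23 < entries.length by decide +kernel)) rfl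
  have h3 := hp eH (List.getElem_mem (show 24 < entries.length by decide +kernel)) rfl
  rw [is_X g, h3, evalP, evalP, evalF_nrm, evalF_append, evalF_scl]
  refine h2.trans ?_
  rw [evalP]; push_cast; ring

theorem log_two_cram : ¬ CoactionUnramified (Finsupp.single [-1] 1) := by
  rintro ⟨ξ, hξ, h⟩
  have h3 : ξ.filter (fun w => w.length = 1) = 0 := by
    clear h
    induction hξ using Submodule.span_induction with
    | zero => exact Finsupp.filter_zero _
    | add x y _ _ hx hy => rw [Finsupp.filter_add, hx, hy, add_zero]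
    | smul c x _ hx => rw [Finsupp.filter_smul, hx, smul_zero]
    | mem x hx =>
      obtain ⟨w, hw, rfl⟩ := hx
      refine Finsupp.filter_single_of_neg _ fun h => ?_
      obtain ⟨a, rfl⟩ := List.length_eq_one_iff.mp h
      rcases sign_cases a with rfl | rfl | rfl <;> simp [IsMZVWord] at hw
  let J : Submodule ℚ DR :=
    { carrier := {η | pair (cx (η.filter fun w => w.length = 1)) Φ = 0}
      add_mem' := fun {a b} ha hb => by
        simp only [Set.mem_ofPred_eq] at ha hb ⊢
        rw [Finsupp.filter_add, cx_add, pair_add, ha, hb, add_zero]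
      zero_mem' := by simp only [Set.mem_ofPred_eq]; rw [Finsupp.filter_zero, pair_zero]
      smul_mem' := fun q a ha => by
        simp only [Set.mem_ofPred_eq] at ha ⊢
        rw [Finsupp.filter_smul, cx_smul, pair_smul, ha, mul_zero] }
  have h4 : pair (cx (Finsupp.filter (fun w => w.length = 1) _)) Φ = 0 :=
    h J fun N η h1 h2 _ => by
      change pair (cx (η.filter fun w => w.length = 1)) Φ = 0
      by_cases hN : N = 1
      · rw [(Finsupp.filter_eq_self_iff _ _).mpr fun w hw =>
          (h1 w (Finsupp.mem_support_iff.mpr hw)).trans hN]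
        exact h2
      · rw [(Finsupp.filter_eq_zero_iff _ _).mpr fun w hw => by
          by_contra h'
          exact hN ((h1 w (Finsupp.mem_support_iff.mpr h')).symm.trans hw)]
        exact pair_zero _
  rw [Finsupp.filter_sub, h3, sub_zero,
    Finsupp.filter_single_of_pos (fun w : Word => w.length = 1) rfl, cx_single, pair_single] at h4
  exact Φ_neg_ne (by simpa using h4)

end Pool.Agent.Lib.MP_e8750f_nt
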