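import Mathlib

/-! Computable formal linear combinations and polynomials. -/

namespace Pool.Agent.Lib.MP_e8750f_nt

abbrev LC (κ : Type) : Type := List (ℚ × κ)

section LC
variable {κ : Type}

noncomputable def evalF (f : κ → ℂ) (l : LC κ) : ℂ := (l.map fun t => (t.1 : ℂ) * f t.2).sum

@[simp] theorem evalF_nil (f : κ → ℂ) : evalF f [] = 0 := rfl
@[simp] theorem evalF_cons (f : κ → ℂ) (t : ℚ × κ) (l : LC κ) :
    evalF f (t :: l) = (t.1 : ℂ) * f t.2 + evalF f l := by simp [evalF]
@[simp] theorem evalF_append (f : κ → ℂ) (l l' : LC κ) :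
    evalF f (l ++ l') = evalF f l + evalF f l' := by simp [evalF]

theorem evalF_flatMap {ι : Type} (f : κ → ℂ) (L : List ι) (g : ι → LC κ) :
    evalF f (L.flatMap g) = (L.map fun i => evalF f (g i)).sum := by
  induction L with
  | nil => rfl
  | cons a L ih => simp [ih]

def scl (c : ℚ) (l : LC κ) : LC κ := l.map fun t => (c * t.1, t.2)

@[simp] theorem evalF_scl (f : κ → ℂ) (c : ℚ) (l : LC κ) : evalF f (scl c l) = c * evalF f l := by
  induction l with
  | nil => simp [scl]
  | cons t l ih => simp only [scl, List.map_cons, evalF_cons] at ih ⊢; rw [ih]; push_cast; ring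

theorem evalF_map {κ' : Type} (f : κ' → ℂ) (g : κ → κ') (l : LC κ) :
    evalF f (l.map fun t => (t.1, g t.2)) = evalF (fun k => f (g k)) l := by
  simp [evalF, Function.comp_def]

theorem evalF_congr {f g : κ → ℂ} {l : LC κ} (h : ∀ t ∈ l, f t.2 = g t.2) :
    evalF f l = evalF g l :=
  congrArg List.sum (List.map_congr_left fun t ht => by rw [h t ht])

theorem evalF_mul_right (f : κ → ℂ) (x : ℂ) (l : LC κ) :
    evalF (fun k => f k * x) l = evalF f l * x := by
  induction l with
  | nil => simp
  | cons t l ih => simp only [evalF_cons, ih]; ring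

theorem evalF_mul_left (f : κ → ℂ) (x : ℂ) (l : LC κ) :
    evalF (fun k => x * f k) l = x * evalF f l := by
  simp only [mul_comm x, evalF_mul_right]

variable [DecidableEq κ]

def ins (c : ℚ) (k : κ) : LC κ → LC κ
  | [] => [(c, k)]
  | t :: l => if k = t.2 then (c + t.1, t.2) :: l else t :: ins c k l

theorem evalF_ins (f : κ → ℂ) (c : ℚ) (k : κ) (l : LC κ) :
    evalF f (ins c k l) = c * f k + evalF f l := by
  induction l with
  | nil => simp [ins]
  | cons t l ih =>
    rw [ins]
    split_ifs with h
    · subst h; simp only [evalF_cons]; push_cast; ring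
    · simp only [evalF_cons, ih]; ring

def norm0 : LC κ → LC κ
  | [] => []
  | t :: l => ins t.1 t.2 (norm0 l)

def dropZ : LC κ → LC κ
  | [] => []
  | t :: l => if t.1.num = 0 then dropZ l else t :: dropZ l

/-- collect equal terms -/
def nrm (l : LC κ) : LC κ := dropZ (norm0 l)

@[simp] theorem evalF_nrm (f : κ → ℂ) (l : LC κ) : evalF f (nrm l) = evalF f l := by
  have h1 : ∀ l : LC κ, evalF f (norm0 l) = evalF f l := by
    intro l
    induction l with
    | nil => rfl
    | cons t l ih => rw [norm0, evalF_ins, ih, evalF_cons]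
  have h2 : ∀ l : LC κ, evalF f (dropZ l) = evalF f l := by
    intro l
    induction l with
    | nil => rfl
    | cons t l ih =>
      rw [dropZ]
      split_ifs with h
      · rw [ih, evalF_cons, Rat.num_eq_zero.mp h]; simp
      · simp [ih]
  rw [nrm, h2, h1]

def isZ (l : LC κ) : Bool := (nrm l).isEmpty

theorem evalF_of_isZ (f : κ → ℂ) {l : LC κ} (h : isZ l = true) : evalF f l = 0 := by
  rw [← evalF_nrm, List.isEmpty_iff.mp h]; rfl

def look {β : Type} (k : κ) : List (κ × β) → Option β
  | [] => none
  | t :: l => if k = t.1 then some t.2 else look k l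

theorem mem_of_look {β : Type} {k : κ} {l : List (κ × β)} {b : β} (h : look k l = some b) :
    (k, b) ∈ l := by
  induction l with
  | nil => simp [look] at h
  | cons t l ih =>
    rw [look] at h
    split_ifs at h with h'
    · obtain rfl := Option.some.inj h
      subst h'; simp
    · exact List.mem_cons_of_mem _ (ih h)

end LC

/-- concatenation of optional lists -/
def catO {ι γ : Type} (g : ι → Option (List γ)) : List ι → Option (List γ)
  | [] => some []
  | a :: L => match g a, catO g L with
    | some x, some y => some (x ++ y)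
    | _, _ => none

theorem evalF_catO {ι κ : Type} (f : κ → ℂ) (g : ι → Option (LC κ)) (φ : ι → ℂ) {L : List ι}
    {l : LC κ} (h : catO g L = some l) (hg : ∀ a ∈ L, ∀ x, g a = some x → evalF f x = φ a) :
    evalF f l = (L.map φ).sum := by
  induction L generalizing l with
  | nil => obtain rfl := Option.some.inj h; rfl
  | cons a L ih =>
    rw [catO] at h
    cases h1 : g a with
    | none => simp [h1] at h
    | some x =>
      cases h2 : catO g L with
      | none => simp [h1, h2] at h
      | some y =>
        simp only [h1, h2, Option.some.injEq] at h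
        subst h
        rw [evalF_append, hg a (by simp) x h1, ih h2 fun b hb => hg b (by simp [hb])]
        simp

abbrev Mono : Type := List ℕ
abbrev Poly : Type := LC Mono

noncomputable def evalM (ρ : ℕ → ℂ) (m : Mono) : ℂ := (m.map ρ).prod
noncomputable def evalP (ρ : ℕ → ℂ) (P : Poly) : ℂ := evalF (evalM ρ) P

@[simp] theorem evalM_nil (ρ : ℕ → ℂ) : evalM ρ [] = 1 := rfl
@[simp] theorem evalM_cons (ρ : ℕ → ℂ) (i : ℕ) (m : Mono) : evalM ρ (i :: m) = ρ i * evalM ρ m := by
  simp [evalM]

def insM (i : ℕ) : Mono → Mono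
  | [] => [i]
  | j :: m => if Nat.ble i j then i :: j :: m else j :: insM i m

def mulM : Mono → Mono → Mono
  | [], b => b
  | i :: a, b => insM i (mulM a b)

theorem evalM_insM (ρ : ℕ → ℂ) (i : ℕ) (m : Mono) : evalM ρ (insM i m) = ρ i * evalM ρ m := by
  induction m with
  | nil => simp [insM]
  | cons j m ih =>
    rw [insM]
    split_ifs
    · simp
    · simp only [evalM_cons, ih]; ring

@[simp] theorem evalM_mulM (ρ : ℕ → ℂ) (a b : Mono) :
    evalM ρ (mulM a b) = evalM ρ a * evalM ρ b := by
  induction a with
  | nil => simp [mulM]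
  | cons i a ih => rw [mulM, evalM_insM, ih, evalM_cons, mul_assoc]

def mulP (P Q : Poly) : Poly := P.flatMap fun s => Q.map fun t => (s.1 * t.1, mulM s.2 t.2)

@[simp] theorem evalP_mulP (ρ : ℕ → ℂ) (P Q : Poly) :
    evalP ρ (mulP P Q) = evalP ρ P * evalP ρ Q := by
  have h : ∀ s : ℚ × Mono, evalF (evalM ρ) (Q.map fun t => (s.1 * t.1, mulM s.2 t.2))
      = s.1 * evalM ρ s.2 * evalF (evalM ρ) Q := by
    intro s
    induction Q with
    | nil => simp
    | cons t Q ih => simp only [List.map_cons, evalF_cons, ih, evalM_mulM]; push_cast; ring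
  rw [evalP, mulP, evalF_flatMap, evalP, evalP]
  simp only [h]
  induction P with
  | nil => simp
  | cons s P ih => simp only [List.map_cons, List.sum_cons, ih, evalF_cons, add_mul]

/-- the terms of the derivative of a monomial -/
def dM : Mono → List (ℕ × Mono)
  | [] => []
  | i :: m => (i, m) :: (dM m).map fun x => (x.1, i :: x.2)

theorem hasDerivAt_evalM {ρ : ℂ → ℕ → ℂ} {ρ' : ℕ → ℂ} {t : ℂ}
    (h : ∀ i, HasDerivAt (fun t => ρ t i) (ρ' i) t) (m : Mono) :
    HasDerivAt (fun t => evalM (ρ t) m) ((dM m).map fun x => ρ' x.1 * evalM (ρ t) x.2).sum t := by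
  induction m with
  | nil => simpa [dM] using hasDerivAt_const t (1 : ℂ)
  | cons i m ih =>
    simp only [evalM_cons]
    refine ((h i).mul ih).congr_deriv ?_
    simp only [dM, List.map_cons, List.sum_cons, List.map_map, Function.comp_def, evalM_cons,
      ← List.sum_map_mul_left, mul_left_comm]

theorem mem_dM {m : Mono} {x : ℕ × Mono} (h : x ∈ dM m) : x.1 ∈ m := by
  induction m generalizing x with
  | nil => simp [dM] at h
  | cons i m ih =>
    simp only [dM, List.mem_cons, List.mem_map] at h
    rcases h with rfl | ⟨y, hy, rfl⟩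
    · simp
    · exact List.mem_cons_of_mem _ (ih (x := y) hy)

end Pool.Agent.Lib.MP_e8750f_nt
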