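import Pool.Agent.Lib.MP_e8750f_nt.Lin
import Pool.Agent.Lib.MP_e8750f_nt.Poly

/-! Tables of normal forms and their verification. -/

namespace Pool.Agent.Lib.MP_e8750f_nt

set_option linter.unusedSectionVars false

open Ser

abbrev OW : Type := List Om
abbrev Tab : Type := List (OW × Poly)
abbrev Entry : Type := OW × Poly × Option (OW × OW)

section
variable (Bs : List OW)

def bw (i : ℕ) : OW := Bs.getD i []

noncomputable def rho (G : Ser Om ℂ) (i : ℕ) : ℂ := G (bw Bs i)

def nfR (K : Tab) (v : OW) : Option Poly := if v = [] then some [(1, [])] else look v K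

def linP : Poly → LC ℕ
  | [] => []
  | (c, [i]) :: P => (c, i) :: linP P
  | _ :: P => linP P

theorem linP_append (P Q : Poly) : linP (P ++ Q) = linP P ++ linP Q := by
  induction P with
  | nil => rfl
  | cons t P ih =>
    obtain ⟨c, m⟩ := t
    match m with
    | [] => simpa [linP] using ih
    | [i] => simpa [linP] using ih
    | i :: j :: m => simpa [linP] using ih

def Valid (G : Ser Om ℂ) (K : Tab) (n : ℕ) : Prop :=
  ∀ t ∈ K, t.1.length < n → G t.1 = evalP (rho Bs G) t.2

def ValidL (Ψ : Ser Om ℂ) (K : Tab) : Prop :=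
  ∀ t ∈ K, Ψ t.1 = evalF (rho Bs Ψ) (linP t.2)

theorem nfR_sound {G : Ser Om ℂ} (h1 : G [] = 1) {K : Tab} {n : ℕ} (hK : Valid Bs G K n) {v : OW}
    (hv : v.length < n) {P : Poly} (h : nfR K v = some P) : G v = evalP (rho Bs G) P := by
  rw [nfR] at h
  split_ifs at h with h'
  · obtain rfl := Option.some.inj h
    simp [h', h1, evalP]
  · exact hK _ (mem_of_look h) hv

def chkS (K : Tab) (W : OW) (P : Poly) (A B : OW) : Bool :=
  match look A K, look B K, catO (fun V => if V = W then some P else look V K) (shuf A B) with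
  | some PA, some PB, some S => decide (W ∈ shuf A B) && decide (A ≠ []) && decide (B ≠ []) &&
      isZ (S ++ scl (-1) (mulP PA PB)) && isZ (linP S)
  | _, _, _ => false

theorem count_aux {W : OW} (x : ℂ) (L : List OW) (h : W ∈ L)
    (h0 : (L.map fun V => if V = W then x else 0).sum = 0) : x = 0 := by
  have : (L.map fun V => if V = W then x else 0).sum = (L.count W : ℂ) * x := by
    clear h h0
    induction L with
    | nil => simp
    | cons a L ih =>
      rw [List.map_cons, List.sum_cons, ih, List.count_cons]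
      by_cases ha : a = W <;> simp [ha]; ring
  rw [this] at h0
  have h1 : (L.count W : ℂ) ≠ 0 := by exact_mod_cast (List.count_pos_iff.mpr h).ne'
  exact (mul_eq_zero.mp h0).resolve_left h1

theorem linP_catO {g : OW → Option Poly} {L : List OW} {S : Poly} (h : catO g L = some S) :
    catO (fun V => (g V).map linP) L = some (linP S) := by
  induction L generalizing S with
  | nil => obtain rfl := Option.some.inj h; rfl
  | cons a L ih =>
    rw [catO] at h ⊢
    cases h1 : g a with
    | none => simp [h1] at h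
    | some x =>
      cases h2 : catO g L with
      | none => simp [h1, h2] at h
      | some y =>
        simp only [h1, h2, Option.some.injEq] at h
        subst h
        simp [ih h2, linP_append]

theorem chkS_spec {K : Tab} {W : OW} {P : Poly} {A B : OW} (h : chkS K W P A B = true) :
    ∃ PA PB S, look A K = some PA ∧ look B K = some PB ∧
      catO (fun V => if V = W then some P else look V K) (shuf A B) = some S ∧ W ∈ shuf A B ∧
      A ≠ [] ∧ B ≠ [] ∧ isZ (S ++ scl (-1) (mulP PA PB)) = true ∧ isZ (linP S) = true := by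
  unfold chkS at h
  split at h
  · rename_i PA PB S h1 h2 h3
    simp only [Bool.and_eq_true, decide_eq_true_eq] at h
    exact ⟨PA, PB, S, h1, h2, h3, h.1.1.1.1, h.1.1.1.2, h.1.1.2, h.1.2, h.2⟩
  · simp at h

theorem chkS_sound {G : Ser Om ℂ} (hG : IsChar G) {K : Tab} {n : ℕ} (hK : Valid Bs G K n) {W : OW}
    {P : Poly} {A B : OW} (h : chkS K W P A B = true) (hW : W.length < n) :
    G W = evalP (rho Bs G) P := by
  obtain ⟨PA, PB, S, h1, h2, h3, h4, -, -, h7, -⟩ := chkS_spec h
  have hl := length_of_mem_shuf _ _ _ h4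
  have hA := hK _ (mem_of_look h1) (by simp only; omega)
  have hB := hK _ (mem_of_look h2) (by simp only; omega)
  have hS := evalF_catO (evalM (rho Bs G)) _
    (fun V => G V - if V = W then G W - evalP (rho Bs G) P else 0) h3 (fun V hV x hx => by
      split_ifs at hx ⊢ with hVW
      · obtain rfl := Option.some.inj hx
        simp [hVW, evalP]
      · have := hK _ (mem_of_look hx) (by
          have := length_of_mem_shuf _ _ _ hV
          simp only; omega)
        simpa [evalP] using this.symm)
  have h8 := evalF_of_isZ (evalM (rho Bs G)) h7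
  rw [evalF_append, evalF_scl, ← evalP, ← evalP, evalP_mulP, ← hA, ← hB, ← hG.cop_apply, evalP, hS,
    cop] at h8
  simp only [sub_eq_add_neg (G _) (ite _ _ _), List.sum_map_add] at h8
  refine sub_eq_zero.mp (count_aux _ _ h4 ?_)
  have h9 : ∀ (L : List OW) (f : OW → ℂ), (L.map fun V => -f V).sum = -(L.map f).sum := by
    intro L f; induction L <;> simp_all [add_comm]
  rw [h9] at h8
  push_cast at h8
  linear_combination -h8

theorem chkS_soundL {Ψ : Ser Om ℂ} (hΨ : IsLie Ψ) {K : Tab} (hK : ValidL Bs Ψ K) {W : OW}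
    {P : Poly} {A B : OW} (h : chkS K W P A B = true) :
    Ψ W = evalF (rho Bs Ψ) (linP P) := by
  obtain ⟨PA, PB, S, -, -, h3, h4, h5, h6, -, h8⟩ := chkS_spec h
  have hS := evalF_catO (rho Bs Ψ) _
    (fun V => Ψ V - if V = W then Ψ W - evalF (rho Bs Ψ) (linP P) else 0) (linP_catO h3)
    (fun V _ x hx => by
      split_ifs at hx ⊢ with hVW
      · obtain rfl := Option.some.inj hx
        simp [hVW]
      · obtain ⟨y, hy, rfl⟩ := Option.map_eq_some_iff.mp hx
        simpa using (hK _ (mem_of_look hy)).symm)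
  have h9 := evalF_of_isZ (rho Bs Ψ) h8
  have h10 := hΨ.cop_apply h5 h6
  rw [hS] at h9
  rw [cop] at h10
  simp only [sub_eq_add_neg (Ψ _) (ite _ _ _), List.sum_map_add] at h9
  refine sub_eq_zero.mp (count_aux _ _ h4 ?_)
  have h11 : ∀ (L : List OW) (f : OW → ℂ), (L.map fun V => -f V).sum = -(L.map f).sum := by
    intro L f; induction L <;> simp_all [add_comm]
  rw [h11] at h9
  linear_combination h10 - h9

def chkAll : Tab → List Entry → Bool
  | _, [] => true
  | K, e :: es => (match e.2.2 with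
    | none => true
    | some x => chkS K e.1 e.2.1 x.1 x.2) && chkAll ((e.1, e.2.1) :: K) es

def table (es : List Entry) : Tab := es.map fun e => (e.1, e.2.1)

theorem valid_all {G : Ser Om ℂ} (hG : IsChar G) {n : ℕ} {es : List Entry} {K : Tab}
    (hK : Valid Bs G K n) (h : chkAll K es = true)
    (hp : ∀ e ∈ es, e.2.2 = none → e.1.length < n → G e.1 = evalP (rho Bs G) e.2.1) :
    Valid Bs G (table es) n := by
  induction es generalizing K with
  | nil => intro t ht; simp [table] at ht
  | cons e es ih =>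
    rw [chkAll, Bool.and_eq_true] at h
    have he : e.1.length < n → G e.1 = evalP (rho Bs G) e.2.1 := fun hl => by
      cases h2 : e.2.2 with
      | none => exact hp e (by simp) h2 hl
      | some x => exact chkS_sound Bs hG hK (by simpa [h2] using h.1) hl
    have := ih (K := (e.1, e.2.1) :: K) (fun t ht => by
      rcases List.mem_cons.mp ht with rfl | ht
      exacts [he, hK t ht]) h.2 fun e' he' => hp e' (by simp [he'])
    intro t ht
    rcases List.mem_cons.mp ht with rfl | ht
    exacts [he, this t ht]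

theorem validL_all {Ψ : Ser Om ℂ} (hΨ : IsLie Ψ) {es : List Entry} {K : Tab}
    (hK : ValidL Bs Ψ K) (h : chkAll K es = true)
    (hp : ∀ e ∈ es, e.2.2 = none → Ψ e.1 = evalF (rho Bs Ψ) (linP e.2.1)) :
    ValidL Bs Ψ (table es) := by
  induction es generalizing K with
  | nil => intro t ht; simp [table] at ht
  | cons e es ih =>
    rw [chkAll, Bool.and_eq_true] at h
    have he : Ψ e.1 = evalF (rho Bs Ψ) (linP e.2.1) := by
      cases h2 : e.2.2 with
      | none => exact hp e (by simp) h2
      | some x => exact chkS_soundL Bs hΨ hK (by simpa [h2] using h.1)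
    have := ih (K := (e.1, e.2.1) :: K) (fun t ht => by
      rcases List.mem_cons.mp ht with rfl | ht
      exacts [he, hK t ht]) h.2 fun e' he' => hp e' (by simp [he'])
    intro t ht
    rcases List.mem_cons.mp ht with rfl | ht
    exacts [he, this t ht]

def lam (K : Tab) (u : OW) : Option (LC ℕ) :=
  if u = [] then some [] else
    match look u K with
    | some P => some (linP P)
    | none => (look u.reverse K).map fun P => scl (-(-1) ^ u.length) (linP P)

theorem lam_sound {Ψ : Ser Om ℂ} (hΨ : IsLie Ψ) {K : Tab} (hK : ValidL Bs Ψ K) {u : OW} {l : LC ℕ}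
    (h : lam K u = some l) : evalF (rho Bs Ψ) l = Ψ u := by
  unfold lam at h
  split_ifs at h with h0
  · obtain rfl := Option.some.inj h
    simp [h0, hΨ.nil]
  · split at h
    · rename_i P hP
      obtain rfl := Option.some.inj h
      exact (hK _ (mem_of_look hP)).symm
    · obtain ⟨P, hP, rfl⟩ := Option.map_eq_some_iff.mp h
      rw [evalF_scl, ← hK _ (mem_of_look hP), hΨ.reverse u]
      push_cast; ring

def dropP : LC (ℕ × OW) → LC (ℕ × OW)
  | [] => []
  | t :: l => if t.2.1 = 0 then dropP l else t :: dropP l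

def TW1 (K : Tab) (t : ℚ × OW × OW) : Option (LC (ℕ × OW)) :=
  (lam K t.2.1).map fun l => l.map fun x => (t.1 * x.1, x.2, t.2.2)

def TW2 (K : Tab) (n : ℕ) (t : ℚ × ℕ × OW) : Option Poly :=
  if t.2.2.length < n then (nfR K t.2.2).map fun Q => Q.map fun x => (t.1 * x.1, t.2.1 :: x.2)
  else none

/-- normal form of the infinitesimal coaction -/
def TW (K : Tab) (W : OW) : Option Poly :=
  match catO (TW1 K) (nrm ((domT W).map fun t => ((t.1 : ℚ), t.2))) with
  | none => none
  | some L => catO (TW2 K W.length) (nrm (dropP L))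

noncomputable def evalT (Ψ G : Ser Om ℂ) : Mono → ℂ
  | [] => 0
  | i :: m => rho Bs Ψ i * evalM (rho Bs G) m

theorem TW_sound {Ψ G : Ser Om ℂ} (hΨ : IsLie Ψ) (h0 : rho Bs Ψ 0 = 0) (h1 : G [] = 1) {K : Tab}
    (hL : ValidL Bs Ψ K) {W : OW} (hK : Valid Bs G K W.length) {Q : Poly} (h : TW K W = some Q) :
    evalD Ψ G (domT W) = evalF (evalT Bs Ψ G) Q := by
  unfold TW at h
  split at h
  · simp at h
  · rename_i L hL'
    let f : ℕ × OW → ℂ := fun x => rho Bs Ψ x.1 * G x.2
    have h2 := evalF_catO f _ (fun t : ℚ × OW × OW => (t.1 : ℂ) * (Ψ t.2.1 * G t.2.2)) hL'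
      fun t _ x hx => by
      obtain ⟨l, hl, rfl⟩ := Option.map_eq_some_iff.mp hx
      rw [← lam_sound Bs hΨ hL hl]
      clear hl hx
      induction l with
      | nil => simp
      | cons y l ih => simp only [List.map_cons, evalF_cons, ih, f]; push_cast; ring
    have h3 := evalF_catO (evalT Bs Ψ G) _ (fun t : ℚ × ℕ × OW => (t.1 : ℂ) * f t.2) h
      fun t _ x hx => by
        unfold TW2 at hx
        split_ifs at hx with hlt
        obtain ⟨P, hP, rfl⟩ := Option.map_eq_some_iff.mp hx
        simp only [f]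
        rw [nfR_sound Bs h1 hK hlt hP, evalP]
        clear hP hx
        induction P with
        | nil => simp
        | cons y l ih => simp only [List.map_cons, evalF_cons, ih, evalT]; push_cast; ring
    have h4 : ∀ L, evalF f (dropP L) = evalF f L := by
      intro L
      induction L with
      | nil => rfl
      | cons t L ih =>
        rw [dropP]
        split_ifs with ht
        · rw [ih, evalF_cons]; simp [f, ht, h0]
        · simp [ih]
    have h5 := evalF_nrm (fun x : OW × OW => Ψ x.1 * G x.2) ((domT W).map fun t => ((t.1 : ℚ), t.2))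
    have h6 : evalD Ψ G (domT W) = evalF (fun x : OW × OW => Ψ x.1 * G x.2)
        ((domT W).map fun t => ((t.1 : ℚ), t.2)) := by
      simp [evalD, evalF, Function.comp_def, mul_assoc]
    rw [h3, h6, ← h5, evalF, ← h2, ← h4 L, ← evalF_nrm f (dropP L)]
    rfl

def tmul : Mono → Mono → Mono
  | [], _ => []
  | i :: a, b => i :: mulM a b

def dP (DB : List Poly) (P : Poly) : Poly :=
  P.flatMap fun t => (dM t.2).flatMap fun x =>
    (DB.getD x.1 []).map fun y => (t.1 * y.1, tmul y.2 x.2)

def wtM (m : Mono) : ℕ := (m.map fun i => (bw Bs i).length).sum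

def chkH (W : OW) (P : Poly) : Bool :=
  P.all fun t => decide (wtM Bs t.2 = W.length) && t.2.all fun i => decide (1 ≤ (bw Bs i).length)

def chkD (K : Tab) (DB : List Poly) (W : OW) (P : Poly) : Bool :=
  match TW K W with
  | none => false
  | some Q => isZ (Q ++ scl (-1) (dP DB P))

def chkDB (K : Tab) (DB : List Poly) (j : ℕ) : Bool :=
  match TW K (bw Bs j) with
  | none => false
  | some Q => isZ (Q ++ scl (-1) (DB.getD j []))

theorem chkH_spec {W : OW} {P : Poly} (h : chkH Bs W P = true) {t : ℚ × Mono} (ht : t ∈ P) :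
    wtM Bs t.2 = W.length ∧ ∀ i ∈ t.2, 1 ≤ (bw Bs i).length := by
  simpa using List.all_eq_true.mp h t ht

theorem le_wtM {m : Mono} {i : ℕ} (h : i ∈ m) : (bw Bs i).length ≤ wtM Bs m :=
  List.single_le_sum (by simp) _ (List.mem_map.mpr ⟨i, h, rfl⟩)

theorem chkDB_sound {Ψ G : Ser Om ℂ} (hΨ : IsLie Ψ) (h0 : rho Bs Ψ 0 = 0) (h1 : G [] = 1) {K : Tab}
    (hL : ValidL Bs Ψ K) {j : ℕ} (hK : Valid Bs G K (bw Bs j).length) {DB : List Poly}
    (h : chkDB Bs K DB j = true) :
    evalD Ψ G (domT (bw Bs j)) = evalF (evalT Bs Ψ G) (DB.getD j []) := by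
  unfold chkDB at h
  split at h
  · simp at h
  · rename_i Q hQ
    have := evalF_of_isZ (evalT Bs Ψ G) h
    rw [evalF_append, evalF_scl] at this
    rw [TW_sound Bs hΨ h0 h1 hL hK hQ]
    push_cast at this
    linear_combination this

theorem hasDerivAt_evalP {ρ : ℂ → ℕ → ℂ} {ρ' : ℕ → ℂ} {t : ℂ}
    (h : ∀ i, HasDerivAt (fun t => ρ t i) (ρ' i) t) (P : Poly) :
    HasDerivAt (fun t => evalP (ρ t) P)
      (evalF (fun m => ((dM m).map fun x => ρ' x.1 * evalM (ρ t) x.2).sum) P) t :=
  hasDerivAt_list_sum _ fun x _ => (hasDerivAt_evalM h x.2).const_mul _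

theorem chkD_sound {Ψ G : Ser Om ℂ} (hΨ : IsLie Ψ) (h0 : rho Bs Ψ 0 = 0) (h1 : G [] = 1) {K : Tab}
    (hL : ValidL Bs Ψ K) {W : OW} (hK : Valid Bs G K W.length) {DB : List Poly} {P : Poly}
    (hDB : ∀ j < Bs.length, chkDB Bs K DB j = true) (hH : chkH Bs W P = true)
    (h : chkD K DB W P = true) :
    evalD Ψ G (domT W) = evalF (fun m => ((dM m).map fun x =>
      evalD Ψ G (domT (bw Bs x.1)) * evalM (rho Bs G) x.2).sum) P := by
  unfold chkD at h
  split at h
  · simp at h
  · rename_i Q hQ
    have h2 := evalF_of_isZ (evalT Bs Ψ G) h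
    rw [evalF_append, evalF_scl, dP, evalF_flatMap] at h2
    rw [TW_sound Bs hΨ h0 h1 hL hK hQ, evalF]
    push_cast at h2
    rw [neg_one_mul, add_neg_eq_zero] at h2
    rw [← evalF, h2]
    refine congrArg List.sum (List.map_congr_left fun t ht => ?_)
    rw [evalF_flatMap, ← List.sum_map_mul_left]
    refine congrArg List.sum (List.map_congr_left fun x hx => ?_)
    obtain ⟨h3, h4⟩ := chkH_spec Bs hH ht
    have h5 := le_wtM Bs (mem_dM hx)
    have h6 : x.1 < Bs.length := by
      by_contra hc
      have := h4 _ (mem_dM hx)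
      rw [bw, List.getD_eq_default _ _ (by omega)] at this
      simp at this
    rw [chkDB_sound Bs hΨ h0 h1 hL (fun s hs hl => hK s hs (by omega)) (hDB _ h6)]
    generalize DB.getD x.1 [] = l
    induction l with
    | nil => simp
    | cons y l ih =>
      simp only [List.map_cons, evalF_cons, ih]
      obtain ⟨c, m⟩ := y
      cases m with
      | nil => simp [tmul, evalT]
      | cons i m => simp [tmul, evalT]; ring

/-- the table relations hold -/
def Prim (es : List Entry) (g : S) : Prop :=
  ∀ e ∈ es, e.2.2 = none → om g e.1 = evalP (rho Bs (om g)) e.2.1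

/-- the linearised table relations hold -/
def PrimL (es : List Entry) (ψ : S) : Prop :=
  rho Bs (om ψ) 0 = 0 ∧ ∀ e ∈ es, e.2.2 = none → om ψ e.1 = evalF (rho Bs (om ψ)) (linP e.2.1)

/-- all the checks -/
def Checked (es : List Entry) (DB : List Poly) : Prop :=
  chkAll [] es = true ∧ (∀ j < Bs.length, chkDB Bs (table es) DB j = true) ∧
  (∀ e ∈ es, e.2.2 = none → chkH Bs e.1 e.2.1 = true ∧ chkD (table es) DB e.1 e.2.1 = true) ∧
  DB.getD 0 [] = [] ∧ 0 < Bs.length

theorem om_expT_deriv {ψ : S} (hψ : IsLie ψ) (g : S) (t : ℂ) (W : OW) :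
    HasDerivAt (fun t => om (expT (T ψ) t g) W)
      (evalD (om ψ) (om (expT (T ψ) t g)) (domT W)) t := by
  rw [← om_T]
  exact lin_deriv Rw (expT_deriv (raises_T hψ.nil) g t) W

theorem Prim.expT {es : List Entry} {DB : List Poly} (hc : Checked Bs es DB) {g ψ : S}
    (hg : IsChar g) (hp : Prim Bs es g) (hψ : IsLie ψ) (hl : PrimL Bs es ψ) (t : ℂ) :
    Prim Bs es (expT (T ψ) t g) := by
  have hch : ∀ t, IsChar (om (Pool.Agent.Lib.MP_e8750f_nt.expT (T ψ) t g)) := fun t =>
    (hg.expT (psi_lie hψ) hψ t).lin Rw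
  have hL := validL_all Bs (hψ.lin Rw) (K := []) (fun t ht => by simp at ht) hc.1 hl.2
  intro e he hn
  set A := fun t => om (Pool.Agent.Lib.MP_e8750f_nt.expT (T ψ) t g) with hA
  refine sub_eq_zero.mp (ode_zero (ι := {e : Entry // e ∈ es ∧ e.2.2 = none})
    (fun e => e.1.1.length) (fun t e => A t e.1.1 - evalP (rho Bs (A t)) e.1.2.1)
    (fun t e => evalD (om ψ) (A t) (domT e.1.1) - evalF (fun m => ((dM m).map fun x =>
      evalD (om ψ) (A t) (domT (bw Bs x.1)) * evalM (rho Bs (A t)) x.2).sum) e.1.2.1)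
    (fun e => ?_) (fun t e => ?_) (fun t n hn e hlt => ?_) t ⟨e, he, hn⟩)
  · simp only [hA, expT_zero]; exact sub_eq_zero.mpr (hp _ e.2.1 e.2.2)
  · exact (om_expT_deriv hψ g t _).sub
      (hasDerivAt_evalP (ρ := fun t => rho Bs (A t)) (fun i => om_expT_deriv hψ g t _) _)
  · have hV := valid_all Bs (hch t) (n := e.1.1.length) (K := []) (fun t ht => by simp at ht) hc.1
      fun e' he' hn' hl' => sub_eq_zero.mp (hn ⟨e', he', hn'⟩ (by simp only; omega))
    obtain ⟨h1, h2⟩ := hc.2.2.1 _ e.2.1 e.2.2
    exact sub_eq_zero.mpr (chkD_sound Bs (hψ.lin Rw) hl.1 (hch t).1 hL hV hc.2.1 h1 h2)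

theorem rho_zero_expT {es : List Entry} {DB : List Poly} (hc : Checked Bs es DB) {g ψ : S}
    (hg : IsChar g) (hp : Prim Bs es g) (hψ : IsLie ψ) (hl : PrimL Bs es ψ) (t : ℂ) :
    rho Bs (om (expT (T ψ) t g)) 0 = rho Bs (om g) 0 := by
  have hL := validL_all Bs (hψ.lin Rw) (K := []) (fun t ht => by simp at ht) hc.1 hl.2
  have h : ∀ t, HasDerivAt (fun t => rho Bs (om (expT (T ψ) t g)) 0) 0 t := fun t => by
    have hch : IsChar (om (expT (T ψ) t g)) := (hg.expT (psi_lie hψ) hψ t).lin Rw
    have hV := valid_all Bs hch (n := (bw Bs 0).length) (K := []) (fun t ht => by simp at ht) hc.1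
      fun e' he' hn' _ => hp.expT Bs hc hg hψ hl t e' he' hn'
    have h1 := om_expT_deriv hψ g t (bw Bs 0)
    rw [chkDB_sound Bs (Ψ := om ψ) (hψ.lin Rw) hl.1 hch.1 hL hV (hc.2.1 0 hc.2.2.2.2), hc.2.2.2.1] at h1
    exact h1
  have := is_const_of_deriv_eq_zero (fun t => (h t).differentiableAt) (fun t => (h t).deriv) t 0
  simpa only [expT_zero] using this

theorem evalM_scale (G : Ser Om ℂ) (c : ℂ) (m : Mono) :
    evalM (rho Bs (scale c G)) m = c ^ wtM Bs m * evalM (rho Bs G) m := by
  induction m with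
  | nil => simp [wtM]
  | cons i m ih =>
    rw [evalM_cons, evalM_cons, ih]
    simp only [wtM, List.map_cons, List.sum_cons, pow_add, rho, scale]; ring

theorem Prim.scale {es : List Entry} {DB : List Poly} (hc : Checked Bs es DB) {g : S}
    (hp : Prim Bs es g) (c : ℂ) : Prim Bs es (scale c g) := by
  intro e he hn
  rw [om, lin_scale, ← om, Pool.Agent.Lib.MP_e8750f_nt.scale, hp e he hn, evalP, evalP,
    ← evalF_mul_left]
  refine evalF_congr fun t ht => ?_
  rw [evalM_scale, (chkH_spec Bs (hc.2.2.1 e he hn).1 ht).1]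

theorem map_evalF {κ : Type} (Q : ℂ →ₗ[ℚ] ℂ) (f : κ → ℂ) (l : LC κ) :
    Q (evalF f l) = evalF (fun k => Q (f k)) l := by
  induction l with
  | nil => simp
  | cons t l ih => rw [evalF_cons, evalF_cons, map_add, ih, mul_comm, map_mul_rat, mul_comm]

theorem PrimL.mapQ {es : List Entry} {ψ : S} (hl : PrimL Bs es ψ) (Q : ℂ →ₗ[ℚ] ℂ) :
    PrimL Bs es (mapQ Q ψ) := by
  have h : ∀ W, om (Pool.Agent.Lib.MP_e8750f_nt.mapQ Q ψ) W = Q (om ψ W) := fun W => by
    rw [om, lin_mapQ]; rfl
  refine ⟨?_, fun e he hn => ?_⟩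
  · have := hl.1
    rw [rho] at this ⊢
    rw [h, this, map_zero]
  · rw [h, hl.2 e he hn, map_evalF]
    exact evalF_congr fun t _ => (h _).symm

theorem ratW_om {r : ℕ} {h : S} (hh : RatW r h) (W : OW) (hW : W.length < r) :
    ∃ q : ℚ, om h W = (2 * Real.pi * Complex.I : ℂ) ^ W.length * q := by
  choose! q hq using hh
  have h1 : om h W = lin Rw (scale (2 * Real.pi * Complex.I : ℂ) fun w => (q w : ℂ)) W :=
    lin_congr Rw fun w hw => by rw [hq w (by rw [hw.length]; exact hW)]; rfl
  rw [h1, lin_scale, scale, lin_eq_expandW]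
  refine ⟨((expandW Rw W).map fun y => y.1 * q y.2).sum, ?_⟩
  congr 1
  generalize expandW Rw W = l
  induction l with
  | nil => simp
  | cons y l ih => simp [ih]

theorem evalM_rat {r : ℕ} {h : S} (hh : RatW r h) (m : Mono) (hm : ∀ i ∈ m, (bw Bs i).length < r) :
    ∃ q : ℚ, evalM (rho Bs (om h)) m = (2 * Real.pi * Complex.I : ℂ) ^ wtM Bs m * q := by
  induction m with
  | nil => exact ⟨1, by simp [wtM]⟩
  | cons i m ih =>
    obtain ⟨q, hq⟩ := ih fun j hj => hm j (by simp [hj])
    obtain ⟨q', hq'⟩ := ratW_om hh (bw Bs i) (hm i (by simp))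
    refine ⟨q' * q, ?_⟩
    rw [evalM_cons, hq, rho, hq']
    simp only [wtM, List.map_cons, List.sum_cons, pow_add]; push_cast; ring

theorem primL_step {es : List Entry} {DB : List Poly} (hc : Checked Bs es DB) {r : ℕ} (hr : 1 ≤ r)
    {h : S} (hp : Prim Bs es h)
    (h0 : ∃ q : ℚ, rho Bs (om h) 0 = (2 * Real.pi * Complex.I : ℂ) ^ (bw Bs 0).length * q)
    (hh : RatW r h) (Q : ℂ →ₗ[ℚ] ℂ)
    (hQ : ∀ q : ℚ, Q ((2 * Real.pi * Complex.I : ℂ) ^ r * q) = 0) :
    PrimL Bs es (projW r (mapQ Q h)) := by
  have h1 : ∀ W, om (projW r (mapQ Q h)) W = if W.length = r then Q (om h W) else 0 := fun W => by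
    rw [om, lin_projW, lin_mapQ]; rfl
  refine ⟨?_, fun e he hn => ?_⟩
  · rw [rho, h1]
    split_ifs with hl
    · obtain ⟨q, hq⟩ := h0
      rw [rho, hl] at hq
      rw [hq, hQ]
    · rfl
  · have h2 := fun t ht => chkH_spec Bs (hc.2.2.1 e he hn).1 (t := t) ht
    rw [h1, hp e he hn, evalP, map_evalF]
    generalize e.2.1 = P at h2
    induction P with
    | nil => simp [linP]
    | cons t P ih =>
      have ih' := ih fun s hs => h2 s (by simp [hs])
      obtain ⟨h3, h4⟩ := h2 t (by simp)
      obtain ⟨c, m⟩ := t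
      match m with
      | [] =>
        have : ¬ e.1.length = r := by simp [wtM] at h3; omega
        simpa [linP, this] using ih'
      | [i] =>
        have h5 : (bw Bs i).length = e.1.length := by simpa [wtM] using h3
        rw [linP, evalF_cons, evalF_cons, ← ih', rho, h1, h5]
        split_ifs <;> simp [rho]
      | i :: j :: m =>
        have h5 : linP ((c, i :: j :: m) :: P) = linP P := rfl
        rw [h5, ← ih', evalF_cons]
        split_ifs with hl
        · obtain ⟨q, hq⟩ := evalM_rat Bs hh (i :: j :: m) fun k hk => by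
            have h6 := h4 i (by simp)
            have h7 := h4 j (by simp)
            simp only [wtM, List.map_cons, List.sum_cons] at h3
            rcases List.mem_cons.mp hk with rfl | hk
            · omega
            · have := le_wtM Bs hk
              simp only [wtM, List.map_cons, List.sum_cons] at this
              omega
          rw [hq, h3, hl, hQ]; simp
        · rfl

end

end Pool.Agent.Lib.MP_e8750f_nt
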