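import Mathlib

/-! Definitions for motivic multiple mixed values, through the Betti / de Rham realisation of the
fundamental groupoid of the projective line minus `0, 1, -1, ∞`. -/

namespace Pool.Agent.Lib.MP_e8750f_nt

open Filter Topology

/-- A word in the letters `0, 1, -1`; the letter `a` stands for the form `dt / (t - a)`.
Words are read from the end point of the path back to the base point `0`. -/
abbrev Word : Type := List SignType

/-- The hyperlogarithm (iterated integral from the tangential base point at `0` to `x`). -/
noncomputable def hyperlog : Word → ℝ → ℝ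
  | [], _ => 1
  | a :: w, x =>
    if a :: w = List.replicate (w.length + 1) 0 then
      Real.log x ^ (w.length + 1) / ((w.length + 1).factorial : ℝ)
    else ∫ t in (0 : ℝ)..x, hyperlog w t / (t - (a : ℝ))

/-- Product of noncommutative power series (composition of paths). -/
noncomputable def conv (F G : Word → ℂ) : Word → ℂ :=
  fun w => ∑ i ∈ Finset.range (w.length + 1), F (w.take i) * G (w.drop i)

/-- The series `e_a`. -/
noncomputable def letter (a : SignType) : Word → ℂ :=
  fun w => if w = [a] then 1 else 0

/-- The series `exp (c e_a)`. -/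
noncomputable def expLetter (a : SignType) (c : ℂ) : Word → ℂ :=
  fun w => if w = List.replicate w.length a then c ^ w.length / (w.length.factorial : ℂ) else 0

/-- Regularised iterated integrals along the straight path from `0` to `1` (the associator). -/
noncomputable def straight : Word → ℂ :=
  fun w => limUnder (𝓝[<] (1 : ℝ)) fun x : ℝ =>
    conv (expLetter 1 (-(Real.log (1 - x) : ℂ))) (fun v => (hyperlog v x : ℂ)) w

/-- Iterated integrals along the chosen paths from the base point at `0` to `0, 1, -1`
(for `-1`: a half turn around `0`, then the straight segment). -/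
noncomputable def pathTo : SignType → Word → ℂ
  | SignType.zero => expLetter 0 0
  | SignType.pos => straight
  | SignType.neg => conv (fun w => straight (w.map fun a => -a)) (expLetter 0 (Real.pi * Complex.I))

/-- Iterated integrals along the reversed path. -/
noncomputable def reversed (F : Word → ℂ) : Word → ℂ :=
  fun w => (-1) ^ w.length * F w.reverse

/-- Logarithm of the loop around `a` based at `0`. -/
noncomputable def logLoop (a : SignType) : Word → ℂ :=
  fun w => 2 * Real.pi * Complex.I * conv (reversed (pathTo a)) (conv (letter a) (pathTo a)) w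

/-- Generators over `ℚ` of the Betti lattice of paths from `0` to `1`. -/
noncomputable def betti : List SignType → Word → ℂ
  | [] => straight
  | a :: l => conv (betti l) (logLoop a)

/-- The de Rham space over `ℚ`. -/
abbrev DR : Type := Word →₀ ℚ

/-- Extension of scalars to `ℂ`. -/
noncomputable def cx (η : DR) : Word →₀ ℂ :=
  η.mapRange (fun q : ℚ => (q : ℂ)) Rat.cast_zero

/-- Integration of a de Rham class along a (formal combination of) path(s). -/
noncomputable def pair (ν : Word →₀ ℂ) (F : Word → ℂ) : ℂ :=
  ν.sum fun w c => c * F w

/-- `N` is the de Rham part of a mixed Hodge substructure: it is graded by the weight, and its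
complexification is spanned by Betti-rational classes. -/
def IsSubHodge (N : Submodule ℚ DR) : Prop :=
  (∀ η ∈ N, ∀ n : ℕ, η.filter (fun w => w.length = n) ∈ N) ∧
  ∀ η ∈ N, cx η ∈ Submodule.span ℂ
    {ν | ν ∈ Submodule.span ℂ (cx '' (N : Set DR)) ∧ ∀ l, ∃ q : ℚ, pair ν (betti l) = q}

/-- The motivic period of `η` along the straight path vanishes. -/
def MotivicZero (η : DR) : Prop :=
  ∃ N : Submodule ℚ DR, IsSubHodge N ∧ η ∈ N ∧ ∀ ξ ∈ N, pair (cx ξ) straight = 0

/-- Words of (convergent) multiple zeta values. -/
def IsMZVWord (w : Word) : Prop :=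
  (∀ a ∈ w, a ≠ -1) ∧ w.head? ≠ some 1 ∧ w.getLast? ≠ some 0

/-- The motivic period of `η` lies in the `ℚ`-span of the motivic multiple zeta values. -/
def Unramified (η : DR) : Prop :=
  ∃ ξ ∈ Submodule.span ℚ {x : DR | ∃ w, IsMZVWord w ∧ x = Finsupp.single w 1}, MotivicZero (η - ξ)

/-- One more integration against `dt / t`. -/
noncomputable def omegaZero (η : DR) : DR :=
  η.mapDomain fun w => 0 :: w

/-- One more integration against `2 t dt / (1 - t^2)` (`σ = 1`) or `2 dt / (1 - t^2)` (`σ = -1`),
that is against `- dt / (t - 1) - σ dt / (t + 1)`. -/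
noncomputable def omegaSign (σ : ℤˣ) (η : DR) : DR :=
  -(η.mapDomain fun w => 1 :: w) - ((σ : ℤ) : ℚ) • η.mapDomain fun w => -1 :: w

/-- Accumulator form of the integrand of a multiple mixed value. -/
noncomputable def mmvAux : List (ℕ × ℤˣ) → ℤˣ → DR → DR
  | [], _, η => η
  | (s, e) :: l, e', η => mmvAux l e (omegaZero^[s - 1] (omegaSign (e' * e) η))

/-- The integrand of the multiple mixed value `M(s; ε)`. -/
noncomputable def mmv {d : ℕ} (s : Fin d → ℕ) (ε : Fin d → ℤˣ) : DR :=
  mmvAux (List.ofFn fun j => (s j, ε j)) 1 (Finsupp.single [] 1)

end Pool.Agent.Lib.MP_e8750f_nt
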