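import Pool.Agent.Lib.MP_e8750f_nt.Hyper

/-! Relations among alternating sums of depth at most two. -/

namespace Pool.Agent.Lib.MP_e8750f_nt

set_option linter.unusedSectionVars false

open Ser Filter Topology Set Real

theorem Φ_of_hasSum {w : Word} (hw : w.head? ≠ some 1) (hw' : w.getLast? ≠ some 0) {r : ℝ}
    (h : HasSum (cf w) r) : Φ w = r := by
  refine tendsto_nhds_unique (Li_tendsto hw hw') ?_
  refine ((Complex.continuous_ofReal.tendsto r).comp
    (Real.tendsto_tsum_powerSeries_nhdsWithin_lt h.tendsto_sum_nat)).congr fun x => ?_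
  simp [Li, Complex.ofReal_tsum]

def d1 (s : ℕ) (a : SignType) : Word := List.replicate (s - 1) 0 ++ [a]
def zs (s : ℕ) (a : SignType) (t : ℕ) (b : SignType) : Word :=
  List.replicate (t - 1) 0 ++ b :: d1 s (a * b)

noncomputable def z1 (s : ℕ) (a : SignType) (m : ℕ) : ℝ := (a : ℝ) ^ m / m ^ s
noncomputable def z2 (s : ℕ) (a : SignType) (t : ℕ) (b : SignType) (x : ℕ × ℕ) : ℝ :=
  if x.1 < x.2 then z1 s a x.1 * z1 t b x.2 else 0
noncomputable def Z1 (s : ℕ) (a : SignType) : ℝ := ∑' m, z1 s a m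
noncomputable def Z2 (s : ℕ) (a : SignType) (t : ℕ) (b : SignType) : ℝ := ∑' x, z2 s a t b x

theorem cf_replicate (k : ℕ) (w : Word) (m : ℕ) :
    cf (List.replicate k 0 ++ w) m = cf w m / m ^ k := by
  induction k with
  | zero => simp
  | succ k ih => rw [List.replicate_succ, List.cons_append, cf, if_pos rfl, ih, div_div, pow_succ]

theorem cf_d1 {s : ℕ} (hs : 1 ≤ s) {a : SignType} (ha : a ≠ 0) (m : ℕ) :
    cf (d1 s a) m = -z1 s a m := by
  obtain ⟨k, rfl⟩ : ∃ k, s = k + 1 := ⟨s - 1, by omega⟩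
  rw [d1, cf_replicate, cf, if_neg ha, z1]
  rcases Nat.eq_zero_or_pos m with rfl | hm
  · simp
  · rw [Finset.sum_eq_single 0] <;> simp +contextual [cf, hm.ne', div_div, pow_succ', neg_div]

theorem cf_zs {s t : ℕ} (hs : 1 ≤ s) (ht : 1 ≤ t) {a b : SignType} (ha : a ≠ 0) (hb : b ≠ 0)
    (n : ℕ) : cf (zs s a t b) n = ∑ k ∈ Finset.range n, z2 s a t b (k, n) := by
  obtain ⟨j, rfl⟩ : ∃ j, t = j + 1 := ⟨t - 1, by omega⟩
  rw [zs, cf_replicate, cf, if_neg hb, ← Finset.sum_neg_distrib, Finset.sum_div, Finset.sum_div]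
  refine Finset.sum_congr rfl fun k hk => ?_
  have hk' := Finset.mem_range.mp hk
  obtain ⟨i, rfl⟩ : ∃ i, n = k + i := ⟨n - k, by omega⟩
  have h2 : ((b : ℝ) ^ k) ^ 2 = 1 := by
    rw [← pow_mul, mul_comm, pow_mul]; cases b <;> simp_all
  rw [cf_d1 hs (mul_ne_zero ha hb), z2, if_pos hk', z1, z1, z1, Nat.add_sub_cancel_left,
    Nat.add_sub_cancel, SignType.coe_mul, mul_pow, pow_add, pow_succ]
  ring

theorem abs_z1 (s : ℕ) (a : SignType) (m : ℕ) : |z1 s a m| ≤ 1 / m ^ s := by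
  rw [z1, abs_div, abs_pow, abs_of_nonneg (by positivity : (0 : ℝ) ≤ m ^ s)]
  gcongr
  exact pow_le_one₀ (abs_nonneg _) (abs_sign_le a)

theorem summable_z1 {s : ℕ} (hs : 2 ≤ s) (a : SignType) : Summable (z1 s a) :=
  .of_norm_bounded (summable_one_div_nat_pow.mpr hs) (abs_z1 s a)

/-- the range of convergence used -/
def OK2 (s t : ℕ) : Prop := 1 ≤ s ∧ 2 ≤ t ∧ 4 ≤ s + t

instance (s t : ℕ) : Decidable (OK2 s t) := by unfold OK2; infer_instance

theorem summable_z2 {s t : ℕ} (h : OK2 s t) (a b : SignType) : Summable (z2 s a t b) := by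
  have h2 := summable_one_div_nat_pow.mpr (show 1 < 2 by norm_num)
  refine .of_norm_bounded (h2.mul_of_nonneg h2 (fun _ => by positivity) fun _ => by positivity) ?_
  rintro ⟨m, n⟩
  rw [z2]
  split_ifs with hmn
  · simp only at hmn ⊢
    rw [Real.norm_eq_abs, abs_mul]
    refine (mul_le_mul (abs_z1 _ _ _) (abs_z1 _ _ _) (abs_nonneg _) (by positivity)).trans ?_
    obtain ⟨h3, h4, h5⟩ := h
    rcases Nat.eq_zero_or_pos m with rfl | hm
    · simp [show s ≠ 0 by omega]
    have hm' : (1 : ℝ) ≤ m := by exact_mod_cast hm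
    have hn' : (m : ℝ) ≤ n := by exact_mod_cast hmn.le
    rw [one_div_mul_one_div, one_div_mul_one_div]
    have hn1 := hm'.trans hn'
    refine one_div_le_one_div_of_le (by positivity) ?_
    rcases h3.eq_or_lt with rfl | h3
    · calc (m : ℝ) ^ 2 * (n : ℝ) ^ 2 = (m : ℝ) ^ 1 * (m * (n : ℝ) ^ 2) := by ring
        _ ≤ (m : ℝ) ^ 1 * (n * (n : ℝ) ^ 2) := by gcongr
        _ ≤ _ := by
          rw [← pow_succ']
          exact mul_le_mul_of_nonneg_left (pow_le_pow_right₀ hn1 (by omega)) (by positivity)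
    · exact mul_le_mul (pow_le_pow_right₀ hm' h3) (pow_le_pow_right₀ hn1 h4) (by positivity)
        (by positivity)
  · simp only [norm_zero]; positivity

theorem Φ_d1 {s : ℕ} (hs : 2 ≤ s) {a : SignType} (ha : a ≠ 0) : Φ (d1 s a) = -Z1 s a := by
  obtain ⟨k, rfl⟩ : ∃ k, s = k + 2 := ⟨s - 2, by omega⟩
  rw [← Complex.ofReal_neg]
  refine Φ_of_hasSum (by simp [d1, List.replicate_succ]) (by simpa [d1] using ha) ?_
  exact (summable_z1 hs a).hasSum.neg.congr_fun (cf_d1 (by omega) ha)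

theorem Φ_zs {s t : ℕ} (h : OK2 s t) {a b : SignType} (ha : a ≠ 0) (hb : b ≠ 0) :
    Φ (zs s a t b) = Z2 s a t b := by
  obtain ⟨k, rfl⟩ : ∃ k, t = k + 2 := ⟨t - 2, by have := h.2.1; omega⟩
  refine Φ_of_hasSum (by simp [zs, List.replicate_succ]) ?_ ?_
  · rw [zs, d1, ← List.cons_append, ← List.append_assoc, List.getLast?_concat]
    simpa using ⟨ha, hb⟩
  · have h1 := (Equiv.prodComm ℕ ℕ).hasSum_iff.mpr (summable_z2 h a b).hasSum
    refine h1.prod_fiberwise fun n => ?_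
    rw [cf_zs h.1 (by omega) ha hb]
    exact hasSum_sum_of_ne_finset_zero fun m hm => by simp [z2, show ¬ m < n by simpa using hm]

theorem z1_two_mul (s m : ℕ) {a : SignType} (ha : a ≠ 0) : z1 s a (2 * m) = z1 s 1 m / 2 ^ s := by
  have : (a : ℝ) ^ 2 = 1 := by cases a <;> simp_all
  simp only [z1, pow_mul, this, SignType.coe_one, one_pow, Nat.cast_mul, Nat.cast_ofNat, mul_pow]
  ring

theorem z1_odd (s : ℕ) {m : ℕ} (h : Odd m) : z1 s (-1) m = -z1 s 1 m := by
  simp [z1, h.neg_one_pow, neg_div]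

theorem z1_even (s : ℕ) {m : ℕ} (h : Even m) : z1 s (-1) m = z1 s 1 m := by
  simp [z1, h.neg_one_pow]

theorem rel_d1 {s : ℕ} (hs : 2 ≤ s) : Z1 s (-1) = (2 / 2 ^ s - 1) * Z1 s 1 := by
  have h1 := (summable_z1 hs 1).hasSum.add (summable_z1 hs (-1)).hasSum
  have h2 := (Function.Injective.hasSum_iff (g := fun m : ℕ => 2 * m)
    (f := fun m => z1 s 1 m + z1 s (-1) m) (a := 2 / 2 ^ s * Z1 s 1)
    (fun x y h => by simpa using h) fun m hm => by
      rw [z1_odd s (Nat.not_even_iff_odd.mp fun ⟨k, hk⟩ => hm ⟨k, by simp only; omega⟩), add_neg_cancel]).mp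
    (((summable_z1 hs 1).hasSum.mul_left (2 / 2 ^ s)).congr_fun fun m => by
      simp only [Function.comp_apply, z1_two_mul s m (a := 1) (by simp),
        z1_two_mul s m (a := -1) (by simp)]
      ring)
  have := h1.unique h2
  unfold Z1 at *
  linear_combination this

theorem rel_ze {k : ℕ} (hk : k ≠ 0) : Z1 (2 * k) 1 =
    ((-1) ^ (k + 1) * 2 ^ (2 * k - 1) * bernoulli (2 * k) / (2 * k).factorial : ℚ) * π ^ (2 * k) := by
  have : Z1 (2 * k) 1 = ∑' n : ℕ, 1 / (n : ℝ) ^ (2 * k) := by simp [Z1, z1]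
  rw [this, (hasSum_zeta_nat hk).tsum_eq]
  push_cast; ring

theorem hasSum_diag {f : ℕ → ℝ} {r : ℝ} (h : HasSum f r) :
    HasSum (fun x : ℕ × ℕ => if x.1 = x.2 then f x.1 else 0) r :=
  (Function.Injective.hasSum_iff (g := fun m : ℕ => (m, m)) (fun x y h => by simpa using h)
    fun x hx => if_neg fun h => hx ⟨x.1, Prod.ext rfl h⟩).mp (by simpa [Function.comp_def] using h)

theorem rel_st {s t : ℕ} (hs : 2 ≤ s) (ht : 2 ≤ t) (a b : SignType) :
    Z2 s a t b + Z2 t b s a + Z1 (s + t) (a * b) = Z1 s a * Z1 t b := by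
  have h1 := (summable_z2 (s := s) (t := t) ⟨by omega, ht, by omega⟩ a b).hasSum
  have h2 := (Equiv.prodComm ℕ ℕ).hasSum_iff.mpr
    (summable_z2 (s := t) (t := s) ⟨by omega, hs, by omega⟩ b a).hasSum
  have h3 := hasSum_diag (summable_z1 (s := s + t) (by omega) (a * b)).hasSum
  have h4 := (summable_z1 hs a).hasSum.mul (summable_z1 ht b).hasSum
    (summable_mul_of_summable_norm (summable_z1 hs a).norm (summable_z1 ht b).norm)
  refine ((h1.add h2).add h3).unique (h4.congr_fun ?_)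
  rintro ⟨m, n⟩
  rcases lt_trichotomy m n with h | rfl | h
  · simp [z2, h, h.ne, h.not_gt]
  · simp only [z2, lt_irrefl, if_false, if_true, Function.comp_apply, Equiv.prodComm_apply,
      Prod.swap, z1, SignType.coe_mul, mul_pow, pow_add]
    ring
  · simp [z2, h, h.ne', h.not_gt, mul_comm]

theorem rel_dist {s t : ℕ} (h : OK2 s t) :
    Z2 s 1 t 1 + Z2 s 1 t (-1) + Z2 s (-1) t 1 + Z2 s (-1) t (-1) = 4 / 2 ^ (s + t) * Z2 s 1 t 1 := by
  have h1 := (((summable_z2 h 1 1).hasSum.add (summable_z2 h 1 (-1)).hasSum).add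
    (summable_z2 h (-1) 1).hasSum).add (summable_z2 h (-1) (-1)).hasSum
  refine h1.unique ((Function.Injective.hasSum_iff (g := fun x : ℕ × ℕ => (2 * x.1, 2 * x.2))
    (fun x y h => by simpa [Prod.ext_iff] using h) ?_).mp
    (((summable_z2 h 1 1).hasSum.mul_left (4 / 2 ^ (s + t))).congr_fun fun x => ?_))
  · rintro ⟨m, n⟩ hx
    simp only [z2]
    split_ifs
    · rcases Nat.even_or_odd m with hm | hm
      · rcases Nat.even_or_odd n with hn | hn
        · obtain ⟨i, rfl⟩ := hm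
          obtain ⟨j, rfl⟩ := hn
          exact absurd ⟨(i, j), by simp [two_mul]⟩ hx
        · rw [z1_odd t hn]; ring
      · rw [z1_odd s hm]; ring
    · simp
  · simp only [Function.comp_apply, z2, z1_two_mul _ _ (a := 1) (by simp),
      z1_two_mul _ _ (a := -1) (by simp), Nat.mul_lt_mul_left two_pos, pow_add]
    split_ifs
    · ring
    · simp

/-- partial fractions -/
def pf : ℕ → ℕ → ℕ → List (Bool × ℕ)
  | 0, _, _ => [(false, 0)]
  | _ + 1, 0, b => [(true, b)]
  | _ + 1, a + 1, 0 => [(false, a + 1)]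
  | n + 1, a + 1, b + 1 => pf n a (b + 1) ++ pf n (a + 1) b

theorem pf_spec {x y : ℝ} (hx : 0 < x) (hy : 0 < y) (N : ℕ) : ∀ n a b, a + b ≤ n → a + b ≤ N →
    1 / (x ^ a * y ^ b * (x + y) ^ (N - (a + b))) = ((pf n a b).map fun e =>
      1 / ((if e.1 then y else x) ^ e.2 * (x + y) ^ (N - e.2))).sum
  | 0, a, b, h, _ => by
    obtain rfl : a = 0 := by omega
    obtain rfl : b = 0 := by omega
    simp [pf]
  | _ + 1, 0, b, _, _ => by simp [pf]
  | _ + 1, a + 1, 0, _, _ => by simp [pf]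
  | n + 1, a + 1, b + 1, h, h' => by
    rw [pf, List.map_append, List.sum_append, ← pf_spec hx hy N n _ _ (by omega) (by omega),
      ← pf_spec hx hy N n _ _ (by omega) (by omega),
      show N - (a + (b + 1)) = N - (a + 1 + (b + 1)) + 1 by omega,
      show N - (a + 1 + b) = N - (a + 1 + (b + 1)) + 1 by omega]
    have : x + y ≠ 0 := by positivity
    field_simp
    ring

noncomputable def gv (N : ℕ) (e : Bool × ℕ) : ℝ :=
  if e.1 then (Z2 e.2 1 (N - e.2) 1 + Z2 e.2 1 (N - e.2) (-1)) / 2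
    - Z2 e.2 1 (N - e.2) 1 / 2 ^ (N - e.2) - Z1 N 1 / 2 ^ (N - e.2)
  else Z2 e.2 1 (N - e.2) 1 / 2 ^ (N - e.2)

theorem hasSum_gv {N : ℕ} {e : Bool × ℕ} (h : OK2 e.2 (N - e.2)) :
    HasSum (fun q : ℕ × ℕ => 1 / ((if e.1 then ((q.1 + 2 * q.2 + 3 : ℕ) : ℝ) else (q.1 + 1 : ℕ)) ^ e.2
      * (((q.1 + 1 : ℕ) : ℝ) + (q.1 + 2 * q.2 + 3 : ℕ)) ^ (N - e.2))) (gv N e) := by
  obtain ⟨β, i⟩ := e
  obtain ⟨h1, h2, h3⟩ := id h
  simp only at h h1 h2 h3
  have h4 := (summable_z2 h 1 1).hasSum.div_const (2 ^ (N - i))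
  have h0 : z1 i 1 0 = 0 := by simp [z1, show i ≠ 0 by omega]
  cases β
  · refine ((Function.Injective.hasSum_iff (g := fun q : ℕ × ℕ => (q.1 + 1, q.1 + q.2 + 2))
      (fun x y h => by simp only [Prod.ext_iff] at h ⊢; omega) ?_).mpr h4).congr_fun fun q => ?_
    · rintro ⟨m, n⟩ hx
      simp only [z2]
      split_ifs with hmn
      · rcases Nat.eq_zero_or_pos m with rfl | hm
        · simp [h0]
        · exact absurd ⟨(m - 1, n - m - 1), by simp only [Prod.ext_iff]; omega⟩ hx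
      · simp
    · simp only [Function.comp_apply, z2, z1, if_pos (show q.1 + 1 < q.1 + q.2 + 2 by omega)]
      rw [show (((q.1 + 1 : ℕ) : ℝ) + (q.1 + 2 * q.2 + 3 : ℕ)) = 2 * (q.1 + q.2 + 2 : ℕ) by
        push_cast; ring, mul_pow]
      simp only [Bool.false_eq_true, if_false, SignType.coe_one, one_pow]
      ring
  · have h5 := (Function.Injective.hasSum_iff (g := fun q : ℕ × ℕ => (q.1, 2 * q.2))
      (fun x y h => by simp only [Prod.ext_iff] at h ⊢; omega) (by
        rintro ⟨m, n⟩ hx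
        simp only [z2]
        rw [z1_odd _ (Nat.not_even_iff_odd.mp fun ⟨k, hk⟩ => hx ⟨(m, k), by simp; omega⟩)]
        split_ifs <;> simp)).mpr
      (((summable_z2 h 1 1).hasSum.add (summable_z2 h 1 (-1)).hasSum).div_const 2)
    have h6 := hasSum_diag ((summable_z1 (s := N) (by omega) 1).hasSum.div_const (2 ^ (N - i)))
    refine ((Function.Injective.hasSum_iff
      (g := fun q : ℕ × ℕ => (q.1 + 2 * q.2 + 3, q.1 + q.2 + 2))
      (fun x y h => by simp only [Prod.ext_iff] at h ⊢; omega) ?_).mpr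
        ((h5.sub h4).sub h6)).congr_fun fun q => ?_
    · rintro ⟨y, p⟩ hx
      simp only [Function.comp_apply, z2, z1_two_mul _ _ (a := 1) (by simp),
        z1_two_mul _ _ (a := -1) (by simp)]
      rcases lt_trichotomy y p with h' | rfl | h'
      · simp only [if_pos h', if_pos (show y < 2 * p by omega), if_neg h'.ne]; ring
      · rcases Nat.eq_zero_or_pos y with rfl | hy
        · simp [z1, show N ≠ 0 by omega]
        · have : z1 N 1 y = z1 i 1 y * z1 (N - i) 1 y := by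
            simp only [z1, SignType.coe_one, one_pow]
            rw [one_div_mul_one_div, ← pow_add, show i + (N - i) = N by omega]
          simp only [lt_irrefl, if_false, if_true, if_pos (show y < 2 * y by omega), this]
          ring
      · have : ¬ y < 2 * p := fun h'' =>
          hx ⟨(2 * p - y - 1, y - p - 1), by simp only [Prod.ext_iff]; omega⟩
        simp [this, h'.ne', h'.not_gt]
    · simp only [Function.comp_apply, z2, z1_two_mul _ _ (a := 1) (by simp),
        z1_two_mul _ _ (a := -1) (by simp),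
        if_pos (show q.1 + 2 * q.2 + 3 < 2 * (q.1 + q.2 + 2) by omega),
        if_neg (show ¬ q.1 + 2 * q.2 + 3 < q.1 + q.2 + 2 by omega),
        if_neg (show ¬ q.1 + 2 * q.2 + 3 = q.1 + q.2 + 2 by omega)]
      rw [show (((q.1 + 1 : ℕ) : ℝ) + (q.1 + 2 * q.2 + 3 : ℕ)) = 2 * (q.1 + q.2 + 2 : ℕ) by
        push_cast; ring, mul_pow]
      simp only [z1, if_true, SignType.coe_one, one_pow]
      ring

theorem rel_gdr {s t : ℕ} (h : OK2 s t) (h' : ∀ e ∈ pf (s + t) s t, OK2 e.2 (s + t - e.2)) :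
    (Z2 s 1 t 1 + Z2 s (-1) t (-1)) / 2 = ((pf (s + t) s t).map (gv (s + t))).sum := by
  have h1 := (Function.Injective.hasSum_iff (g := fun q : ℕ × ℕ => (q.1 + 1, q.1 + 2 * q.2 + 3))
    (fun x y h => by simp only [Prod.ext_iff] at h ⊢; omega) (by
      rintro ⟨m, n⟩ hx
      simp only [z2]
      split_ifs with hmn
      · rcases Nat.eq_zero_or_pos m with rfl | hm
        · simp [z1, show s ≠ 0 by have := h.1; omega]
        · have : ¬ (m % 2 = n % 2) := fun h'' =>
            hx ⟨(m - 1, (n - m - 2) / 2), by simp only [Prod.ext_iff]; omega⟩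
          rcases Nat.even_or_odd m with hm | hm
          · rw [z1_even _ hm, z1_odd _ (Nat.odd_iff.mpr (by rw [Nat.even_iff] at hm; omega))]; ring
          · rw [z1_odd _ hm, z1_even _ (Nat.even_iff.mpr (by rw [Nat.odd_iff] at hm; omega))]; ring
      · simp)).mpr (((summable_z2 h 1 1).hasSum.add (summable_z2 h (-1) (-1)).hasSum).div_const 2)
  refine h1.unique ?_
  have h2 : ∀ L : List (Bool × ℕ), (∀ e ∈ L, OK2 e.2 (s + t - e.2)) → HasSum (fun q : ℕ × ℕ =>
      (L.map fun e => 1 / ((if e.1 then ((q.1 + 2 * q.2 + 3 : ℕ) : ℝ) else (q.1 + 1 : ℕ)) ^ e.2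
      * (((q.1 + 1 : ℕ) : ℝ) + (q.1 + 2 * q.2 + 3 : ℕ)) ^ (s + t - e.2))).sum)
      (L.map (gv (s + t))).sum := by
    intro L hL
    induction L with
    | nil => simp [hasSum_zero]
    | cons e L ih =>
      simp only [List.map_cons, List.sum_cons]
      exact (hasSum_gv (hL e (by simp))).add (ih fun e he => hL e (by simp [he]))
  refine (h2 _ h').congr_fun fun q => ?_
  rw [← pf_spec (by positivity) (by positivity) _ _ _ _ le_rfl le_rfl]
  simp only [Function.comp_apply, z2, if_pos (show q.1 + 1 < q.1 + 2 * q.2 + 3 by omega)]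
  rcases Nat.even_or_odd q.1 with hq | hq
  · rw [z1_odd _ hq.add_one, z1_odd _ (by rw [Nat.odd_iff]; rw [Nat.even_iff] at hq; omega)]
    simp [z1]; ring
  · rw [z1_even _ hq.add_one, z1_even _ (by rw [Nat.even_iff]; rw [Nat.odd_iff] at hq; omega)]
    simp [z1]; ring

end Pool.Agent.Lib.MP_e8750f_nt
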