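import Pool.Agent.Lib.MP_e8750f_nt.Shuffle

/-! Derivations of series rings. -/

namespace Pool.Agent.Lib.MP_e8750f_nt

set_option linter.unusedSectionVars false

open Ser

variable {α : Type} [DecidableEq α] [Fintype α]

section General
variable {R : Type} [Ring R]

def dF (c : α → Ser α R) : List α → Ser α R → R
  | [], _ => 0
  | b :: w, F => (∑ a, c a * der a F : Ser α R) (b :: w) + dF c w (der b F)

/-- the continuous derivation sending `e a` to `c a` -/
def dS (c : α → Ser α R) (F : Ser α R) : Ser α R := fun w => dF c w F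

@[simp] theorem dS_nil (c : α → Ser α R) (F : Ser α R) : dS c F [] = 0 := rfl
theorem dS_cons (c : α → Ser α R) (F : Ser α R) (b : α) (w : List α) :
    dS c F (b :: w) = (∑ a, c a * der a F : Ser α R) (b :: w) + dS c (der b F) w := rfl

theorem dS_add (c : α → Ser α R) (F G : Ser α R) : dS c (F + G) = dS c F + dS c G := by
  ext w
  induction w generalizing F G with
  | nil => simp
  | cons b w ih =>
    rw [add_app, dS_cons, dS_cons, dS_cons, der_add, ih]
    simp only [der_add, mul_add, Finset.sum_add_distrib, add_app]; abel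

theorem dS_zero (c : α → Ser α R) : dS c (0 : Ser α R) = 0 := by
  ext w
  induction w with
  | nil => simp
  | cons b w ih => rw [dS_cons, der_zero, ih]; simp

/-- `dS` as an additive map -/
def dA (c : α → Ser α R) : Ser α R →+ Ser α R where
  toFun := dS c
  map_zero' := dS_zero c
  map_add' := dS_add c

theorem dS_sub (c : α → Ser α R) (F G : Ser α R) : dS c (F - G) = dS c F - dS c G :=
  (dA c).map_sub F G
theorem dS_sum {ι : Type} (c : α → Ser α R) (s : Finset ι) (F : ι → Ser α R) :
    dS c (∑ i ∈ s, F i) = ∑ i ∈ s, dS c (F i) := map_sum (dA c) F s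

theorem dS_C (c : α → Ser α R) (x : R) : dS c (C x) = 0 := by
  ext w
  cases w with
  | nil => simp
  | cons b w => rw [dS_cons]; simp [dS_zero]

theorem dS_one (c : α → Ser α R) : dS c 1 = 0 := by rw [← C_one, dS_C]

theorem dS_expand (c : α → Ser α R) (h0 : ∀ a, c a [] = 0) (F : Ser α R) :
    dS c F = ∑ a, c a * der a F + ∑ a, e a * dS c (der a F) := by
  ext w
  cases w with
  | nil => simp [sum_app, h0]
  | cons b w => rw [dS_cons]; simp [sum_app, e_mul_cons]

theorem dS_lsc (c : α → Ser α R) (hc : ∀ a x, C x * c a = c a * C x) (x : R) (F : Ser α R) :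
    dS c (C x * F) = C x * dS c F := by
  ext w
  induction w generalizing F with
  | nil => simp
  | cons b w ih =>
    have h1 : ∀ a, der a (C x * F) = C x * der a F := fun a => by rw [C_mul, C_mul]; rfl
    rw [dS_cons, h1, ih]
    simp only [h1, ← mul_assoc, ← hc]
    simp only [mul_assoc, ← Finset.mul_sum]
    simp only [C_mul, lsc_apply, dS_cons, mul_add]

theorem dS_mul (c : α → Ser α R) (h0 : ∀ a, c a [] = 0) (hc : ∀ a x, C x * c a = c a * C x)
    (F G : Ser α R) : dS c (F * G) = dS c F * G + F * dS c G := by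
  ext w
  induction w generalizing F with
  | nil => simp
  | cons b w ih =>
    have h1 : ∀ a, der a (F * G) = C (F []) * der a G + der a F * G := fun a => by
      rw [der_mul, C_mul]
    have h2 : (∑ a, c a * der a (F * G) : Ser α R)
        = C (F []) * (∑ a, c a * der a G) + (∑ a, c a * der a F) * G := by
      simp only [h1, mul_add, Finset.sum_add_distrib, Finset.mul_sum, Finset.sum_mul, ← mul_assoc, hc]
    have h3 : der b (dS c F) = der b (∑ a, c a * der a F) + dS c (der b F) := rfl
    have h4 : (∑ a, c a * der a F : Ser α R) [] = 0 := by simp [sum_app, h0]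
    rw [dS_cons, h2, h1, dS_add, dS_lsc c hc, add_app, add_app, ih, add_app, add_app,
      mul_cons (dS c F), mul_cons F, h3, add_mul, add_app, mul_cons (∑ a, c a * der a F), h4,
      dS_cons c G]
    simp only [C_mul, lsc_apply, dS_nil, zero_mul, zero_add, mul_add]
    abel

theorem dS_e (c : α → Ser α R) (h0 : ∀ a, c a [] = 0) (a : α) : dS c (e a) = c a := by
  rw [dS_expand c h0]
  simp only [der_e]
  rw [Finset.sum_eq_single a, Finset.sum_eq_zero]
  · simp
  · intro b _; split_ifs <;> simp [dS_one, dS_zero]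
  · intro b _ hb; simp [hb]
  · simp

theorem van_der {n : ℕ} {F : Ser α R} (h : Van (n + 1) F) (a : α) : Van n (der a F) :=
  fun w hw => h _ (by simp; omega)

theorem van_dS (c : α → Ser α R) (h2 : ∀ a, Van 2 (c a)) {n : ℕ} {F : Ser α R} (h : Van n F) :
    Van (n + 1) (dS c F) := by
  intro w hw
  induction w generalizing n F with
  | nil => simp
  | cons b w ih =>
    obtain ⟨m, rfl⟩ : ∃ m, n = m + 1 := ⟨n - 1, by simp at hw; omega⟩
    rw [dS_cons, ih (van_der h b) (by simp at hw; omega), sum_app, Finset.sum_eq_zero, add_zero]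
    intro a _
    exact van_mul (h2 a) (van_der h a) _ (by omega)

end General

theorem dS_smul (c : α → Ser α ℂ) (x : ℂ) (F : Ser α ℂ) : dS c (x • F) = x • dS c F := by
  rw [← C_mul_eq_smul, ← C_mul_eq_smul, dS_lsc]
  intro a y
  ext w; rw [C_mul, mul_C_apply, lsc_apply, mul_comm]

theorem dS_mul' (c : α → Ser α ℂ) (h0 : ∀ a, c a [] = 0) (F G : Ser α ℂ) :
    dS c (F * G) = dS c F * G + F * dS c G :=
  dS_mul c h0 (fun a y => by ext w; rw [C_mul, mul_C_apply, lsc_apply, mul_comm]) F G

/-- the derivation on the second factor -/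
noncomputable def mapd (c : α → Ser α ℂ) (X : Ser2 α) : Ser2 α := fun u => dS c (X u)

/-- the derivation on the tensor square -/
noncomputable def d2 (c : α → Ser α ℂ) (X : Ser2 α) : Ser2 α :=
  dS (fun a => inl (c a)) X + mapd c X

theorem d2_add (c : α → Ser α ℂ) (X Y : Ser2 α) : d2 c (X + Y) = d2 c X + d2 c Y := by
  have : mapd c (X + Y) = mapd c X + mapd c Y := by ext1 u; exact dS_add _ _ _
  rw [d2, d2, d2, dS_add, this]; abel

theorem d2_zero (c : α → Ser α ℂ) : d2 c 0 = 0 := by
  have : mapd c 0 = 0 := by ext1 u; exact dS_zero _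
  rw [d2, dS_zero, this, add_zero]

noncomputable def d2A (c : α → Ser α ℂ) : Ser2 α →+ Ser2 α where
  toFun := d2 c
  map_zero' := d2_zero c
  map_add' := d2_add c

theorem d2_mul (c : α → Ser α ℂ) (h0 : ∀ a, c a [] = 0) (X Y : Ser2 α) :
    d2 c (X * Y) = d2 c X * Y + X * d2 c Y := by
  have h1 : mapd c (X * Y) = mapd c X * Y + X * mapd c Y := by
    ext1 u
    rw [mapd, add_app, mul_app, mul_app, mul_app, dS_sum, ← Finset.sum_add_distrib]
    exact Finset.sum_congr rfl fun i _ => dS_mul' c h0 _ _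
  have h2 := dS_mul (fun a => inl (c a)) (fun a => by simp [inl, h0, C_zero])
    (fun a x => (inl_inr_comm (c a) x).symm) X Y
  rw [d2, d2, d2, h1, h2, add_mul, mul_add]; abel

theorem d2_inl (c : α → Ser α ℂ) (F : Ser α ℂ) : d2 c (inl F) = inl (dS c F) := by
  have h1 : mapd c (inl F) = 0 := by ext1 u; exact dS_C _ _
  have h2 : dS (fun a => inl (c a)) (inl F) = inl (dS c F) := by
    clear h1
    ext1 w
    induction w generalizing F with
    | nil => simp [inl, C_zero]
    | cons b w ih =>
      have h3 : ∀ a, der a (inl F) = inl (der a F) := fun a => rfl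
      rw [dS_cons, h3, ih]
      simp only [h3, ← inl_mul, sum_app, inl, dS_cons, C_add, C_sum]
  rw [d2, h1, h2, add_zero]

theorem d2_inr (c : α → Ser α ℂ) (F : Ser α ℂ) : d2 c (inr F) = inr (dS c F) := by
  have h1 : mapd c (inr F) = inr (dS c F) := by
    ext1 u
    cases u with
    | nil => simp [mapd, inr]
    | cons a u => simp [mapd, inr, dS_zero]
  rw [d2, h1, inr, dS_C, zero_add]

theorem van2_d2 (c : α → Ser α ℂ) (h2 : ∀ a, Van 2 (c a)) {n : ℕ} {X : Ser2 α} (h : Van2 n X) :
    Van2 (n + 1) (d2 c X) := by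
  refine Van2.add ?_ ?_
  · intro u v huv
    induction u generalizing n X with
    | nil => simp
    | cons b u ih =>
      obtain ⟨m, rfl⟩ : ∃ m, n = m + 1 := ⟨n - 1, by simp at huv; omega⟩
      have hd : ∀ a, Van2 m (der a X) := fun a u v h' => h _ _ (by simp; omega)
      rw [dS_cons, add_app, ih (hd b) (by simp at huv; omega), sum_app, sum_app,
        Finset.sum_eq_zero, add_zero]
      intro a _
      refine van2_mul (m := 2) (fun u v h' => ?_) (hd a) _ _ (by omega)
      cases v with
      | nil => simpa using h2 a u (by simpa using h')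
      | cons b v => simp
  · intro u v huv
    by_cases hu : u.length ≤ n
    · exact van_dS c h2 (n := n - u.length) (fun w hw => h u w (by omega)) v (by omega)
    · omega

/-- the commutators `[e a, p a]` -/
noncomputable def comm (p : α → Ser α ℂ) (a : α) : Ser α ℂ := e a * p a - p a * e a

theorem van_one {F : Ser α ℂ} (h : F [] = 0) : Van 1 F := fun w hw => by
  obtain rfl : w = [] := List.length_eq_zero_iff.mp (by omega)
  exact h

theorem van_comm {p : α → Ser α ℂ} (h : ∀ a, p a [] = 0) (a : α) : Van 2 (comm p a) := by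
  intro w hw
  rw [comm, sub_app, van_mul (van_one (e_nil a)) (van_one (h a)) w hw,
    van_mul (van_one (h a)) (van_one (e_nil a)) w hw, sub_zero]

theorem comm_nil (p : α → Ser α ℂ) (a : α) : comm p a [] = 0 := by simp [comm]

theorem cop_comm {p : α → Ser α ℂ} (h : ∀ a, IsLie (p a)) (a : α) :
    cop (comm p a) = inl (comm p a) + inr (comm p a) := by
  rw [comm, cop_sub, cop_mul, cop_mul, cop_e, h a, de, inl_sub, inr_sub, inl_mul, inl_mul, inr_mul,
    inr_mul]
  simp only [add_mul, mul_add, inl_inr_comm]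
  abel

theorem cop_dS {p : α → Ser α ℂ} (h : ∀ a, IsLie (p a)) (F : Ser α ℂ) :
    cop (dS (comm p) F) = d2 (comm p) (cop F) := by
  have := fix_zero (fun F => cop (dS (comm p) F) - d2 (comm p) (cop F)) (fun F => by
    have h1 : cop (dS (comm p) F) = ∑ a, cop (comm p a) * cop (der a F)
        + ∑ a, de a * cop (dS (comm p) (der a F)) := by
      rw [dS_expand _ (comm_nil p), cop_add, cop_sum, cop_sum]
      simp only [cop_mul, cop_e]
    have h3 : ∀ a, d2 (comm p) (de a) = cop (comm p a) := fun a => by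
      rw [de, d2_add, d2_inl, d2_inr, dS_e _ (comm_nil p), cop_comm h]
    have h2 : d2 (comm p) (cop F) = ∑ a, cop (comm p a) * cop (der a F)
        + ∑ a, de a * d2 (comm p) (cop (der a F)) := by
      conv_lhs => rw [cop_expand F]
      have h4 : d2 (comm p) (C (C (F []))) = 0 := by
        have := d2_inr (comm p) (C (F []))
        rwa [dS_C, inr_zero] at this
      have h5 := map_sum (d2A (comm p)) (fun a => de a * cop (der a F)) Finset.univ
      rw [d2_add, h4, zero_add]
      refine h5.trans ?_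
      rw [← Finset.sum_add_distrib]
      refine Finset.sum_congr rfl fun a _ => ?_
      exact (d2_mul _ (comm_nil p) _ _).trans (by rw [h3])
    rw [h1, h2]
    simp only [mul_sub, Finset.sum_sub_distrib]
    abel) F
  exact sub_eq_zero.mp this

/-- the twisted derivation `F ↦ q F + d F` -/
noncomputable def sOp (p : α → Ser α ℂ) (q : Ser α ℂ) (F : Ser α ℂ) : Ser α ℂ :=
  q * F + dS (comm p) F

theorem sOp_add (p : α → Ser α ℂ) (q F G : Ser α ℂ) : sOp p q (F + G) = sOp p q F + sOp p q G := by
  rw [sOp, sOp, sOp, dS_add, mul_add]; abel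

theorem sOp_smul (p : α → Ser α ℂ) (q : Ser α ℂ) (x : ℂ) (F : Ser α ℂ) :
    sOp p q (x • F) = x • sOp p q F := by
  rw [sOp, sOp, dS_smul, mul_smul_comm, smul_add]

/-- `sOp` as a linear map -/
noncomputable def sL (p : α → Ser α ℂ) (q : Ser α ℂ) : Ser α ℂ →ₗ[ℂ] Ser α ℂ where
  toFun := sOp p q
  map_add' := sOp_add p q
  map_smul' := sOp_smul p q

theorem sOp_mul (p : α → Ser α ℂ) (q F G : Ser α ℂ) :
    sOp p q (F * G) = sOp p q F * G + F * sOp p 0 G := by
  rw [sOp, sOp, sOp, dS_mul' _ (comm_nil p), add_mul, zero_mul, zero_add, mul_assoc, add_assoc]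

theorem sOp_e_mul (p : α → Ser α ℂ) (a : α) (F : Ser α ℂ) :
    sOp p (p a) (e a * F) = e a * sOp p (p a) F := by
  rw [sOp, sOp, dS_mul' _ (comm_nil p), dS_e _ (comm_nil p), comm]
  noncomm_ring

theorem van_sOp {p : α → Ser α ℂ} (h : ∀ a, p a [] = 0) {q : Ser α ℂ} (hq : q [] = 0) {n : ℕ}
    {F : Ser α ℂ} (hF : Van n F) : Van (n + 1) (sOp p q F) := by
  intro w hw
  rw [sOp, add_app, van_mul (van_one hq) hF w (by omega), van_dS _ (van_comm h) hF w hw, add_zero]

/-- the twisted derivation on the tensor square -/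
noncomputable def s2 (p : α → Ser α ℂ) (q : Ser α ℂ) (X : Ser2 α) : Ser2 α :=
  (inl q + inr q) * X + d2 (comm p) X

theorem cop_sOp {p : α → Ser α ℂ} (h : ∀ a, IsLie (p a)) {q : Ser α ℂ} (hq : IsLie q)
    (F : Ser α ℂ) : cop (sOp p q F) = s2 p q (cop F) := by
  rw [sOp, cop_add, cop_mul, hq, cop_dS h, s2]

theorem s2_tensor (p : α → Ser α ℂ) (q F G : Ser α ℂ) :
    s2 p q (inl F * inr G) = inl (sOp p q F) * inr G + inl F * inr (sOp p q G) := by
  rw [s2, d2_mul _ (comm_nil p), d2_inl, d2_inr, sOp, sOp, inl_add, inr_add, inl_mul, inr_mul,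
    add_mul, add_mul, mul_add, ← mul_assoc (inr q), ← inl_inr_comm]
  noncomm_ring

theorem s2_sub (p : α → Ser α ℂ) (q : Ser α ℂ) (X Y : Ser2 α) :
    s2 p q (X - Y) = s2 p q X - s2 p q Y := by
  have := (d2A (comm p)).map_sub X Y
  change d2 _ _ = d2 _ _ - d2 _ _ at this
  rw [s2, s2, s2, this, mul_sub]; abel

theorem van2_s2 {p : α → Ser α ℂ} (h : ∀ a, p a [] = 0) {q : Ser α ℂ} (hq : q [] = 0) {n : ℕ}
    {X : Ser2 α} (hX : Van2 n X) : Van2 (n + 1) (s2 p q X) :=
  ((van2_mul (van2_inl_add_inr hq) hX).mono (by omega)).add (van2_d2 _ (van_comm h) hX)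

end Pool.Agent.Lib.MP_e8750f_nt
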