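import Pool.Agent.Lib.MP_e8750f_nt.Der

/-! Exponentials of raising operators. -/

namespace Pool.Agent.Lib.MP_e8750f_nt

set_option linter.unusedSectionVars false

open Ser

variable {α : Type} [DecidableEq α] [Fintype α]

section Calc
variable {𝕜 : Type} [NontriviallyNormedField 𝕜] [NormedAlgebra 𝕜 ℂ]

/-- coefficientwise derivative -/
def SerDeriv (A : 𝕜 → Ser α ℂ) (A' : Ser α ℂ) (t : 𝕜) : Prop :=
  ∀ w, HasDerivAt (fun t => A t w) (A' w) t

theorem SerDeriv.mul {A B : 𝕜 → Ser α ℂ} {A' B' : Ser α ℂ} {t : 𝕜} (hA : SerDeriv A A' t)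
    (hB : SerDeriv B B' t) : SerDeriv (fun t => A t * B t) (A' * B t + A t * B') t := by
  intro w
  simp only [add_app, mul_app, ← Finset.sum_add_distrib]
  exact HasDerivAt.fun_sum fun i _ => (hA _).mul (hB _)

theorem SerDeriv.const (B : Ser α ℂ) (t : 𝕜) : SerDeriv (fun _ => B) 0 t :=
  fun w => hasDerivAt_const t (B w)

theorem hasDerivAt_list_sum {ι : Type} (l : List ι) {f : 𝕜 → ι → ℂ} {f' : ι → ℂ} {t : 𝕜}
    (h : ∀ i ∈ l, HasDerivAt (fun t => f t i) (f' i) t) :
    HasDerivAt (fun t => (l.map (f t)).sum) (l.map f').sum t := by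
  induction l with
  | nil => simpa using hasDerivAt_const t (0 : ℂ)
  | cons a l ih =>
    simp only [List.map_cons, List.sum_cons]
    exact (h a (by simp)).add (ih fun i hi => h i (by simp [hi]))

theorem SerDeriv.cop {A : 𝕜 → Ser α ℂ} {A' : Ser α ℂ} {t : 𝕜} (hA : SerDeriv A A' t)
    (u v : List α) : HasDerivAt (fun t => cop (A t) u v) (cop A' u v) t :=
  hasDerivAt_list_sum _ fun w _ => hA w

end Calc

theorem ode_zero {ι : Type} (ℓ : ι → ℕ) (f f' : ℂ → ι → ℂ) (h0 : ∀ i, f 0 i = 0)
    (hd : ∀ t i, HasDerivAt (fun t => f t i) (f' t i) t)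
    (hr : ∀ t n, (∀ i, ℓ i < n → f t i = 0) → ∀ i, ℓ i < n + 1 → f' t i = 0) (t : ℂ) (i : ι) :
    f t i = 0 := by
  have key : ∀ n, ∀ t i, ℓ i < n → f t i = 0 := by
    intro n
    induction n with
    | zero => intro t i h; omega
    | succ n ih =>
      intro t i hi
      have := is_const_of_deriv_eq_zero (f := fun t => f t i) (fun t => (hd t i).differentiableAt)
        (fun t => by rw [(hd t i).deriv]; exact hr t n (ih t) i hi) t 0
      rw [this, h0]
  exact key _ t i (Nat.lt_succ_self _)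

/-- operators raising the order of vanishing -/
def Raises (T : Ser α ℂ →ₗ[ℂ] Ser α ℂ) : Prop := ∀ n F, Van n F → Van (n + 1) (T F)

theorem Raises.pow {T : Ser α ℂ →ₗ[ℂ] Ser α ℂ} (h : Raises T) (j : ℕ) {n : ℕ} {F : Ser α ℂ}
    (hF : Van n F) : Van (n + j) ((T ^ j) F) := by
  induction j with
  | zero => simpa using hF
  | succ j ih => rw [pow_succ', Module.End.mul_apply]; exact h _ _ ih

/-- truncated exponential -/
noncomputable def truncT (T : Ser α ℂ →ₗ[ℂ] Ser α ℂ) (N : ℕ) (t : ℂ) (F : Ser α ℂ) : Ser α ℂ :=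
  ∑ j ∈ Finset.range (N + 1), (t ^ j / (j.factorial : ℂ)) • (T ^ j) F

/-- the exponential -/
noncomputable def expT (T : Ser α ℂ →ₗ[ℂ] Ser α ℂ) (t : ℂ) (F : Ser α ℂ) : Ser α ℂ :=
  fun w => truncT T w.length t F w

theorem van_zero (F : Ser α ℂ) : Van 0 F := fun _ h => by omega

theorem expT_eq_trunc {T : Ser α ℂ →ₗ[ℂ] Ser α ℂ} (h : Raises T) (t : ℂ) (F : Ser α ℂ) {N : ℕ}
    {w : List α} (hw : w.length ≤ N) : expT T t F w = truncT T N t F w := by
  rw [expT, truncT, truncT, sum_app, sum_app]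
  refine Finset.sum_subset (Finset.range_mono (by omega)) fun j _ hj => ?_
  have := h.pow j (van_zero F) w (by simp at hj; omega)
  simp [this]

theorem expT_zero (T : Ser α ℂ →ₗ[ℂ] Ser α ℂ) (F : Ser α ℂ) : expT T 0 F = F := by
  ext w
  rw [expT, truncT, sum_app, Finset.sum_range_succ']
  simp

theorem expT_deriv {T : Ser α ℂ →ₗ[ℂ] Ser α ℂ} (h : Raises T) (F : Ser α ℂ) (t : ℂ) :
    SerDeriv (fun t => expT T t F) (T (expT T t F)) t := by
  intro w
  have h1 : Van (w.length + 1) (expT T t F - truncT T w.length t F) := fun v hv => by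
    rw [sub_app, expT_eq_trunc h t F (N := w.length) (by omega), sub_self]
  have h2 := h _ _ h1 w (by omega)
  rw [map_sub, sub_app, sub_eq_zero] at h2
  rw [h2, truncT, map_sum, sum_app, Finset.sum_range_succ]
  have h3 : T ((t ^ w.length / (w.length.factorial : ℂ)) • (T ^ w.length) F) w = 0 := by
    rw [map_smul, smul_app, h _ _ (h.pow w.length (van_zero F)) w (by omega), smul_zero]
  rw [h3, add_zero]
  have h5 : ∀ j ∈ Finset.range w.length, HasDerivAt
      (fun t : ℂ => t ^ (j + 1) / ((j + 1).factorial : ℂ) * (T ^ (j + 1)) F w)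
      (T ((t ^ j / (j.factorial : ℂ)) • (T ^ j) F) w) t := by
    intro j _
    have h4 := ((hasDerivAt_pow (j + 1) t).div_const ((j + 1).factorial : ℂ)).mul_const
      ((T ^ (j + 1)) F w)
    refine h4.congr_deriv ?_
    rw [map_smul, smul_app, smul_eq_mul, pow_succ' T, Module.End.mul_apply, Nat.factorial_succ]
    have : (j.factorial : ℂ) ≠ 0 := by exact_mod_cast j.factorial_ne_zero
    have : ((j : ℂ) + 1) ≠ 0 := by exact_mod_cast j.succ_ne_zero
    push_cast
    field_simp
  have h6 := (HasDerivAt.fun_sum h5).add_const (F w)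
  have h7 : (fun t => expT T t F w) = fun t : ℂ => (∑ j ∈ Finset.range w.length,
      t ^ (j + 1) / ((j + 1).factorial : ℂ) * (T ^ (j + 1)) F w) + F w := by
    funext t
    rw [expT, truncT, sum_app, Finset.sum_range_succ']
    simp
  rw [h7]
  exact h6

theorem expT_unique {T : Ser α ℂ →ₗ[ℂ] Ser α ℂ} (h : Raises T) {F : Ser α ℂ} {A : ℂ → Ser α ℂ}
    (h0 : A 0 = F) (hd : ∀ t, SerDeriv A (T (A t)) t) (t : ℂ) : expT T t F = A t := by
  ext w
  refine sub_eq_zero.mp (ode_zero List.length (fun t w => expT T t F w - A t w)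
    (fun t w => T (expT T t F - A t) w) (fun w => by rw [expT_zero, h0, sub_self])
    (fun t w => ?_) (fun t n hn w hw => h n _ hn w hw) t w)
  rw [map_sub]
  exact (expT_deriv h F t w).sub (hd t w)

theorem expT_fixed {T : Ser α ℂ →ₗ[ℂ] Ser α ℂ} (h : Raises T) {F : Ser α ℂ} (hF : T F = 0)
    (t : ℂ) : expT T t F = F :=
  expT_unique h (A := fun _ => F) rfl (fun t => by rw [hF]; exact SerDeriv.const F t) t

theorem expT_smul (T : Ser α ℂ →ₗ[ℂ] Ser α ℂ) (t c : ℂ) (F : Ser α ℂ) :
    expT T t (c • F) = c • expT T t F := by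
  ext w
  simp only [expT, truncT, sum_app, smul_app, map_smul, smul_eq_mul, Finset.mul_sum]
  exact Finset.sum_congr rfl fun j _ => by ring

theorem expT_add (T : Ser α ℂ →ₗ[ℂ] Ser α ℂ) (t : ℂ) (F G : Ser α ℂ) :
    expT T t (F + G) = expT T t F + expT T t G := by
  ext w
  simp only [expT, truncT, sum_app, smul_app, map_add, smul_eq_mul, add_app, mul_add,
    Finset.sum_add_distrib]

/-- the exponential as a linear map -/
noncomputable def expL (T : Ser α ℂ →ₗ[ℂ] Ser α ℂ) (t : ℂ) : Ser α ℂ →ₗ[ℂ] Ser α ℂ where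
  toFun := expT T t
  map_add' := expT_add T t
  map_smul' := expT_smul T t

theorem van_expT_sub {T : Ser α ℂ →ₗ[ℂ] Ser α ℂ} (h : Raises T) (t : ℂ) {n : ℕ} {F : Ser α ℂ}
    (hF : Van n F) : Van (n + 1) (expT T t F - F) := by
  intro w hw
  rw [sub_app, expT, truncT, sum_app, Finset.sum_range_succ', Finset.sum_eq_zero]
  · simp
  · intro j _
    rw [smul_app, h.pow (j + 1) hF w (by omega), smul_zero]

theorem raises_sL {p : α → Ser α ℂ} (h : ∀ a, p a [] = 0) {q : Ser α ℂ} (hq : q [] = 0) :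
    Raises (sL p q) := fun _ _ hF => van_sOp h hq hF

theorem expT_mul {p : α → Ser α ℂ} (h : ∀ a, p a [] = 0) {q : Ser α ℂ} (hq : q [] = 0) (t : ℂ)
    (F G : Ser α ℂ) : expT (sL p q) t (F * G) = expT (sL p q) t F * expT (sL p 0) t G := by
  refine expT_unique (raises_sL h hq) (A := fun t => expT (sL p q) t F * expT (sL p 0) t G)
    (by simp only [expT_zero]) (fun t => ?_) t
  have := (expT_deriv (raises_sL h hq) F t).mul (expT_deriv (raises_sL h (q := 0) rfl) G t)
  change SerDeriv _ (sOp p q _) t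
  rw [sOp_mul]; exact this

theorem expT_e_mul {p : α → Ser α ℂ} (h : ∀ a, p a [] = 0) (a : α) (t : ℂ) (F : Ser α ℂ) :
    expT (sL p (p a)) t (e a * F) = e a * expT (sL p (p a)) t F := by
  refine expT_unique (raises_sL h (h a)) (A := fun t => e a * expT (sL p (p a)) t F)
    (by simp only [expT_zero]) (fun t => ?_) t
  have := (SerDeriv.const (e a) t).mul (expT_deriv (raises_sL h (h a)) F t)
  rw [zero_mul, zero_add] at this
  change SerDeriv _ (sOp p (p a) _) t
  rw [sOp_e_mul]; exact this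

theorem IsChar.expT {p : α → Ser α ℂ} (h : ∀ a, IsLie (p a)) {q : Ser α ℂ} (hq : IsLie q)
    {g : Ser α ℂ} (hg : IsChar g) (t : ℂ) : IsChar (expT (sL p q) t g) := by
  have hR := raises_sL (fun a => (h a).nil) hq.nil
  refine ⟨?_, ?_⟩
  · have := van_expT_sub hR t (van_zero g) [] (by simp)
    rw [sub_app, sub_eq_zero] at this
    rw [this, hg.1]
  · set A := fun t => Pool.Agent.Lib.MP_e8750f_nt.expT (sL p q) t g with hA
    ext u v
    refine sub_eq_zero.mp (ode_zero (fun x : List α × List α => x.1.length + x.2.length)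
      (fun t x => cop (A t) x.1 x.2 - (inl (A t) * inr (A t)) x.1 x.2)
      (fun t x => s2 p q (cop (A t) - inl (A t) * inr (A t)) x.1 x.2) (fun x => ?_)
      (fun t x => ?_) (fun t n hn x hx => ?_) t (u, v))
    · simp only [hA, expT_zero, hg.2, sub_self]
    · have h1 := expT_deriv hR g t
      rw [s2_sub, ← cop_sOp h hq, s2_tensor]
      simp only [sub_app, add_app, inl_mul_inr_apply]
      exact (h1.cop x.1 x.2).sub ((h1 x.1).mul (h1 x.2))
    · exact van2_s2 (fun a => (h a).nil) hq.nil (n := n) (fun u v h' => hn (u, v) h') x.1 x.2 hx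

theorem van_dS' (c : α → Ser α ℂ) {r : ℕ} (h2 : ∀ a, Van (r + 1) (c a)) {n : ℕ} {F : Ser α ℂ}
    (h : Van (n + 1) F) : Van (n + 1 + r) (dS c F) := by
  intro w hw
  induction w generalizing n F with
  | nil => simp
  | cons b w ih =>
    rw [dS_cons, sum_app, Finset.sum_eq_zero, zero_add]
    · cases n with
      | zero =>
        have h3 : dS c (der b F) = dS c (der b F - C (der b F [])) := by
          rw [dS_sub, dS_C, sub_zero]
        rw [h3]
        exact ih (n := 0) (van_one (by simp)) (by simp at hw ⊢; omega)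
      | succ n => exact ih (van_der h b) (by simp at hw; omega)
    · intro a _
      exact van_mul (h2 a) (van_der h a) _ (by omega)

theorem van_comm' {p : α → Ser α ℂ} {r : ℕ} (h : ∀ a, Van r (p a)) (a : α) :
    Van (r + 1) (comm p a) := by
  intro w hw
  rw [comm, sub_app, van_mul (van_one (e_nil a)) (h a) w (by omega),
    van_mul (h a) (van_one (e_nil a)) w hw, sub_zero]

theorem sOp_low {p : α → Ser α ℂ} {r : ℕ} (h : ∀ a, Van r (p a)) {q : Ser α ℂ} (hq : Van r q)
    (F : Ser α ℂ) {w : List α} (hw : w.length ≤ r) : sOp p q F w = q w * F [] := by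
  have h1 : Van 1 (F - C (F [])) := van_one (by simp)
  have h2 : dS (comm p) F = dS (comm p) (F - C (F [])) := by rw [dS_sub, dS_C, sub_zero]
  have h3 : q * F = q * C (F []) + q * (F - C (F [])) := by rw [mul_sub]; abel
  rw [sOp, add_app, h2, van_dS' _ (van_comm' h) (n := 0) h1 w (by omega), add_zero, h3, add_app,
    van_mul hq h1 w (by omega), add_zero, mul_C_apply]

theorem expT_low {p : α → Ser α ℂ} {r : ℕ} (hr : 1 ≤ r) (h : ∀ a, Van r (p a)) {q : Ser α ℂ}
    (hq : Van r q) (F : Ser α ℂ) {w : List α} (hw : w.length ≤ r) :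
    expT (sL p q) 1 F w = F w + q w * F [] := by
  have hR : Raises (sL p q) := raises_sL (fun a => h a [] hr) (hq [] hr)
  have h0 : ∀ t, expT (sL p q) t F [] = F [] := fun t => by
    have := van_expT_sub hR t (van_zero F) [] (by simp)
    rwa [sub_app, sub_eq_zero] at this
  have h1 : ∀ t : ℂ, HasDerivAt (fun t => expT (sL p q) t F w - t * (q w * F [])) 0 t := fun t => by
    have h2 := (expT_deriv hR F t w).sub ((hasDerivAt_id t).mul_const (q w * F []))
    have h3 : sL p q (expT (sL p q) t F) w = q w * F [] := by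
      rw [← h0 t]; exact sOp_low h hq _ hw
    rw [h3, one_mul, sub_self] at h2
    exact h2
  have := is_const_of_deriv_eq_zero (fun t => (h1 t).differentiableAt) (fun t => (h1 t).deriv) 1 0
  simp only [expT_zero, one_mul, zero_mul, sub_zero] at this
  exact eq_add_of_sub_eq this

end Pool.Agent.Lib.MP_e8750f_nt
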