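import Pool.Agent.Lib.MP_e8750f_nt.Li

/-! Hyperlogarithms on the real interval and the associator. -/

namespace Pool.Agent.Lib.MP_e8750f_nt

set_option linter.unusedSectionVars false

open Ser Filter Topology Set MeasureTheory Asymptotics

theorem ftc {E : Type} [NormedAddCommGroup E] [NormedSpace ℝ E] [CompleteSpace E]
    {f f' : ℝ → E} {a b x : ℝ} {c : E} (hx : x ∈ Ioo a b)
    (hd : ∀ t ∈ Ioo a b, HasDerivAt f (f' t) t) (hi : IntervalIntegrable f' volume a x)
    (h0 : Tendsto f (𝓝[>] a) (𝓝 c)) : ∫ t in a..x, f' t = f x - c :=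
  intervalIntegral.integral_eq_sub_of_hasDerivAt_of_tendsto hx.1
    (fun t ht => hd t ⟨ht.1, ht.2.trans hx.2⟩) hi h0
    ((hd x hx).continuousAt.tendsto.mono_left nhdsWithin_le_nhds)

theorem zero_of_deriv {f : ℝ → ℂ} {a b x : ℝ} (hx : x ∈ Ioo a b)
    (hd : ∀ t ∈ Ioo a b, HasDerivAt f 0 t) (h0 : Tendsto f (𝓝[>] a) (𝓝 0)) : f x = 0 := by
  have := ftc (f' := fun _ => 0) hx hd intervalIntegrable_const h0
  simpa using this.symm

theorem intInt_of_bound {E : Type} [NormedAddCommGroup E] {f : ℝ → E} {g : ℝ → ℝ} {a b : ℝ}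
    (hab : a ≤ b) (hc : ContinuousOn f (Ioo a b)) (hg : IntervalIntegrable g volume a b)
    (h : ∀ t ∈ Ioo a b, ‖f t‖ ≤ g t) : IntervalIntegrable f volume a b := by
  rw [intervalIntegrable_iff_integrableOn_Ioo_of_le hab] at hg ⊢
  refine Integrable.mono' hg (hc.aestronglyMeasurable measurableSet_Ioo) ?_
  exact (ae_restrict_iff' measurableSet_Ioo).mpr (Eventually.of_forall h)

theorem evalF_isBigO {κ X : Type} {l : Filter X} {f : X → κ → ℂ} {g : X → ℝ} (L : LC κ)
    (h : ∀ t ∈ L, (fun x => f x t.2) =O[l] g) : (fun x => evalF (f x) L) =O[l] g := by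
  induction L with
  | nil => simpa using isBigO_zero g l
  | cons t L ih =>
    simp only [evalF_cons]
    exact ((h t (by simp)).const_mul_left _).add (ih fun s hs => h s (by simp [hs]))

theorem list_sum_isBigO {κ X : Type} {l : Filter X} {f : X → κ → ℂ} {g : X → ℝ} (L : List κ)
    (h : ∀ t ∈ L, (fun x => f x t) =O[l] g) : (fun x => (L.map (f x)).sum) =O[l] g := by
  induction L with
  | nil => simpa using isBigO_zero g l
  | cons t L ih =>
    simp only [List.map_cons, List.sum_cons]
    exact (h t (by simp)).add (ih fun s hs => h s (by simp [hs]))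

/-- the hyperlogarithms as a series -/
noncomputable def F (x : ℝ) : S := hyp x (Real.log x)

@[simp] theorem F_nil (x : ℝ) : F x [] = 1 := hyp_nil _ _

theorem norm_lt_one {x : ℝ} (hx : x ∈ Ioo (0 : ℝ) 1) : ‖(x : ℂ)‖ < 1 := by
  rw [Complex.norm_real, Real.norm_of_nonneg hx.1.le]; exact hx.2

theorem F_deriv {x : ℝ} (hx : x ∈ Ioo (0 : ℝ) 1) (a : SignType) (w : Word) :
    HasDerivAt (fun x => F x (a :: w)) (F x w / (x - a)) x := by
  have h0 : (x : ℂ) ≠ 0 := by exact_mod_cast hx.1.ne'
  have h1 : HasDerivAt (fun t : ℝ => (t : ℂ)) ((x : ℂ) * (x : ℂ)⁻¹) x := by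
    rw [mul_inv_cancel₀ h0]; exact Complex.ofRealCLM.hasDerivAt
  have h2 : HasDerivAt (fun t : ℝ => (Real.log t : ℂ)) (x : ℂ)⁻¹ x := by
    have := (Real.hasDerivAt_log hx.1.ne').ofReal_comp
    rwa [Complex.ofReal_inv] at this
  refine (hyp_deriv h1 h2 (norm_lt_one hx) h0 a w).congr_deriv ?_
  rw [mul_inv_cancel₀ h0, F]; ring

theorem F_cont (w : Word) : ContinuousOn (fun x => F x w) (Ioo 0 1) := by
  cases w with
  | nil => simpa using continuousOn_const
  | cons a w => exact fun x hx => (F_deriv hx a w).continuousAt.continuousWithinAt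

theorem log_pow_isBigO (j : ℕ) :
    (fun t : ℝ => (Real.log t : ℂ) ^ j) =O[𝓟 (Ioo 0 1)] fun t => t ^ (-1 / 4 : ℝ) := by
  set ε : ℝ := 1 / (4 * (j + 1)) with hε
  have h0 : 0 < ε := by positivity
  refine isBigO_principal.mpr ⟨(1 / ε) ^ j, fun t ht => ?_⟩
  have h1 := Real.abs_log_mul_self_rpow_lt t ε ht.1 ht.2.le h0
  have h2 := Real.rpow_pos_of_pos ht.1 ε
  rw [abs_mul, abs_of_pos h2] at h1
  have h3 : |Real.log t| ≤ 1 / ε * t ^ (-ε) := by
    rw [Real.rpow_neg ht.1.le, ← div_eq_mul_inv, le_div_iff₀ h2]; exact h1.le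
  rw [norm_pow, Complex.norm_real, Real.norm_eq_abs, Real.norm_of_nonneg (Real.rpow_nonneg ht.1.le _)]
  refine (pow_le_pow_left₀ (abs_nonneg _) h3 j).trans ?_
  rw [mul_pow, ← Real.rpow_mul_natCast ht.1.le]
  refine mul_le_mul_of_nonneg_left (Real.rpow_le_rpow_of_exponent_ge ht.1 ht.2.le ?_)
    (by positivity)
  rw [hε, neg_mul, neg_div, neg_le_neg_iff, div_mul_eq_mul_div, div_le_div_iff₀ (by positivity) (by norm_num)]
  nlinarith

theorem inv_le_aux {t x : ℝ} (ht : t ∈ Ioo 0 x) (hx : x < 1) : (1 - ‖(t : ℂ)‖)⁻¹ ≤ (1 - x)⁻¹ := by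
  rw [Complex.norm_real, Real.norm_of_nonneg ht.1.le]
  exact inv_anti₀ (by linarith) (by linarith [ht.2])

theorem F_bound {x : ℝ} (hx : x < 1) (w : Word) :
    (fun t => F t w) =O[𝓟 (Ioo 0 x)] fun t => t ^ (-1 / 4 : ℝ) := by
  refine evalF_isBigO (f := fun (t : ℝ) k => (Real.log t : ℂ) ^ k.1 * Li k.2 t) (HL w) fun k _ => ?_
  have h1 : (fun t : ℝ => Li k.2.2 t) =O[𝓟 (Ioo 0 x)] fun _ => (1 : ℝ) :=
    isBigO_principal.mpr ⟨(1 - x)⁻¹, fun t ht => by
      simpa using (norm_Li_le _ (norm_lt_one ⟨ht.1, ht.2.trans hx⟩)).trans (inv_le_aux ht hx)⟩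
  simpa using ((log_pow_isBigO k.2.1).mono (principal_mono.mpr (Ioo_subset_Ioo_right hx.le))).mul h1

theorem F_bound' {x : ℝ} (hx : x < 1) {w : Word} (hw : w ≠ List.replicate w.length 0) :
    (fun t => F t w) =O[𝓟 (Ioo 0 x)] fun t => t ^ (-1 / 4 : ℝ) * t := by
  refine evalF_isBigO (f := fun (t : ℝ) k => (Real.log t : ℂ) ^ k.1 * Li k.2 t) (HL w) fun k hk => ?_
  have h1 : (fun t : ℝ => Li k.2.2 t) =O[𝓟 (Ioo 0 x)] fun t => t :=
    isBigO_principal.mpr ⟨(1 - x)⁻¹, fun t ht => by
      refine (norm_Li_le' (HL_ne hw k hk) (norm_lt_one ⟨ht.1, ht.2.trans hx⟩)).trans ?_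
      rw [mul_comm, ← Complex.norm_real t]
      exact mul_le_mul_of_nonneg_right (inv_le_aux ht hx) (norm_nonneg _)⟩
  exact ((log_pow_isBigO k.2.1).mono (principal_mono.mpr (Ioo_subset_Ioo_right hx.le))).mul h1

theorem half_le : 𝓝[>] (0 : ℝ) ≤ 𝓟 (Ioo 0 (1 / 2)) :=
  le_principal_iff.mpr (Ioo_mem_nhdsGT (by norm_num))

theorem tendsto_aux : Tendsto (fun t : ℝ => t ^ (-1 / 4 : ℝ) * t * t ^ (-1 / 4 : ℝ)) (𝓝[>] 0) (𝓝 0) := by
  have h1 : Tendsto (fun t : ℝ => t ^ (1 / 2 : ℝ)) (𝓝[>] 0) (𝓝 0) := by
    have := (Real.continuousAt_rpow_const 0 (1 / 2) (Or.inr (by norm_num))).tendsto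
    rw [Real.zero_rpow (by norm_num)] at this
    exact this.mono_left nhdsWithin_le_nhds
  refine h1.congr' (eventually_nhdsWithin_of_forall fun t ht => ?_)
  simp only
  rw [← Real.rpow_add_one (ne_of_gt ht), ← Real.rpow_add ht]; norm_num

theorem one_isBigO : (fun _ : ℝ => (1 : ℂ)) =O[𝓝[>] 0] fun t : ℝ => t ^ (-1 / 4 : ℝ) := by
  simpa using (F_bound (x := 1 / 2) (by norm_num) []).mono half_le

theorem F_tendsto_zero {w : Word} (hw : w ≠ List.replicate w.length 0) :
    Tendsto (fun t => F t w) (𝓝[>] 0) (𝓝 0) := by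
  have := (((F_bound' (by norm_num) hw).mono half_le).mul one_isBigO).trans_tendsto tendsto_aux
  simpa using this

theorem coe_coe (a : SignType) : ((a : ℝ) : ℂ) = a := by cases a <;> simp

theorem hyperlog_eq (w : Word) {x : ℝ} (hx : x ∈ Ioo (0 : ℝ) 1) : (hyperlog w x : ℂ) = F x w := by
  induction w generalizing x with
  | nil => simp [hyperlog]
  | cons a w ih =>
    rw [hyperlog]
    split_ifs with h
    · rw [h, F, hyp_replicate]; push_cast; rfl
    · have h1 : IntervalIntegrable (fun t : ℝ => F t w / (t - a)) volume 0 x := by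
        have hc : ContinuousOn (fun t : ℝ => F t w / (t - a)) (Ioo 0 x) := by
          refine ((F_cont w).mono (Ioo_subset_Ioo_right hx.2.le)).div (by fun_prop) fun t ht => ?_
          rw [← coe_coe, ← Complex.ofReal_sub, Complex.ofReal_ne_zero]
          have := ht.1; have := ht.2; have := hx.2
          cases a <;> simp <;> linarith
        by_cases ha : a = 0
        · subst ha
          obtain ⟨C, hC⟩ := isBigO_principal.mp (F_bound' hx.2 (w := w) fun h' => h (by
            rw [List.replicate_succ, ← h']))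
          refine intInt_of_bound hx.1.le hc
            ((intervalIntegral.intervalIntegrable_rpow' (r := -1 / 4) (by norm_num)).const_mul C)
            fun t ht => ?_
          have := hC t ht
          rw [norm_mul, Real.norm_of_nonneg ht.1.le,
            Real.norm_of_nonneg (Real.rpow_nonneg ht.1.le _), ← mul_assoc] at this
          rw [norm_div, SignType.coe_zero, sub_zero, Complex.norm_real, Real.norm_of_nonneg ht.1.le,
            div_le_iff₀ ht.1]
          exact this
        · obtain ⟨C, hC⟩ := isBigO_principal.mp (F_bound hx.2 w)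
          refine intInt_of_bound hx.1.le hc
            (((intervalIntegral.intervalIntegrable_rpow' (r := -1 / 4) (by norm_num)).const_mul
              C).div_const (1 - x)) fun t ht => ?_
          have h2 := hC t ht
          rw [Real.norm_of_nonneg (Real.rpow_nonneg ht.1.le _)] at h2
          rw [norm_div]
          refine div_le_div₀ ((norm_nonneg _).trans h2) h2 (by linarith [hx.2]) ?_
          rw [← coe_coe, ← Complex.ofReal_sub, Complex.norm_real, Real.norm_eq_abs, le_abs]
          have := ht.1; have := ht.2; have := hx.1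
          cases a <;> simp at ha ⊢ <;> [left; right] <;> linarith
      have h2 := ftc hx (fun t ht => F_deriv ht a w) h1 (F_tendsto_zero (w := a :: w) h)
      rw [sub_zero] at h2
      rw [← h2, ← intervalIntegral.integral_ofReal]
      refine intervalIntegral.integral_congr_ae (Eventually.of_forall fun t ht => ?_)
      rw [uIoc_of_le hx.1.le] at ht
      rw [← ih ⟨ht.1, ht.2.trans_lt hx.2⟩, ← coe_coe]; push_cast; rfl

theorem F_replicate (x : ℝ) {w : Word} (hw : w = List.replicate w.length 0) :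
    F x w = expS 0 (Real.log x) w := by
  rw [expS, expLetter, if_pos hw]
  conv_lhs => rw [hw, F, hyp_replicate]

theorem isChar_F {x : ℝ} (hx : x ∈ Ioo (0 : ℝ) 1) : IsChar (F x) := by
  have hD : ∀ w, (fun t => F t w - expS 0 (Real.log t) w) =O[𝓝[>] 0]
      fun t : ℝ => t ^ (-1 / 4 : ℝ) * t := fun w => by
    by_cases hw : w = List.replicate w.length 0
    · simpa [F_replicate _ hw] using isBigO_zero _ _
    · simpa [expS, expLetter, hw] using (F_bound' (by norm_num) hw).mono half_le
  have hE : ∀ w, (fun t : ℝ => expS 0 (Real.log t) w) =O[𝓝[>] 0]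
      fun t : ℝ => t ^ (-1 / 4 : ℝ) := fun w => by
    by_cases hw : w = List.replicate w.length 0
    · simpa [F_replicate _ hw] using (F_bound (x := 1 / 2) (by norm_num) w).mono half_le
    · simpa [expS, expLetter, hw] using isBigO_zero _ _
  have hlim : ∀ u v, Tendsto (fun t => cop (F t) u v - F t u * F t v) (𝓝[>] 0) (𝓝 0) := by
    intro u v
    have h1 := (list_sum_isBigO (f := fun t w => F t w - expS 0 (Real.log t) w) (shuf u v)
      fun w _ => hD w).mul one_isBigO
    have h2 := (hD u).mul ((F_bound (x := 1 / 2) (by norm_num) v).mono half_le)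
    have h3 := (hD v).mul (hE u)
    refine (((h1.sub h2).sub h3).trans_tendsto tendsto_aux).congr fun t => ?_
    have h4 := (isChar_expS 0 (Real.log t)).cop_apply u v
    have h5 := congrFun (congrFun (cop_sub (F t) (expS 0 (Real.log t))) u) v
    rw [sub_app, sub_app, h4] at h5
    change _ * 1 - _ - _ = _
    rw [show (List.map (fun w => F t w - expS 0 (Real.log t) w) (shuf u v)).sum = _ from h5]
    ring
  have key : ∀ n, ∀ u v : Word, u.length + v.length = n → ∀ x ∈ Ioo (0 : ℝ) 1,
      cop (F x) u v - F x u * F x v = 0 := by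
    intro n
    induction n with
    | zero =>
      intro u v h x _
      obtain rfl : u = [] := List.length_eq_zero_iff.mp (by omega)
      simp
    | succ n ih =>
      intro u v h x hx
      cases u with
      | nil => simp
      | cons a u =>
        cases v with
        | nil => simp
        | cons b v =>
          refine zero_of_deriv (f := fun t => cop (F t) (a :: u) (b :: v) - F t (a :: u) * F t (b :: v))
            hx (fun t ht => ?_) (hlim _ _)
          simp only [cop_cons_cons]
          have h1 : ∀ (a : SignType) u v, HasDerivAt (fun t => cop (der a (F t)) u v)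
              (cop (F t) u v / (t - a)) t := fun a u v => by
            refine (hasDerivAt_list_sum (f := fun t w => F t (a :: w)) (shuf u v)
              fun w _ => F_deriv ht a w).congr_deriv ?_
            simp only [div_eq_mul_inv, List.sum_map_mul_right]; rfl
          refine (((h1 a u _).add (h1 b _ v)).sub
            ((F_deriv ht a u).mul (F_deriv ht b v))).congr_deriv ?_
          rw [sub_eq_zero.mp (ih u (b :: v) (by simp at h ⊢; omega) t ht),
            sub_eq_zero.mp (ih (a :: u) v (by simp at h ⊢; omega) t ht)]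
          ring
  exact (isChar_iff _).mpr ⟨F_nil x, fun u v => sub_eq_zero.mp (key _ u v rfl x hx)⟩

theorem F_bound_one (w : Word) : ∃ C, ∀ x ∈ Ico (1 / 2 : ℝ) 1, ‖F x w‖ ≤ C / √(1 - x) := by
  induction w with
  | nil =>
    refine ⟨1, fun x hx => ?_⟩
    have h1 : 0 < √(1 - x) := Real.sqrt_pos.mpr (by linarith [hx.2])
    rw [F_nil, norm_one, le_div_iff₀ h1, one_mul, Real.sqrt_le_one]
    linarith [hx.1]
  | cons a w ih =>
    obtain ⟨C, hC⟩ := ih
    set c := ‖F (1 / 2) (a :: w)‖
    refine ⟨c + 2 * C, fun x hx => ?_⟩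
    have hs : ∀ t ∈ Icc (1 / 2 : ℝ) x, t ∈ Ioo (0 : ℝ) 1 := fun t ht =>
      ⟨by linarith [ht.1], ht.2.trans_lt hx.2⟩
    have hB : ∀ t ∈ Icc (1 / 2 : ℝ) x, HasDerivAt (fun t => c + 2 * C / √(1 - t))
        (C / √(1 - t) / (1 - t)) t := fun t ht => by
      have h1 : 0 < 1 - t := by linarith [(hs t ht).2]
      have h2 : 0 < √(1 - t) := Real.sqrt_pos.mpr h1
      refine (((hasDerivAt_const t (2 * C)).div
        (((hasDerivAt_id t).const_sub 1).sqrt h1.ne') h2.ne').const_add c).congr_deriv ?_
      simp only [id]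
      rw [Real.sq_sqrt h1.le]
      field_simp
      ring
    have hC0 : 0 ≤ C / √(1 - 1 / 2) := (norm_nonneg _).trans (hC (1 / 2) ⟨le_rfl, by norm_num⟩)
    have := image_norm_le_of_norm_deriv_right_le_deriv_boundary' (f := fun x => F x (a :: w))
      (a := 1 / 2) (b := x) ((F_cont _).mono hs)
      (fun t ht => (F_deriv (hs t (Ico_subset_Icc_self ht)) a w).hasDerivWithinAt)
      (B := fun t => c + 2 * C / √(1 - t)) (by rw [mul_div_assoc]; simp only [c]; linarith)
      (fun t ht => (hB t ht).continuousAt.continuousWithinAt)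
      (fun t ht => (hB t (Ico_subset_Icc_self ht)).hasDerivWithinAt) (fun t ht => ?_)
      (right_mem_Icc.mpr hx.1)
    · refine this.trans ?_
      have h1 : 0 < √(1 - x) := Real.sqrt_pos.mpr (by linarith [hx.2])
      rw [add_div, add_le_add_iff_right, le_div_iff₀ h1]
      exact mul_le_of_le_one_right (norm_nonneg _) (Real.sqrt_le_one.mpr (by linarith [hx.1]))
    · have h2 := hC t ⟨ht.1, ht.2.trans hx.2⟩
      rw [norm_div]
      refine div_le_div₀ ((norm_nonneg _).trans h2) h2 (by linarith [ht.2, hx.2]) ?_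
      rw [← coe_coe, ← Complex.ofReal_sub, Complex.norm_real, Real.norm_eq_abs, le_abs]
      have := ht.1
      cases a
      · left; simp; linarith
      · left; simp; linarith
      · right; simp

theorem intInt_sqrt {b : ℝ} (hb : 0 ≤ b) : IntervalIntegrable (fun t => 1 / √t) volume 0 b := by
  refine intInt_of_bound hb (continuousOn_const.div (by fun_prop) fun t ht =>
    (Real.sqrt_pos.mpr ht.1).ne')
    (intervalIntegral.intervalIntegrable_rpow' (r := -(1 / 2)) (by norm_num)) fun t ht => ?_
  rw [Real.rpow_neg ht.1.le, ← Real.sqrt_eq_rpow, Real.norm_of_nonneg (by positivity), one_div]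

theorem F_converges {w : Word} (hw : w.head? ≠ some 1) :
    ∃ L, Tendsto (fun x => F x w) (𝓝[<] 1) (𝓝 L) := by
  cases w with
  | nil => exact ⟨1, by simp⟩
  | cons a w =>
    obtain ⟨C, hC⟩ := F_bound_one w
    have hs : ∀ t ∈ Ioo (1 / 2 : ℝ) 1, t ∈ Ioo (0 : ℝ) 1 := fun t ht => ⟨by linarith [ht.1], ht.2⟩
    have hn : ∀ t ∈ Ioo (1 / 2 : ℝ) 1, 1 / 2 ≤ ‖(t : ℂ) - a‖ := fun t ht => by
      rw [← coe_coe, ← Complex.ofReal_sub, Complex.norm_real, Real.norm_eq_abs, le_abs]
      have := ht.1
      left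
      cases a <;> simp at hw ⊢ <;> linarith
    have h1 : IntervalIntegrable (fun t : ℝ => F t w / (t - a)) volume (1 / 2) 1 := by
      have h2 := ((intInt_sqrt (b := 1 / 2) (by norm_num)).comp_sub_left 1).symm.const_mul (2 * C)
      rw [sub_zero, show (1 : ℝ) - 1 / 2 = 1 / 2 by norm_num] at h2
      refine intInt_of_bound (by norm_num) (((F_cont w).mono hs).div (by fun_prop) fun t ht h => ?_)
        h2 fun t ht => ?_
      · have := hn t ht
        rw [h] at this; norm_num at this
      · have h3 := hC t ⟨ht.1.le, ht.2⟩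
        rw [norm_div]
        refine (div_le_div₀ ((norm_nonneg _).trans h3) h3 (by norm_num) (hn t ht)).trans_eq ?_
        ring
    have h2 := intervalIntegral.continuousWithinAt_primitive (a := 1 / 2) (b₀ := 1) (b₁ := 1 / 2)
      (b₂ := 1) (f := fun t : ℝ => F t w / (t - a)) (μ := volume) (by simp)
      (by rwa [min_self, max_eq_right (by norm_num)])
    have h3 : 𝓝[<] (1 : ℝ) ≤ 𝓝[Icc (1 / 2) 1] 1 :=
      nhdsWithin_le_iff.mpr (Icc_mem_nhdsLT (by norm_num))
    refine ⟨_, ((h2.tendsto.mono_left h3).add_const (F (1 / 2) (a :: w))).congr' ?_⟩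
    filter_upwards [Ioo_mem_nhdsLT (show (1 / 2 : ℝ) < 1 by norm_num)] with x hx
    rw [ftc hx (fun t ht => F_deriv (hs t ht) a w) (h1.mono_set ?_)
      ((F_deriv (x := 1 / 2) (by norm_num) a w).continuousAt.tendsto.mono_left nhdsWithin_le_nhds)]
    · ring
    · rw [uIcc_of_le hx.1.le, uIcc_of_le (by norm_num)]
      exact Icc_subset_Icc_right hx.2.le

/-- the regularised series -/
noncomputable def Rg (x : ℝ) : S := expS 1 (-(Real.log (1 - x) : ℂ)) * F x

theorem Rg_head (x : ℝ) {w : Word} (hw : w.head? ≠ some 1) : Rg x w = F x w := by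
  cases w with
  | nil => simp [Rg, expS, expLetter]
  | cons a w =>
    have : der a (expS 1 (-(Real.log (1 - x) : ℂ))) = 0 := by
      ext v
      have : a ≠ 1 := by simpa using hw
      simp [expS, expLetter, List.replicate_succ, this]
    rw [Rg, mul_cons, this]
    simp [expS, expLetter]

theorem Rg_one {x : ℝ} (hx : x ∈ Ioo (0 : ℝ) 1) : Rg x [1] = 0 := by
  have h1 : F x [1] - Real.log (1 - x) = 0 := by
    refine zero_of_deriv (f := fun x => F x [1] - Real.log (1 - x)) hx (fun t ht => ?_) ?_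
    · have h2 : 1 - t ≠ 0 := by linarith [ht.2]
      refine ((F_deriv ht 1 []).sub
        (((hasDerivAt_id t).const_sub 1).log h2).ofReal_comp).congr_deriv ?_
      have h3 : (1 : ℂ) - t ≠ 0 := by exact_mod_cast h2
      have h4 : (t : ℂ) - 1 ≠ 0 := fun h => h3 (by linear_combination -h)
      simp only [F_nil, SignType.coe_one, id]
      push_cast
      field_simp
      ring
    · have h2 : ContinuousAt (fun x : ℝ => (Real.log (1 - x) : ℂ)) 0 :=
        Complex.continuous_ofReal.continuousAt.comp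
          (ContinuousAt.log (by fun_prop) (by norm_num))
      simpa using (F_tendsto_zero (w := [1]) (by simp)).sub
        (h2.tendsto.mono_left nhdsWithin_le_nhds)
  rw [Rg, mul_cons]
  simp [expS, expLetter]
  linear_combination h1

theorem cop_ones (G : S) (k : ℕ) (b : SignType) (w : Word) :
    cop G [1] (List.replicate k 1 ++ b :: w) = (k + 1) * G (List.replicate (k + 1) 1 ++ b :: w)
      + cop (fun v => G (List.replicate k 1 ++ b :: v)) [1] w := by
  induction k generalizing G with
  | zero => simp [cop_cons_cons]; rfl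
  | succ k ih =>
    rw [List.replicate_succ, List.cons_append, cop_cons_cons, ih]
    simp only [cop_nil_left, der_apply, List.replicate_succ, List.cons_append]
    push_cast; ring

theorem cop_ones' (G : S) (k : ℕ) :
    cop G [1] (List.replicate k 1) = (k + 1) * G (List.replicate (k + 1) 1) := by
  induction k generalizing G with
  | zero => simp
  | succ k ih =>
    rw [List.replicate_succ, cop_cons_cons, ih]
    simp only [cop_nil_left, der_apply, List.replicate_succ]
    push_cast; ring

theorem ev_Ioo : ∀ᶠ x in 𝓝[<] (1 : ℝ), x ∈ Ioo (0 : ℝ) 1 := Ioo_mem_nhdsLT one_pos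

theorem isChar_Rg {x : ℝ} (hx : x ∈ Ioo (0 : ℝ) 1) : IsChar (Rg x) :=
  (isChar_expS _ _).mul (isChar_F hx)

theorem Rg_converges (w : Word) : ∃ L, Tendsto (fun x => Rg x w) (𝓝[<] 1) (𝓝 L) := by
  have key : ∀ k, ∀ w : Word, w.head? ≠ some 1 →
      ∃ L, Tendsto (fun x => Rg x (List.replicate k 1 ++ w)) (𝓝[<] 1) (𝓝 L) := by
    intro k
    induction k with
    | zero => intro w hw; simpa [Rg_head _ hw] using F_converges hw
    | succ k ih =>
      intro w hw
      have hk : ((k : ℂ) + 1) ≠ 0 := by exact_mod_cast k.succ_ne_zero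
      cases w with
      | nil =>
        refine ⟨0, tendsto_const_nhds.congr' ?_⟩
        filter_upwards [ev_Ioo] with x hx
        have := (isChar_Rg hx).cop_apply [1] (List.replicate k 1)
        rw [cop_ones', Rg_one hx, zero_mul] at this
        rw [List.append_nil, (mul_eq_zero.mp this).resolve_left hk]
      | cons b w =>
        choose L hL using fun v => ih (b :: v) (by simpa using hw)
        refine ⟨_, ((tendsto_list_sum' (shuf [1] w) fun v _ => hL v).neg.div_const
          ((k : ℂ) + 1)).congr' ?_⟩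
        filter_upwards [ev_Ioo] with x hx
        have := (isChar_Rg hx).cop_apply [1] (List.replicate k 1 ++ b :: w)
        rw [cop_ones, Rg_one hx, zero_mul, cop] at this
        rw [div_eq_iff hk]
        linear_combination -this
  have : ∃ k v, w = List.replicate k 1 ++ v ∧ v.head? ≠ some 1 := by
    induction w with
    | nil => exact ⟨0, [], rfl, by simp⟩
    | cons a w ih =>
      by_cases ha : a = 1
      · obtain ⟨k, v, rfl, hv⟩ := ih
        exact ⟨k + 1, v, by simp [ha, List.replicate_succ], hv⟩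
      · exact ⟨0, a :: w, rfl, by simpa using ha⟩
  obtain ⟨k, v, rfl, hv⟩ := this
  exact key k v hv

/-- the associator as a series -/
noncomputable def Φ : S := straight

theorem Rg_tendsto (w : Word) : Tendsto (fun x => Rg x w) (𝓝[<] 1) (𝓝 (Φ w)) := by
  obtain ⟨L, hL⟩ := Rg_converges w
  have : Tendsto (fun x : ℝ => conv (expLetter 1 (-(Real.log (1 - x) : ℂ)))
      (fun v => (hyperlog v x : ℂ)) w) (𝓝[<] 1) (𝓝 L) := hL.congr' (by
    filter_upwards [ev_Ioo] with x hx
    rw [funext fun v => hyperlog_eq v hx]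
    exact (congrFun (conv_eq _ _) w).symm)
  rw [Φ, straight, this.limUnder_eq]; exact hL

theorem F_tendsto {w : Word} (hw : w.head? ≠ some 1) :
    Tendsto (fun x => F x w) (𝓝[<] 1) (𝓝 (Φ w)) := by
  simpa [Rg_head _ hw] using Rg_tendsto w

theorem isChar_Φ : IsChar Φ := by
  refine (isChar_iff _).mpr ⟨?_, fun u v => ?_⟩
  · exact tendsto_nhds_unique (F_tendsto (w := []) (by simp)) (by simp)
  · refine tendsto_nhds_unique (tendsto_list_sum' (shuf u v) fun w _ => Rg_tendsto w)
      (((Rg_tendsto u).mul (Rg_tendsto v)).congr' ?_)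
    filter_upwards [ev_Ioo] with x hx
    exact ((isChar_Rg hx).cop_apply u v).symm

theorem Φ_one : Φ [1] = 0 :=
  tendsto_nhds_unique (Rg_tendsto _) (tendsto_const_nhds.congr' (by
    filter_upwards [ev_Ioo] with x hx
    exact (Rg_one hx).symm))

theorem log_tendsto : Tendsto (fun x : ℝ => (Real.log x : ℂ)) (𝓝[<] 1) (𝓝 0) := by
  have h2 : ContinuousAt (fun x : ℝ => (Real.log x : ℂ)) 1 :=
    Complex.continuous_ofReal.continuousAt.comp (Real.continuousAt_log one_ne_zero)
  simpa using h2.tendsto.mono_left nhdsWithin_le_nhds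

theorem Φ_zero : Φ [0] = 0 := by
  refine tendsto_nhds_unique (F_tendsto (by simp)) (log_tendsto.congr fun x => ?_)
  simpa [F] using (hyp_replicate x (Real.log x) 1).symm

theorem Φ_im {w : Word} (hw : w.head? ≠ some 1) : (Φ w).im = 0 := by
  refine tendsto_nhds_unique ((Complex.continuous_im.tendsto _).comp (F_tendsto hw))
    (tendsto_const_nhds.congr' ?_)
  filter_upwards [ev_Ioo] with x hx
  simp [← hyperlog_eq w hx]

theorem Li_tendsto {w : Word} (hw : w.head? ≠ some 1) (hw' : w.getLast? ≠ some 0) :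
    Tendsto (fun x : ℝ => Li w x) (𝓝[<] 1) (𝓝 (Φ w)) := by
  simpa [F, hyp_reg _ _ hw'] using F_tendsto hw

end Pool.Agent.Lib.MP_e8750f_nt
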