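import Pool.Agent.Lib.MP_e8750f_nt.Hyper
import Pool.Agent.Lib.MP_e8750f_nt.Check

/-! The distribution relations for the squaring map. -/

namespace Pool.Agent.Lib.MP_e8750f_nt

set_option linter.unusedSectionVars false

open Ser Filter Topology Set

def Mk : SignType → List (ℚ × SignType)
  | SignType.zero => [(2, 0)]
  | SignType.pos => [(1, 1), (1, -1)]
  | SignType.neg => []

def Mi : SignType → List (ℚ × SignType)
  | SignType.zero => [(1, 0)]
  | SignType.pos => [(1, 1)]
  | SignType.neg => []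

@[simp] theorem Mk_zero : Mk 0 = [(2, 0)] := rfl
@[simp] theorem Mk_one : Mk 1 = [(1, 1), (1, -1)] := rfl
@[simp] theorem Mk_neg : Mk (-1) = [] := rfl
@[simp] theorem Mi_zero : Mi 0 = [(1, 0)] := rfl
@[simp] theorem Mi_one : Mi 1 = [(1, 1)] := rfl
@[simp] theorem Mi_neg : Mi (-1) = [] := rfl

theorem sign_cases (a : SignType) : a = 0 ∨ a = 1 ∨ a = -1 := by cases a <;> simp

def Dist (F : S) : Prop := ∀ w : Word, w.head? ≠ some 1 → lin Mk F w = lin Mi F w

theorem lin_C (R : SignType → List (ℚ × SignType)) (x : ℂ) : lin R (C x : S) = C x := by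
  ext w
  cases w with
  | nil => rfl
  | cons a w => simp [lin_cons, lin_zero]

theorem lin_e_cons (R : SignType → List (ℚ × SignType)) (a o : SignType) (W : Word) :
    lin R (e a) (o :: W) = ((R o).map fun x => if x.2 = a then (x.1 : ℂ) else 0).sum * (1 : S) W := by
  have := lin_e_mul_cons R a 1 o W
  rwa [mul_one, ← C_one, lin_C, C_one] at this

theorem e_cons (a o : SignType) (W : Word) : (e a : S) (o :: W) = if o = a then (1 : S) W else 0 := by
  rw [← e_mul_cons, mul_one]

theorem lin_e : (lin Mk (e 0) = (2 : ℂ) • (e 0 : S) ∧ lin Mk (e 1) = e 1 ∧ lin Mk (e (-1)) = e 1) ∧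
    (lin Mi (e 0) = e 0 ∧ lin Mi (e 1) = e 1 ∧ lin Mi (e (-1)) = 0) := by
  refine ⟨⟨?_, ?_, ?_⟩, ?_, ?_, ?_⟩ <;> ext w <;> cases w <;> try simp
  all_goals
    rename_i o W
    rcases sign_cases o with rfl | rfl | rfl <;> simp [lin_e_cons, e_cons]

theorem lin_dS (R : SignType → List (ℚ × SignType)) {c c' : SignType → S} (h0 : ∀ a, c a [] = 0)
    (h0' : ∀ a, c' a [] = 0) (h : ∀ a, lin R (c a) = dS c' (lin R (e a))) (H : S) :
    lin R (dS c H) = dS c' (lin R H) := by
  have key : ∀ H, lin R (dS c H) - dS c' (lin R H)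
      = ∑ a, lin R (e a) * (lin R (dS c (der a H)) - dS c' (lin R (der a H))) := fun H => by
    have h1 : dS c' (lin R H) = ∑ a, dS c' (lin R (e a) * lin R (der a H)) := by
      conv_lhs => rw [expand H, lin_add, lin_C, lin_sum, dS_add, dS_C, zero_add, dS_sum]
      simp only [lin_mul]
    rw [h1, dS_expand c h0 H, lin_add, lin_sum, lin_sum]
    simp only [lin_mul, h, dS_mul' c' h0', Finset.sum_add_distrib, mul_sub, Finset.sum_sub_distrib]
    abel
  refine sub_eq_zero.mp (eq_zero_of_van fun n => ?_)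
  induction n generalizing H with
  | zero => exact van_zero _
  | succ n ih =>
    intro w hw
    rw [key, sum_app]
    exact Finset.sum_eq_zero fun a _ => van_mul (van_one (F := lin R (e a)) (by simp)) (ih _) w
      (by omega)

noncomputable def pp (θ : S) (a : SignType) : S := if a = 1 then θ else 0

theorem lin_flip (H : S) : lin Mk (flip H) = lin Mk H := by
  ext W
  induction W generalizing H with
  | nil => rfl
  | cons o W ih =>
    have h1 : ∀ a, der a (flip H) = flip (der (-a) H) := fun a => rfl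
    rcases sign_cases o with rfl | rfl | rfl <;> simp [lin_cons, h1, ih, add_comm]

theorem lin_T (ψ H : S) : lin Mk (T ψ H) = sL (pp (lin Mk ψ)) (lin Mk ψ) (lin Mk H) ∧
    lin Mi (T ψ H) = sL (pp (lin Mi ψ)) (lin Mi ψ) (lin Mi H) := by
  obtain ⟨⟨a1, a2, a3⟩, b1, b2, b3⟩ := lin_e
  constructor
  · change lin Mk (sOp _ _ _) = sOp _ _ _
    rw [sOp, sOp, lin_add, lin_mul, lin_dS Mk (comm_nil _) (comm_nil (pp (lin Mk ψ))) fun a => ?_]
    · rfl
    · rcases sign_cases a with rfl | rfl | rfl <;>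
        simp [comm, lin_sub, lin_mul, a1, a2, a3, dS_smul, dS_e _ (comm_nil _), pp, lin_zero, lin_flip]
  · change lin Mi (sOp _ _ _) = sOp _ _ _
    rw [sOp, sOp, lin_add, lin_mul, lin_dS Mi (comm_nil _) (comm_nil (pp (lin Mi ψ))) fun a => ?_]
    · rfl
    · rcases sign_cases a with rfl | rfl | rfl <;>
        simp [comm, lin_sub, lin_mul, b1, b2, b3, dS_e _ (comm_nil _), pp, lin_zero, dS_zero]

theorem lie_ones {θ : S} (hθ : IsLie θ) (h : ∀ w : Word, w.head? ≠ some 1 → θ w = 0) :
    θ = θ [1] • e 1 := by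
  have key : ∀ k b, b ≠ 1 → ∀ v, θ (List.replicate k 1 ++ b :: v) = 0 := by
    intro k b hb
    induction k with
    | zero => exact fun v => h _ (by simpa using hb)
    | succ k ih =>
      intro v
      have h1 := hθ.cop_apply (u := [1]) (v := List.replicate k 1 ++ b :: v) (by simp) (by simp)
      rw [cop_ones, cop] at h1
      simp only [ih, List.map_const', List.sum_replicate, smul_zero, add_zero] at h1
      exact (mul_eq_zero.mp h1).resolve_left (by exact_mod_cast k.succ_ne_zero)
  have : ∀ w : Word, (∃ k, w = List.replicate k 1) ∨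
      ∃ k b v, b ≠ 1 ∧ w = List.replicate k 1 ++ b :: v := by
    intro w
    induction w with
    | nil => exact Or.inl ⟨0, rfl⟩
    | cons a w ih =>
      by_cases ha : a = 1
      · subst ha
        rcases ih with ⟨k, rfl⟩ | ⟨k, b, v, hb, rfl⟩
        exacts [Or.inl ⟨k + 1, rfl⟩, Or.inr ⟨k + 1, b, v, hb, rfl⟩]
      · exact Or.inr ⟨0, a, w, ha, rfl⟩
  ext w
  rcases this w with ⟨k, rfl⟩ | ⟨k, b, v, hb, rfl⟩
  · match k with
    | 0 => simpa using hθ.nil
    | 1 => simp [e]
    | k + 2 =>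
      have h1 := hθ.cop_apply (u := [1]) (v := List.replicate (k + 1) 1) (by simp) (by simp)
      rw [cop_ones'] at h1
      rw [(mul_eq_zero.mp h1).resolve_left (by exact_mod_cast (k + 1).succ_ne_zero)]
      simp [e, List.replicate_succ]
  · rw [key k b hb]
    cases k <;> simp [e, hb, List.replicate_succ]

theorem Dist.expT {g ψ : S} (hg : Dist g) (hψ : IsLie ψ) (hd : Dist ψ) (t : ℂ) :
    Dist (expT (T ψ) t g) := by
  have h1 : IsLie (lin Mk ψ - lin Mi ψ) := by
    rw [IsLie, cop_sub, hψ.lin Mk, hψ.lin Mi, inl_sub, inr_sub]; abel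
  have h2 := lie_ones h1 fun w hw => sub_eq_zero.mpr (hd w hw)
  set c := (lin Mk ψ - lin Mi ψ) [1]
  set θ := lin Mi ψ with hθ
  have h3 : lin Mk ψ = θ + c • e 1 := by rw [← h2]; abel
  have h4 : comm (pp (lin Mk ψ)) = comm (pp θ) := by
    funext a
    rw [h3]
    by_cases ha : a = 1 <;> simp [comm, pp, ha, mul_add, add_mul]
  have h5 : ∀ a, pp θ a [] = 0 := fun a => by
    by_cases ha : a = 1 <;> simp [pp, ha, hθ, hψ.nil]
  have h6 : ∀ H : S, lin Mk (T ψ H) - lin Mi (T ψ H)
      = sOp (pp θ) θ (lin Mk H - lin Mi H) + e 1 * (c • lin Mk H) := fun H => by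
    rw [(lin_T ψ H).1, (lin_T ψ H).2]
    change sOp _ _ _ - sOp _ _ _ = _
    rw [sOp, sOp, sOp, h4, h3, dS_sub, ← hθ, add_mul, mul_sub, smul_mul_assoc, mul_smul_comm]
    abel
  set A := fun t => Pool.Agent.Lib.MP_e8750f_nt.expT (T ψ) t g with hA
  intro w hw
  refine sub_eq_zero.mp (ode_zero (ι := {w : Word // w.head? ≠ some 1}) (fun w => w.1.length)
    (fun t w => lin Mk (A t) w.1 - lin Mi (A t) w.1)
    (fun t w => lin Mk (T ψ (A t)) w.1 - lin Mi (T ψ (A t)) w.1) (fun w => ?_) (fun t w => ?_)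
    (fun t n hn w hl => ?_) t ⟨w, hw⟩)
  · simp only [hA, expT_zero]; exact sub_eq_zero.mpr (hg _ w.2)
  · have := expT_deriv (raises_T hψ.nil) g t
    exact (lin_deriv Mk this _).sub (lin_deriv Mi this _)
  · have he : ∀ H : S, (e 1 * H : S) w.1 = 0 := fun H => by
      obtain ⟨w, hw⟩ := w
      cases w with
      | nil => simp
      | cons a w => rw [e_mul_cons, if_neg (by simpa using hw)]
    set D := lin Mk (A t) - lin Mi (A t)
    have h7 : Van n (D - e 1 * der 1 D) := fun v hv => by
      cases v with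
      | nil => rw [sub_app, e_mul_nil, sub_zero]; exact hn ⟨[], by simp⟩ hv
      | cons a v =>
        rw [sub_app, e_mul_cons]
        split_ifs with ha
        · simp [ha]
        · rw [sub_zero]; exact hn ⟨a :: v, by simpa using ha⟩ hv
    have h8 := sOp_e_mul (pp θ) 1 (der 1 D)
    rw [show pp θ 1 = θ by simp [pp]] at h8
    rw [← sub_app, h6, add_app, he, add_zero, show lin Mk (A t) - lin Mi (A t)
      = (D - e 1 * der 1 D) + e 1 * der 1 D by simp [D], sOp_add, h8, add_app, he, add_zero]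
    exact van_sOp h5 (q := θ) hψ.nil h7 _ hl

theorem lin_rep (R : SignType → List (ℚ × SignType)) {c : ℚ} (h : R 0 = [(c, 0)]) (H : S) (k : ℕ) :
    lin R H (List.replicate k 0) = c ^ k * H (List.replicate k 0) := by
  induction k generalizing H with
  | zero => simp
  | succ k ih => rw [List.replicate_succ, lin_cons, h]; simp [ih]; ring

theorem sh_pure {R : SignType → List (ℚ × SignType)} (h : ∀ o c, (c, 0) ∈ R o → o = 0) {W w : Word}
    (hw : Sh R W w) (h' : w = List.replicate w.length 0) : W = List.replicate W.length 0 := by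
  induction hw with
  | nil => rfl
  | cons h1 _ ih =>
    obtain ⟨c, hc⟩ := h1
    simp only [List.length_cons, List.replicate_succ, List.cons.injEq] at h' ⊢
    exact ⟨h _ c (h'.1 ▸ hc), ih h'.2⟩

theorem sq_mem {x : ℝ} (hx : x ∈ Ioo (0 : ℝ) 1) : x ^ 2 ∈ Ioo (0 : ℝ) 1 :=
  ⟨pow_pos hx.1 2, pow_lt_one₀ hx.1.le hx.2 two_ne_zero⟩

theorem lin_F (W : Word) {x : ℝ} (hx : x ∈ Ioo (0 : ℝ) 1) :
    lin Mk (F x) W = lin Mi (F (x ^ 2)) W := by
  induction W generalizing x with
  | nil => simp
  | cons o W ih =>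
    by_cases hW : o :: W = List.replicate (o :: W).length 0
    · rw [hW, lin_rep Mk rfl, lin_rep Mi rfl, F, F, hyp_replicate, hyp_replicate, Real.log_pow]
      push_cast; ring
    refine sub_eq_zero.mp (zero_of_deriv
      (f := fun x => lin Mk (F x) (o :: W) - lin Mi (F (x ^ 2)) (o :: W)) hx (fun t ht => ?_) ?_)
    · have h1 : ∀ a : SignType, HasDerivAt (fun x => lin Mk (der a (F x)) W)
          (((t : ℂ) - a)⁻¹ * lin Mk (F t) W) t := by
        intro a
        rw [← smul_eq_mul, ← smul_app, ← lin_smul]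
        exact lin_deriv Mk (fun w => (F_deriv ht a w).congr_deriv (by simp; ring)) W
      have h2 : ∀ a : SignType, HasDerivAt (fun x => lin Mi (der a (F (x ^ 2))) W)
          ((2 * t * ((t : ℂ) ^ 2 - a)⁻¹) * lin Mi (F (t ^ 2)) W) t := by
        intro a
        rw [← smul_eq_mul (_ * _), ← smul_app, ← lin_smul]
        refine lin_deriv Mi (fun w => ((F_deriv (sq_mem ht) a w).scomp t
          (h := fun x : ℝ => x ^ 2) (hasDerivAt_pow 2 t)).congr_deriv ?_) W
        simp; ring
      have h3 : (t : ℂ) ≠ 0 := by exact_mod_cast ht.1.ne'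
      have h4 : (t : ℂ) - 1 ≠ 0 := by
        exact_mod_cast (show t - 1 ≠ 0 by linarith [ht.2])
      have h5 : (t : ℂ) + 1 ≠ 0 := by
        exact_mod_cast (show t + 1 ≠ 0 by linarith [ht.1])
      have h6 : (t : ℂ) ^ 2 - 1 = (t - 1) * (t + 1) := by ring
      simp only [lin_cons]
      refine ((hasDerivAt_list_sum _ fun y _ => (h1 y.2).const_mul _).sub
        (hasDerivAt_list_sum _ fun y _ => (h2 y.2).const_mul _)).congr_deriv ?_
      rw [ih ht]
      rcases sign_cases o with rfl | rfl | rfl <;> simp [h6] <;> field_simp <;> ring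
    · have h1 : Tendsto (fun x : ℝ => x ^ 2) (𝓝[>] 0) (𝓝[>] 0) :=
        tendsto_nhdsWithin_iff.mpr ⟨by
          simpa using ((continuous_pow 2).tendsto (0 : ℝ)).mono_left nhdsWithin_le_nhds,
          eventually_nhdsWithin_of_forall fun t ht => pow_pos (show 0 < t from ht) 2⟩
      have h2 := (lin_tendsto Mk (F := F) (G := 0) (W := o :: W) fun w hw => F_tendsto_zero
        fun h => hW (sh_pure (fun o c => by rcases sign_cases o with rfl | rfl | rfl <;> simp) hw h)).sub
        ((lin_tendsto Mi (F := F) (G := 0) (W := o :: W) fun w hw => F_tendsto_zero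
        fun h => hW (sh_pure (fun o c => by rcases sign_cases o with rfl | rfl | rfl <;> simp)
          hw h)).comp h1)
      simpa [lin_zero] using h2

theorem dist_Φ : Dist Φ := by
  intro W hW
  have h1 : Tendsto (fun x : ℝ => x ^ 2) (𝓝[<] 1) (𝓝[<] 1) :=
    tendsto_nhdsWithin_iff.mpr ⟨by
      simpa using ((continuous_pow 2).tendsto (1 : ℝ)).mono_left nhdsWithin_le_nhds,
      ev_Ioo.mono fun t ht => (sq_mem ht).2⟩
  have h2 : ∀ w, Sh Mk W w ∨ Sh Mi W w → w.head? ≠ some 1 := by
    rintro w (hw | hw) <;> cases hw with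
    | nil => simp
    | @cons o a _ _ h _ => rcases sign_cases o with rfl | rfl | rfl <;> simp_all
  refine tendsto_nhds_unique (lin_tendsto Mk fun w hw => F_tendsto (h2 w (Or.inl hw)))
    (((lin_tendsto Mi fun w hw => F_tendsto (h2 w (Or.inr hw))).comp h1).congr' ?_)
  filter_upwards [ev_Ioo] with x hx
  exact (lin_F W hx).symm

end Pool.Agent.Lib.MP_e8750f_nt
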