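import Pool.Agent.Lib.MP_e8750f_nt.Lin
import Pool.Agent.Lib.MP_e8750f_nt.Poly

/-! Multiple polylogarithms as power series, and symbolic hyperlogarithms. -/

namespace Pool.Agent.Lib.MP_e8750f_nt

set_option linter.unusedSectionVars false

open Ser Filter Topology

/-- Taylor coefficients -/
noncomputable def cf : Word → ℕ → ℝ
  | [], m => if m = 0 then 1 else 0
  | a :: w, m => if a = 0 then cf w m / m
      else -(∑ k ∈ Finset.range m, cf w k * (a : ℝ) ^ (m - k)) / m

theorem abs_sign_le (a : SignType) : |(a : ℝ)| ≤ 1 := by cases a <;> simp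

theorem abs_cf_le (w : Word) (m : ℕ) : |cf w m| ≤ 1 := by
  induction w generalizing m with
  | nil => rw [cf]; split_ifs <;> simp
  | cons a w ih =>
    rw [cf]
    rcases Nat.eq_zero_or_pos m with rfl | hm
    · simp
    have hm' : (1 : ℝ) ≤ m := by exact_mod_cast hm
    split_ifs
    · rw [abs_div, Nat.abs_cast, div_le_one (by linarith)]; exact (ih m).trans hm'
    · rw [abs_div, abs_neg, Nat.abs_cast, div_le_one (by linarith)]
      refine (Finset.abs_sum_le_sum_abs _ _).trans ?_
      refine (Finset.sum_le_sum (g := fun _ => (1 : ℝ)) fun k _ => ?_).trans (by simp)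
      rw [abs_mul, abs_pow]
      exact mul_le_one₀ (ih k) (by positivity) (pow_le_one₀ (abs_nonneg _) (abs_sign_le a))

theorem cf_cons_zero (a : SignType) (w : Word) : cf (a :: w) 0 = 0 := by simp [cf]

theorem cf_rec (a : SignType) (w : Word) (h : a ≠ 0 ∨ w ≠ []) (m : ℕ) :
    cf w m = m * cf (a :: w) m - a * ((m + 1) * cf (a :: w) (m + 1)) := by
  have h1 : ((m : ℝ) + 1) ≠ 0 := by positivity
  by_cases ha : a = 0
  · subst ha
    rcases Nat.eq_zero_or_pos m with rfl | hm
    · obtain ⟨b, v, rfl⟩ := List.exists_cons_of_ne_nil (h.resolve_left (by simp))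
      simp [cf_cons_zero]
    · have : (m : ℝ) ≠ 0 := by positivity
      simp only [cf, if_true]; field_simp; simp
  · have ha2 : (a : ℝ) * a = 1 := by cases a <;> simp_all
    have h2 : (m : ℝ) * cf (a :: w) m = -∑ k ∈ Finset.range m, cf w k * (a : ℝ) ^ (m - k) := by
      rcases Nat.eq_zero_or_pos m with rfl | hm
      · simp
      · have : (m : ℝ) ≠ 0 := by positivity
        simp only [cf, if_neg ha]; field_simp
    have h3 : ((m : ℝ) + 1) * cf (a :: w) (m + 1)
        = -∑ k ∈ Finset.range (m + 1), cf w k * (a : ℝ) ^ (m + 1 - k) := by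
      simp only [cf, if_neg ha]; push_cast; field_simp
    rw [h2, h3, Finset.sum_range_succ, mul_neg, mul_add, Finset.mul_sum]
    have h4 : ∑ k ∈ Finset.range m, (a : ℝ) * (cf w k * (a : ℝ) ^ (m + 1 - k))
        = ∑ k ∈ Finset.range m, cf w k * (a : ℝ) ^ (m - k) := by
      refine Finset.sum_congr rfl fun k hk => ?_
      rw [show m + 1 - k = m - k + 1 by have := Finset.mem_range.mp hk; omega, pow_succ]
      linear_combination (cf w k * (a : ℝ) ^ (m - k)) * ha2
    rw [h4, Nat.add_sub_cancel_left, pow_one]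
    linear_combination (-cf w m) * ha2

/-- the multiple polylogarithm -/
noncomputable def Li (w : Word) (z : ℂ) : ℂ := ∑' m, (cf w m : ℂ) * z ^ m

theorem norm_cf_le (w : Word) (m : ℕ) : ‖(cf w m : ℂ)‖ ≤ 1 := by
  rw [Complex.norm_real]; exact abs_cf_le w m

theorem norm_term_le (w : Word) (z : ℂ) (m : ℕ) : ‖(cf w m : ℂ) * z ^ m‖ ≤ ‖z‖ ^ m := by
  rw [norm_mul, norm_pow]
  exact mul_le_of_le_one_left (by positivity) (norm_cf_le w m)

theorem summable_Li (w : Word) {z : ℂ} (hz : ‖z‖ < 1) : Summable fun m => (cf w m : ℂ) * z ^ m :=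
  .of_norm_bounded (summable_geometric_of_lt_one (norm_nonneg z) hz) (norm_term_le w z)

theorem hasSum_Li (w : Word) {z : ℂ} (hz : ‖z‖ < 1) :
    HasSum (fun m => (cf w m : ℂ) * z ^ m) (Li w z) := (summable_Li w hz).hasSum

theorem norm_Li_le (w : Word) {z : ℂ} (hz : ‖z‖ < 1) : ‖Li w z‖ ≤ (1 - ‖z‖)⁻¹ :=
  tsum_of_norm_bounded (hasSum_geometric_of_lt_one (norm_nonneg z) hz) (norm_term_le w z)

theorem norm_Li_le' {w : Word} (hw : w ≠ []) {z : ℂ} (hz : ‖z‖ < 1) :
    ‖Li w z‖ ≤ ‖z‖ * (1 - ‖z‖)⁻¹ := by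
  obtain ⟨b, v, rfl⟩ := List.exists_cons_of_ne_nil hw
  rw [Li, (summable_Li _ hz).tsum_eq_zero_add, cf_cons_zero]
  simp only [Complex.ofReal_zero, zero_mul, zero_add]
  refine tsum_of_norm_bounded ((hasSum_geometric_of_lt_one (norm_nonneg z) hz).mul_left ‖z‖)
    fun m => ?_
  rw [← pow_succ']; exact norm_term_le _ z _

@[simp] theorem Li_nil (z : ℂ) : Li [] z = 1 := by
  rw [Li, tsum_eq_single 0] <;> simp +contextual [cf]

theorem Li_deriv (a : SignType) (w : Word) (h : a ≠ 0 ∨ w ≠ []) {z : ℂ} (hz : ‖z‖ < 1)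
    (h0 : z ≠ 0) : HasDerivAt (Li (a :: w)) (Li w z / (z - a)) z := by
  set r := (1 + ‖z‖) / 2 with hr
  have hr0 : 0 < r := by positivity
  have hr1 : r < 1 := by rw [hr]; linarith
  have hzr : z ∈ Metric.ball (0 : ℂ) r := by simp only [Metric.mem_ball, dist_zero_right, hr]; linarith
  have hsum : Summable fun n : ℕ => (n : ℝ) * r ^ (n - 1) := by
    refine (summable_nat_add_iff 1).mp ?_
    have h1 := summable_pow_mul_geometric_of_norm_lt_one 1 (r := r)
      (by rwa [Real.norm_of_nonneg hr0.le])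
    simpa [add_mul] using h1.add (summable_geometric_of_lt_one hr0.le hr1)
  have hb : ∀ (n : ℕ) (y : ℂ), y ∈ Metric.ball (0 : ℂ) r →
      ‖(cf (a :: w) n : ℂ) * (n * y ^ (n - 1))‖ ≤ (n : ℝ) * r ^ (n - 1) := fun n y hy => by
    rw [norm_mul, norm_mul, norm_pow, Complex.norm_natCast]
    have : ‖y‖ ≤ r := by simpa using (Metric.mem_ball.mp hy).le
    exact (mul_le_of_le_one_left (by positivity) (norm_cf_le _ _)).trans (by gcongr)
  have hd := hasDerivAt_tsum_of_isPreconnected hsum Metric.isOpen_ball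
    (convex_ball (0 : ℂ) r).isPreconnected (g := fun n y => (cf (a :: w) n : ℂ) * y ^ n)
    (fun n y _ => (hasDerivAt_pow n y).const_mul _) hb hzr (summable_Li _ hz) hzr
  refine hd.congr_deriv ?_
  have hs : Summable fun n : ℕ => (cf (a :: w) n : ℂ) * (n * z ^ (n - 1)) :=
    .of_norm_bounded hsum fun n => hb n z hzr
  have hza : z - a ≠ 0 := by
    intro h'
    rw [sub_eq_zero] at h'
    cases a <;> simp_all
  rw [eq_div_iff hza]
  have h1 : HasSum (fun n : ℕ => (cf (a :: w) (n + 1) : ℂ) * ((n + 1) * z ^ n))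
      (∑' n : ℕ, (cf (a :: w) n : ℂ) * (n * z ^ (n - 1))) := by
    have := (hasSum_nat_add_iff' 1).mpr hs.hasSum
    simpa using this
  have h2 := (hs.hasSum.mul_right z).sub (h1.mul_right (a : ℂ))
  rw [← mul_sub] at h2
  refine h2.unique ((hasSum_Li w hz).congr_fun fun n => ?_)
  have h3 := congrArg (fun x : ℝ => (x : ℂ)) (cf_rec a w h n)
  have h4 : ((a : ℝ) : ℂ) = a := by cases a <;> simp
  simp only [Complex.ofReal_sub, Complex.ofReal_mul, Complex.ofReal_natCast, Complex.ofReal_add,
    Complex.ofReal_one, h4] at h3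
  rw [h3]
  cases n with
  | zero => simp; ring
  | succ n => simp only [Nat.add_sub_cancel, pow_succ]; ring

theorem cf_neg (w : Word) (m : ℕ) : cf (w.map fun a => -a) m = (-1) ^ m * cf w m := by
  induction w generalizing m with
  | nil => rw [List.map_nil, cf]; split_ifs with h <;> simp [h]
  | cons a w ih =>
    rw [List.map_cons, cf, cf]
    by_cases ha : a = 0
    · simp [ha, ih, mul_div_assoc]
    · rw [if_neg ha, if_neg (by simpa using ha), ← mul_div_assoc, mul_neg, Finset.mul_sum]
      congr 2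
      refine Finset.sum_congr rfl fun k hk => ?_
      have hk' := Finset.mem_range.mp hk
      rw [ih, SignType.coe_neg, neg_pow (a : ℝ)]
      conv_rhs => rw [show m = k + (m - k) by omega, pow_add, Nat.add_sub_cancel_left]
      ring

theorem Li_neg (w : Word) (z : ℂ) : Li w (-z) = Li (w.map fun a => -a) z := by
  refine tsum_congr fun m => ?_
  rw [cf_neg, neg_pow z]; push_cast; ring

def antiAux : ℕ → Word → LC (ℕ × Word)
  | 0, v => [(1, 0, v)]
  | j + 1, v => (1, j + 1, v) :: scl (-((j : ℚ) + 1)) (antiAux j (0 :: v))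

def anti (a : SignType) (t : ℕ × Word) : LC (ℕ × Word) :=
  if t.2 = [] ∧ a = 0 then [(1 / ((t.1 : ℚ) + 1), t.1 + 1, [])] else antiAux t.1 (a :: t.2)

/-- symbolic hyperlogarithm -/
def HL : Word → LC (ℕ × Word)
  | [] => [(1, 0, [])]
  | a :: w => nrm ((HL w).flatMap fun t => scl t.1 (anti a t.2))

theorem evalF_HL_cons (f : ℕ × Word → ℂ) (a : SignType) (w : Word) :
    evalF f (HL (a :: w)) = evalF (fun k => evalF f (anti a k)) (HL w) := by
  rw [HL, evalF_nrm, evalF_flatMap]
  simp only [evalF_scl]; rfl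

/-- the hyperlogarithm with `l` in place of the logarithm -/
noncomputable def hyp (z l : ℂ) : S := fun w => evalF (fun t => l ^ t.1 * Li t.2 z) (HL w)

@[simp] theorem hyp_nil (z l : ℂ) : hyp z l [] = 1 := by simp [hyp, HL]

theorem hasDerivAt_evalF {κ : Type} {f : ℝ → κ → ℂ} {f' : κ → ℂ} {t : ℝ} (l : LC κ)
    (h : ∀ k, HasDerivAt (fun t => f t k) (f' k) t) :
    HasDerivAt (fun t => evalF (f t) l) (evalF f' l) t :=
  hasDerivAt_list_sum _ fun x _ => (h x.2).const_mul _

theorem hyp_deriv {z l : ℝ → ℂ} {μ : ℂ} {t : ℝ} (hz : HasDerivAt z (z t * μ) t)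
    (hl : HasDerivAt l μ t) (h1 : ‖z t‖ < 1) (h0 : z t ≠ 0) (a : SignType) (w : Word) :
    HasDerivAt (fun t => hyp (z t) (l t) (a :: w))
      (hyp (z t) (l t) w * (z t * μ / (z t - a))) t := by
  have hA : ∀ (j : ℕ) (a : SignType) (v : Word), (a ≠ 0 ∨ v ≠ []) →
      HasDerivAt (fun t => evalF (fun k => l t ^ k.1 * Li k.2 (z t)) (antiAux j (a :: v)))
        (l t ^ j * Li v (z t) * (z t * μ / (z t - a))) t := by
    intro j
    induction j with
    | zero =>
      intro a v h
      simp only [antiAux, evalF_cons, evalF_nil, pow_zero, one_mul, Rat.cast_one, add_zero]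
      refine ((Li_deriv a v h h1 h0).comp t hz).congr_deriv ?_
      ring
    | succ j ih =>
      intro a v h
      simp only [antiAux, evalF_cons, evalF_scl, one_mul, Rat.cast_one]
      refine (((hl.fun_pow (j + 1)).mul ((Li_deriv a v h h1 h0).comp t hz)).add
        ((ih 0 (a :: v) (Or.inr (by simp))).const_mul _)).congr_deriv ?_
      simp only [SignType.coe_zero, sub_zero, Function.comp_apply, Nat.add_sub_cancel]
      push_cast
      field_simp
      ring
  simp only [hyp, evalF_HL_cons]
  rw [← evalF_mul_right]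
  refine hasDerivAt_evalF _ fun k => ?_
  unfold anti
  split_ifs with h
  · simp only [evalF_cons, evalF_nil, Li_nil, mul_one, add_zero, h.1, h.2]
    refine ((hl.fun_pow (k.1 + 1)).const_mul _).congr_deriv ?_
    have : ((k.1 : ℂ) + 1) ≠ 0 := by exact_mod_cast k.1.succ_ne_zero
    simp only [SignType.coe_zero, sub_zero, Nat.add_sub_cancel]
    push_cast
    field_simp
  · exact hA _ _ _ (by tauto)

theorem key_mem_nrm {κ : Type} [DecidableEq κ] {P : κ → Prop} {l : LC κ} (h : ∀ t ∈ l, P t.2) :
    ∀ t ∈ nrm l, P t.2 := by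
  have h1 : ∀ (c : ℚ) (k : κ) (l : LC κ), P k → (∀ t ∈ l, P t.2) → ∀ t ∈ ins c k l, P t.2 := by
    intro c k l hk hl
    induction l with
    | nil => simpa [ins] using hk
    | cons s l ih =>
      rw [ins]
      split_ifs
      · simpa using hl
      · intro t ht
        rcases List.mem_cons.mp ht with rfl | ht
        exacts [hl _ (by simp), ih (fun t ht => hl t (by simp [ht])) t ht]
  have h2 : ∀ l : LC κ, (∀ t ∈ l, P t.2) → ∀ t ∈ norm0 l, P t.2 := by
    intro l hl
    induction l with
    | nil => simp [norm0]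
    | cons s l ih => exact h1 _ _ _ (hl s (by simp)) (ih fun t ht => hl t (by simp [ht]))
  have h3 : ∀ l : LC κ, ∀ t ∈ dropZ l, t ∈ l := by
    intro l
    induction l with
    | nil => simp [dropZ]
    | cons s l ih =>
      rw [dropZ]
      split_ifs
      · exact fun t ht => List.mem_cons_of_mem _ (ih t ht)
      · intro t ht
        rcases List.mem_cons.mp ht with rfl | ht
        exacts [by simp, List.mem_cons_of_mem _ (ih t ht)]
  exact fun t ht => h2 l h t (h3 _ t ht)

theorem antiAux_ne (j : ℕ) (v : Word) (hv : v ≠ []) : ∀ t ∈ antiAux j v, t.2.2 ≠ [] := by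
  induction j generalizing v with
  | zero => simpa [antiAux] using hv
  | succ j ih =>
    intro t ht
    simp only [antiAux, scl, List.mem_cons, List.mem_map] at ht
    rcases ht with rfl | ⟨s, hs, rfl⟩
    exacts [hv, ih _ (by simp) s hs]

theorem HL_ne {w : Word} (hw : w ≠ List.replicate w.length 0) : ∀ t ∈ HL w, t.2.2 ≠ [] := by
  induction w with
  | nil => simp at hw
  | cons a w ih =>
    refine key_mem_nrm (P := fun k : ℕ × Word => k.2 ≠ []) fun t ht => ?_
    simp only [List.mem_flatMap, scl, List.mem_map] at ht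
    obtain ⟨s, hs, r, hr, rfl⟩ := ht
    unfold anti at hr
    split_ifs at hr with h
    · refine absurd h.1 (ih (fun h' => hw ?_) s hs)
      rw [List.length_cons, List.replicate_succ, ← h', h.2]
    · exact antiAux_ne _ _ (by simp) r hr

theorem evalF_HL_replicate (k : ℕ) (f : ℕ × Word → ℂ) :
    evalF f (HL (List.replicate k 0)) = f (k, []) / k.factorial := by
  induction k generalizing f with
  | zero => simp [HL]
  | succ k ih =>
    have : (k.factorial : ℂ) ≠ 0 := by exact_mod_cast k.factorial_ne_zero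
    have : ((k : ℂ) + 1) ≠ 0 := by exact_mod_cast k.succ_ne_zero
    rw [List.replicate_succ, evalF_HL_cons, ih]
    simp only [anti, and_self, if_true, evalF_cons, evalF_nil, Nat.factorial_succ]
    push_cast
    field_simp
    simp

theorem hyp_replicate (z l : ℂ) (k : ℕ) :
    hyp z l (List.replicate k 0) = l ^ k / k.factorial := by
  rw [hyp, evalF_HL_replicate]; simp

theorem evalF_HL_reg (f : ℕ × Word → ℂ) {w : Word} (hw : w.getLast? ≠ some 0) :
    evalF f (HL w) = f (0, w) := by
  induction w generalizing f with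
  | nil => simp [HL]
  | cons a w ih =>
    rw [evalF_HL_cons, ih]
    · rw [anti, if_neg]
      · simp [antiAux]
      · rintro ⟨h1, h2⟩
        simp only at h1
        simp [h1, h2] at hw
    · cases w with
      | nil => simp
      | cons b w => simpa using hw

theorem hyp_reg (z l : ℂ) {w : Word} (hw : w.getLast? ≠ some 0) : hyp z l w = Li w z := by
  rw [hyp, evalF_HL_reg _ hw]; simp

end Pool.Agent.Lib.MP_e8750f_nt
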