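import Pool.Agent.Lib.MP_e8750f_nt.Machine

/-! Linear changes of alphabet. -/

namespace Pool.Agent.Lib.MP_e8750f_nt

set_option linter.unusedSectionVars false

open Ser Filter Topology

section Lin
variable {α β : Type}

noncomputable def linF (R : β → List (ℚ × α)) : List β → Ser α ℂ → ℂ
  | [], F => F []
  | o :: W, F => ((R o).map fun x => (x.1 : ℂ) * linF R W (der x.2 F)).sum

/-- pull-back of a series along a linear change of alphabet -/
noncomputable def lin (R : β → List (ℚ × α)) (F : Ser α ℂ) : Ser β ℂ := fun W => linF R W F

variable (R : β → List (ℚ × α))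

@[simp] theorem lin_nil (F : Ser α ℂ) : lin R F [] = F [] := rfl
theorem lin_cons (F : Ser α ℂ) (o : β) (W : List β) :
    lin R F (o :: W) = ((R o).map fun x => (x.1 : ℂ) * lin R (der x.2 F) W).sum := rfl

theorem lin_add (F G : Ser α ℂ) : lin R (F + G) = lin R F + lin R G := by
  ext W
  induction W generalizing F G with
  | nil => rfl
  | cons o W ih => simp only [lin_cons, der_add, ih, add_app, mul_add, List.sum_map_add]

theorem lin_smul (c : ℂ) (F : Ser α ℂ) : lin R (c • F) = c • lin R F := by
  ext W
  induction W generalizing F with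
  | nil => rfl
  | cons o W ih =>
    have : ∀ a, der a (c • F) = c • der a F := fun a => rfl
    simp only [lin_cons, this, ih, smul_app, smul_eq_mul, ← List.sum_map_mul_left, mul_left_comm]

/-- `lin` as a linear map -/
noncomputable def linL : Ser α ℂ →ₗ[ℂ] Ser β ℂ where
  toFun := lin R
  map_add' := lin_add R
  map_smul' := lin_smul R

theorem lin_sub (F G : Ser α ℂ) : lin R (F - G) = lin R F - lin R G := (linL R).map_sub F G
theorem lin_zero : lin R (0 : Ser α ℂ) = 0 := (linL R).map_zero
theorem lin_neg (F : Ser α ℂ) : lin R (-F) = -lin R F := (linL R).map_neg F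
theorem lin_sum {ι : Type} (s : Finset ι) (F : ι → Ser α ℂ) :
    lin R (∑ i ∈ s, F i) = ∑ i ∈ s, lin R (F i) := map_sum (linL R) F s

theorem list_sum_app {ι γ : Type} (l : List ι) (F : ι → Ser γ ℂ) (w : List γ) :
    (l.map F).sum w = (l.map fun i => F i w).sum := by
  induction l with
  | nil => rfl
  | cons a l ih => simp [ih]

theorem der_lin (F : Ser α ℂ) (o : β) :
    der o (lin R F) = ((R o).map fun x => (x.1 : ℂ) • lin R (der x.2 F)).sum := by
  ext W; rw [list_sum_app]; rfl

theorem lin_mul (F G : Ser α ℂ) : lin R (F * G) = lin R F * lin R G := by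
  ext W
  induction W generalizing F with
  | nil => rfl
  | cons o W ih =>
    have h1 : ∀ a, der a (F * G) = F [] • der a G + der a F * G := fun a => rfl
    rw [mul_cons, der_lin, ← List.sum_map_mul_right, list_sum_app, lin_cons, lin_cons,
      ← List.sum_map_mul_left, ← List.sum_map_add]
    refine congrArg List.sum (List.map_congr_left fun x _ => ?_)
    rw [h1, lin_add, lin_smul, add_app, ih, smul_mul_assoc]
    simp only [smul_app, smul_eq_mul, lin_nil]; ring

/-- words occurring in the expansion -/
def Sh (W : List β) (w : List α) : Prop := List.Forall₂ (fun o a => ∃ c, (c, a) ∈ R o) W w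

theorem lin_congr {F G : Ser α ℂ} {W : List β} (h : ∀ w, Sh R W w → F w = G w) :
    lin R F W = lin R G W := by
  induction W generalizing F G with
  | nil => exact h [] List.Forall₂.nil
  | cons o W ih =>
    rw [lin_cons, lin_cons]
    refine congrArg List.sum (List.map_congr_left fun x hx => ?_)
    rw [ih (F := der x.2 F) (G := der x.2 G) fun w hw =>
      h (x.2 :: w) (List.Forall₂.cons ⟨x.1, hx⟩ hw)]

theorem tendsto_list_sum' {ι X : Type} {l : Filter X} (L : List ι) {f : X → ι → ℂ} {g : ι → ℂ}
    (h : ∀ i ∈ L, Tendsto (fun x => f x i) l (𝓝 (g i))) :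
    Tendsto (fun x => (L.map (f x)).sum) l (𝓝 (L.map g).sum) :=
  tendsto_list_sum (f := fun i x => f x i) L h

theorem lin_tendsto {X : Type} {l : Filter X} {F : X → Ser α ℂ} {G : Ser α ℂ} {W : List β}
    (h : ∀ w, Sh R W w → Tendsto (fun x => F x w) l (𝓝 (G w))) :
    Tendsto (fun x => lin R (F x) W) l (𝓝 (lin R G W)) := by
  induction W generalizing F G with
  | nil => exact h [] List.Forall₂.nil
  | cons o W ih =>
    simp only [lin_cons]
    refine tendsto_list_sum' _ fun x hx => Tendsto.const_mul _ ?_
    exact ih (F := fun y => der x.2 (F y)) fun w hw => h (x.2 :: w) (List.Forall₂.cons ⟨x.1, hx⟩ hw)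

theorem hasSum_list_sum {ι : Type} (L : List ι) {f : ℕ → ι → ℂ} {g : ι → ℂ}
    (h : ∀ i ∈ L, HasSum (fun m => f m i) (g i)) :
    HasSum (fun m => (L.map (f m)).sum) (L.map g).sum := by
  induction L with
  | nil => simp [hasSum_zero]
  | cons a L ih =>
    simp only [List.map_cons, List.sum_cons]
    exact (h a (by simp)).add (ih fun i hi => h i (by simp [hi]))

theorem lin_hasSum {F : ℕ → Ser α ℂ} {G : Ser α ℂ} (h : ∀ w, HasSum (fun m => F m w) (G w))
    (W : List β) : HasSum (fun m => lin R (F m) W) (lin R G W) := by
  induction W generalizing F G with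
  | nil => exact h []
  | cons o W ih =>
    simp only [lin_cons]
    refine hasSum_list_sum _ fun x _ => HasSum.mul_left _ ?_
    exact ih (F := fun y => der x.2 (F y)) fun w => h (x.2 :: w)

theorem lin_deriv {𝕜 : Type} [NontriviallyNormedField 𝕜] [NormedAlgebra 𝕜 ℂ] {A : 𝕜 → Ser α ℂ}
    {A' : Ser α ℂ} {t : 𝕜} (h : ∀ w, HasDerivAt (fun t => A t w) (A' w) t) (W : List β) :
    HasDerivAt (fun t => lin R (A t) W) (lin R A' W) t := by
  induction W generalizing A A' with
  | nil => exact h []
  | cons o W ih =>
    simp only [lin_cons]
    refine hasDerivAt_list_sum _ fun x _ => HasDerivAt.const_mul _ ?_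
    exact ih (A := fun y => der x.2 (A y)) fun w => h (x.2 :: w)

theorem lin_mapQ (Q : ℂ →ₗ[ℚ] ℂ) (F : Ser α ℂ) : lin R (mapQ Q F) = mapQ Q (lin R F) := by
  ext W
  induction W generalizing F with
  | nil => rfl
  | cons o W ih =>
    have : ∀ a, der a (mapQ Q F) = mapQ Q (der a F) := fun a => rfl
    rw [mapQ, lin_cons, lin_cons, map_list_sum, List.map_map]
    refine congrArg List.sum (List.map_congr_left fun x _ => ?_)
    rw [this, ih, Function.comp_apply, mul_comm (x.1 : ℂ) (lin R _ _), map_mul_rat, mul_comm]; rfl

theorem Sh.length {W : List β} {w : List α} (h : Sh R W w) : w.length = W.length :=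
  (List.Forall₂.length_eq h).symm

theorem lin_scale (c : ℂ) (F : Ser α ℂ) : lin R (scale c F) = scale c (lin R F) := by
  ext W
  rw [lin_congr R (G := c ^ W.length • F) fun w hw => by rw [scale, hw.length]; rfl, lin_smul]; rfl

theorem lin_projW (r : ℕ) (F : Ser α ℂ) : lin R (projW r F) = projW r (lin R F) := by
  ext W
  by_cases h : W.length = r
  · rw [projW, if_pos h]; exact lin_congr R fun w hw => by rw [projW, hw.length, if_pos h]
  · rw [projW, if_neg h, lin_congr R (G := 0) fun w hw => by rw [projW, hw.length, if_neg h]; rfl,
      lin_zero]; rfl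

theorem cop_list_sum {ι : Type} (l : List ι) (c : ι → ℂ) (F : ι → Ser β ℂ) (U V : List β) :
    cop (l.map fun i => c i • F i).sum U V = (l.map fun i => c i * cop (F i) U V).sum := by
  induction l with
  | nil => simp [cop_zero]
  | cons a l ih => simp [cop_add, cop_smul, ih]

noncomputable def lin2 (F : Ser α ℂ) (V : List β) : Ser α ℂ := fun u => lin R (cop F u) V

theorem cop_lin (F : Ser α ℂ) (U V : List β) : cop (lin R F) U V = lin R (lin2 R F V) U := by
  induction U generalizing F V with
  | nil =>
    rw [cop_nil_left, lin_nil, lin2]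
    congr 1; ext v; simp
  | cons o U ihU =>
    induction V generalizing F with
    | nil =>
      rw [cop_nil_right]
      congr 1; ext u; simp [lin2]
    | cons o' V ihV =>
      rw [cop_cons_cons, der_lin, der_lin, cop_list_sum, cop_list_sum]
      simp only [ihU, ihV]
      have h1 : ∀ a, der a (lin2 R F (o' :: V)) = lin2 R (der a F) (o' :: V) + ((R o').map fun y =>
            (y.1 : ℂ) • der a (lin2 R (der y.2 F) V)).sum := by
        intro a
        ext u
        rw [der_apply, add_app, list_sum_app, lin2, lin2, lin_cons, lin_cons, ← List.sum_map_add]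
        refine congrArg List.sum (List.map_congr_left fun y _ => ?_)
        have : der y.2 (cop F (a :: u)) = der y.2 (cop (der a F) u) + cop (der y.2 F) (a :: u) := by
          ext v; exact cop_cons_cons _ _ _ _ _
        rw [this, lin_add, add_app, mul_add]; rfl
      have h2 : ∀ (l : List (ℚ × α)) (G : ℚ × α → Ser α ℂ),
          lin R (l.map fun y => (y.1 : ℂ) • G y).sum U
            = (l.map fun y => (y.1 : ℂ) * lin R (G y) U).sum := by
        intro l G
        induction l with
        | nil => simp [lin_zero]
        | cons y l ih => simp [lin_add, lin_smul, ih]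
      simp only [lin_cons R _ o, h1, lin_add, add_app, mul_add, List.sum_map_add, h2,
        ← List.sum_map_mul_left]
      congr 1
      generalize R o = l, R o' = l'
      induction l with
      | nil => simp
      | cons x l ih =>
        simp only [List.map_cons, List.sum_cons, List.sum_map_add, ih]
        congr 1
        exact congrArg List.sum (List.map_congr_left fun y _ => mul_left_comm _ _ _)

variable [DecidableEq α] [Fintype α] [DecidableEq β] [Fintype β]

theorem IsChar.lin {g : Ser α ℂ} (h : IsChar g) : IsChar (lin R g) := by
  refine (isChar_iff _).mpr ⟨h.1, fun U V => ?_⟩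
  have h1 : lin2 R g V = Pool.Agent.Lib.MP_e8750f_nt.lin R g V • g := by
    ext u
    have : cop g u = g u • g := by ext v; exact h.cop_apply u v
    rw [lin2, this, lin_smul]; simp [mul_comm]
  rw [cop_lin, h1, lin_smul]; simp [mul_comm]

theorem IsLie.lin {g : Ser α ℂ} (h : IsLie g) : IsLie (lin R g) := by
  refine (isLie_iff _).mpr ⟨h.nil, fun U V hU hV => ?_⟩
  rw [cop_lin, lin_congr R (G := 0), lin_zero]
  · rfl
  · intro u hu
    rw [lin2, lin_congr R (G := 0), lin_zero]
    · rfl
    · intro v hv
      refine h.cop_apply ?_ ?_
      · rintro rfl; exact hU (List.length_eq_zero_iff.mp hu.length.symm)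
      · rintro rfl; exact hV (List.length_eq_zero_iff.mp hv.length.symm)

omit [Fintype α] [DecidableEq β] [Fintype β] in
theorem lin_e_mul_cons (a : α) (H : Ser α ℂ) (o : β) (W : List β) :
    lin R (e a * H) (o :: W)
      = ((R o).map fun x => if x.2 = a then (x.1 : ℂ) else 0).sum * lin R H W := by
  rw [lin_cons, ← List.sum_map_mul_right]
  refine congrArg List.sum (List.map_congr_left fun x _ => ?_)
  rw [der_e_mul]
  split_ifs <;> simp [lin_zero]

/-- the expansion of a word -/
def expandW (R : β → List (ℚ × α)) : List β → List (ℚ × List α)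
  | [] => [(1, [])]
  | o :: W => (R o).flatMap fun x => (expandW R W).map fun y => (x.1 * y.1, x.2 :: y.2)

omit [DecidableEq α] [Fintype α] [DecidableEq β] [Fintype β] in
theorem lin_eq_expandW (F : Ser α ℂ) (W : List β) :
    lin R F W = ((expandW R W).map fun y => (y.1 : ℂ) * F y.2).sum := by
  induction W generalizing F with
  | nil => simp [expandW]
  | cons o W ih =>
    rw [lin_cons, expandW]
    generalize R o = l
    induction l with
    | nil => simp
    | cons x l ihl =>
      simp only [List.map_cons, List.sum_cons, List.flatMap_cons, List.map_append, List.sum_append,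
        ihl, List.map_map]
      congr 1
      rw [ih, ← List.sum_map_mul_left]
      refine congrArg List.sum (List.map_congr_left fun y _ => ?_)
      simp [mul_assoc]

end Lin

/-- all ways to cut a word in two -/
def splits {α : Type} : List α → List (List α × List α)
  | [] => [([], [])]
  | a :: w => ([], a :: w) :: (splits w).map fun x => (a :: x.1, x.2)

theorem mul_eq_splits {α : Type} (F G : Ser α ℂ) (w : List α) :
    (F * G) w = ((splits w).map fun x => F x.1 * G x.2).sum := by
  induction w generalizing F with
  | nil => simp [splits]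
  | cons a w ih => rw [mul_cons, ih]; simp [splits, Function.comp_def]

theorem mem_splits {α : Type} {w : List α} {x : List α × List α} (h : x ∈ splits w) :
    x.1 ++ x.2 = w := by
  induction w generalizing x with
  | nil => simp [splits] at h; simp [h]
  | cons a w ih =>
    simp only [splits, List.mem_cons, List.mem_map] at h
    rcases h with rfl | ⟨y, hy, rfl⟩
    · rfl
    · simp [ih hy]

/-- the letters `ω₀, ω₊, ω₋` -/
inductive Om : Type
  | z | p | m
  deriving DecidableEq, Fintype

def Rw : Om → List (ℚ × SignType)
  | .z => [(1, 0)]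
  | .p => [(-1, 1), (-1, -1)]
  | .m => [(-1, 1), (1, -1)]

/-- pull-back to the `ω` alphabet -/
noncomputable def om (F : S) : Ser Om ℂ := lin Rw F

/-- parity of the number of `ω₋` -/
def par : List Om → Bool
  | [] => false
  | .m :: W => !par W
  | _ :: W => par W

def sig : Bool → Om → Om
  | true, .p => .m
  | true, .m => .p
  | _, o => o

theorem om_flip (F : S) (W : List Om) :
    om (flip F) W = (if par W then -1 else 1) * om F W := by
  induction W generalizing F with
  | nil => simp [om, par, flip]
  | cons o W ih =>
    have h1 : ∀ a, der a (flip F) = flip (der (-a) F) := fun a => rfl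
    simp only [om] at ih ⊢
    cases o <;> cases h : par W <;> simp [lin_cons, Rw, h1, ih, par, h] <;> ring

abbrev Term : Type := ℤ × List Om × List Om

def domA (o : Om) (W : List Om) : List Term :=
  if o = .z then [] else (splits W).map fun x => (1, x.1, sig (par x.1) o :: x.2)

def domB1 (x : List Om × List Om) : List Term :=
  match x.2 with
  | [] => []
  | y :: v => if y = .z then [] else [(-1, x.1, sig (par x.1) y :: v)]

def domD : List Om → List Term
  | [] => []
  | o :: W => domA o W ++ (splits (o :: W)).flatMap domB1 ++
      (domD W).map fun t => (t.1, t.2.1, o :: t.2.2)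

/-- the terms of the infinitesimal coaction on an `ω`-word -/
def domT (W : List Om) : List Term := (splits W).map (fun x => (1, x.1, x.2)) ++ domD W

noncomputable def evalD (Ψ G : Ser Om ℂ) (l : List Term) : ℂ :=
  (l.map fun t => (t.1 : ℂ) * Ψ t.2.1 * G t.2.2).sum

theorem sum_signType (f : SignType → ℂ) : ∑ a, f a = f 0 + f 1 + f (-1) := by
  rw [show (Finset.univ : Finset SignType) = {0, 1, -1} by decide]
  rw [Finset.sum_insert (by decide), Finset.sum_insert (by decide), Finset.sum_singleton, add_assoc]

theorem om_key (ψ F : S) (u v : List Om) (o : Om) :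
    ∑ a, ((Rw o).map fun x => if x.2 = a then (x.1 : ℂ) else 0).sum *
      (om (psi ψ a) u * om (der a F) v)
      = if o = .z then 0 else om ψ u * om F (sig (par u) o :: v) := by
  rw [sum_signType, psi_zero, psi_one, psi_neg, om_flip]
  cases o <;> cases h : par u <;> simp [om, lin_zero, Rw, sig, lin_cons] <;> ring

theorem om_dS (ψ F : S) (W : List Om) :
    om (dS (comm (psi ψ)) F) W = evalD (om ψ) (om F) (domD W) := by
  induction W generalizing F with
  | nil => simp [om, evalD, domD]
  | cons o W ih =>
    have h1 : ∀ a, der a (dS (comm (psi ψ)) F)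
        = der a (∑ a, comm (psi ψ) a * der a F) + dS (comm (psi ψ)) (der a F) := fun a => rfl
    have h2 : om (dS (comm (psi ψ)) F) (o :: W) = om (∑ a, comm (psi ψ) a * der a F) (o :: W)
        + ((Rw o).map fun x => (x.1 : ℂ) * om (dS (comm (psi ψ)) (der x.2 F)) W).sum := by
      simp only [om, lin_cons, h1, lin_add, add_app, mul_add, List.sum_map_add]
    have h3 : ((Rw o).map fun x => (x.1 : ℂ) * om (dS (comm (psi ψ)) (der x.2 F)) W).sum
        = evalD (om ψ) (om F) ((domD W).map fun t => (t.1, t.2.1, o :: t.2.2)) := by
      simp only [ih, evalD, List.map_map, Function.comp_def]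
      generalize domD W = l
      induction l with
      | nil => simp
      | cons t l ihl =>
        simp only [List.map_cons, List.sum_cons, mul_add, List.sum_map_add, ihl]
        congr 1
        rw [om, om, lin_cons, ← List.sum_map_mul_left]
        exact congrArg List.sum (List.map_congr_left fun x _ => by rw [om]; ring)
    have h4 : om (∑ a, e a * (psi ψ a * der a F)) (o :: W) = evalD (om ψ) (om F) (domA o W) := by
      rw [om, lin_sum, sum_app]
      simp only [lin_e_mul_cons, lin_mul, mul_eq_splits, ← List.sum_map_mul_left]
      rw [domA, evalD]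
      have := fun x : List Om × List Om => om_key ψ F x.1 x.2 o
      generalize splits W = l
      induction l with
      | nil => simp
      | cons x l ihl =>
        simp only [List.map_cons, List.sum_cons, Finset.sum_add_distrib, ihl]
        simp only [om] at this
        rw [this]
        split_ifs <;> simp [om]
    have h5 : om (∑ a, psi ψ a * (e a * der a F)) (o :: W)
        = -evalD (om ψ) (om F) ((splits (o :: W)).flatMap domB1) := by
      rw [om, lin_sum, sum_app]
      simp only [lin_mul Rw (psi ψ _), mul_eq_splits]
      generalize splits (o :: W) = l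
      induction l with
      | nil => simp [evalD]
      | cons x l ihl =>
        simp only [List.map_cons, List.sum_cons, Finset.sum_add_distrib, ihl, List.flatMap_cons,
          evalD, List.map_append, List.sum_append, neg_add]
        congr 1
        obtain ⟨u, v⟩ := x
        cases v with
        | nil => simp [domB1]
        | cons y v =>
          have := om_key ψ F u v y
          simp only [om] at this
          simp only [lin_e_mul_cons, mul_left_comm (lin Rw _ u), this, domB1]
          split_ifs <;> simp [om]
    have h6 : (∑ a, comm (psi ψ) a * der a F : S)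
        = ∑ a, e a * (psi ψ a * der a F) - ∑ a, psi ψ a * (e a * der a F) := by
      simp only [comm, sub_mul, mul_assoc, Finset.sum_sub_distrib]
    rw [h2, h3, h6, om, lin_sub, sub_app, ← om, ← om, h4, h5, domD]
    simp only [evalD, List.map_append, List.sum_append, sub_neg_eq_add]

theorem om_T (ψ F : S) (W : List Om) : om (T ψ F) W = evalD (om ψ) (om F) (domT W) := by
  change om (sOp _ _ _) W = _
  rw [sOp, om, lin_add, add_app, lin_mul, mul_eq_splits, ← om, ← om, ← om, om_dS, psi_one, domT]
  simp [evalD, Function.comp_def]

end Pool.Agent.Lib.MP_e8750f_nt
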