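import Pool.Agent.Lib.MP_e8750f_nt.Exp
import Pool.Agent.Lib.MP_e8750f_nt.Defs

/-! The action of Lie series on the Betti generators. -/

namespace Pool.Agent.Lib.MP_e8750f_nt

set_option linter.unusedSectionVars false

open Ser

abbrev S : Type := Ser SignType ℂ

theorem shuf_map {α β : Type} (f : α → β) : ∀ u v : List α,
    shuf (u.map f) (v.map f) = (shuf u v).map (List.map f) := by
  intro u
  induction u with
  | nil => intro v; simp
  | cons a u ihu =>
    intro v
    induction v with
    | nil => simp
    | cons b v ihv =>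
      have h1 := ihu (b :: v)
      simp only [List.map_cons] at h1 ihv ⊢
      rw [shuf_cons_cons, shuf_cons_cons, h1, ihv]
      simp [Function.comp_def]

/-- the symmetry `t ↦ -t` -/
noncomputable def flip (F : S) : S := fun w => F (w.map fun a => -a)

theorem flip_mul (F G : S) : flip (F * G) = flip F * flip G := by
  ext w; simp [flip, mul_app, List.map_take, List.map_drop]

theorem flip_add (F G : S) : flip (F + G) = flip F + flip G := rfl
theorem flip_sub (F G : S) : flip (F - G) = flip F - flip G := rfl

theorem flip_flip (F : S) : flip (flip F) = F := by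
  ext w; simp [flip]

theorem flip_e (a : SignType) : flip (e a) = e (-a) := by
  ext w
  have : (w.map fun a => -a) = [a] ↔ w = [-a] := by
    constructor
    · intro h
      have := congrArg (List.map fun a : SignType => -a) h
      simpa [Function.comp_def] using this
    · rintro rfl; simp
  simp [flip, e, this]

theorem cop_flip (F : S) (u v : Word) :
    cop (flip F) u v = cop F (u.map fun a => -a) (v.map fun a => -a) := by
  rw [cop, cop, shuf_map, List.map_map]; rfl

theorem IsChar.flip {g : S} (h : IsChar g) : IsChar (flip g) :=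
  (isChar_iff _).mpr ⟨h.1, fun u v => by rw [cop_flip, h.cop_apply]; rfl⟩

theorem IsLie.flip {g : S} (h : IsLie g) : IsLie (flip g) :=
  (isLie_iff _).mpr ⟨h.nil, fun u v hu hv => by
    rw [cop_flip, h.cop_apply (by simpa using hu) (by simpa using hv)]⟩

theorem isLie_zero {α : Type} [DecidableEq α] [Fintype α] : IsLie (0 : Ser α ℂ) := by
  rw [IsLie, cop_zero, inl_zero, inr_zero, add_zero]

theorem isLie_e {α : Type} [DecidableEq α] [Fintype α] (a : α) : IsLie (e a : Ser α ℂ) := cop_e a

/-- the Lie series attached to the three letters -/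
noncomputable def psi (ψ : S) : SignType → S
  | SignType.zero => 0
  | SignType.pos => ψ
  | SignType.neg => flip ψ

@[simp] theorem psi_zero (ψ : S) : psi ψ 0 = 0 := rfl
@[simp] theorem psi_one (ψ : S) : psi ψ 1 = ψ := rfl
@[simp] theorem psi_neg (ψ : S) : psi ψ (-1) = flip ψ := rfl

theorem psi_lie {ψ : S} (h : IsLie ψ) (a : SignType) : IsLie (psi ψ a) := by
  cases a
  exacts [isLie_zero, h.flip, h]

theorem psi_van {ψ : S} {r : ℕ} (h : Van r ψ) (a : SignType) : Van r (psi ψ a) := by
  cases a
  · exact fun _ _ => rfl
  · exact fun w hw => h _ (by simpa using hw)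
  · exact h

theorem flip_psi (ψ : S) (a : SignType) : flip (psi ψ a) = psi ψ (-a) := by
  cases a
  exacts [rfl, flip_flip ψ, rfl]

theorem flip_dS (ψ F : S) : flip (dS (comm (psi ψ)) F) = dS (comm (psi ψ)) (flip F) := by
  ext w
  induction w generalizing F with
  | nil => rfl
  | cons b w ih =>
    have h1 : ∀ a, der a (flip F) = flip (der (-a) F) := fun a => rfl
    have h2 : ∀ a, comm (psi ψ) a = flip (comm (psi ψ) (-a)) := fun a => by
      rw [comm, comm, flip_sub, flip_mul, flip_mul, flip_e, flip_psi, neg_neg]
    have h3 : (∑ a, comm (psi ψ) a * der a (flip F) : S) (b :: w)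
        = (∑ a, comm (psi ψ) a * der a F : S) ((b :: w).map fun a => -a) := by
      rw [sum_app, sum_app, ← Equiv.sum_comp (Equiv.neg SignType)]
      refine Finset.sum_congr rfl fun a _ => ?_
      rw [h1, h2, ← flip_mul]
      simp [flip]
    rw [dS_cons, h3, h1, ← ih]
    rfl

/-- the operator attached to the letter `a` -/
noncomputable def TA (ψ : S) (a : SignType) : S →ₗ[ℂ] S := sL (psi ψ) (psi ψ a)

/-- the infinitesimal action of a Lie series -/
noncomputable def T (ψ : S) : S →ₗ[ℂ] S := TA ψ 1

theorem raises_TA {ψ : S} (h : ψ [] = 0) (a : SignType) : Raises (TA ψ a) :=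
  raises_sL (fun a => psi_van (van_one h) a [] (by simp)) (psi_van (van_one h) a [] (by simp))

theorem raises_T {ψ : S} (h : ψ [] = 0) : Raises (T ψ) := raises_TA h 1

theorem flip_T (ψ F : S) : flip (T ψ F) = TA ψ (-1) (flip F) := by
  change flip (sOp _ _ _) = sOp _ _ _
  rw [sOp, sOp, flip_add, flip_mul, flip_dS]; rfl

theorem flip_expT {ψ : S} (h : ψ [] = 0) (t : ℂ) (F : S) :
    expT (TA ψ (-1)) t (flip F) = flip (expT (T ψ) t F) := by
  refine expT_unique (raises_TA h _) (A := fun t => flip (expT (T ψ) t F))
    (by simp only [expT_zero]) (fun t w => ?_) t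
  rw [← flip_T]
  exact expT_deriv (raises_T h) F t _

theorem dS_zero_left {α : Type} [DecidableEq α] [Fintype α] (F : Ser α ℂ) :
    dS (comm fun _ => 0) F = 0 := by
  ext w
  induction w generalizing F with
  | nil => rfl
  | cons b w ih => rw [dS_cons, ih]; simp [comm]

/-- `expLetter` as a series -/
noncomputable def expS (a : SignType) (c : ℂ) : S := expLetter a c

theorem expS_zero (a : SignType) : expS a 0 = 1 := by
  ext w; cases w <;> simp [expS, expLetter]

theorem expS_deriv (a : SignType) (t : ℂ) : SerDeriv (expS a) (e a * expS a t) t := by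
  intro w
  cases w with
  | nil => simpa [expS, expLetter] using hasDerivAt_const t (1 : ℂ)
  | cons b w =>
    rw [e_mul_cons]
    by_cases h : b = a ∧ w = List.replicate w.length a
    · obtain ⟨rfl, h⟩ := h
      have h1 : (b :: w) = List.replicate (b :: w).length b := by
        rw [List.length_cons, List.replicate_succ, ← h]
      simp only [expS, expLetter, if_pos h1, if_pos h, if_true]
      refine ((hasDerivAt_pow _ t).div_const _).congr_deriv ?_
      have : (w.length.factorial : ℂ) ≠ 0 := by exact_mod_cast w.length.factorial_ne_zero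
      have : ((w.length : ℂ) + 1) ≠ 0 := by exact_mod_cast w.length.succ_ne_zero
      rw [List.length_cons, Nat.factorial_succ]
      push_cast
      field_simp
    · have h1 : ¬ (b :: w) = List.replicate (b :: w).length a := by
        rw [List.length_cons, List.replicate_succ, List.cons.injEq]; exact h
      have h2 : (if b = a then expS a t w else 0) = 0 := by
        split_ifs with hb
        · simp only [expS, expLetter]; rw [if_neg fun h' => h ⟨hb, h'⟩]
        · rfl
      simp only [h2]
      simp only [expS, expLetter, if_neg h1]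
      exact hasDerivAt_const t 0

theorem isChar_expS (a : SignType) (c : ℂ) : IsChar (expS a c) := by
  have h := isChar_one.expT (p := fun _ => (0 : S)) (fun _ => isLie_zero) (isLie_e a) c
  have h2 : expT (sL (fun _ => (0 : S)) (e a)) c 1 = expS a c := by
    refine expT_unique (raises_sL (fun _ => rfl) (e_nil a)) (expS_zero a) (fun t => ?_) c
    change SerDeriv _ (sOp _ _ _) t
    rw [sOp, dS_zero_left, add_zero]
    exact expS_deriv a t
  rwa [h2] at h

theorem dS_of_zero_supp (ψ F : S) (hF : ∀ w, w ≠ List.replicate w.length 0 → F w = 0) :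
    dS (comm (psi ψ)) F = 0 := by
  ext w
  induction w generalizing F with
  | nil => rfl
  | cons b w ih =>
    rw [dS_cons, ih, sum_app, Finset.sum_eq_zero]
    · simp
    · intro a _
      by_cases ha : a = 0
      · subst ha; simp [comm]
      · have : der a F = 0 := by
          ext v; exact hF _ (by simp [List.replicate_succ, ha])
        simp [this]
    · intro v hv
      exact hF _ (by simp [List.replicate_succ, hv])

/-- the half turn around `0` -/
noncomputable def half : S := expS 0 (Real.pi * Complex.I)

/-- paths to the three points -/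
noncomputable def pathS (h : S) : SignType → S
  | SignType.zero => 1
  | SignType.pos => h
  | SignType.neg => flip h * half

noncomputable def loopS (h : S) (a : SignType) : S :=
  (2 * Real.pi * Complex.I : ℂ) • (rev (pathS h a) * (e a * pathS h a))

noncomputable def bettiS (h : S) : List SignType → S
  | [] => h
  | a :: l => bettiS h l * loopS h a

theorem conv_eq (F G : S) : conv F G = F * G := by
  ext w; exact (mul_app F G w).symm

theorem pathTo_eq (a : SignType) : pathTo a = pathS straight a := by
  cases a
  · exact expS_zero 0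
  · exact conv_eq (flip straight) half
  · rfl

theorem betti_eq (l : List SignType) : betti l = bettiS straight l := by
  induction l with
  | nil => rfl
  | cons a l ih =>
    have : logLoop a = loopS straight a := by
      ext w
      rw [logLoop, pathTo_eq, conv_eq, conv_eq]; rfl
    rw [betti, ih, this, conv_eq]; rfl

theorem isChar_pathS {h : S} (hh : IsChar h) (a : SignType) : IsChar (pathS h a) := by
  cases a
  exacts [isChar_one, hh.flip.mul (isChar_expS _ _), hh]

theorem expT_pathS {ψ : S} (hψ : ψ [] = 0) (t : ℂ) (h : S) (a : SignType) :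
    expT (TA ψ a) t (pathS h a) = pathS (expT (T ψ) t h) a := by
  have hp : ∀ a, psi ψ a [] = 0 := fun a => psi_van (van_one hψ) a [] (by simp)
  cases a
  · refine expT_fixed (raises_TA hψ _) ?_ t
    change sOp _ _ _ = _
    rw [sOp]
    change 0 * 1 + dS _ 1 = 0
    rw [dS_one]; simp
  · change expT (sL (psi ψ) (psi ψ (-1))) t (flip h * half) = flip _ * half
    rw [expT_mul hp (hp _), ← flip_expT hψ]
    congr 1
    refine expT_fixed (raises_sL hp rfl) ?_ t
    change sOp _ _ _ = _
    rw [sOp, zero_mul, zero_add]
    exact dS_of_zero_supp _ _ fun w hw => by simp [half, expS, expLetter, hw]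
  · rfl

theorem expT_loopS {ψ : S} (hψ : IsLie ψ) (t : ℂ) {h : S} (hh : IsChar h) (a : SignType) :
    expT (sL (psi ψ) 0) t (loopS h a) = loopS (expT (T ψ) t h) a := by
  have hp : ∀ a, psi ψ a [] = 0 := fun a => (psi_lie hψ a).nil
  have hc : IsChar (expT (T ψ) t h) := hh.expT (psi_lie hψ) hψ t
  have h1 : pathS h a * loopS h a = (2 * Real.pi * Complex.I : ℂ) • (e a * pathS h a) := by
    rw [loopS, mul_smul_comm, ← mul_assoc, (isChar_pathS hh a).mul_rev, one_mul]
  have h2 := congrArg (expT (TA ψ a) t) h1
  rw [expT_smul, TA, expT_mul hp (hp a), expT_e_mul hp, ← TA, expT_pathS hψ.nil] at h2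
  conv_rhs => rw [loopS, ← mul_smul_comm, ← h2, ← mul_assoc, (isChar_pathS hc a).rev_mul, one_mul]

theorem expT_bettiS {ψ : S} (hψ : IsLie ψ) (t : ℂ) {h : S} (hh : IsChar h) (l : List SignType) :
    expT (T ψ) t (bettiS h l) = bettiS (expT (T ψ) t h) l := by
  have hp : ∀ a, psi ψ a [] = 0 := fun a => (psi_lie hψ a).nil
  induction l with
  | nil => rfl
  | cons a l ih =>
    rw [bettiS, bettiS, ← ih, ← expT_loopS hψ t hh]
    exact expT_mul hp (hp 1) t _ _

/-- rationality up to the natural power of `2 π i`, in length `< n` -/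
def RatW (n : ℕ) (F : S) : Prop :=
  ∀ w : Word, w.length < n → ∃ q : ℚ, F w = (2 * Real.pi * Complex.I : ℂ) ^ w.length * q

theorem RatW.mul {n : ℕ} {F G : S} (hF : RatW n F) (hG : RatW n G) : RatW n (F * G) := by
  intro w hw
  have : ∀ i ∈ Finset.range (w.length + 1), ∃ q : ℚ,
      F (w.take i) * G (w.drop i) = (2 * Real.pi * Complex.I : ℂ) ^ w.length * q := by
    intro i hi
    have hi' : i ≤ w.length := by simpa [Nat.lt_succ_iff] using hi
    obtain ⟨q, hq⟩ := hF (w.take i) (by simp; omega)
    obtain ⟨q', hq'⟩ := hG (w.drop i) (by simp; omega)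
    refine ⟨q * q', ?_⟩
    rw [hq, hq', List.length_take, List.length_drop, min_eq_left hi']
    conv_rhs => rw [show w.length = i + (w.length - i) by omega, pow_add]
    push_cast; ring
  choose! q hq using this
  refine ⟨∑ i ∈ Finset.range (w.length + 1), q i, ?_⟩
  rw [mul_app, Finset.sum_congr rfl hq, ← Finset.mul_sum]
  push_cast; rfl

theorem RatW.rev {n : ℕ} {F : S} (hF : RatW n F) : RatW n (rev F) := by
  intro w hw
  obtain ⟨q, hq⟩ := hF w.reverse (by simpa using hw)
  refine ⟨(-1) ^ w.length * q, ?_⟩
  rw [Pool.Agent.Lib.MP_e8750f_nt.rev, hq, List.length_reverse]; push_cast; ring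

theorem ratW_pathS {n : ℕ} {h : S} (hh : RatW n h) (a : SignType) : RatW n (pathS h a) := by
  cases a
  · intro w _
    cases w with
    | nil => exact ⟨1, by simp [pathS]⟩
    | cons b w => exact ⟨0, by simp [pathS]⟩
  · refine RatW.mul (fun w hw => ?_) (fun w _ => ?_)
    · simpa [flip] using hh (w.map fun a => -a) (by simpa using hw)
    · by_cases hw : w = List.replicate w.length 0
      · refine ⟨1 / (2 ^ w.length * w.length.factorial), ?_⟩
        have : (w.length.factorial : ℂ) ≠ 0 := by exact_mod_cast w.length.factorial_ne_zero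
        simp only [half, expS, expLetter, if_pos hw]
        rw [mul_assoc (2 : ℂ), mul_pow (2 : ℂ)]
        push_cast
        field_simp
      · exact ⟨0, by simp [half, expS, expLetter, hw]⟩
  · exact hh

theorem ratW_bettiS {n : ℕ} {h : S} (hh : RatW n h) (l : List SignType) : RatW n (bettiS h l) := by
  induction l with
  | nil => exact hh
  | cons a l ih =>
    refine ih.mul ?_
    rw [loopS, ← mul_smul_comm, ← smul_mul_assoc]
    refine (ratW_pathS hh a).rev.mul (RatW.mul (fun w _ => ?_) (ratW_pathS hh a))
    by_cases hw : w = [a]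
    · exact ⟨1, by simp [e, hw]⟩
    · exact ⟨0, by simp [e, hw]⟩

end Pool.Agent.Lib.MP_e8750f_nt
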