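import Pool.Agent.Lib.MP_e8750f_nt.Loops

/-! A criterion for motivic vanishing. -/

namespace Pool.Agent.Lib.MP_e8750f_nt

set_option linter.unusedSectionVars false

open Ser

/-- the pairing is linear in the series -/
noncomputable def pairR (ν : Word →₀ ℂ) : S →ₗ[ℂ] ℂ where
  toFun F := pair ν F
  map_add' F G := by simp [pair, Finsupp.sum, mul_add, Finset.sum_add_distrib]
  map_smul' c F := by
    simp only [pair, Finsupp.sum, smul_app, smul_eq_mul, RingHom.id_apply, Finset.mul_sum]
    exact Finset.sum_congr rfl fun _ _ => by ring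

/-- the pairing is linear in the class -/
noncomputable def pairL (F : S) : (Word →₀ ℂ) →ₗ[ℂ] ℂ := Finsupp.linearCombination ℂ F

theorem pairL_apply (F : S) (ν : Word →₀ ℂ) : pairL F ν = pair ν F := by
  simp [pairL, pair, Finsupp.linearCombination_apply]

theorem pair_single (w : Word) (c : ℂ) (F : S) : pair (Finsupp.single w c) F = c * F w := by
  simp [pair]

theorem pair_add (ν μ : Word →₀ ℂ) (F : S) : pair (ν + μ) F = pair ν F + pair μ F := by
  simp only [← pairL_apply, map_add]

theorem pair_sub (ν μ : Word →₀ ℂ) (F : S) : pair (ν - μ) F = pair ν F - pair μ F := by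
  simp only [← pairL_apply, map_sub]

theorem pair_smul (c : ℂ) (ν : Word →₀ ℂ) (F : S) : pair (c • ν) F = c * pair ν F := by
  simp only [← pairL_apply, map_smul, smul_eq_mul]

theorem cx_add (η ξ : DR) : cx (η + ξ) = cx η + cx ξ := by ext w; simp [cx]
theorem cx_sub (η ξ : DR) : cx (η - ξ) = cx η - cx ξ := by ext w; simp [cx]
theorem cx_zero : cx 0 = 0 := by ext w; simp [cx]
theorem cx_smul (q : ℚ) (η : DR) : cx (q • η) = (q : ℂ) • cx η := by ext w; simp [cx]
theorem cx_single (w : Word) (q : ℚ) : cx (Finsupp.single w q) = Finsupp.single w (q : ℂ) := by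
  simp [cx]
theorem cx_filter (η : DR) (n : ℕ) :
    cx (η.filter fun w => w.length = n) = (cx η).filter fun w => w.length = n := by
  ext w; by_cases h : w.length = n <;> simp [cx, h]

theorem pair_cx (η : DR) (F : S) : pair (cx η) F = ∑ w ∈ η.support, (η w : ℂ) * F w := by
  rw [pair, cx, Finsupp.sum_mapRange_index (by simp)]; rfl

/-- all words in the support are shorter than `m` -/
def LenLt (m : ℕ) (ν : Word →₀ ℂ) : Prop := ∀ w, m ≤ w.length → ν w = 0

theorem exists_lenLt (ν : Word →₀ ℂ) : ∃ m, LenLt m ν :=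
  ⟨ν.support.sup List.length + 1, fun w hw => by
    by_contra h
    have := Finset.le_sup (f := List.length) (Finsupp.mem_support_iff.mpr h)
    omega⟩

theorem pair_van {m : ℕ} {ν : Word →₀ ℂ} (hν : LenLt m ν) {F : S} (hF : Van m F) :
    pair ν F = 0 := by
  refine Finset.sum_eq_zero fun w hw => ?_
  by_cases h : w.length < m
  · simp [hF w h]
  · exact absurd (hν w (by omega)) (Finsupp.mem_support_iff.mp hw)

/-- the words of length `< n` -/
noncomputable def wordsLt (n : ℕ) : Finset Word := (List.finite_length_lt SignType n).toFinset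

@[simp] theorem mem_wordsLt (n : ℕ) (w : Word) : w ∈ wordsLt n ↔ w.length < n := by
  simp [wordsLt]

noncomputable def delta (v : Word) : S := fun w => if w = v then 1 else 0

/-- the transpose of an operator -/
noncomputable def tr (E : S →ₗ[ℂ] S) (n : ℕ) : (Word →₀ ℂ) →ₗ[ℂ] (Word →₀ ℂ) :=
  ∑ v ∈ wordsLt n, (Finsupp.lsingle v).comp (pairL (E (delta v)))

theorem tr_eq (E : S →ₗ[ℂ] S) (n : ℕ) (ν : Word →₀ ℂ) :
    tr E n ν = ∑ v ∈ wordsLt n, Finsupp.single v (pair ν (E (delta v))) := by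
  simp [tr, LinearMap.sum_apply, pairL_apply]

theorem tr_apply (E : S →ₗ[ℂ] S) (n : ℕ) (ν : Word →₀ ℂ) (w : Word) :
    tr E n ν w = if w.length < n then pair ν (E (delta w)) else 0 := by
  rw [tr_eq, Finsupp.finsetSum_apply]
  simp [Finsupp.single_apply]

theorem pair_tr {E : S →ₗ[ℂ] S} (hE : ∀ m F, Van m F → Van m (E F)) {n : ℕ} {ν : Word →₀ ℂ}
    (hν : LenLt n ν) (F : S) : pair (tr E n ν) F = pair ν (E F) := by
  have h1 : Van n (F - ∑ v ∈ wordsLt n, F v • delta v) := by
    intro w hw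
    rw [sub_app, sum_app, Finset.sum_eq_single w] <;> simp +contextual [delta, hw, eq_comm]
  have h2 := pair_van hν (hE _ _ h1)
  change pairR ν _ = 0 at h2
  rw [map_sub, map_sub, map_sum, map_sum, sub_eq_zero] at h2
  change _ = pairR ν _
  rw [h2, tr_eq, ← pairL_apply, map_sum]
  refine Finset.sum_congr rfl fun v _ => ?_
  rw [pairL_apply, pair_single, map_smul, map_smul, smul_eq_mul, mul_comm]; rfl

/-- coefficientwise application of a `ℚ`-linear map -/
noncomputable def mapQ {α : Type} (Q : ℂ →ₗ[ℚ] ℂ) (F : Ser α ℂ) : Ser α ℂ := fun w => Q (F w)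

/-- rational series -/
def IsRat (F : S) : Prop := ∀ w, ∃ q : ℚ, F w = q

theorem map_mul_rat (Q : ℂ →ₗ[ℚ] ℂ) (x : ℂ) (q : ℚ) : Q (x * q) = Q x * q := by
  rw [mul_comm, mul_comm (Q x), ← Rat.smul_def, ← Rat.smul_def, map_smul]

theorem mapQ_mul_right (Q : ℂ →ₗ[ℚ] ℂ) (A : S) {B : S} (hB : IsRat B) :
    mapQ Q (A * B) = mapQ Q A * B := by
  ext w
  rw [mapQ, mul_app, mul_app, map_sum]
  refine Finset.sum_congr rfl fun i _ => ?_
  obtain ⟨q, hq⟩ := hB (w.drop i)
  rw [hq, map_mul_rat]; rfl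

theorem mapQ_mul_left (Q : ℂ →ₗ[ℚ] ℂ) {A : S} (hA : IsRat A) (B : S) :
    mapQ Q (A * B) = A * mapQ Q B := by
  ext w
  rw [mapQ, mul_app, mul_app, map_sum]
  refine Finset.sum_congr rfl fun i _ => ?_
  obtain ⟨q, hq⟩ := hA (w.take i)
  rw [hq, mul_comm, map_mul_rat, mul_comm]; rfl

theorem isRat_e (a : SignType) : IsRat (e a) := fun w => by
  by_cases h : w = [a]
  · exact ⟨1, by simp [e, h]⟩
  · exact ⟨0, by simp [e, h]⟩

theorem mapQ_T (Q : ℂ →ₗ[ℚ] ℂ) (ψ : S) {F : S} (hF : IsRat F) :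
    mapQ Q (T ψ F) = T (mapQ Q ψ) F := by
  have h1 : ∀ a, mapQ Q (comm (psi ψ) a) = comm (psi (mapQ Q ψ)) a := fun a => by
    have h2 : mapQ Q (psi ψ a) = psi (mapQ Q ψ) a := by
      cases a
      · ext w; exact map_zero Q
      · rfl
      · rfl
    rw [comm, comm, ← h2, ← mapQ_mul_left Q (isRat_e a), ← mapQ_mul_right Q _ (isRat_e a)]
    ext w; exact map_sub Q _ _
  have h2 : ∀ w F, IsRat F → Q (dS (comm (psi ψ)) F w) = dS (comm (psi (mapQ Q ψ))) F w := by
    intro w
    induction w with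
    | nil => intro F _; exact map_zero Q
    | cons b w ih =>
      intro F hF
      rw [dS_cons, dS_cons, map_add, ih (der b F) fun v => hF _, sum_app, sum_app, map_sum]
      congr 1
      refine Finset.sum_congr rfl fun a _ => ?_
      rw [← h1, ← mapQ_mul_right Q _ (B := der a F) fun v => hF _]; rfl
  ext w
  change Q (sOp _ _ _ w) = sOp _ _ _ w
  rw [sOp, sOp, add_app, add_app, map_add, h2 w F hF, psi_one, psi_one, ← mapQ_mul_right Q _ hF]
  rfl

theorem mem_span_of_rat (N : Submodule ℚ DR) (ν : Word →₀ ℂ)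
    (h : ∀ π : ℂ →ₗ[ℚ] ℚ, ν.mapRange π (map_zero π) ∈ N) :
    ν ∈ Submodule.span ℂ (cx '' (N : Set DR)) := by
  classical
  let b := Module.Basis.ofVectorSpace ℚ ℂ
  let I := ν.support.biUnion fun w => (b.repr (ν w)).support
  have : ν = ∑ i ∈ I, b i • cx (ν.mapRange (b.coord i) (map_zero _)) := by
    ext w
    rw [Finsupp.finsetSum_apply]
    simp only [cx, Finsupp.smul_apply, Finsupp.mapRange_apply, Module.Basis.coord_apply, smul_eq_mul]
    conv_lhs => rw [← b.linearCombination_repr (ν w), Finsupp.linearCombination_apply]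
    rw [Finsupp.sum_of_support_subset _ (s := I)]
    · exact Finset.sum_congr rfl fun i _ => by rw [Rat.smul_def, mul_comm]
    · by_cases hw : ν w = 0
      · simp [hw]
      · exact Finset.subset_biUnion_of_mem (fun w => (b.repr (ν w)).support)
          (Finsupp.mem_support_iff.mpr hw)
    · intro i _; simp
  rw [this]
  exact Submodule.sum_mem _ fun i _ =>
    Submodule.smul_mem _ _ (Submodule.subset_span ⟨_, h _, rfl⟩)

theorem mem_span_of_ann (N : Submodule ℚ DR) (ν : Word →₀ ℂ)
    (h : ∀ F : S, (∀ η ∈ N, pair (cx η) F = 0) → pair ν F = 0) :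
    ν ∈ Submodule.span ℂ (cx '' (N : Set DR)) := by
  by_contra hν
  obtain ⟨f, hf, hle⟩ := Submodule.exists_le_ker_of_notMem hν
  have h1 : ∀ μ, pair μ (fun w => f (Finsupp.single w 1)) = f μ := fun μ => by
    conv_rhs => rw [← Finsupp.sum_single μ, Finsupp.sum, map_sum]
    refine Finset.sum_congr rfl fun w _ => ?_
    change μ w * f (Finsupp.single w 1) = _
    rw [← smul_eq_mul, ← map_smul, Finsupp.smul_single, smul_eq_mul, mul_one]
  refine hf ?_
  rw [← h1]
  exact h _ fun η hη => by rw [h1]; exact hle (Submodule.subset_span ⟨η, hη, rfl⟩)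

theorem pair_eq_zero_of_mem_span {N : Submodule ℚ DR} {ν : Word →₀ ℂ}
    (hν : ν ∈ Submodule.span ℂ (cx '' (N : Set DR))) {F : S} (hF : ∀ η ∈ N, pair (cx η) F = 0) :
    pair ν F = 0 := by
  rw [← pairL_apply]
  refine (Submodule.span_le (p := LinearMap.ker (pairL F))).mpr ?_ hν
  rintro _ ⟨η, hη, rfl⟩
  simpa [pairL_apply] using hF η hη

/-- rescaling -/
noncomputable def scale {α : Type} (c : ℂ) (F : Ser α ℂ) : Ser α ℂ := fun w => c ^ w.length * F w

/-- the homogeneous part of weight `r` -/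
noncomputable def projW {α : Type} (r : ℕ) (F : Ser α ℂ) : Ser α ℂ :=
  fun w => if w.length = r then F w else 0

theorem graded_of_scale (η : DR) (g : S) (h : ∀ c, pair (cx η) (scale c g) = 0) (n : ℕ) :
    pair (cx (η.filter fun w => w.length = n)) g = 0 := by
  let P : Polynomial ℂ := ∑ w ∈ η.support, Polynomial.monomial w.length ((η w : ℂ) * g w)
  have hP : P = 0 := Polynomial.funext fun c => by
    have := h c
    rw [pair_cx] at this
    simp only [P, Polynomial.eval_finsetSum, Polynomial.eval_monomial, Polynomial.eval_zero]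
    rw [← this]
    exact Finset.sum_congr rfl fun w _ => by rw [scale]; ring
  have := congrArg (fun p : Polynomial ℂ => p.coeff n) hP
  simp only [P, Polynomial.finsetSum_coeff, Polynomial.coeff_monomial, Polynomial.coeff_zero] at this
  rw [pair_cx, Finsupp.support_filter, Finset.sum_filter]
  refine Eq.trans (Finset.sum_congr rfl fun w _ => ?_) this
  by_cases h : w.length = n <;> simp [h]

theorem machine (G G' Tg : Set S) (hsub : G' ⊆ G) (hchar : ∀ g ∈ G, IsChar g)
    (hscale : ∀ g ∈ G, ∀ c, scale c g ∈ G) (hΦ : (straight : S) ∈ G')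
    (hlie : ∀ ψ ∈ Tg, IsLie ψ) (hπ : ∀ ψ ∈ Tg, ∀ Q : ℂ →ₗ[ℚ] ℂ, mapQ Q ψ ∈ Tg)
    (hexp : ∀ g ∈ G, ∀ ψ ∈ Tg, ∀ t, expT (T ψ) t g ∈ G)
    (hexp' : ∀ g ∈ G', ∀ ψ ∈ Tg, ∀ t, expT (T ψ) t g ∈ G')
    (hstep : ∀ r, 1 ≤ r → ∀ h ∈ G', RatW r h → ∀ Q : ℂ →ₗ[ℚ] ℂ,
      (∀ q : ℚ, Q ((2 * Real.pi * Complex.I : ℂ) ^ r * q) = 0) → projW r (mapQ Q h) ∈ Tg)
    (η : DR) (hη : ∀ g ∈ G, pair (cx η) g = 0) : MotivicZero η := by
  let N : Submodule ℚ DR :=
    { carrier := {η | ∀ g ∈ G, pair (cx η) g = 0}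
      add_mem' := fun {a b} ha hb g hg => by rw [cx_add, pair_add, ha g hg, hb g hg, add_zero]
      zero_mem' := fun g _ => by rw [cx_zero]; simp [pair]
      smul_mem' := fun q a ha g hg => by rw [cx_smul, pair_smul, ha g hg, mul_zero] }
  have hgr : ∀ η ∈ N, ∀ n : ℕ, η.filter (fun w => w.length = n) ∈ N :=
    fun η hη n g hg => graded_of_scale η g (fun c => hη _ (hscale g hg c)) n
  have hA : ∀ ψ ∈ Tg, ∀ F : S, (∀ η ∈ N, pair (cx η) F = 0) → ∀ η ∈ N, pair (cx η) (T ψ F) = 0 := by
    intro ψ hψ F hF η hη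
    obtain ⟨n, hn⟩ := exists_lenLt (cx η)
    have hT : ∀ ψ ∈ Tg, ∀ m F, Van m F → Van m (T ψ F) := fun ψ hψ m F hF w hw =>
      raises_T (hlie ψ hψ).nil m F hF w (by omega)
    rw [← pair_tr (hT ψ hψ) hn]
    refine pair_eq_zero_of_mem_span (mem_span_of_rat N _ fun π g hg => ?_) hF
    let Q : ℂ →ₗ[ℚ] ℂ := (Algebra.linearMap ℚ ℂ).comp π
    have h1 : cx ((tr (T ψ) n (cx η)).mapRange π (map_zero π)) = tr (T (mapQ Q ψ)) n (cx η) := by
      ext w
      have h3 : IsRat (delta w) := fun v => by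
        by_cases h : v = w
        · exact ⟨1, by simp [delta, h]⟩
        · exact ⟨0, by simp [delta, h]⟩
      rw [cx, Finsupp.mapRange_apply, Finsupp.mapRange_apply, tr_apply, tr_apply]
      split_ifs
      · rw [← mapQ_T Q ψ h3, pair_cx, pair_cx]
        change Q _ = _
        rw [map_sum]
        exact Finset.sum_congr rfl fun v _ => by rw [mul_comm, map_mul_rat, mul_comm]; rfl
      · simp
    have h2 := hπ ψ hψ Q
    rw [h1, pair_tr (hT _ h2) hn, pair_cx]
    have h3 : HasDerivAt (fun t => ∑ w ∈ η.support, (η w : ℂ) * expT (T (mapQ Q ψ)) t g w)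
        (∑ w ∈ η.support, (η w : ℂ) * T (mapQ Q ψ) (expT (T (mapQ Q ψ)) 0 g) w) 0 :=
      HasDerivAt.fun_sum fun w _ => (expT_deriv (raises_T (hlie _ h2).nil) g 0 w).const_mul _
    have h4 : (fun t => ∑ w ∈ η.support, (η w : ℂ) * expT (T (mapQ Q ψ)) t g w) = fun _ => 0 := by
      funext t; rw [← pair_cx]; exact hη _ (hexp g hg _ h2 t)
    rw [h4, expT_zero] at h3
    exact h3.unique (hasDerivAt_const _ _)
  have hB : ∀ ψ ∈ Tg, ∀ F : S, (∀ η ∈ N, pair (cx η) F = 0) → ∀ η ∈ N,
      pair (cx η) (expT (T ψ) 1 F) = 0 := by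
    intro ψ hψ F hF η hη
    obtain ⟨n, hn⟩ := exists_lenLt (cx η)
    have h1 : Van n (expT (T ψ) 1 F - truncT (T ψ) n 1 F) := fun w hw => by
      rw [sub_app, expT_eq_trunc (raises_T (hlie ψ hψ).nil) 1 F (N := n) (by omega), sub_self]
    have h2 := pair_van hn h1
    change pairR _ _ = 0 at h2 ⊢
    rw [map_sub, sub_eq_zero] at h2
    rw [h2, truncT, map_sum]
    refine Finset.sum_eq_zero fun j _ => ?_
    have h3 : ∀ η ∈ N, pair (cx η) ((T ψ ^ j) F) = 0 := by
      induction j with
      | zero => simpa using hF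
      | succ j ih => rw [pow_succ', Module.End.mul_apply]; exact hA ψ hψ _ (ih (by simp_all; omega))
    rw [map_smul]
    change _ • pair _ _ = 0
    rw [h3 η hη, smul_zero]
  let NC := Submodule.span ℂ (cx '' (N : Set DR))
  let B : ℕ → S → Set (Word →₀ ℂ) := fun n h =>
    {ν | (ν ∈ NC ∧ ∀ l, ∃ q : ℚ, pair ν (bettiS h l) = q) ∧ LenLt n ν}
  have hbase : ∀ n h, RatW n h → ∀ ν ∈ NC, LenLt n ν → ν ∈ Submodule.span ℂ (B n h) := by
    intro n h hh ν hν hlen
    have h1 : ∀ k, k < n → ∀ ν ∈ NC, ν.filter (fun w => w.length = k) ∈ Submodule.span ℂ (B n h) := by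
      intro k hk ν hν
      induction hν using Submodule.span_induction with
      | zero => rw [Finsupp.filter_zero]; exact Submodule.zero_mem _
      | add x y _ _ hx hy => rw [Finsupp.filter_add]; exact Submodule.add_mem _ hx hy
      | smul c x _ hx => rw [Finsupp.filter_smul]; exact Submodule.smul_mem _ _ hx
      | mem x hx =>
        obtain ⟨η, hη, rfl⟩ := hx
        have hc : (2 * Real.pi * Complex.I : ℂ) ^ k ≠ 0 := pow_ne_zero _ Complex.two_pi_I_ne_zero
        rw [← cx_filter, ← smul_inv_smul₀ hc (cx _)]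
        refine Submodule.smul_mem _ _ (Submodule.subset_span ⟨⟨?_, fun l => ?_⟩, fun w hw => ?_⟩)
        · exact Submodule.smul_mem _ _ (Submodule.subset_span ⟨_, hgr η hη k, rfl⟩)
        · choose! q hq using ratW_bettiS hh l
          refine ⟨∑ w ∈ (η.filter fun w => w.length = k).support,
            (η.filter fun w => w.length = k) w * q w, ?_⟩
          rw [pair_smul, pair_cx, Finset.mul_sum]
          push_cast
          refine Finset.sum_congr rfl fun w hw => ?_
          have hw' : w.length = k := by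
            rw [Finsupp.support_filter, Finset.mem_filter] at hw; exact hw.2
          rw [hq w (by omega), hw']
          field_simp
        · have : ¬ w.length = k := by omega
          simp [cx, this]
    have h2 : ν = ∑ k ∈ Finset.range n, ν.filter (fun w => w.length = k) := by
      ext w
      rw [Finsupp.finsetSum_apply]
      simp only [Finsupp.filter_apply, Finset.sum_ite_eq, Finset.mem_range]
      split_ifs with h
      · rfl
      · exact hlen w (by omega)
    rw [h2]
    exact Submodule.sum_mem _ fun k hk => h1 k (Finset.mem_range.mp hk) ν hν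
  have hback : ∀ n, ∀ h ∈ G, ∀ ψ ∈ Tg,
      (∀ ν ∈ NC, LenLt n ν → ν ∈ Submodule.span ℂ (B n (expT (T ψ) 1 h))) →
      ∀ ν ∈ NC, LenLt n ν → ν ∈ Submodule.span ℂ (B n h) := by
    intro n h hh ψ hψ ih
    have hR := raises_T (hlie ψ hψ).nil
    have hE : ∀ m F, Van m F → Van m (expL (T ψ) 1 F) := fun m F hF w hw => by
      have := van_expT_sub hR 1 hF w (by omega)
      rw [sub_app, hF w hw, sub_zero] at this
      exact this
    have h1 : ∀ ν ∈ NC, LenLt n ν → tr (expL (T ψ) 1) n ν ∈ NC := fun ν hν hlen =>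
      mem_span_of_ann N _ fun F hF => by
        rw [pair_tr hE hlen]
        exact pair_eq_zero_of_mem_span hν (hB ψ hψ F hF)
    have h2 : ∀ ν, LenLt n (tr (expL (T ψ) 1) n ν) := fun ν w hw => by
      rw [tr_apply, if_neg (by omega)]
    have h3 : ∀ ν ∈ Submodule.span ℂ (B n (expT (T ψ) 1 h)),
        tr (expL (T ψ) 1) n ν ∈ Submodule.span ℂ (B n h) := by
      intro ν hν
      refine (Submodule.span_le (p := (Submodule.span ℂ (B n h)).comap (tr (expL (T ψ) 1) n))).mpr
        ?_ hν
      rintro μ ⟨⟨hμ1, hμ2⟩, hμ3⟩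
      refine Submodule.subset_span ⟨⟨h1 μ hμ1 hμ3, fun l => ?_⟩, h2 μ⟩
      rw [pair_tr hE hμ3]
      change ∃ q : ℚ, pair μ (expT (T ψ) 1 _) = q
      rw [expT_bettiS (hlie ψ hψ) 1 (hchar h hh)]
      exact hμ2 l
    have h4 : ∀ m, m ≤ n → ∀ ν ∈ NC, LenLt m ν → ν ∈ Submodule.span ℂ (B n h) := by
      intro m
      induction m with
      | zero =>
        intro _ ν _ hlen
        have : ν = 0 := by ext w; exact hlen w (by omega)
        simp [this]
      | succ m ihm =>
        intro hm ν hν hlen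
        have hlen' : LenLt n ν := fun w hw => hlen w (by omega)
        have h5 : ν = tr (expL (T ψ) 1) n ν - (tr (expL (T ψ) 1) n ν - ν) := by abel
        rw [h5]
        refine Submodule.sub_mem _ (h3 _ (ih ν hν hlen'))
          (ihm (by omega) _ (Submodule.sub_mem _ (h1 ν hν hlen') hν) fun w hw => ?_)
        rw [Finsupp.sub_apply, tr_apply]
        split_ifs with hw'
        · have h6 : Van w.length (delta w) := fun v hv => by
            rw [delta, if_neg]; rintro rfl; omega
          have h7 := pair_van (fun v hv => hlen v (by omega) : LenLt (w.length + 1) ν)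
            (van_expT_sub hR 1 h6)
          change pairR _ _ = 0 at h7
          rw [map_sub] at h7
          have h8 : pairR ν (delta w) = ν w := by
            change pair _ _ = _
            simp +contextual [pair, delta, eq_comm]
          rw [h8] at h7
          exact h7
        · rw [hlen' w (by omega), sub_zero]
    exact h4 n le_rfl
  have hmain : ∀ n k r, r + k = n → 1 ≤ r → ∀ h ∈ G', RatW r h →
      ∀ ν ∈ NC, LenLt n ν → ν ∈ Submodule.span ℂ (B n h) := by
    intro n k
    induction k with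
    | zero => intro r hr _ h _ hh; exact hbase n h (by rwa [← hr])
    | succ k ih =>
      intro r hr hr1 h hh hrat
      obtain ⟨π, hπ1⟩ := (Algebra.linearMap ℚ ℂ).exists_leftInverse_of_injective
        (LinearMap.ker_eq_bot.mpr (algebraMap ℚ ℂ).injective)
      have hπ2 : ∀ q : ℚ, π (q : ℂ) = q := fun q => LinearMap.congr_fun hπ1 q
      set c : ℂ := (2 * Real.pi * Complex.I : ℂ) ^ r with hc
      have hc0 : c ≠ 0 := pow_ne_zero _ Complex.two_pi_I_ne_zero
      let Q : ℂ →ₗ[ℚ] ℂ :=
        { toFun := fun x => c * (π (x / c) : ℂ) - x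
          map_add' := fun x y => by rw [add_div, map_add]; push_cast; ring
          map_smul' := fun q x => by
            rw [smul_div_assoc, map_smul]; simp only [Rat.smul_def, smul_eq_mul, RingHom.id_apply]
            push_cast; ring }
      have hψ := hstep r hr1 h hh hrat Q fun q => by
        change c * (π (c * q / c) : ℂ) - c * q = 0
        rw [mul_div_cancel_left₀ _ hc0, hπ2, sub_self]
      refine hback n h (hsub hh) _ hψ (ih (r + 1) (by omega) (by omega) _ (hexp' h hh _ hψ 1) ?_)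
      intro w hw
      have hv : Van r (projW r (mapQ Q h)) := fun v hv => by rw [projW, if_neg (by omega)]
      have h1 := expT_low hr1 (psi_van hv) hv h (w := w) (by omega)
      change expT (T _) 1 h w = _ at h1
      rw [h1, (hchar h (hsub hh)).1, mul_one, projW]
      split_ifs with hw'
      · refine ⟨π (h w / c), ?_⟩
        change h w + (c * (π (h w / c) : ℂ) - h w) = _
        rw [hw']; ring
      · simpa using hrat w (by omega)
  refine ⟨N, ⟨hgr, fun ξ hξ => ?_⟩, hη, fun ξ hξ => hξ _ (hsub hΦ)⟩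
  obtain ⟨n, hn⟩ := exists_lenLt (cx ξ)
  have h1 : RatW 1 (straight : S) := fun w hw => by
    obtain rfl : w = [] := List.length_eq_zero_iff.mp (by omega)
    exact ⟨1, by simp [(hchar _ (hsub hΦ)).1]⟩
  refine Submodule.span_mono ?_ (hmain (n + 1) n 1 (by omega) le_rfl _ hΦ h1 (cx ξ)
    (Submodule.subset_span ⟨ξ, hξ, rfl⟩) fun w hw => hn w (by omega))
  rintro ν ⟨⟨h2, h3⟩, -⟩
  exact ⟨h2, fun l => by rw [betti_eq]; exact h3 l⟩

end Pool.Agent.Lib.MP_e8750f_nt
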