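import Mathlib

/-! Real multiple mixed values and real multiple zeta values, as series. -/

namespace Pool.Agent.Lib.MP_e8750f_nt

/-- The tuples `0 < m₁ < ⋯ < m_d` of integers. -/
abbrev Inc (d : ℕ) : Type := {m : Fin d → ℕ // StrictMono m ∧ ∀ j, 0 < m j}

/-- The term of the series of the multiple mixed value `M(s; ε)` at the tuple `m`. -/
noncomputable def mmvTerm {d : ℕ} (s : Fin d → ℕ) (ε : Fin d → ℤˣ) (m : Inc d) : ℝ :=
  ∏ j, (1 + ((ε j : ℤ) : ℝ) * (-1) ^ m.1 j) / (m.1 j : ℝ) ^ s j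

/-- The real multiple zeta value `ζ(t)`. -/
noncomputable def realZeta {d : ℕ} (t : Fin d → ℕ) : ℝ :=
  ∑' m : Inc d, ∏ j, 1 / (m.1 j : ℝ) ^ t j

/-- The `ℚ`-span of the convergent real multiple zeta values of weight `w`. -/
noncomputable def zetaSpan (w : ℕ) : Submodule ℚ ℝ :=
  Submodule.span ℚ {x | ∃ (d : ℕ) (t : Fin d → ℕ), (∀ j, 1 ≤ t j) ∧
    (∀ j : Fin d, j.val + 1 = d → 2 ≤ t j) ∧ ∑ j, t j = w ∧ x = realZeta t}

end Pool.Agent.Lib.MP_e8750f_nt
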