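import Pool.Agent.Lib.MP_e8750f_nt.RPar

/-! The family of mixed values. -/

namespace Pool.Agent.Lib.MP_e8750f_nt

open Ser Real List

/-- `dφ ^ n` -/
abbrev dn (n : ℕ) : List Fm := List.replicate n .d

theorem Zw_cast {m n : ℤ} {x : ℂ} (h : x ∈ Zw m) (e : m = n) : x ∈ Zw n := e ▸ h

def W1 (a c : ℕ) : List Fm := dn c ++ .c :: dn a
def W2 (a b c : ℕ) : List Fm := W1 b c ++ .c :: dn a

theorem cop_d_c (g : Ser Fm ℂ) (u : List Fm) :
    cop g [.d] (.c :: u) = g (.d :: .c :: u) + cop (fun w => g (.c :: w)) [.d] u := by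
  rw [cop_cons_cons, cop_nil_left]; rfl

theorem cop_d_dn (g : Ser Fm ℂ) (a : ℕ) : cop g [.d] (dn a) = (a + 1) * g (dn (a + 1)) := by
  have := cop_single_rep Fm.d a [] g
  simp only [List.append_nil, cop_nil_right, ← List.replicate_succ'] at this
  rw [this]; ring

theorem cop_d_blk (g : Ser Fm ℂ) (c : ℕ) (u : List Fm) : cop g [.d] (dn c ++ .c :: u) =
    (c + 1) * g (dn (c + 1) ++ .c :: u) + cop (fun w => g (dn c ++ .c :: w)) [.d] u := by
  rw [cop_single_rep, cop_d_c]
  simp only [dn, List.replicate_succ' (n := c), List.append_assoc, List.singleton_append]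
  ring

theorem rel1 (a c : ℕ) : (a + 1) * gS (W1 (a + 1) c) + (c + 1) * gS (W1 a (c + 1)) = 0 := by
  have h := isChar_gS.cop_apply [.d] (W1 a c)
  rw [gS_d, zero_mul, W1, cop_d_blk, cop_d_dn] at h
  simp only [W1]
  linear_combination h

theorem rel2 (a b c : ℕ) : (a + 1) * gS (W2 (a + 1) b c) + (b + 1) * gS (W2 a (b + 1) c) +
    (c + 1) * gS (W2 a b (c + 1)) = 0 := by
  have h := isChar_gS.cop_apply [.d] (W2 a b c)
  rw [gS_d, zero_mul, W2, W1, List.append_assoc, List.cons_append, cop_d_blk, cop_d_blk,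
    cop_d_dn] at h
  simp only [W2, W1, List.append_assoc, List.cons_append]
  linear_combination h

theorem MZ.dn {fs : List Fm} (h : MZ fs) (n : ℕ) : MZ (dn (2 * n) ++ fs) := by
  induction n with
  | zero => exact h
  | succ n ih => exact .dd ih

theorem MZ_dn (a : ℕ) : MZ (dn a ++ dn (a + 2)) := by
  have := MZ.base.dn a
  rw [show [Fm.d, Fm.d] = dn 2 from rfl, List.replicate_append_replicate] at this
  rwa [List.replicate_append_replicate, show a + (a + 2) = 2 * a + 2 by ring]

theorem g_dn (j : ℕ) : gS (dn j) ∈ Zw j := by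
  cases j with
  | zero => simpa [isChar_gS.1] using one_mem_Zw
  | succ j =>
    have h := char_rep isChar_gS .d (j + 1)
    rw [gS_d, zero_pow (by omega), mul_eq_zero] at h
    rw [h.resolve_left (by exact_mod_cast (j + 1).factorial_ne_zero)]
    exact zero_mem _

theorem g_W1o (a r : ℕ) : gS (W1 a (2 * r + 1)) ∈ Zw (a + 2 * r + 2) := by
  have := MZ.app (u := dn (2 * r) ++ .c :: dn a) (v := dn (a + 2))
    (by simpa only [List.append_assoc, List.cons_append] using (MZ_dn a).c.dn r)
  exact Zw_cast this (by simp; ring)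

theorem g_W2o (a q r : ℕ) : gS (W2 a (2 * q) (2 * r + 1)) ∈ Zw (a + 2 * q + 2 * r + 3) := by
  have := MZ.app (u := dn (2 * r) ++ .c :: (dn (2 * q) ++ .c :: dn a)) (v := dn (a + 2))
    (by simpa only [List.append_assoc, List.cons_append] using ((MZ_dn a).c.dn q).c.dn r)
  rw [W2, W1, List.append_assoc]
  exact Zw_cast this (by simp; ring)

theorem g_W1e (a r : ℕ) : gS (W1 a (2 * r + 2)) ∈ Zw (a + 2 * r + 3) := by
  have h := rel1 a (2 * r + 1)
  have h1 : (2 * r + 2 : ℂ) ≠ 0 := by exact_mod_cast (by omega : 2 * r + 2 ≠ 0)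
  convert rat_mul_mem (-(a + 1) / (2 * r + 2)) (g_W1o (a + 1) r) using 1
  · push_cast; ring_nf
  · push_cast at h ⊢
    field_simp
    linear_combination h

theorem g_W2e (a q r : ℕ) : gS (W2 a (2 * q + 1) (2 * r + 2)) ∈ Zw (a + 2 * q + 2 * r + 5) := by
  have h1 := rel2 a (2 * q + 1) (2 * r + 1)
  have h2 := rel2 a (2 * q) (2 * r + 2)
  have h3 := rel2 (a + 1) (2 * q) (2 * r + 1)
  have e1 : (2 * r + 2 : ℂ) ≠ 0 := by exact_mod_cast (by omega : 2 * r + 2 ≠ 0)
  have e2 : (2 * q + 1 : ℂ) ≠ 0 := by exact_mod_cast (by omega : 2 * q + 1 ≠ 0)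
  have m1 : gS (W2 (a + 1 + 1) (2 * q) (2 * r + 1)) ∈ Zw (a + 2 * q + 2 * r + 5) :=
    Zw_cast (g_W2o (a + 2) q r) (by push_cast; ring)
  have m2 : gS (W2 a (2 * q + 1 + 1) (2 * r + 1)) ∈ Zw (a + 2 * q + 2 * r + 5) :=
    Zw_cast (g_W2o a (q + 1) r) (by push_cast; ring)
  have m3 : gS (W2 a (2 * q) (2 * r + 2 + 1)) ∈ Zw (a + 2 * q + 2 * r + 5) :=
    Zw_cast (g_W2o a q (r + 1)) (by push_cast; ring)
  convert rat_mul_mem (1 / (2 * (2 * q + 1) * (2 * r + 2)))
    (sub_mem (sub_mem (rat_mul_mem ((a + 1) * (a + 2)) m1)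
      (rat_mul_mem ((2 * q + 1) * (2 * q + 2)) m2)) (rat_mul_mem ((2 * r + 2) * (2 * r + 3)) m3))
    using 1
  push_cast at h1 h2 h3 ⊢
  field_simp
  linear_combination (2 * q + 1) * h1 + (2 * r + 2) * h2 - (a + 1) * h3

/-- all initial segments are in the span -/
def AllPre (u : List Fm) : Prop := ∀ i, gS (u.take i) ∈ Zw (u.take i).length

theorem AllPre.blk {u : List Fm} (h : AllPre u)
    (h' : ∀ j : ℕ, gS (u ++ .c :: dn j) ∈ Zw (u.length + j + 1)) (a : ℕ) : AllPre (u ++ .c :: dn a) := by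
  intro i
  rcases le_or_gt i u.length with hi | hi
  · rw [List.take_append_of_le_length hi]; exact h i
  · obtain ⟨k, rfl⟩ : ∃ k, i = u.length + (k + 1) := ⟨i - u.length - 1, by omega⟩
    rw [List.take_append, List.take_of_length_le (by omega), Nat.add_sub_cancel_left,
      List.take_succ_cons, List.take_replicate]
    simpa [add_assoc] using h' (min k a)

theorem allPre_W2 (a q r : ℕ) : AllPre (W2 a (2 * q + 1) (2 * r + 2)) := by
  refine AllPre.blk (AllPre.blk (fun i => ?_) (fun j => ?_) _) (fun j => ?_) a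
  · rw [List.take_replicate, List.length_replicate]; exact g_dn _
  · exact Zw_cast (g_W1e j r) (by simp; ring)
  · exact Zw_cast (g_W2e j q r) (by simp; ring)

theorem G_W2 (p q r : ℕ) : ∃ y ∈ Zw (2 * (p + q + r) + 6),
    (G (W2 (2 * p + 2) (2 * q + 1) (2 * r + 2)) (π / 2) : ℂ) = π * y := by
  obtain ⟨fs, h1, h2⟩ : ∃ fs, W2 (2 * p + 2) (2 * q + 1) (2 * r + 2) = .d :: fs ∧ Adm fs :=
    ⟨W2 (2 * p + 2) (2 * q + 1) (2 * r + 1), rfl, Or.inl (by
      simp [W2, List.getLast?_append, List.getLast?_cons, List.getLast?_replicate])⟩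
  obtain ⟨a, ha, b, hb, h3⟩ := val_mem (W := W2 (2 * p + 2) (2 * q + 1) (2 * r + 2))
    (fun f hf => by simp [W2, W1] at hf; tauto)
    (by simp [W2, List.getLast?_append, List.getLast?_cons, List.getLast?_replicate])
    (allPre_W2 _ q r)
  obtain ⟨c, hc, h4⟩ := kap_odd (fs := W2 (2 * p + 2) (2 * q + 1) (2 * r + 2))
    ⟨p + q + r + 2, by simp [W2, W1]; ring⟩
  have h5 := arc_val' h2 (Or.inl rfl)
  rw [← h1, h3, h4] at h5
  have h6 := congrArg Complex.im h5
  have hb' := Zw_im hb
  have hc' : (c : ℝ) ≠ 0 := by exact_mod_cast hc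
  refine ⟨_, rat_mul_mem (1 / c) (by convert hb using 2; simp [W2, W1]; ring), ?_⟩
  simp [Zw_im ha, hb'] at h6
  apply Complex.ext
  · simp [hb']; field_simp; linarith
  · simp [hb']

theorem lin_s (F : S) (u v : List Fm) :
    lin Rf F (u ++ .s :: v) = lin Rf F (u ++ .c :: v) + lin Rf F (u ++ .t :: v) := by
  induction u generalizing F with
  | nil => simp [lin_cons, Rf]; ring
  | cons f u ih => simp only [List.cons_append, lin_cons, ih, mul_add, List.sum_map_add]

theorem G_s (u : List Fm) {v : List Fm} (h : Adm v) :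
    (G (.d :: (u ++ .s :: v)) (π / 2) : ℂ) =
      G (.d :: (u ++ .c :: v)) (π / 2) + G (.d :: (u ++ .t :: v)) (π / 2) := by
  have ha : ∀ f, Adm (u ++ f :: v) := fun f => by
    induction u with
    | nil => exact adm_cons h f
    | cons g u ih => exact adm_cons ih g
  have h1 := lin_s (Hl * rev Φ) (.d :: u) v
  simp only [List.cons_append] at h1
  rw [← arc_val (ha _) (Or.inl rfl), ← arc_val (ha _) (Or.inl rfl),
    ← arc_val (ha _) (Or.inl rfl)] at h1
  simp only [kap, List.count_cons, List.count_append] at h1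
  simp only [beq_iff_eq, reduceCtorEq, if_false] at h1
  rw [← mul_add] at h1
  exact mul_left_cancel₀ (pow_ne_zero _ (by simp)) h1

/-- the word of a string of twos -/
def tw : ℕ → OW → OW
  | 0, W => W
  | n + 1, W => .z :: .p :: tw n W

theorem forms_tw {W : OW} {K : ℕ} {fs : List Fm} (h : forms W = some (K, false, false, fs))
    (n : ℕ) : forms (tw n W) = some (2 ^ n * K, false, false, dn (2 * n) ++ fs) := by
  induction n with
  | zero => simpa [tw] using h
  | succ n ih =>
    rw [tw, forms, forms, ih]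
    simp only [Option.map_some, Option.bind_some, nz, nx, pow_succ, Nat.mul_succ, List.replicate_succ]
    simp
    ring

theorem valE' {W : OW} {K : ℕ} {fs : List Fm} (n : ℕ)
    (h : forms (tw n (.z :: W)) = some (K, false, false, fs)) :
    om Φ (tw n (.z :: W)) * (π / 2) = K * G (.d :: fs) (π / 2) := by
  cases n <;> simpa [tw, nx, piB] using valE h

theorem tw_mem {W : OW} (h : .m ∉ W) (n : ℕ) : om Φ (tw n (.z :: W)) ∈ Zw (2 * n + W.length + 1) := by
  have h1 : ∀ n, .m ∉ tw n (.z :: W) ∧ (tw n (.z :: W)).length = 2 * n + W.length + 1 := by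
    intro n
    induction n with
    | zero => simpa [tw] using h
    | succ n ih => simp [tw, ih]; ring
  cases n with
  | zero => simpa [tw] using om_mem h
  | succ n =>
    exact Zw_cast (om_mem (W := .p :: tw n (.z :: W)) (by simpa using (h1 n).1))
      (by simp [(h1 n).2]; ring)

theorem fam_mem (p q r : ℕ) : om Φ (tw r (.z :: .m :: .m :: tw q (.z :: .z :: .p :: tw p []))) ∈
    Zw (2 * (p + q + r) + 6) := by
  have f0 : forms (.z :: .z :: .p :: tw p []) =
      some (2 * (2 ^ p * 1), false, false, .c :: dn (2 * p + 2)) := by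
    rw [forms, forms, forms, forms_tw (W := []) rfl]
    simp [nz, nx, List.replicate_succ]
  have f1 := forms_tw f0 q
  have hl : ∀ n W, .m ∉ W → .m ∉ tw n W ∧ (tw n W).length = 2 * n + W.length := by
    intro n W h
    induction n with
    | zero => simpa [tw] using h
    | succ n ih => simp [tw, ih]; ring
  have l0 := hl p [] (by simp)
  have l1 := hl q (.z :: .z :: .p :: tw p []) (by simpa using l0.1)
  have ha : Adm (.d :: (dn (2 * q) ++ .c :: dn (2 * p + 2))) := (forms_spec _ f1).1.elim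
    (fun h => by simp at h) fun h => adm_cons h _
  generalize tw q (.z :: .z :: .p :: tw p []) = V at *
  generalize 2 ^ q * (2 * (2 ^ p * 1)) = K at *
  have f2 : forms (.z :: .m :: .m :: V) =
      some (4 * K, false, false, .d :: .s :: .d :: (dn (2 * q) ++ .c :: dn (2 * p + 2))) := by
    rw [forms, forms, f1]; simp [nz, nx]
  have f3 : forms (.z :: .p :: .p :: V) =
      some (4 * K, false, false, .d :: .t :: .d :: (dn (2 * q) ++ .c :: dn (2 * p + 2))) := by
    rw [forms, forms, forms, f1]; simp [nz, nx]; ring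
  have v2 := valE' r (forms_tw f2 r)
  have v3 := valE' r (forms_tw f3 r)
  have v4 := G_s (dn (2 * r) ++ [.d]) ha
  obtain ⟨y, hy, v5⟩ := G_W2 p q r
  have e : W2 (2 * p + 2) (2 * q + 1) (2 * r + 2) =
      .d :: (dn (2 * r) ++ [.d] ++ .c :: .d :: (dn (2 * q) ++ .c :: dn (2 * p + 2))) := by
    rw [← List.replicate_succ']; simp [W2, W1, List.replicate_succ]
  rw [← e, v5] at v4
  simp only [List.append_assoc, List.singleton_append] at v4
  have m3 := tw_mem (W := .p :: .p :: V) (by simpa using l1.1) r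
  have hp : (π : ℂ) ≠ 0 := by exact_mod_cast pi_ne_zero
  convert add_mem (rat_mul_mem (2 * (2 ^ r * (4 * K) : ℕ)) hy) (by
    convert m3 using 2; simp [l1.2, l0.2]; ring) using 1
  refine mul_left_cancel₀ hp ?_
  rw [v4] at v2
  push_cast at v2 v3 ⊢
  linear_combination 2 * v2 - 2 * v3

end Pool.Agent.Lib.MP_e8750f_nt
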