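import Pool.Agent.Lib.MP_e8750f_nt.RSpan

/-! The parity argument on the arc. -/

namespace Pool.Agent.Lib.MP_e8750f_nt

open Ser Real List

instance : Fintype Fm := ⟨{.d, .c, .t, .s}, fun x => by cases x <;> simp⟩

noncomputable def gS : Ser Fm ℂ := lin Rf (flip Φ)
noncomputable def yS : Ser Fm ℂ := lin Rf (expS 0 (π * Complex.I)) * lin Rf (rev Φ)

theorem arc_val' {f : Fm} {fs : List Fm} (h : Adm fs) (hf : f = .d ∨ f = .c) :
    kap (f :: fs) * G (f :: fs) (π / 2) = (gS * yS) (f :: fs) := by
  rw [arc_val h hf, Hl_eq, lin_mul, lin_mul, mul_assoc]; rfl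

theorem isChar_gS : IsChar gS := isChar_Φ.flip.lin Rf

theorem gS_d : gS [.d] = 0 := by simp [gS, lin_cons, Rf, flip, Φ_zero]

theorem yS_nil : yS [] = 1 := by simp [yS, expS, expLetter, rev, isChar_Φ.1]

theorem yS_d : yS [.d] = π * Complex.I := by
  simp [yS, mul_cons, lin_cons, Rf, expS, expLetter, rev, Φ_zero, isChar_Φ.1]

/-- words in `dφ` and `cot` -/
def DC (w : List Fm) : Prop := ∀ f ∈ w, f = .d ∨ f = .c

theorem DC.sh {W : List Fm} (h : DC W) {w : Word} (hw : Sh Rf W w) : ∀ a ∈ w, a ≠ -1 := by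
  induction hw with
  | nil => simp
  | @cons o b W w h1 _ ih =>
    intro a ha
    rcases List.mem_cons.mp ha with rfl | ha
    · obtain ⟨c, hc⟩ := h1
      rcases h o (by simp) with rfl | rfl <;> simp [Rf] at hc <;> aesop
    · exact ih (fun f hf => h f (by simp [hf])) a ha

theorem yS_mem {W : List Fm} (h : DC W) (h' : W.getLast? ≠ some .c) : yS W ∈ Rr W.length := by
  rw [yS, mul_app]
  refine sum_mem fun i hi => Rr_mul (m := (W.take i).length) (n := (W.drop i).length)
    (lin_mem _ _ fun w hw => ?_) (lin_mem _ _ fun w hw => Rr_of_Zw ?_) ?_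
  · rw [expS, expLetter, ← hw.length]
    split_ifs
    · convert rat_mul_mem (1 / w.length.factorial) (piI_pow_mem w.length) using 1
      push_cast; ring
    · exact zero_mem _
  · have h1 : DC (W.drop i) := fun f hf => h f (List.mem_of_mem_drop hf)
    have h2 := Φ_mem (u := w.reverse) (fun a ha => h1.sh hw a (List.mem_reverse.mp ha)) (by
      rw [List.head?_reverse]
      intro h3
      obtain ⟨o, c, h4, h5⟩ := Sh_last hw h3
      have h6 : W.getLast? = some o := by
        rw [← List.take_append_drop i W, List.getLast?_append, h4]; rfl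
      rcases h o (List.mem_of_getLast? h6) with rfl | rfl
      · simp [Rf] at h5
      · exact h' h6)
    rw [List.length_reverse, hw.length] at h2
    convert rat_mul_mem ((-1) ^ w.length) h2 using 1
    rw [rev]; push_cast; rfl
  · rw [← Nat.cast_add, ← List.length_append, List.take_append_drop]

theorem gS_im (W : List Fm) : (gS (.d :: W)).im = 0 := by
  have := lin_mem Rf (LinearMap.ker (Complex.imLm.restrictScalars ℚ)) (F := flip Φ) (W := .d :: W)
    fun w hw => by
      cases hw with
      | cons h1 _ =>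
        obtain ⟨c, hc⟩ := h1
        simp [Rf] at hc
        simpa [flip] using Φ_im (by simp [hc.2])
  simpa [gS] using this

theorem par_step {W : List Fm} (h : DC W)
    (H1 : ∀ i < (Fm.d :: W).length, gS ((Fm.d :: W).take i) ∈ Zw i) {y : ℂ}
    (hy : y ∈ Zw (Fm.d :: W).length)
    (H2 : (((gS * yS) (.d :: W ++ [.d])).im : ℂ) = π * y) :
    gS (.d :: W) ∈ Zw (Fm.d :: W).length := by
  have e1 := gS_im W
  have e2 := gS_im (W ++ [.d])
  have hw : DC (.d :: W) := fun f hf => by
    rcases List.mem_cons.mp hf with rfl | hf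
    exacts [Or.inl rfl, h f hf]
  rw [← List.cons_append] at e2
  generalize Fm.d :: W = w at *
  have h3 : ∑ i ∈ Finset.range w.length, gS ((w ++ [Fm.d]).take i) * yS ((w ++ [Fm.d]).drop i) ∈
      Rr (w.length + 1) := sum_mem fun i hi => by
    have hi' := Finset.mem_range.mp hi
    rw [List.take_append_of_le_length hi'.le, List.drop_append_of_le_length hi'.le]
    refine Rr_mul (Rr_of_Zw (H1 i hi')) (yS_mem (fun f hf => ?_) (by simp)) ?_
    · rcases List.mem_append.mp hf with hf | hf
      · exact hw f (List.mem_of_mem_drop hf)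
      · simp at hf; simp [hf]
    · simp; omega
  obtain ⟨a, ha, b, hb, h4⟩ := h3
  have t1 : (w ++ [Fm.d]).take (w.length + 1) = w ++ [Fm.d] := List.take_of_length_le (by simp)
  have t2 : (w ++ [Fm.d]).drop (w.length + 1) = [] := List.drop_of_length_le (by simp)
  have t3 : (w ++ [Fm.d]).take w.length = w := by simp
  have t4 : (w ++ [Fm.d]).drop w.length = [Fm.d] := by simp
  rw [mul_app, List.length_append, List.length_singleton, Finset.sum_range_succ,
    Finset.sum_range_succ, h4, t1, t2, t3, t4, yS_nil, yS_d] at H2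
  have e3 := Zw_im ha
  have e4 := Zw_im hb
  have e5 : gS w = y - b := by
    have hp : (π : ℂ) ≠ 0 := by exact_mod_cast pi_ne_zero
    refine mul_left_cancel₀ hp ?_
    rw [mul_sub, ← H2]
    apply Complex.ext <;> simp [e1, e2, e3, e4]
    ring
  rw [e5]
  exact sub_mem hy (by simpa using hb)

theorem val_mem {W : List Fm} (h : DC W) (h' : W.getLast? ≠ some .c)
    (H : ∀ i, gS (W.take i) ∈ Zw (W.take i).length) : (gS * yS) W ∈ Rr W.length := by
  rw [mul_app]
  refine sum_mem fun i _ => Rr_mul (Rr_of_Zw (H i))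
    (yS_mem (fun f hf => h f (List.mem_of_mem_drop hf)) fun h1 => h' ?_) ?_
  · rw [← List.take_append_drop i W, List.getLast?_append, h1]; rfl
  · rw [← Nat.cast_add, ← List.length_append, List.take_append_drop]

/-- trigonometric words of the multiple zeta values with all entries at least two -/
inductive MZ : List Fm → Prop
  | base : MZ [.d, .d]
  | c {fs : List Fm} : MZ fs → MZ (.c :: fs)
  | dd {fs : List Fm} : MZ fs → MZ (.d :: .d :: fs)

theorem MZ.dc {fs : List Fm} (h : MZ fs) : DC fs := by
  induction h with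
  | base => simp [DC]
  | c _ ih => simpa [DC] using ih
  | dd _ ih => simpa [DC] using ih

theorem MZ.even {fs : List Fm} (h : MZ fs) : Even (fs.count .d) := by
  induction h with
  | base => decide
  | c _ ih => simpa using ih
  | dd _ ih => simpa [Nat.even_add_one] using ih

theorem MZ.pre {fs : List Fm} (h : MZ fs) (j : ℕ) (hj : Odd ((fs.take j).count .d)) :
    MZ (fs.take j ++ [.d]) := by
  induction h generalizing j with
  | base => rcases j with _ | _ | j <;> simp at hj <;> first | exact .base | exact absurd hj (by decide)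
  | c _ ih =>
    rcases j with _ | j
    · simp at hj
    · exact .c (ih j (by simpa using hj))
  | dd _ ih =>
    rcases j with _ | _ | j
    · simp at hj
    · exact .base
    · exact .dd (ih j (by simpa [Nat.odd_add_one, ← Nat.not_even_iff_odd, Nat.even_add_one] using hj))

theorem MZ.forms {fs : List Fm} (h : MZ fs) : ∃ (W : OW) (K : ℕ), K ≠ 0 ∧
    forms (.z :: W) = some (K, false, false, fs) ∧ .m ∉ W ∧ W.length + 1 = fs.length := by
  induction h with
  | base => exact ⟨[.p], 2, by simp, rfl, by simp, rfl⟩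
  | @c fs h ih =>
    obtain ⟨W, K, h1, h2, h3, h4⟩ := ih
    refine ⟨.z :: W, K, h1, ?_, by simpa using h3, by simp [h4]⟩
    rw [MP_e8750f_nt.forms, h2]
    cases h <;> simp [nz]
  | dd _ ih =>
    obtain ⟨W, K, h1, h2, h3, h4⟩ := ih
    refine ⟨.p :: .z :: W, 2 * K, by omega, ?_, by simpa using h3, by simp [← h4]⟩
    rw [MP_e8750f_nt.forms, MP_e8750f_nt.forms, h2]
    simp [nz, nx]

theorem om_mem {W : OW} (h1 : .m ∉ W) :
    om Φ (.z :: W) ∈ Zw (W.length + 1) := by
  have h3 : ∀ a ∈ (Om.z :: W).map toS, a ≠ -1 := by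
    intro a ha
    obtain ⟨o, ho, rfl⟩ := List.mem_map.mp ha
    cases o
    · simp [toS]
    · simp [toS]
    · simp [h1] at ho
  rw [om_eq_Mk (by simpa using h1), dist_Φ _ (by simp [toS]), lin_Mi h3]
  simpa using rat_mul_mem _ (Φ_mem h3 (by simp [toS]))

theorem MZ.val {fs : List Fm} (h : MZ fs) :
    ∃ y ∈ Zw fs.length, (G (.d :: fs) (π / 2) : ℂ) = π * y := by
  obtain ⟨W, K, h1, h2, h3, h4⟩ := h.forms
  have h5 := valE h2
  have h6 : (K : ℂ) ≠ 0 := by exact_mod_cast h1
  refine ⟨_, by simpa [← h4] using rat_mul_mem (1 / (2 * K)) (om_mem h3), ?_⟩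
  simp only [nx, piB, Bool.false_eq_true, if_false] at h5
  push_cast at h5 ⊢
  field_simp
  linear_combination -2 * h5

theorem kap_even {fs : List Fm} (h : Even (fs.count .d)) : (kap fs).im = 0 := by
  obtain ⟨k, hk⟩ := h
  rw [kap, hk, ← two_mul, pow_mul, mul_pow, Complex.I_sq]
  norm_cast

theorem kap_odd {fs : List Fm} (h : Odd (fs.count .d)) :
    ∃ q : ℚ, q ≠ 0 ∧ kap fs = q * Complex.I := by
  obtain ⟨k, hk⟩ := h
  refine ⟨(-4) ^ k * 2, by positivity, ?_⟩
  rw [kap, hk, pow_succ, pow_mul, mul_pow, Complex.I_sq]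
  push_cast; ring

theorem MZ.take {fs : List Fm} (h : MZ fs) (i : ℕ) (hi : i ≤ fs.length + 1) :
    gS ((Fm.d :: fs).take i) ∈ Zw i := by
  induction i using Nat.strong_induction_on with
  | _ i ih =>
  rcases i with _ | j
  · simpa [isChar_gS.1] using one_mem_Zw
  have hl : (Fm.d :: fs.take j).length = j + 1 := by simp; omega
  have ha : Adm (fs.take j ++ [.d]) := Or.inl (by simp)
  have hv := arc_val' ha (Or.inl rfl)
  have H1 : ∀ i < (Fm.d :: fs.take j).length, gS ((Fm.d :: fs.take j).take i) ∈ Zw i := by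
    intro i hi'
    rw [← List.take_succ_cons, List.take_take, min_eq_left (by omega)]
    exact ih i (by omega) (by omega)
  have hd : DC (fs.take j) := fun f hf => h.dc f (List.mem_of_mem_take hf)
  rw [List.take_succ_cons, ← hl]
  rcases Nat.even_or_odd ((fs.take j).count .d) with he | ho
  · refine par_step hd H1 (zero_mem _) ?_
    rw [List.cons_append, ← hv, Complex.mul_im, kap_even (by simpa [Nat.even_add_one] using he)]
    simp
  · have h1 := h.pre j ho
    obtain ⟨y, hy, h2⟩ := h1.val
    obtain ⟨q, -, hq⟩ := kap_odd (fs := .d :: (fs.take j ++ [.d]))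
      (by simpa [Nat.odd_add_one] using ho)
    refine par_step hd H1 (y := q * y) (by simpa using rat_mul_mem q hy) ?_
    rw [List.cons_append, ← hv, hq, mul_left_comm, ← h2]
    simp

theorem MZ.app {u v : List Fm} (h : MZ (u ++ v)) : gS (.d :: u) ∈ Zw (u.length + 1) := by
  simpa using h.take (u.length + 1) (by simp)

end Pool.Agent.Lib.MP_e8750f_nt
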