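import Pool.Agent.Lib.MP_e8750f_nt.RDefs
import Pool.Agent.Lib.MP_e8750f_nt.RFam

/-! From words to series. -/

namespace Pool.Agent.Lib.MP_e8750f_nt

open Ser Real Filter Topology Set

/-- nested sums; the head of the list belongs to the largest index -/
noncomputable def NS : List (ℕ → ℝ) → ℕ → ℝ
  | [], m => if m = 0 then 1 else 0
  | f :: l, m => f m * ∑ k ∈ Finset.range m, NS l k

theorem inc_snoc {d : ℕ} (y : Fin d → ℕ) (k : ℕ) :
    (StrictMono (Fin.snoc y k : Fin (d + 1) → ℕ) ∧ ∀ j, 0 < (Fin.snoc y k : Fin (d + 1) → ℕ) j) ↔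
      (StrictMono y ∧ ∀ j, 0 < y j) ∧ 0 < k ∧ ∀ j, y j < k := by
  constructor
  · rintro ⟨h1, h2⟩
    refine ⟨⟨fun i j hij => ?_, fun j => ?_⟩, ?_, fun j => ?_⟩
    · simpa using h1 (Fin.castSucc_lt_castSucc_iff.mpr hij)
    · simpa using h2 j.castSucc
    · simpa using h2 (Fin.last d)
    · simpa using h1 (Fin.castSucc_lt_last j)
  · rintro ⟨⟨h1, h2⟩, h3, h4⟩
    refine ⟨fun i j hij => ?_, fun j => ?_⟩
    · induction i using Fin.lastCases with
      | last => exact absurd hij (not_lt.mpr (Fin.le_last j))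
      | cast i =>
        induction j using Fin.lastCases with
        | last => simpa using h4 i
        | cast j => simpa using h1 (Fin.castSucc_lt_castSucc_iff.mp hij)
    · induction j using Fin.lastCases with
      | last => simpa using h3
      | cast j => simpa using h2 j

open Classical in
theorem NS_step {d : ℕ} (f : Fin (d + 1) → ℕ → ℝ) (hf : ∀ j m, 0 ≤ f j m)
    (ih : ∀ k, HasSum (fun y : Fin d → ℕ => if (StrictMono y ∧ ∀ j, 0 < y j) ∧ 0 < k ∧ ∀ j, y j < k
      then ∏ j, f j.castSucc (y j) else 0)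
      (∑ i ∈ Finset.range k, NS (List.ofFn fun j : Fin d => f j.castSucc).reverse i))
    (w : ℕ → Prop) [DecidablePred w] {r : ℝ}
    (h : HasSum (fun k => if w k then NS (List.ofFn f).reverse k else 0) r) :
    HasSum (fun x : Fin (d + 1) → ℕ => if (StrictMono x ∧ ∀ j, 0 < x j) ∧ w (x (Fin.last d))
      then ∏ j, f j (x j) else 0) r := by
  rw [← (Fin.snocEquiv fun _ => ℕ).hasSum_iff]
  have h1 : ∀ k, HasSum (fun y : Fin d → ℕ => ((fun x : Fin (d + 1) → ℕ =>
      if (StrictMono x ∧ ∀ j, 0 < x j) ∧ w (x (Fin.last d)) then ∏ j, f j (x j) else 0) ∘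
        (Fin.snocEquiv fun _ => ℕ)) (k, y)) (if w k then NS (List.ofFn f).reverse k else 0) := by
    intro k
    rw [List.ofFn_succ', List.concat_eq_append, List.reverse_append, List.reverse_singleton,
      List.singleton_append, NS]
    by_cases hw : w k
    · rw [if_pos hw]
      refine ((ih k).mul_left (f (Fin.last d) k)).congr_fun fun y => ?_
      have e : (Fin.snocEquiv fun _ => ℕ) (k, y) = Fin.snoc y k := rfl
      simp only [Function.comp_apply, e, inc_snoc, Fin.snoc_last, hw, and_true,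
        Fin.prod_univ_castSucc, Fin.snoc_castSucc]
      split_ifs <;> ring
    · rw [if_neg hw]
      refine hasSum_zero.congr_fun fun y => ?_
      simp [hw]
  have h2 := (summable_prod_of_nonneg fun x => by
    simp only [Function.comp_apply, Pi.zero_apply]
    split_ifs
    exacts [Finset.prod_nonneg fun j _ => hf _ _, le_rfl]).mpr
      ⟨fun k => (h1 k).summable, h.summable.congr fun k => (h1 k).tsum_eq.symm⟩
  rw [h.unique (h2.hasSum.prod_fiberwise h1)]
  exact h2.hasSum

open Classical in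
theorem NS_lt {d : ℕ} (f : Fin d → ℕ → ℝ) (hf : ∀ j m, 0 ≤ f j m) (k : ℕ) :
    HasSum (fun y : Fin d → ℕ => if (StrictMono y ∧ ∀ j, 0 < y j) ∧ 0 < k ∧ ∀ j, y j < k
      then ∏ j, f j (y j) else 0) (∑ i ∈ Finset.range k, NS (List.ofFn f).reverse i) := by
  induction d generalizing k with
  | zero =>
    rw [show ∑ i ∈ Finset.range k, NS (List.ofFn f).reverse i = if 0 < k then 1 else 0 by simp [NS]]
    simp [Subsingleton.strictMono]
  | succ d ih =>
    have h := NS_step f hf (ih _ fun j m => hf _ _) (fun i => i < k)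
      (r := ∑ i ∈ Finset.range k, NS (List.ofFn f).reverse i) (by
        rw [Finset.sum_congr rfl fun i hi => (if_pos (Finset.mem_range.mp hi)).symm]
        exact hasSum_sum_of_ne_finset_zero fun i hi => if_neg (by simpa using hi))
    refine h.congr_fun fun y => if_congr (and_congr_right fun hy => ?_) rfl rfl
    exact ⟨fun h => h.2 _, fun h => ⟨by omega, fun j => (hy.1.monotone (Fin.le_last j)).trans_lt h⟩⟩

theorem NS_tsum {d : ℕ} (hd : d ≠ 0) (f : Fin d → ℕ → ℝ) (hf : ∀ j m, 0 ≤ f j m) {r : ℝ}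
    (h : HasSum (NS (List.ofFn f).reverse) r) : HasSum (fun m : Inc d => ∏ j, f j (m.1 j)) r := by
  obtain ⟨d, rfl⟩ := Nat.exists_eq_succ_of_ne_zero hd
  have h1 := NS_step f hf (NS_lt _ fun j m => hf _ _) (fun _ => True) (by simpa using h)
  refine (hasSum_subtype_iff_indicator (s := {m | StrictMono m ∧ ∀ j, 0 < m j})
    (f := fun m : Fin (d + 1) → ℕ => ∏ j, f j (m j))).mpr (h1.congr_fun fun x => ?_)
  simp [Set.indicator_apply]

theorem NS_nonneg {l : List (ℕ → ℝ)} (h : ∀ f ∈ l, ∀ m, 0 ≤ f m) (m : ℕ) : 0 ≤ NS l m := by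
  induction l generalizing m with
  | nil => rw [NS]; split_ifs <;> norm_num
  | cons f l ih =>
    exact mul_nonneg (h f (by simp) m)
      (Finset.sum_nonneg fun k _ => ih (fun g hg => h g (by simp [hg])) k)

def wz : List ℕ → Word
  | [] => []
  | s :: l => List.replicate (s - 1) 0 ++ 1 :: wz l

noncomputable def fZ (s m : ℕ) : ℝ := 1 / (m : ℝ) ^ s

theorem cf_wz {l : List ℕ} (h : ∀ s ∈ l, 1 ≤ s) (m : ℕ) :
    (-1) ^ l.length * cf (wz l) m = NS (l.map fZ) m := by
  induction l generalizing m with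
  | nil => simp [wz, cf, NS]
  | cons s l ih =>
    obtain ⟨k, rfl⟩ : ∃ k, s = k + 1 := ⟨s - 1, by have := h s (by simp); omega⟩
    rw [wz, cf_replicate, cf, if_neg (by simp), List.map_cons, NS, fZ]
    simp only [← ih fun s hs => h s (by simp [hs]), ← Finset.mul_sum, SignType.coe_one, one_pow,
      mul_one, List.length_cons, Nat.add_sub_cancel]
    ring

theorem exists_wz {w : Word} (h1 : ∀ a ∈ w, a ≠ -1) (h2 : w.getLast? ≠ some 0) :
    ∃ l : List ℕ, (∀ s ∈ l, 1 ≤ s) ∧ w = wz l ∧ l.sum = w.length := by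
  induction w with
  | nil => exact ⟨[], by simp, rfl, rfl⟩
  | cons a w ih =>
    obtain ⟨l, e1, e2, e3⟩ := ih (fun b hb => h1 b (by simp [hb])) (by cases w <;> simp_all)
    rcases sign_cases a with rfl | rfl | rfl
    · cases l with
      | nil => simp [e2, wz] at h2
      | cons s l =>
        obtain ⟨k, rfl⟩ : ∃ k, s = k + 1 := ⟨s - 1, by have := e1 s (by simp); omega⟩
        refine ⟨(k + 2) :: l, by simpa using e1, by rw [e2]; rfl, ?_⟩
        simp at e3 ⊢; omega
    · exact ⟨1 :: l, by simpa using e1, by rw [e2]; rfl, by simp [e3, add_comm]⟩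
    · simp at h1

theorem real_of_Zw {n : ℕ} (hn : n ≠ 0) {x : ℂ} (hx : x ∈ Zw n) : x.re ∈ zetaSpan n := by
  induction hx using Submodule.span_induction with
  | zero => simp
  | add a b _ _ ha hb => rw [Complex.add_re]; exact add_mem ha hb
  | smul q a _ ha => simpa using Submodule.smul_mem _ q ha
  | mem a ha =>
    obtain ⟨w, hw, h1, rfl⟩ := ha
    obtain ⟨l, e1, rfl, e3⟩ := exists_wz hw.1 hw.2.2
    have e4 : l.sum = n := by omega
    have h0 : ∀ m, 0 ≤ NS (l.map fZ) m := NS_nonneg fun f hf m => by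
      obtain ⟨s, -, rfl⟩ := List.mem_map.mp hf
      rw [fZ]; positivity
    obtain ⟨r, h2, h3⟩ := abel_nonneg (ℓ := NS (l.map fZ)) (L := (-1) ^ l.length * Φ (wz l))
      (c := fun m x => NS (l.map fZ) m * x ^ m) (f := fun x => (-1) ^ l.length * Li (wz l) x)
      (fun x hx => ((hasSum_Li _ (norm_lt_one hx)).mul_left _).congr_fun fun m => by
        rw [← cf_wz e1]; push_cast; ring)
      (fun x hx m => ⟨mul_nonneg (h0 m) (pow_nonneg hx.1.le _),
        mul_le_of_le_one_right (h0 m) (pow_le_one₀ hx.1.le hx.2.le)⟩)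
      (fun m => by simpa using (pow_tendsto m).const_mul (NS (l.map fZ) m))
      ((Li_tendsto hw.2.1 hw.2.2).const_mul _)
    have h4 : Φ (wz l) = ((-1) ^ l.length : ℚ) * (r : ℂ) := by
      rw [← h2, ← mul_assoc]; push_cast; rw [← mul_pow]; simp
    have h5 : r = realZeta l.reverse.get := by
      refine ((NS_tsum (fun h => hn ?_) (fun j => fZ (l.reverse.get j))
        (fun j m => by rw [fZ]; positivity) ?_).tsum_eq).symm
      · rw [← e4, show l = [] by simpa using h]; rfl
      · rwa [show (fun j => fZ (l.reverse.get j)) = fZ ∘ l.reverse.get from rfl, ← List.map_ofFn,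
          List.ofFn_get, List.map_reverse, List.reverse_reverse]
    rw [h4, ← Rat.smul_def]
    simp only [Complex.smul_re, Complex.ofReal_re]
    refine Submodule.smul_mem _ _ (Submodule.subset_span ⟨_, _, fun j => ?_, fun j hj => ?_, ?_, h5⟩)
    · exact e1 _ (List.mem_reverse.mp (List.get_mem _ _))
    · cases l with
      | nil => exact absurd e4.symm hn
      | cons s l =>
        have h6 : (s :: l).reverse.get j = s := by
          simp at hj; simp [hj]
        have h7 := e1 s (by simp)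
        have h8 : s ≠ 1 := by rintro rfl; simp [IsMZVWord, wz] at hw
        omega
    · rw [← List.sum_ofFn, List.ofFn_get, List.sum_reverse, e4]

def sg : List (ℕ × ℤˣ) → ℤˣ
  | [] => 1
  | x :: _ => x.2

def wd : List (ℕ × ℤˣ) → OW
  | [] => []
  | x :: l => List.replicate (x.1 - 1) .z ++ (if x.2 = sg l then .p else .m) :: wd l

noncomputable def fM (x : ℕ × ℤˣ) (m : ℕ) : ℝ := (1 + ((x.2 : ℤ) : ℝ) * (-1) ^ m) / (m : ℝ) ^ x.1

theorem ac_replicate (k : ℕ) (W : OW) (m : ℕ) :
    ac (List.replicate k .z ++ W) m = ac W m / m ^ k := by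
  induction k with
  | zero => simp
  | succ k ih => rw [List.replicate_succ, List.cons_append, ac, ih, div_div, pow_succ]

theorem NS_par (l : List (ℕ × ℤˣ)) (m : ℕ) :
    NS (l.map fM) m * (-1) ^ m = ((sg l : ℤ) : ℝ) * NS (l.map fM) m := by
  cases l with
  | nil => by_cases h : m = 0 <;> simp [NS, sg, h]
  | cons x l =>
    rw [List.map_cons, NS, fM, sg]
    rcases Int.units_eq_one_or x.2 with h | h <;> rcases neg_one_pow_eq_or ℝ m with h' | h' <;>
      simp [h, h']

theorem ac_wd {l : List (ℕ × ℤˣ)} (h : ∀ x ∈ l, 1 ≤ x.1) (m : ℕ) :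
    ac (wd l) m = NS (l.map fM) m := by
  induction l generalizing m with
  | nil => rfl
  | cons x l ih =>
    obtain ⟨s, e⟩ := x
    obtain ⟨k, rfl⟩ : ∃ k, s = k + 1 := ⟨s - 1, by have := h (s, e) (by simp); omega⟩
    have h1 : ∀ σ : ℝ, Sg σ (ac (wd l)) m =
        (1 + σ * (sg l : ℤ) * (-1) ^ m) * ∑ k ∈ Finset.range m, NS (l.map fM) k := fun σ => by
      rw [Sg, Finset.mul_sum]
      refine Finset.sum_congr rfl fun i hi => ?_
      obtain ⟨j, rfl⟩ := Nat.exists_eq_add_of_le (Finset.mem_range.mp hi).le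
      have h2 := NS_par l i
      have h3 : ((-1 : ℝ) ^ i) * (-1) ^ i = 1 := by rw [← mul_pow]; simp
      rw [ih fun x hx => h x (by simp [hx]), Nat.add_sub_cancel_left, pow_add]
      linear_combination σ * (-1) ^ i * (-1) ^ j * h2 - σ * (-1) ^ j * NS (l.map fM) i * h3
    rw [wd, ac_replicate, List.map_cons, NS, fM]
    split_ifs with he
    · rw [ac, h1, ← show e = sg l from he]; simp only [Nat.add_sub_cancel]; ring
    · have : (((sg l : ℤˣ) : ℤ) : ℝ) = -((e : ℤ) : ℝ) := by
        rcases Int.units_eq_one_or e with h | h <;> rcases Int.units_eq_one_or (sg l) with h' | h' <;>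
          simp_all
      rw [ac, h1, this]; simp only [Nat.add_sub_cancel]; ring

theorem realM_eq {d : ℕ} (s : Fin d → ℕ) (ε : Fin d → ℤˣ) (hs : ∀ j, 1 ≤ s j) {W : OW}
    (hW : wd (List.ofFn fun j => (s j, ε j)).reverse = .z :: W)
    (hW' : (Om.z :: W).getLast? ≠ some .z) :
    HasSum (mmvTerm s ε) (om Φ (.z :: W)).re := by
  obtain ⟨r, h1, h2⟩ := abel_nonneg (ℓ := ac (.z :: W)) (L := om Φ (.z :: W))
    (fun x hx => hasSum_omF hW' hx)
    (fun x hx m => ⟨mul_nonneg (ac_bound _ _).1 (pow_nonneg hx.1.le _),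
      mul_le_of_le_one_right (ac_bound _ _).1 (pow_le_one₀ hx.1.le hx.2.le)⟩)
    (fun m => by simpa using (pow_tendsto m).const_mul (ac (.z :: W) m))
    (lin_tendsto Rw fun w hw => F_tendsto (by
      cases hw with
      | cons h1 h2 => simp [Rw] at h1; simp [h1]))
  rw [h1, Complex.ofReal_re]
  refine NS_tsum (by rintro rfl; simp [wd] at hW) (fun j => fM (s j, ε j)) (fun j m => ?_) ?_
  · rw [fM]
    refine div_nonneg ?_ (by positivity)
    rcases Int.units_eq_one_or (ε j) with h | h <;> rcases neg_one_pow_eq_or ℝ m with h' | h' <;>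
      simp [h, h']
  · rw [show (fun j => fM (s j, ε j)) = fM ∘ fun j => (s j, ε j) from rfl, ← List.map_ofFn,
      ← List.map_reverse, ← funext (ac_wd ?_), hW]
    · exact h2
    · simpa [List.mem_ofFn] using hs

theorem wd_two {l : List (ℕ × ℤˣ)} (h : sg l = 1) (n : ℕ) :
    wd (List.replicate n (2, 1) ++ l) = tw n (wd l) ∧ sg (List.replicate n (2, 1) ++ l) = 1 := by
  induction n with
  | zero => exact ⟨rfl, h⟩
  | succ n ih => exact ⟨by simp [List.replicate_succ, wd, tw, ih], rfl⟩

theorem wd_fam (p q r : ℕ) : wd (List.replicate r (2, 1) ++ (2, 1) :: (1, -1) ::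
    (List.replicate q (2, 1) ++ (3, 1) :: List.replicate p (2, 1))) =
    tw r (.z :: .m :: .m :: tw q (.z :: .z :: .p :: tw p [])) := by
  have h0 := wd_two (l := []) rfl p
  rw [List.append_nil] at h0
  have h1 := wd_two (l := (3, 1) :: List.replicate p (2, 1)) rfl q
  rw [(wd_two rfl r).1, wd, wd, h1.1, h1.2, wd, h0.1, h0.2]
  simp [sg, wd, List.replicate_succ]

theorem tw_last {W : OW} (h : W.getLast? ≠ some .z) (n : ℕ) : (tw n W).getLast? ≠ some .z := by
  induction n with
  | zero => exact h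
  | succ n ih => rw [tw]; cases h' : tw n W <;> simp_all

theorem cons_last {o : Om} {W : OW} (ho : o ≠ .z) (h : W.getLast? ≠ some .z) :
    (o :: W).getLast? ≠ some .z := by cases W <;> simp_all

theorem family (p q r d : ℕ) (s : Fin d → ℕ) (ε : Fin d → ℤˣ)
    (hs : List.ofFn s =
      List.replicate p 2 ++ [3] ++ List.replicate q 2 ++ [1] ++ List.replicate (r + 1) 2)
    (hε : List.ofFn ε = List.replicate (p + 1 + q) 1 ++ [-1] ++ List.replicate (r + 1) 1) :
    ∃ x ∈ zetaSpan (∑ j, s j), HasSum (mmvTerm s ε) x := by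
  have h1 : (List.ofFn fun j => (s j, ε j)) = (List.ofFn s).zip (List.ofFn ε) :=
    List.ext_getElem (by simp) (by simp)
  have h2 : (List.ofFn fun j => (s j, ε j)).reverse = List.replicate r (2, 1) ++ (2, 1) :: (1, -1) ::
      (List.replicate q (2, 1) ++ (3, 1) :: List.replicate p (2, 1)) := by
    rw [h1, hs, hε, List.replicate_add (p + 1) q, List.replicate_add p 1,
      List.zip_append (by simp),
      List.zip_append (by simp), List.zip_append (by simp), List.zip_append (by simp),
      List.zip_replicate, List.zip_replicate, List.zip_replicate, min_self, min_self, min_self,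
      List.replicate_succ (n := r)]
    simp
  have h3 : ∑ j, s j = 2 * (p + q + r) + 6 := by
    rw [← List.sum_ofFn, hs]; simp; ring
  have h4 : ∀ j, 1 ≤ s j := fun j => by
    have : s j ∈ List.ofFn s := List.mem_ofFn.mpr ⟨j, rfl⟩
    rw [hs] at this
    simp at this
    omega
  have h5 := wd_fam p q r
  have h6 := fam_mem p q r
  have h7 : (tw r (.z :: .m :: .m :: tw q (.z :: .z :: .p :: tw p []))).getLast? ≠ some .z := by
    refine tw_last ?_ r
    rw [List.getLast?_cons_cons]
    refine cons_last (by simp) (cons_last (by simp) (tw_last ?_ q))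
    rw [List.getLast?_cons_cons, List.getLast?_cons_cons]
    exact cons_last (by simp) (tw_last (by simp) p)
  obtain ⟨W, hW⟩ : ∃ W, tw r (.z :: .m :: .m :: tw q (.z :: .z :: .p :: tw p [])) = .z :: W := by
    cases r <;> exact ⟨_, rfl⟩
  rw [hW] at h5 h6 h7
  refine ⟨_, ?_, realM_eq s ε h4 (h2 ▸ h5) h7⟩
  rw [h3]
  exact real_of_Zw (by omega) (Zw_cast h6 (by push_cast; rfl))

end Pool.Agent.Lib.MP_e8750f_nt
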