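import Pool.Agent.Lib.MP_e8750f_nt.Final

/-! The graded span of the real multiple zeta values, and the splitting of the arc. -/

namespace Pool.Agent.Lib.MP_e8750f_nt

open Ser Real

/-- span of the multiple zeta words of length `n` -/
noncomputable def Zw (n : ℤ) : Submodule ℚ ℂ :=
  Submodule.span ℚ {x | ∃ w : Word, IsMZVWord w ∧ (w.length : ℤ) = n ∧ x = Φ w}

theorem Zw_mul {m n k : ℤ} {x y : ℂ} (hx : x ∈ Zw m) (hy : y ∈ Zw n) (h : m + n = k) :
    x * y ∈ Zw k := by
  subst h
  induction hx using Submodule.span_induction with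
  | zero => simp
  | add a b _ _ ha hb => rw [add_mul]; exact add_mem ha hb
  | smul q a _ ha => rw [smul_mul_assoc]; exact Submodule.smul_mem _ _ ha
  | mem a ha =>
    obtain ⟨u, hu, rfl, rfl⟩ := ha
    induction hy using Submodule.span_induction with
    | zero => simp
    | add a b _ _ ha hb => rw [mul_add]; exact add_mem ha hb
    | smul q a _ ha => rw [mul_smul_comm]; exact Submodule.smul_mem _ _ ha
    | mem a ha =>
      obtain ⟨v, hv, rfl, rfl⟩ := ha
      rw [← isChar_Φ.cop_apply, cop]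
      refine list_sum_mem fun x hx => ?_
      obtain ⟨w, hw, rfl⟩ := List.mem_map.mp hx
      exact Submodule.subset_span ⟨w, hu.shuf hv hw, by
        rw [length_of_mem_shuf _ _ _ hw]; push_cast; rfl, rfl⟩

theorem Zw_im {n : ℤ} {x : ℂ} (hx : x ∈ Zw n) : x.im = 0 := by
  induction hx using Submodule.span_induction with
  | zero => simp
  | add a b _ _ ha hb => simp [ha, hb]
  | smul q a _ ha => simp [ha]
  | mem a ha => obtain ⟨u, hu, -, rfl⟩ := ha; exact Φ_im hu.2.1

theorem rat_mul_mem {P : Submodule ℚ ℂ} (q : ℚ) {x : ℂ} (hx : x ∈ P) : (q : ℂ) * x ∈ P := by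
  rw [← Rat.smul_def]; exact P.smul_mem q hx

theorem one_mem_Zw : (1 : ℂ) ∈ Zw 0 :=
  Submodule.subset_span ⟨[], by simp [IsMZVWord], rfl, isChar_Φ.1.symm⟩

theorem pi_sq_mem : (π : ℂ) ^ 2 ∈ Zw 2 := by
  have h1 := Φ_d1 (s := 2) le_rfl (a := 1) (by simp)
  have h3 : Z1 2 1 = π ^ 2 / 6 := by
    rw [← hasSum_zeta_two.tsum_eq]; simp [Z1, z1]
  have h4 : Φ (d1 2 1) ∈ Zw 2 :=
    Submodule.subset_span ⟨_, by simp [IsMZVWord, d1], by simp [d1], rfl⟩
  convert rat_mul_mem (-6) h4 using 1
  rw [h1, h3]; push_cast; ring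

/-- `Z ⊕ π i Z` -/
noncomputable def Rr (n : ℤ) : Submodule ℚ ℂ where
  carrier := {x | ∃ a ∈ Zw n, ∃ b ∈ Zw (n - 1), x = a + π * Complex.I * b}
  zero_mem' := ⟨0, zero_mem _, 0, zero_mem _, by simp⟩
  add_mem' := by
    rintro _ _ ⟨a, ha, b, hb, rfl⟩ ⟨a', ha', b', hb', rfl⟩
    exact ⟨_, add_mem ha ha', _, add_mem hb hb', by ring⟩
  smul_mem' := by
    rintro q _ ⟨a, ha, b, hb, rfl⟩
    exact ⟨_, rat_mul_mem q ha, _, rat_mul_mem q hb, by rw [Rat.smul_def]; ring⟩

theorem Rr_of_Zw {n : ℤ} {x : ℂ} (hx : x ∈ Zw n) : x ∈ Rr n := ⟨x, hx, 0, zero_mem _, by simp⟩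

theorem Rr_mul {m n k : ℤ} {x y : ℂ} (hx : x ∈ Rr m) (hy : y ∈ Rr n) (h : m + n = k) :
    x * y ∈ Rr k := by
  obtain ⟨a, ha, b, hb, rfl⟩ := hx
  obtain ⟨a', ha', b', hb', rfl⟩ := hy
  refine ⟨_, sub_mem (Zw_mul ha ha' h) (Zw_mul pi_sq_mem (Zw_mul hb hb' rfl) (by omega)), _,
    add_mem (Zw_mul ha hb' (by omega)) (Zw_mul hb ha' (by omega)), ?_⟩
  linear_combination (π : ℂ) ^ 2 * b * b' * Complex.I_sq

theorem piI_pow_mem (n : ℕ) : ((π : ℂ) * Complex.I) ^ n ∈ Rr n := by
  induction n with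
  | zero => simpa using Rr_of_Zw one_mem_Zw
  | succ n ih =>
    rw [pow_succ]
    exact Rr_mul ih (n := 1) ⟨0, zero_mem _, 1, one_mem_Zw, by simp⟩ (by push_cast; rfl)

theorem lin_mem {α β : Type} (R : β → List (ℚ × α)) (P : Submodule ℚ ℂ) {F : Ser α ℂ} {W : List β}
    (h : ∀ w, Sh R W w → F w ∈ P) : lin R F W ∈ P := by
  induction W generalizing F with
  | nil => exact h [] List.Forall₂.nil
  | cons o W ih =>
    rw [lin_cons]
    refine list_sum_mem fun y hy => ?_
    obtain ⟨x, hx, rfl⟩ := List.mem_map.mp hy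
    exact rat_mul_mem _ (ih fun w hw => h (x.2 :: w) (List.Forall₂.cons ⟨x.1, hx⟩ hw))

theorem evalF_mem {κ : Type} (P : Submodule ℚ ℂ) {f : κ → ℂ} {L : LC κ} (h : ∀ t ∈ L, f t.2 ∈ P) :
    evalF f L ∈ P :=
  list_sum_mem fun y hy => by
    obtain ⟨t, ht, rfl⟩ := List.mem_map.mp hy
    exact rat_mul_mem _ (h t ht)

theorem cop_single_rep {α : Type} (x : α) (n : ℕ) (u : List α) (g : Ser α ℂ) :
    cop g [x] (List.replicate n x ++ u) = n * g (List.replicate (n + 1) x ++ u) +
      cop (fun w => g (List.replicate n x ++ w)) [x] u := by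
  induction n generalizing g with
  | zero => simp
  | succ n ih =>
    rw [List.replicate_succ, List.cons_append, cop_cons_cons, ih]
    simp only [cop_nil_left, der_apply, List.replicate_succ, List.cons_append]
    push_cast; ring

theorem char_rep {α : Type} [DecidableEq α] [Fintype α] {g : Ser α ℂ} (hg : IsChar g) (x : α)
    (k : ℕ) : (k.factorial : ℂ) * g (List.replicate k x) = g [x] ^ k := by
  induction k with
  | zero => simp [hg.1]
  | succ k ih =>
    have h1 := cop_single_rep x k [] g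
    rw [hg.cop_apply, cop_nil_right] at h1
    simp only [List.append_nil, ← List.replicate_succ'] at h1
    rw [pow_succ, ← ih, Nat.factorial_succ]
    push_cast
    linear_combination -(k.factorial : ℂ) * h1

noncomputable def Ec (g : S) (t : ℕ × Word) : ℂ :=
  t.1.factorial * cop g (List.replicate t.1 0) t.2

theorem antiAux_spec (j : ℕ) (a : SignType) (v : Word) (g : S) :
    Ec (der a g) (j, v) = evalF (Ec g) (antiAux j (a :: v)) := by
  induction j generalizing a v with
  | zero => simp [Ec, antiAux]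
  | succ j ih =>
    rw [antiAux, evalF_cons, evalF_scl, ← ih]
    simp only [Ec, List.replicate_succ, cop_cons_cons, Nat.factorial_succ]
    push_cast; ring

theorem HL_spec (w : Word) (g : S) : g w = evalF (Ec g) (HL w) := by
  induction w generalizing g with
  | nil => simp [HL, Ec]
  | cons a w ih =>
    rw [evalF_HL_cons]
    refine (ih (der a g)).trans (evalF_congr fun t _ => ?_)
    obtain ⟨q, k, v⟩ := t
    unfold anti
    split_ifs with h
    · obtain ⟨h1, rfl⟩ := h
      obtain rfl : v = [] := h1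
      have : ((k : ℂ) + 1) ≠ 0 := by exact_mod_cast k.succ_ne_zero
      simp only [Ec, cop_nil_right, der_apply, evalF_cons, evalF_nil, List.replicate_succ,
        Nat.factorial_succ]
      push_cast
      field_simp
      simp
    · exact antiAux_spec _ _ _ _

theorem mul_expS_reg (c : ℂ) {v : Word} (hv : v.getLast? ≠ some 0) (F : S) :
    (F * expS 0 c) v = F v := by
  induction v generalizing F with
  | nil => simp [expS, expLetter]
  | cons a v ih =>
    have h1 : expS 0 c (a :: v) = 0 := by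
      rw [expS, expLetter, if_neg]
      intro h
      rw [h] at hv
      simp [List.getLast?_replicate] at hv
    rw [mul_cons, h1, ih (by cases v <;> simp_all)]
    simp

theorem Hl_eq : Hl = flip Φ * expS 0 (π * Complex.I) := by
  have hc := isChar_Φ.flip.mul (isChar_expS 0 (π * Complex.I))
  ext u
  rw [HL_spec u (flip Φ * _), Hl]
  refine evalF_congr fun t ht => ?_
  rw [Ec, hc.cop_apply, ← mul_assoc, char_rep hc, mul_expS_reg _ (HL_last u t ht)]
  congr 2
  simp [mul_cons, flip, expS, expLetter, Φ_zero, isChar_Φ.1]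

theorem antiAux_inv (j : ℕ) (v : Word) : ∀ t ∈ antiAux j v,
    t.2.1 + t.2.2.length = j + v.length ∧ ∀ a ∈ t.2.2, a ∈ v ∨ a = 0 := by
  induction j generalizing v with
  | zero => simp +contextual [antiAux]
  | succ j ih =>
    intro t ht
    simp only [antiAux, scl, List.mem_cons, List.mem_map] at ht
    rcases ht with rfl | ⟨s, hs, rfl⟩
    · exact ⟨rfl, fun a ha => Or.inl ha⟩
    · obtain ⟨h1, h2⟩ := ih _ s hs
      refine ⟨by simp at h1 ⊢; omega, fun a ha => ?_⟩
      have := h2 a ha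
      simp only [List.mem_cons] at this
      tauto

theorem HL_inv {w : Word} (hw : ∀ a ∈ w, a ≠ -1) : ∀ t ∈ HL w,
    t.2.1 + t.2.2.length = w.length ∧ ∀ a ∈ t.2.2, a ≠ -1 := by
  induction w with
  | nil => simp [HL]
  | cons a w ih =>
    refine key_mem_nrm (P := fun k : ℕ × Word =>
      k.1 + k.2.length = (a :: w).length ∧ ∀ a ∈ k.2, a ≠ -1) fun t ht => ?_
    simp only [List.mem_flatMap, scl, List.mem_map] at ht
    obtain ⟨s, hs, r, hr, rfl⟩ := ht
    obtain ⟨h1, h2⟩ := ih (fun b hb => hw b (by simp [hb])) s hs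
    unfold anti at hr
    split_ifs at hr with h
    · simp at hr; simp [hr]; simpa [h.1] using h1
    · obtain ⟨h3, h4⟩ := antiAux_inv _ _ r hr
      refine ⟨by simp at h3 ⊢; omega, fun b hb => ?_⟩
      rcases h4 b hb with h5 | rfl
      · rcases List.mem_cons.mp h5 with rfl | h5
        exacts [hw _ (by simp), h2 b h5]
      · simp

theorem Φ_mem {u : Word} (h1 : ∀ a ∈ u, a ≠ -1) (h2 : u.head? ≠ some 1) :
    Φ u ∈ Zw u.length := by
  rw [Φ_HL h2]
  refine evalF_mem _ fun t ht => ?_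
  obtain ⟨h3, h4⟩ := HL_inv h1 t ht
  rcases Nat.eq_zero_or_pos t.2.1 with h | h
  · rw [h, pow_zero, one_mul]
    exact Submodule.subset_span ⟨_, ⟨h4, HL_head (by simp) h2 t ht, HL_last u t ht⟩, by omega, rfl⟩
  · rw [zero_pow h.ne', zero_mul]; exact zero_mem _

end Pool.Agent.Lib.MP_e8750f_nt
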