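import Pool.Agent.Lib.MP_e8750f_nt.Value
import Pool.Agent.Lib.MP_e8750f_nt.Depth2

/-! Verification of the table for the associator. -/

namespace Pool.Agent.Lib.MP_e8750f_nt

set_option linter.unusedSectionVars false

open Ser Real

def dig : SignType → ℕ
  | SignType.zero => 0
  | SignType.pos => 1
  | SignType.neg => 2

def code : Word → ℕ
  | [] => 1
  | a :: w => 3 * code w + dig a

theorem code_pos (w : Word) : 1 ≤ code w := by
  induction w with
  | nil => rfl
  | cons a w ih => rw [code]; omega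

theorem code_inj : Function.Injective code := by
  intro u
  induction u with
  | nil =>
    intro v h
    cases v with
    | nil => rfl
    | cons b v => have := code_pos v; simp only [code] at h; omega
  | cons a u ih =>
    intro v h
    cases v with
    | nil => have := code_pos u; simp only [code] at h; omega
    | cons b v =>
      simp only [code] at h
      have h1 : code u = code v := by cases a <;> cases b <;> simp only [dig] at h <;> omega
      rw [ih h1]
      cases a <;> cases b <;> simp only [dig] at h <;> first | rfl | omega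

section
variable (Bs : List OW)

noncomputable def rr (i : ℕ) : ℂ :=
  if i < 100 then rho Bs (om Φ) i else Φ (Function.invFun code (i - 100))

def atm (w : Word) : Mono := [100 + code w]

theorem rr_code (w : Word) : rr Bs (100 + code w) = Φ w := by
  rw [rr, if_neg (by omega), Nat.add_sub_cancel_left, Function.leftInverse_invFun code_inj]

@[simp] theorem evalM_atm (w : Word) : evalM (rr Bs) (atm w) = Φ w := by simp [atm, rr_code]

abbrev Tab2 : Type := List (ℕ × Poly)

def Valid2 (K : Tab2) : Prop := ∀ t ∈ K, rr Bs (100 + t.1) = evalP (rr Bs) t.2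

def nf2 (K : Tab2) (w : Word) : Option Poly := if w = [] then some [(1, [])] else look (code w) K

theorem nf2_sound {K : Tab2} (hK : Valid2 Bs K) {w : Word} {P : Poly} (h : nf2 K w = some P) :
    evalP (rr Bs) P = Φ w := by
  rw [nf2] at h
  split_ifs at h with h'
  · obtain rfl := Option.some.inj h
    simp [h', isChar_Φ.1, evalP]
  · rw [← rr_code Bs]; exact (hK _ (mem_of_look h)).symm

inductive Tag : Type
  | z0 | z1
  | bas (i : ℕ)
  | dd (s : ℕ)
  | ze (k : ℕ)
  | sh (u v : Word)
  | st (s : ℕ) (a : SignType) (t : ℕ) (b : SignType)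
  | di (s t : ℕ)
  | gd (s t : ℕ)

def gdP (N : ℕ) (e : Bool × ℕ) : Poly :=
  if e.1 then [(1 / 2 - 1 / 2 ^ (N - e.2), atm (zs e.2 1 (N - e.2) 1)),
    (1 / 2, atm (zs e.2 1 (N - e.2) (-1))), (1 / 2 ^ (N - e.2), atm (d1 N 1))]
  else [(1 / 2 ^ (N - e.2), atm (zs e.2 1 (N - e.2) 1))]

def prod2 (K : Tab2) (u v : Word) (L : Poly) : Option Poly :=
  match nf2 K u, nf2 K v with
  | some P, some Q => some (L ++ scl (-1) (mulP P Q))
  | _, _ => none

def rowP (K : Tab2) : Tag → Option Poly
  | .z0 => some [(1, atm [0])]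
  | .z1 => some [(1, atm [1])]
  | .bas i => if i < 100 then
      some ((-1, [i]) :: (expandW Rw (bw Bs i)).map fun y => (y.1, atm y.2)) else none
  | .dd s => if 2 ≤ s then some [(1, atm (d1 s (-1))), (1 - 2 / 2 ^ s, atm (d1 s 1))] else none
  | .ze k => if k = 0 then none else some [(1, atm (d1 (2 * k) 1)),
      ((-1) ^ (k + 1) * 2 ^ (2 * k - 1) * bernoulli (2 * k) / (2 * k).factorial * 12 ^ k,
        List.replicate k 0)]
  | .sh u v => prod2 K u v ((shuf u v).map fun w => (1, atm w))
  | .st s a t b => if 2 ≤ s ∧ 2 ≤ t ∧ a ≠ 0 ∧ b ≠ 0 then prod2 K (d1 s a) (d1 t b)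
      [(1, atm (zs s a t b)), (1, atm (zs t b s a)), (-1, atm (d1 (s + t) (a * b)))] else none
  | .di s t => if OK2 s t then some [(1 - 4 / 2 ^ (s + t), atm (zs s 1 t 1)),
      (1, atm (zs s 1 t (-1))), (1, atm (zs s (-1) t 1)), (1, atm (zs s (-1) t (-1)))] else none
  | .gd s t => if OK2 s t ∧ ∀ e ∈ pf (s + t) s t, OK2 e.2 (s + t - e.2) then
      some (scl (-1 / 2) [(1, atm (zs s 1 t 1)), (1, atm (zs s (-1) t (-1)))] ++
        (pf (s + t) s t).flatMap (gdP (s + t))) else none

theorem evalM_replicate (ρ : ℕ → ℂ) (k : ℕ) : evalM ρ (List.replicate k 0) = ρ 0 ^ k := by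
  simp [evalM]

theorem prod2_sound {K : Tab2} (hK : Valid2 Bs K) {u v : Word} {L P : Poly}
    (h : prod2 K u v L = some P) : evalP (rr Bs) P = evalP (rr Bs) L - Φ u * Φ v := by
  unfold prod2 at h
  split at h
  · rename_i A B hA hB
    obtain rfl := Option.some.inj h
    rw [← nf2_sound Bs hK hA, ← nf2_sound Bs hK hB, ← evalP_mulP, evalP, evalF_append, evalF_scl]
    simp [evalP, sub_eq_add_neg]
  · simp at h

theorem rowP_sound (hπ : (π : ℂ) ^ 2 = 12 * rr Bs 0) {K : Tab2} (hK : Valid2 Bs K) {r : Tag}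
    {P : Poly} (h : rowP Bs K r = some P) : evalP (rr Bs) P = 0 := by
  cases r <;> simp only [rowP] at h
  case z0 => obtain rfl := Option.some.inj h; simp [evalP, Φ_zero]
  case z1 => obtain rfl := Option.some.inj h; simp [evalP, Φ_one]
  case bas i =>
    split_ifs at h with hi
    obtain rfl := Option.some.inj h
    rw [evalP, evalF_cons, evalF_map]
    simp only [evalM_atm, evalM_cons, evalM_nil, rr, if_pos hi, rho, om, lin_eq_expandW, evalF]
    simp
  case dd s =>
    split_ifs at h with hs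
    obtain rfl := Option.some.inj h
    simp only [evalP, evalF_cons, evalF_nil, evalM_atm, Φ_d1 hs (a := 1) (by simp),
      Φ_d1 hs (a := -1) (by simp), rel_d1 hs]
    push_cast; ring
  case ze k =>
    split_ifs at h with hk
    obtain rfl := Option.some.inj h
    simp only [evalP, evalF_cons, evalF_nil, evalM_atm, Φ_d1 (s := 2 * k) (by omega) (a := 1) (by simp),
      rel_ze hk, evalM_replicate]
    push_cast
    rw [pow_mul (π : ℂ), hπ]; ring
  case sh u v =>
    rw [prod2_sound Bs hK h, ← isChar_Φ.cop_apply, cop]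
    simp [evalP, evalF, Function.comp_def]
  case st s a t b =>
    split_ifs at h with hs
    obtain ⟨h1, h2, h3, h4⟩ := hs
    rw [prod2_sound Bs hK h]
    simp only [evalP, evalF_cons, evalF_nil, evalM_atm, Φ_d1 h1 h3, Φ_d1 h2 h4,
      Φ_d1 (s := s + t) (by omega) (mul_ne_zero h3 h4),
      Φ_zs (s := s) (t := t) ⟨by omega, h2, by omega⟩ h3 h4,
      Φ_zs (s := t) (t := s) ⟨by omega, h1, by omega⟩ h4 h3]
    have := congrArg (fun x : ℝ => (x : ℂ)) (rel_st h1 h2 a b)
    push_cast at this ⊢
    linear_combination this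
  case di s t =>
    split_ifs at h with hs
    obtain rfl := Option.some.inj h
    have e : ∀ a b : SignType, a ≠ 0 → b ≠ 0 → _ := fun a b => Φ_zs hs (a := a) (b := b)
    simp only [evalP, evalF_cons, evalF_nil, evalM_atm, e 1 1 (by simp) (by simp),
      e 1 (-1) (by simp) (by simp), e (-1) 1 (by simp) (by simp), e (-1) (-1) (by simp) (by simp)]
    have := congrArg (fun x : ℝ => (x : ℂ)) (rel_dist hs)
    push_cast at this ⊢
    linear_combination this
  case gd s t =>
    split_ifs at h with hs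
    obtain rfl := Option.some.inj h
    have h1 := congrArg (fun x : ℝ => (x : ℂ)) (rel_gdr hs.1 hs.2)
    have h2 : ((pf (s + t) s t).map fun e => evalF (evalM (rr Bs)) (gdP (s + t) e)).sum
        = (((pf (s + t) s t).map (gv (s + t))).sum : ℝ) := by
      rw [← Complex.ofRealHom_eq_coe, map_list_sum, List.map_map]
      refine congrArg List.sum (List.map_congr_left fun e he => ?_)
      have h3 := hs.2 e he
      simp only [gdP, gv, Function.comp_apply, Complex.ofRealHom_eq_coe]
      split_ifs <;> simp only [evalF_cons, evalF_nil, evalM_atm, Φ_zs h3 (a := 1) (b := 1) (by simp)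
        (by simp), Φ_zs h3 (a := 1) (b := -1) (by simp) (by simp),
        Φ_d1 (s := s + t) (by have := hs.1.2.2; omega) (a := 1) (by simp)] <;> push_cast <;> ring
    simp only [evalP, evalF_append, evalF_scl, evalF_flatMap, h2, ← h1, evalF_cons, evalF_nil,
      evalM_atm, Φ_zs hs.1 (a := 1) (b := 1) (by simp) (by simp),
      Φ_zs hs.1 (a := -1) (b := -1) (by simp) (by simp)]
    push_cast; ring

abbrev Block : Type := List (Tag × Poly) × List (ℕ × Poly × LC ℕ)

def chkRow (K : Tab2) (r : Tag × Poly) : Bool :=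
  match rowP Bs K r.1 with
  | some P => isZ (P ++ scl (-1) r.2)
  | none => false

def chkEnt (rows : List (Tag × Poly)) (e : ℕ × Poly × LC ℕ) : Bool :=
  isZ ((e.2.2.flatMap fun x => scl x.1 (rows.getD x.2 (.z0, [])).2) ++ (-1, [100 + e.1]) :: e.2.1)

def chkBlock (K : Tab2) (b : Block) : Bool := b.1.all (chkRow Bs K) && b.2.all (chkEnt b.1)

def addB (b : Block) (K : Tab2) : Tab2 := (b.2.map fun e => (e.1, e.2.1)) ++ K

theorem chkBlock_sound (hπ : (π : ℂ) ^ 2 = 12 * rr Bs 0) {K : Tab2} (hK : Valid2 Bs K) {b : Block}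
    (h : chkBlock Bs K b = true) : Valid2 Bs (addB b K) := by
  rw [chkBlock, Bool.and_eq_true, List.all_eq_true, List.all_eq_true] at h
  have h1 : ∀ i, evalF (evalM (rr Bs)) (b.1.getD i (.z0, [])).2 = 0 := fun i => by
    by_cases hi : i < b.1.length
    · have h2 := h.1 _ (List.getElem_mem hi)
      rw [List.getD_eq_getElem _ _ hi]
      unfold chkRow at h2
      split at h2
      · rename_i P hP
        have h3 := evalF_of_isZ (evalM (rr Bs)) h2
        rw [evalF_append, evalF_scl, ← evalP, rowP_sound Bs hπ hK hP] at h3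
        simpa using h3
      · simp at h2
    · rw [List.getD_eq_default _ _ (by omega)]; rfl
  intro t ht
  rcases List.mem_append.mp ht with ht | ht
  · obtain ⟨e, he, rfl⟩ := List.mem_map.mp ht
    have h3 := evalF_of_isZ (evalM (rr Bs)) (h.2 e he)
    simp only [evalF_append, evalF_flatMap, evalF_scl, h1, evalF_cons] at h3
    simp at h3
    rw [evalP]
    linear_combination -h3
  · exact hK t ht

def keepJ (nd : ℕ) : LC (ℕ × Word) → LC (ℕ × Word)
  | [] => []
  | t :: l => if t.2.1 % 2 = nd % 2 then t :: keepJ nd l else keepJ nd l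

def zeroJ : LC (ℕ × Word) → LC Word
  | [] => []
  | t :: l => if t.2.1 = 0 then (t.1, t.2.2) :: zeroJ l else zeroJ l

def arc1 (K : Tab2) (nd : ℕ) (t : ℚ × ℕ × Word) : Option Poly :=
  (nf2 K (neg t.2.2)).map (mulP [(t.1 * (-1) ^ ((t.2.1 + 3 * nd) / 2) * 12 ^ (t.2.1 / 2),
    List.replicate (t.2.1 / 2) 0)])

def arc2 (K : Tab2) (t : ℚ × Word) : Option Poly := (nf2 K t.2).map (scl t.1)

def arc3 (K : Tab2) (nd : ℕ) (c : ℚ) : LC (ℕ × Word) → LC Word → Option Poly
  | a :: l, b :: l' => match catO (arc1 K nd) (a :: l), catO (arc2 K) (b :: l') with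
    | some A, some B => some (scl c (mulP (nrm A) (nrm B)))
    | _, _ => none
  | _, _ => some []

def arcP (K : Tab2) (nd : ℕ) (fs : List Fm) : Option Poly :=
  catO (fun y => catO (fun x => arc3 K nd (y.1 * (-1) ^ x.2.length) (keepJ nd (HL x.1))
    (zeroJ (HL x.2.reverse))) (splits y.2)) (expandW Rf fs)

theorem evalF_zeroJ (g : Word → ℂ) (l : LC (ℕ × Word)) :
    evalF g (zeroJ l) = evalF (fun k => 0 ^ k.1 * g k.2) l := by
  induction l with
  | nil => rfl
  | cons t l ih => rw [zeroJ]; split_ifs with h <;> simp [ih, h]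

noncomputable def g1 (nd : ℕ) (k : ℕ × Word) : ℂ :=
  (-1) ^ ((k.1 + 3 * nd) / 2) * (12 * rr Bs 0) ^ (k.1 / 2) * Φ (neg k.2)

theorem evalP_arc2 {K : Tab2} (hK : Valid2 Bs K) {l : LC Word} {B : Poly}
    (hB : catO (arc2 K) l = some B) : evalF (evalM (rr Bs)) B = evalF Φ l :=
  evalF_catO (evalM (rr Bs)) _ (fun t : ℚ × Word => (t.1 : ℂ) * Φ t.2) hB fun t _ x hx => by
    obtain ⟨Q, hQ, rfl⟩ := Option.map_eq_some_iff.mp hx
    rw [evalF_scl, ← evalP, nf2_sound Bs hK hQ]

theorem arc3_sound {K : Tab2} (hK : Valid2 Bs K) {nd : ℕ} {c : ℚ} {l : LC (ℕ × Word)}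
    {l' : LC Word} {P : Poly} (h : arc3 K nd c l l' = some P) :
    evalF (evalM (rr Bs)) P = c * (evalF (g1 Bs nd) l * evalF Φ l') := by
  unfold arc3 at h
  split at h
  · split at h
    · rename_i A B hA hB
      obtain rfl := Option.some.inj h
      rw [evalF_scl, ← evalP, evalP_mulP, evalP, evalP, evalF_nrm, evalF_nrm, evalP_arc2 Bs hK hB,
        evalF_catO (evalM (rr Bs)) _ (fun t : ℚ × ℕ × Word => (t.1 : ℂ) * g1 Bs nd t.2) hA]
      · rfl
      · intro t _ x hx
        obtain ⟨Q, hQ, rfl⟩ := Option.map_eq_some_iff.mp hx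
        rw [← evalP, evalP_mulP, nf2_sound Bs hK hQ]
        simp only [evalP, evalF_cons, evalF_nil, evalM_replicate, g1]
        push_cast; ring
    · simp at h
  · rename_i h'
    obtain rfl := Option.some.inj h
    cases l with
    | nil => simp
    | cons a l =>
      cases l' with
      | nil => simp
      | cons b l' => exact (h' _ _ _ _ rfl rfl).elim

theorem re_Hl (hπ : (π : ℂ) ^ 2 = 12 * rr Bs 0) (nd : ℕ) {u : Word} (hu : u.head? ≠ some (-1)) :
    ((Complex.I ^ (3 * nd) * Hl u).re : ℂ)
      = π ^ (nd % 2) * evalF (g1 Bs nd) (keepJ nd (HL u)) := by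
  have h1 := HL_head (by simp) hu
  rw [Hl]
  generalize HL u = l at h1
  induction l with
  | nil => simp [keepJ]
  | cons t l ih =>
    have h2 := Φ_im (neg_head (h1 t (by simp)))
    rw [evalF_cons, mul_add, Complex.add_re, Complex.ofReal_add, ih fun s hs => h1 s (by simp [hs]),
      keepJ]
    have h3 : Φ (neg t.2.2) = ((Φ (neg t.2.2)).re : ℂ) := Complex.ext (by simp) (by simp [h2])
    have h4 : Complex.I ^ (3 * nd) * (t.1 * ((π * Complex.I) ^ t.2.1 * Φ (neg t.2.2)))
        = ((t.1 * π ^ t.2.1 * (Φ (neg t.2.2)).re : ℝ) : ℂ) * Complex.I ^ (t.2.1 + 3 * nd) := by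
      push_cast; rw [← h3]; ring
    rw [h4, Complex.re_ofReal_mul]
    split_ifs with h
    · have h5 : Complex.I ^ (t.2.1 + 3 * nd) = (((-1) ^ ((t.2.1 + 3 * nd) / 2) : ℝ) : ℂ) := by
        conv_lhs => rw [show t.2.1 + 3 * nd = 2 * ((t.2.1 + 3 * nd) / 2) by omega, pow_mul,
          Complex.I_sq]
        push_cast; rfl
      have h6 : (π : ℂ) ^ t.2.1 = π ^ (nd % 2) * (12 * rr Bs 0) ^ (t.2.1 / 2) := by
        rw [← hπ, ← pow_mul, ← pow_add]; congr 1; omega
      rw [h5, Complex.ofReal_re, evalF_cons, g1]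
      push_cast
      rw [← h3, h6]; ring
    · have h5 : Complex.I ^ (t.2.1 + 3 * nd)
          = (((-1) ^ ((t.2.1 + 3 * nd) / 2) : ℝ) : ℂ) * Complex.I := by
        conv_lhs => rw [show t.2.1 + 3 * nd = 2 * ((t.2.1 + 3 * nd) / 2) + 1 by omega, pow_succ,
          pow_mul, Complex.I_sq]
        push_cast; rfl
      rw [h5, Complex.re_ofReal_mul]
      simp

theorem mem_expandW {α β : Type} {R : β → List (ℚ × α)} {W : List β} {y : ℚ × List α}
    (h : y ∈ expandW R W) : Sh R W y.2 := by
  induction W generalizing y with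
  | nil => simp [expandW] at h; subst h; exact List.Forall₂.nil
  | cons o W ih =>
    simp only [expandW, List.mem_flatMap, List.mem_map] at h
    obtain ⟨x, hx, z, hz, rfl⟩ := h
    exact List.Forall₂.cons ⟨x.1, hx⟩ (ih hz)

theorem re_list_sum {ι : Type} (L : List ι) (f : ι → ℂ) :
    (((L.map f).sum).re : ℂ) = (L.map fun i => ((f i).re : ℂ)).sum := by
  induction L with
  | nil => simp
  | cons a L ih => simp [ih]

theorem arcP_sound (hπ : (π : ℂ) ^ 2 = 12 * rr Bs 0) {K : Tab2} (hK : Valid2 Bs K) {f : Fm}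
    {fs : List Fm} (h : Adm fs) (hf : f = .d ∨ f = .c) {P : Poly}
    (hP : arcP K ((f :: fs).count .d) (f :: fs) = some P) :
    2 ^ (f :: fs).count .d * (G (f :: fs) (π / 2) : ℂ)
      = π ^ ((f :: fs).count .d % 2) * evalP (rr Bs) P := by
  set nd := (f :: fs).count .d with hnd
  have h1 : Complex.I ^ (3 * nd) * lin Rf (Hl * rev Φ) (f :: fs)
      = ((2 ^ nd * G (f :: fs) (π / 2) : ℝ) : ℂ) := by
    rw [← arc_val h hf, kap, ← hnd, ← mul_assoc, pow_mul, ← mul_pow,
      show Complex.I ^ 3 * (2 * Complex.I) = 2 by linear_combination 2 * Complex.I_pow_four]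
    push_cast; rfl
  have h2 := congrArg (fun z : ℂ => (z.re : ℂ)) h1
  simp only [Complex.ofReal_re] at h2
  push_cast at h2
  rw [← h2, lin_eq_expandW, ← List.sum_map_mul_left, re_list_sum, evalP,
    evalF_catO (evalM (rr Bs)) _ (fun y => ((splits y.2).map fun x => ((y.1 * (-1) ^ x.2.length : ℚ) : ℂ)
      * (evalF (g1 Bs nd) (keepJ nd (HL x.1)) * evalF Φ (zeroJ (HL x.2.reverse)))).sum) hP
      fun y _ Q hQ => evalF_catO _ _ _ hQ fun x _ R hR => arc3_sound Bs hK hR,
    ← List.sum_map_mul_left]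
  refine congrArg List.sum (List.map_congr_left fun y hy => ?_)
  rw [mul_eq_splits, ← List.sum_map_mul_left, ← List.sum_map_mul_left, re_list_sum,
    ← List.sum_map_mul_left]
  refine congrArg List.sum (List.map_congr_left fun x hx => ?_)
  obtain ⟨h3, h4⟩ := sh_ends h hf (mem_expandW hy) hx
  have h5 : Φ x.2.reverse = ((Φ x.2.reverse).re : ℂ) := Complex.ext (by simp) (by simp [Φ_im h4])
  have h6 : Complex.I ^ (3 * nd) * (y.1 * (Hl x.1 * rev Φ x.2))
      = ((y.1 * (-1) ^ x.2.length * (Φ x.2.reverse).re : ℝ) : ℂ) * (Complex.I ^ (3 * nd) * Hl x.1) := by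
    push_cast; rw [← h5, rev]; ring
  rw [h6, Complex.re_ofReal_mul, Complex.ofReal_mul, re_Hl Bs hπ nd h3, evalF_zeroJ, ← Φ_HL h4]
  push_cast
  rw [← h5]; ring

def small (P : Poly) : Bool := P.all fun t => t.2.all fun i => decide (i < 100)

theorem evalP_small {P : Poly} (h : small P = true) :
    evalP (rho Bs (om Φ)) P = evalP (rr Bs) P := by
  refine evalF_congr fun t ht => congrArg List.prod (List.map_congr_left fun i hi => ?_)
  have := List.all_eq_true.mp (List.all_eq_true.mp h t ht) i hi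
  rw [rr, if_pos (by simpa using this)]

def chkX (K : Tab2) (W : OW) (P : Poly) : Bool :=
  match catO (arc2 K) (expandW Rw W) with
  | some Q => isZ (Q ++ scl (-1) P)
  | none => false

def chkA (K : Tab2) (c : ℕ) (cl : Bool) (fs : List Fm) (P : Poly) : Bool :=
  decide (fs.count .d % 2 = if cl then 0 else 1) &&
  match arcP K (fs.count .d) fs with
  | some Q => isZ (scl (c / 2 ^ fs.count .d) Q ++ scl (-1) P)
  | none => false

def chkE (K : Tab2) : OW → Poly → Bool
  | .z :: W, P => match forms (.z :: W) with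
    | some (k, cl, false, f :: fs) => chkA K (2 * k) cl (.d :: f :: fs) P
    | _ => false
  | _, _ => false

def chkM (K : Tab2) (K' : Tab) : OW → Poly → Bool
  | .m :: W, P => match forms W, look (.p :: W) K' with
    | some (k, cl, pd, fs), some P' => small P' &&
        chkA K (4 * k) cl (.c :: nx pd :: fs) (P ++ scl (-1) P')
    | _, _ => false
  | _, _ => false

theorem chkA_sound (hπ : (π : ℂ) ^ 2 = 12 * rr Bs 0) {K : Tab2} (hK : Valid2 Bs K) {f : Fm}
    {fs : List Fm} (h : Adm fs) (hf : f = .d ∨ f = .c) {c : ℕ} {cl : Bool} {P : Poly}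
    (hP : chkA K c cl (f :: fs) P = true) :
    (c : ℂ) * piB cl * G (f :: fs) (π / 2) = π * evalP (rr Bs) P := by
  rw [chkA, Bool.and_eq_true, decide_eq_true_eq] at hP
  obtain ⟨h1, h2⟩ := hP
  split at h2
  · rename_i Q hQ
    have h3 := arcP_sound Bs hπ hK h hf hQ
    have h4 := evalF_of_isZ (evalM (rr Bs)) h2
    rw [evalF_append, evalF_scl, evalF_scl, ← evalP, ← evalP] at h4
    rw [h1] at h3
    push_cast at h4
    have h5 : (2 : ℂ) ^ (f :: fs).count .d ≠ 0 := pow_ne_zero _ two_ne_zero
    have h6 : evalP (rr Bs) P = c / 2 ^ (f :: fs).count .d * evalP (rr Bs) Q := by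
      linear_combination -h4
    rw [h6]
    field_simp
    cases cl <;> simp only [piB, if_true, if_false, Bool.false_eq_true] at h3 ⊢
    · push_cast; linear_combination c * h3
    · linear_combination c * π * h3
  · simp at h2

def chkR (K : Tab2) (K' : Tab) (W : OW) (P : Poly) : Bool :=
  small P && (chkX K W P || chkE K W P || chkM K K' W P)

theorem chkR_sound (hπ : (π : ℂ) ^ 2 = 12 * rr Bs 0) {K : Tab2} (hK : Valid2 Bs K) {K' : Tab}
    (hK' : ∀ n, Valid Bs (om Φ) K' n) {W : OW} {P : Poly} (h : chkR K K' W P = true) :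
    om Φ W = evalP (rho Bs (om Φ)) P := by
  simp only [chkR, Bool.and_eq_true, Bool.or_eq_true] at h
  have hp : (π : ℂ) ≠ 0 := by exact_mod_cast pi_ne_zero
  rw [evalP_small Bs h.1]
  rcases h.2 with (h | h) | h
  · unfold chkX at h
    split at h
    · rename_i Q hQ
      have h4 := evalF_of_isZ (evalM (rr Bs)) h
      rw [evalF_append, evalF_scl, evalP_arc2 Bs hK hQ, ← evalP] at h4
      rw [om, lin_eq_expandW]
      push_cast at h4
      rw [evalF] at h4
      linear_combination h4
    · simp at h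
  · unfold chkE at h
    split at h
    · split at h
      · rename_i W P k cl f fs hf
        have h1 := valE hf
        have h2 := chkA_sound Bs hπ hK ((forms_spec _ hf).1.resolve_left (by simp)) (Or.inl rfl) h
        simp only [nx, Bool.false_eq_true, if_false] at h1
        push_cast at h1 h2
        refine mul_left_cancel₀ hp ?_
        linear_combination 2 * h1 + h2
      · simp at h
    · simp at h
  · unfold chkM at h
    split at h
    · split at h
      · rename_i W P k cl pd fs P' hf hl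
        rw [Bool.and_eq_true] at h
        have h1 := valM hf
        have h2 := chkA_sound Bs hπ hK (adm_nx (forms_spec _ hf).1 pd) (Or.inr rfl) h.2
        have h3 := hK' _ _ (mem_of_look hl) (Nat.lt_succ_self _)
        rw [evalP_small Bs h.1] at h3
        rw [evalP, evalF_append, evalF_scl, ← evalP, ← evalP, ← h3] at h2
        push_cast at h1 h2
        refine mul_left_cancel₀ hp ?_
        linear_combination 2 * h1 + h2
      · simp at h
    · simp at h

def chkAll2 (K : Tab2) : Tab → List Entry → Bool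
  | _, [] => true
  | K', e :: es => (match e.2.2 with
    | none => chkR K K' e.1 e.2.1
    | some x => chkS K' e.1 e.2.1 x.1 x.2) && chkAll2 K ((e.1, e.2.1) :: K') es

theorem prim_of_chk (hπ : (π : ℂ) ^ 2 = 12 * rr Bs 0) {K : Tab2} (hK : Valid2 Bs K) {K' : Tab}
    (hK' : ∀ n, Valid Bs (om Φ) K' n) {es : List Entry} (h : chkAll2 K K' es = true) :
    ∀ e ∈ es, om Φ e.1 = evalP (rho Bs (om Φ)) e.2.1 := by
  induction es generalizing K' with
  | nil => simp
  | cons e es ih =>
    rw [chkAll2, Bool.and_eq_true] at h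
    have he : om Φ e.1 = evalP (rho Bs (om Φ)) e.2.1 := by
      cases h2 : e.2.2 with
      | none => exact chkR_sound Bs hπ hK hK' (by simpa [h2] using h.1)
      | some x =>
        exact chkS_sound Bs (isChar_Φ.lin Rw) (hK' _) (by simpa [h2] using h.1) (Nat.lt_succ_self _)
    intro e' he'
    rcases List.mem_cons.mp he' with rfl | he'
    · exact he
    · refine ih (fun n t ht hl => ?_) h.2 e' he'
      rcases List.mem_cons.mp ht with rfl | ht
      exacts [he, hK' n t ht hl]

end

theorem om_zp : om Φ [.z, .p] = (π : ℂ) ^ 2 / 12 := by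
  have h1 := Φ_d1 (s := 2) le_rfl (a := 1) (by simp)
  have h2 := Φ_d1 (s := 2) le_rfl (a := -1) (by simp)
  have h3 : Z1 2 1 = π ^ 2 / 6 := by
    rw [← hasSum_zeta_two.tsum_eq]; simp [Z1, z1]
  rw [rel_d1 le_rfl] at h2
  simp only [d1, h3] at h1 h2
  simp at h1 h2
  simp [om, lin_cons, Rw, h1, h2]
  ring

end Pool.Agent.Lib.MP_e8750f_nt
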