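import Mathlib

/-! Noncommutative power series as functions on words. -/

namespace Pool.Agent.Lib.MP_e8750f_nt

/-- Noncommutative power series in the alphabet `α` with coefficients in `R`. -/
def Ser (α R : Type) : Type := List α → R

namespace Ser

set_option linter.unusedSectionVars false

variable {α R : Type} [Ring R]

instance : AddCommGroup (Ser α R) := inferInstanceAs (AddCommGroup (List α → R))

@[ext] theorem ext {F G : Ser α R} (h : ∀ w, F w = G w) : F = G := funext h

@[simp] theorem add_app (F G : Ser α R) (w : List α) : (F + G) w = F w + G w := rfl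
@[simp] theorem sub_app (F G : Ser α R) (w : List α) : (F - G) w = F w - G w := rfl
@[simp] theorem neg_app (F : Ser α R) (w : List α) : (-F) w = -F w := rfl
@[simp] theorem zero_app (w : List α) : (0 : Ser α R) w = 0 := rfl

theorem sum_app {ι : Type} (s : Finset ι) (F : ι → Ser α R) (w : List α) :
    (∑ i ∈ s, F i) w = ∑ i ∈ s, F i w := Finset.sum_apply w s F

/-- left derivative -/
def der (a : α) (F : Ser α R) : Ser α R := fun w => F (a :: w)

@[simp] theorem der_apply (a : α) (F : Ser α R) (w : List α) : der a F w = F (a :: w) := rfl

/-- left multiplication by a constant -/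
def lsc (c : R) (F : Ser α R) : Ser α R := fun w => c * F w

@[simp] theorem lsc_apply (c : R) (F : Ser α R) (w : List α) : lsc c F w = c * F w := rfl

def mulF : List α → Ser α R → Ser α R → R
  | [], F, G => F [] * G []
  | a :: w, F, G => F [] * G (a :: w) + mulF w (der a F) G

def oneF : Ser α R
  | [] => 1
  | _ :: _ => 0

instance : Mul (Ser α R) := ⟨fun F G w => mulF w F G⟩
instance : One (Ser α R) := ⟨oneF⟩

@[simp] theorem mul_nil (F G : Ser α R) : (F * G) [] = F [] * G [] := rfl
theorem mul_cons (F G : Ser α R) (a : α) (w : List α) :
    (F * G) (a :: w) = F [] * G (a :: w) + (der a F * G) w := rfl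
@[simp] theorem one_nil : (1 : Ser α R) [] = 1 := rfl
@[simp] theorem one_cons (a : α) (w : List α) : (1 : Ser α R) (a :: w) = 0 := rfl

theorem zero_mul' (G : Ser α R) : (0 : Ser α R) * G = 0 := by
  ext w
  induction w with
  | nil => simp
  | cons a w ih =>
    rw [mul_cons]
    have : der a (0 : Ser α R) = 0 := rfl
    rw [this, ih]; simp

theorem mul_zero' (F : Ser α R) : F * (0 : Ser α R) = 0 := by
  ext w
  induction w generalizing F with
  | nil => simp
  | cons a w ih => rw [mul_cons, ih]; simp

theorem add_mul' (F F' G : Ser α R) : (F + F') * G = F * G + F' * G := by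
  ext w
  induction w generalizing F F' with
  | nil => simp [add_mul]
  | cons a w ih =>
    have : der a (F + F') = der a F + der a F' := rfl
    rw [add_app, mul_cons, mul_cons, mul_cons, this, ih]
    simp only [add_app, add_mul]; abel

theorem mul_add' (F G G' : Ser α R) : F * (G + G') = F * G + F * G' := by
  ext w
  induction w generalizing F with
  | nil => simp [mul_add]
  | cons a w ih =>
    rw [add_app, mul_cons, mul_cons, mul_cons, ih]
    simp only [add_app, mul_add]; abel

theorem lsc_mul (c : R) (F G : Ser α R) : lsc c F * G = lsc c (F * G) := by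
  ext w
  induction w generalizing F with
  | nil => simp [mul_assoc]
  | cons a w ih =>
    have : der a (lsc c F) = lsc c (der a F) := rfl
    rw [mul_cons, this, ih]
    simp only [lsc_apply, mul_cons, mul_add, mul_assoc]

theorem der_mul (a : α) (F G : Ser α R) :
    der a (F * G) = lsc (F []) (der a G) + der a F * G := rfl

theorem mul_assoc' (F G H : Ser α R) : F * G * H = F * (G * H) := by
  ext w
  induction w generalizing F with
  | nil => simp [mul_assoc]
  | cons a w ih =>
    rw [mul_cons, der_mul, add_mul', add_app, ih, lsc_mul, mul_cons F, mul_cons G]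
    simp only [mul_nil, lsc_apply, mul_add, mul_assoc, add_assoc]

theorem one_mul' (F : Ser α R) : 1 * F = F := by
  ext w
  cases w with
  | nil => simp
  | cons a w =>
    have : der a (1 : Ser α R) = 0 := rfl
    rw [mul_cons, this, zero_mul']; simp

theorem mul_one' (F : Ser α R) : F * 1 = F := by
  ext w
  induction w generalizing F with
  | nil => simp
  | cons a w ih => rw [mul_cons, ih]; simp

instance : Ring (Ser α R) :=
  { (inferInstance : AddCommGroup (Ser α R)) with
    mul := (· * ·)
    one := 1
    left_distrib := mul_add'
    right_distrib := add_mul'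
    zero_mul := zero_mul'
    mul_zero := mul_zero'
    mul_assoc := mul_assoc'
    one_mul := one_mul'
    mul_one := mul_one' }

theorem mul_app (F G : Ser α R) (w : List α) :
    (F * G) w = ∑ i ∈ Finset.range (w.length + 1), F (w.take i) * G (w.drop i) := by
  induction w generalizing F with
  | nil => simp
  | cons a w ih =>
    rw [mul_cons, ih, List.length_cons, Finset.sum_range_succ' _ (w.length + 1)]
    simp [add_comm]

section Alg
variable [Algebra ℂ R]

instance : Module ℂ (Ser α R) := inferInstanceAs (Module ℂ (List α → R))

@[simp] theorem smul_app (c : ℂ) (F : Ser α R) (w : List α) : (c • F) w = c • F w := rfl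

theorem smul_mul' (c : ℂ) (F G : Ser α R) : (c • F) * G = c • (F * G) := by
  ext w; simp [mul_app, Finset.smul_sum]

theorem mul_smul' (c : ℂ) (F G : Ser α R) : F * (c • G) = c • (F * G) := by
  ext w; simp [mul_app, Finset.smul_sum]

instance : Algebra ℂ (Ser α R) := Algebra.ofModule smul_mul' mul_smul'

end Alg

@[simp] theorem der_add (a : α) (F G : Ser α R) : der a (F + G) = der a F + der a G := rfl
@[simp] theorem der_sub (a : α) (F G : Ser α R) : der a (F - G) = der a F - der a G := rfl
@[simp] theorem der_neg (a : α) (F : Ser α R) : der a (-F) = -der a F := rfl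
@[simp] theorem der_zero (a : α) : der a (0 : Ser α R) = 0 := rfl
@[simp] theorem der_one (a : α) : der a (1 : Ser α R) = 0 := rfl

/-- constants -/
def C (c : R) : Ser α R := lsc c 1

@[simp] theorem C_nil (c : R) : (C c : Ser α R) [] = c := by simp [C]
@[simp] theorem C_cons (c : R) (a : α) (w : List α) : (C c : Ser α R) (a :: w) = 0 := by simp [C]
@[simp] theorem der_C (a : α) (c : R) : der a (C c : Ser α R) = 0 := by ext w; simp

theorem C_mul (c : R) (F : Ser α R) : C c * F = lsc c F := by
  rw [C, lsc_mul, one_mul]

theorem mul_C_apply (c : R) (F : Ser α R) (w : List α) : (F * C c : Ser α R) w = F w * c := by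
  induction w generalizing F with
  | nil => simp
  | cons a w ih => rw [mul_cons, ih]; simp

theorem C_mul_C (c d : R) : (C c : Ser α R) * C d = C (c * d) := by
  ext w; rw [C_mul]; cases w <;> simp

theorem C_add (c d : R) : (C (c + d) : Ser α R) = C c + C d := by
  ext w; cases w <;> simp

theorem C_sub (c d : R) : (C (c - d) : Ser α R) = C c - C d := by
  ext w; cases w <;> simp

theorem C_one : (C 1 : Ser α R) = 1 := by
  ext w; cases w <;> simp

theorem C_zero : (C 0 : Ser α R) = 0 := by
  ext w; cases w <;> simp

variable [DecidableEq α]

/-- the generator -/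
def e (a : α) : Ser α R := fun w => if w = [a] then 1 else 0

@[simp] theorem e_nil (a : α) : (e a : Ser α R) [] = 0 := by simp [e]

theorem der_e (a b : α) : der b (e a : Ser α R) = if b = a then 1 else 0 := by
  ext w
  by_cases h : b = a
  · subst h; cases w <;> simp [e]
  · simp [e, h]

@[simp] theorem e_mul_nil (a : α) (F : Ser α R) : (e a * F : Ser α R) [] = 0 := by simp

theorem e_mul_cons (a b : α) (F : Ser α R) (w : List α) :
    (e a * F : Ser α R) (b :: w) = if b = a then F w else 0 := by
  rw [mul_cons, der_e]
  by_cases h : b = a <;> simp [h]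

theorem der_e_mul (a b : α) (F : Ser α R) : der b (e a * F) = if b = a then F else 0 := by
  ext w
  rw [der_apply, e_mul_cons]
  by_cases h : b = a <;> simp [h]

theorem C_mul_e (c : R) (a : α) : (C c : Ser α R) * e a = e a * C c := by
  ext w
  rw [C_mul, mul_C_apply]
  by_cases h : w = [a] <;> simp [e, h]

theorem expand [Fintype α] (F : Ser α R) : F = C (F []) + ∑ a, e a * der a F := by
  ext w
  cases w with
  | nil => simp [sum_app]
  | cons b w => simp [sum_app, e_mul_cons]

omit [DecidableEq α] in
/-- vanishing below length `n` -/
def Van (n : ℕ) (F : Ser α R) : Prop := ∀ w : List α, w.length < n → F w = 0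

omit [DecidableEq α] in
theorem van_mul {m n : ℕ} {F G : Ser α R} (hF : Van m F) (hG : Van n G) : Van (m + n) (F * G) := by
  intro w hw
  rw [mul_app]
  refine Finset.sum_eq_zero fun i hi => ?_
  have hi' : i ≤ w.length := by simpa [Nat.lt_succ_iff] using hi
  by_cases h : i < m
  · rw [hF _ (by simp; omega), zero_mul]
  · rw [hG _ (by simp; omega), mul_zero]

omit [DecidableEq α] in
theorem eq_zero_of_van {F : Ser α R} (h : ∀ n, Van n F) : F = 0 := by
  ext w; exact h _ w (Nat.lt_succ_self _)

omit [DecidableEq α] in
/-- left cancellation of a series with constant term one -/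
theorem eq_zero_of_mul_eq_zero {K X : Ser α R} (hK : K [] = 1) (h : K * X = 0) : X = 0 := by
  refine eq_zero_of_van fun n => ?_
  induction n with
  | zero => intro w hw; omega
  | succ n ih =>
    have h1 : Van 1 (K - 1) := by
      intro w hw
      have : w = [] := List.length_eq_zero_iff.mp (by omega)
      subst this; simp [hK]
    have h2 := van_mul h1 ih
    have h3 : X = -((K - 1) * X) := by rw [sub_mul, h]; simp
    intro w hw
    rw [h3, neg_app, h2 w (by omega), neg_zero]

end Ser

end Pool.Agent.Lib.MP_e8750f_nt
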