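import Pool.Agent.Lib.MP_e8750f_nt.Ser

/-! The shuffle product, characters and Lie series. -/

namespace Pool.Agent.Lib.MP_e8750f_nt

set_option linter.unusedSectionVars false

open Ser

variable {α : Type}

def shufAux (a : α) (u : List α) (f : List α → List (List α)) : List α → List (List α)
  | [] => [a :: u]
  | b :: v => (f (b :: v)).map (a :: ·) ++ (shufAux a u f v).map (b :: ·)

/-- the list of all shuffles of two words -/
def shuf : List α → List α → List (List α)
  | [] => fun v => [v]
  | a :: u => shufAux a u (shuf u)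

@[simp] theorem shuf_nil_left (v : List α) : shuf [] v = [v] := rfl
@[simp] theorem shuf_nil_right (u : List α) : shuf u [] = [u] := by cases u <;> rfl
theorem shuf_cons_cons (a b : α) (u v : List α) :
    shuf (a :: u) (b :: v) = (shuf u (b :: v)).map (a :: ·) ++ (shuf (a :: u) v).map (b :: ·) := rfl

theorem length_of_mem_shuf : ∀ (u v w : List α), w ∈ shuf u v → w.length = u.length + v.length := by
  intro u
  induction u with
  | nil => intro v w h; simp at h; simp [h]
  | cons a u ihu =>
    intro v
    induction v with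
    | nil => intro w h; simp at h; simp [h]
    | cons b v ihv =>
      intro w h
      rw [shuf_cons_cons, List.mem_append, List.mem_map, List.mem_map] at h
      rcases h with ⟨x, hx, rfl⟩ | ⟨x, hx, rfl⟩
      · have := ihu _ _ hx; simp at this ⊢; omega
      · have := ihv _ hx; simp at this ⊢; omega

abbrev Ser2 (α : Type) : Type := Ser α (Ser α ℂ)

/-- the coproduct dual to the shuffle product -/
noncomputable def cop (F : Ser α ℂ) : Ser2 α := fun u v => ((shuf u v).map F).sum

@[simp] theorem cop_nil_left (F : Ser α ℂ) (v : List α) : cop F [] v = F v := by simp [cop]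
@[simp] theorem cop_nil_right (F : Ser α ℂ) (u : List α) : cop F u [] = F u := by simp [cop]
theorem cop_cons_cons (F : Ser α ℂ) (a b : α) (u v : List α) :
    cop F (a :: u) (b :: v) = cop (der a F) u (b :: v) + cop (der b F) (a :: u) v := by
  simp only [cop, shuf_cons_cons, List.map_append, List.map_map, List.sum_append]
  rfl

theorem cop_add (F G : Ser α ℂ) : cop (F + G) = cop F + cop G := by
  ext u v
  simp only [cop, add_app]
  exact List.sum_map_add

theorem cop_smul (c : ℂ) (F : Ser α ℂ) : cop (c • F) = c • cop F := by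
  ext u v
  simp only [cop, smul_app, smul_eq_mul]
  exact List.sum_map_mul_left _ _ _

/-- `cop` as a linear map -/
noncomputable def copL : Ser α ℂ →ₗ[ℂ] Ser2 α where
  toFun := cop
  map_add' := cop_add
  map_smul' := cop_smul

theorem cop_sub (F G : Ser α ℂ) : cop (F - G) = cop F - cop G := (copL (α := α)).map_sub F G
theorem cop_zero : cop (0 : Ser α ℂ) = 0 := (copL (α := α)).map_zero
theorem cop_sum {ι : Type} (s : Finset ι) (F : ι → Ser α ℂ) :
    cop (∑ i ∈ s, F i) = ∑ i ∈ s, cop (F i) := map_sum (copL (α := α)) F s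

noncomputable def inl (F : Ser α ℂ) : Ser2 α := fun u => C (F u)
noncomputable def inr (G : Ser α ℂ) : Ser2 α := C G

theorem inl_mul_inr_apply (F G : Ser α ℂ) (u v : List α) : (inl F * inr G) u v = F u * G v := by
  rw [inr, mul_C_apply, inl, C_mul]; rfl

theorem inr_mul_inl_apply (F G : Ser α ℂ) (u v : List α) : (inr G * inl F) u v = F u * G v := by
  rw [inr, C_mul, lsc_apply, inl, mul_C_apply, mul_comm]

theorem inl_inr_comm (F G : Ser α ℂ) : inl F * inr G = inr G * inl F := by
  ext u v; rw [inl_mul_inr_apply, inr_mul_inl_apply]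

theorem C_sum {R : Type} [Ring R] {ι : Type} (s : Finset ι) (f : ι → R) :
    (C (∑ i ∈ s, f i) : Ser α R) = ∑ i ∈ s, C (f i) := by
  ext w; cases w <;> simp [sum_app]

theorem inl_mul (F G : Ser α ℂ) : inl (F * G) = inl F * inl G := by
  ext1 u
  rw [mul_app, inl, mul_app, C_sum]
  exact Finset.sum_congr rfl fun i _ => (C_mul_C _ _).symm

theorem inr_mul (F G : Ser α ℂ) : inr (F * G) = inr F * inr G := (C_mul_C _ _).symm
theorem inl_add (F G : Ser α ℂ) : inl (F + G) = inl F + inl G := by
  ext1 u; exact C_add _ _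
theorem inl_sub (F G : Ser α ℂ) : inl (F - G) = inl F - inl G := by
  ext1 u; exact C_sub _ _
theorem inr_add (F G : Ser α ℂ) : inr (F + G) = inr F + inr G := C_add _ _
theorem inr_sub (F G : Ser α ℂ) : inr (F - G) = inr F - inr G := C_sub _ _
theorem inl_zero : inl (0 : Ser α ℂ) = 0 := by ext1 u; exact C_zero
theorem inr_zero : inr (0 : Ser α ℂ) = 0 := C_zero
theorem inl_one : inl (1 : Ser α ℂ) = 1 := by
  ext1 u; cases u with
  | nil => exact C_one
  | cons a u => exact C_zero
theorem inr_one : inr (1 : Ser α ℂ) = 1 := C_one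

@[simp] theorem inl_apply_nil (F : Ser α ℂ) (u : List α) : inl F u [] = F u := by simp [inl]
@[simp] theorem inl_apply_cons (F : Ser α ℂ) (u : List α) (b : α) (v : List α) :
    inl F u (b :: v) = 0 := by simp [inl]
@[simp] theorem inr_nil_apply (F : Ser α ℂ) (v : List α) : inr F [] v = F v := by simp [inr]
@[simp] theorem inr_cons_apply (F : Ser α ℂ) (a : α) (u v : List α) :
    inr F (a :: u) v = 0 := by simp [inr]

/-- vanishing below total length `n` -/
def Van2 (n : ℕ) (X : Ser2 α) : Prop := ∀ u v : List α, u.length + v.length < n → X u v = 0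

theorem van2_mul {m n : ℕ} {X Y : Ser2 α} (hX : Van2 m X) (hY : Van2 n Y) :
    Van2 (m + n) (X * Y) := by
  intro u v h
  rw [mul_app, sum_app]
  refine Finset.sum_eq_zero fun i hi => ?_
  rw [mul_app]
  refine Finset.sum_eq_zero fun j hj => ?_
  have hi' : i ≤ u.length := by simpa [Nat.lt_succ_iff] using hi
  have hj' : j ≤ v.length := by simpa [Nat.lt_succ_iff] using hj
  by_cases h' : i + j < m
  · rw [hX _ _ (by simp; omega), zero_mul]
  · rw [hY _ _ (by simp; omega), mul_zero]

theorem van2_zero (X : Ser2 α) : Van2 0 X := fun _ _ h => by omega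

theorem Van2.add {n : ℕ} {X Y : Ser2 α} (hX : Van2 n X) (hY : Van2 n Y) : Van2 n (X + Y) :=
  fun u v h => by simp [hX u v h, hY u v h]

theorem Van2.mono {m n : ℕ} {X : Ser2 α} (hX : Van2 n X) (h : m ≤ n) : Van2 m X :=
  fun u v h' => hX u v (by omega)

theorem Van2.sum {ι : Type} {n : ℕ} (s : Finset ι) {X : ι → Ser2 α} (h : ∀ i ∈ s, Van2 n (X i)) :
    Van2 n (∑ i ∈ s, X i) := fun u v h' => by
  rw [sum_app, sum_app]; exact Finset.sum_eq_zero fun i hi => h i hi u v h'

theorem eq_zero_of_van2 {X : Ser2 α} (h : ∀ n, Van2 n X) : X = 0 := by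
  ext u v; exact h _ u v (Nat.lt_succ_self _)

theorem van2_inl_add_inr {F : Ser α ℂ} (h : F [] = 0) : Van2 1 (inl F + inr F) := by
  intro u v huv
  obtain rfl : u = [] := List.length_eq_zero_iff.mp (by omega)
  obtain rfl : v = [] := List.length_eq_zero_iff.mp (by simpa using huv)
  simp [h]

variable [DecidableEq α]

theorem inl_e (a : α) : inl (e a : Ser α ℂ) = e a := by
  ext1 u
  by_cases h : u = [a]
  · simp [inl, e, h, C_one]
  · simp [inl, e, h, C_zero]

/-- the coproduct of a generator -/
noncomputable def de (a : α) : Ser2 α := inl (e a) + inr (e a)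

theorem de_mul_apply (a : α) (X : Ser2 α) (u v : List α) :
    (de a * X) u v = (e a * X : Ser2 α) u v + (e a * X u : Ser α ℂ) v := by
  rw [de, add_mul, inl_e, inr, C_mul]; rfl

variable [Fintype α]

theorem cop_expand (F : Ser α ℂ) : cop F = C (C (F [])) + ∑ a, de a * cop (der a F) := by
  ext u v
  rw [add_app, add_app, sum_app, sum_app]
  simp only [de_mul_apply]
  cases u with
  | nil =>
    cases v with
    | nil => simp
    | cons b v => simp [e_mul_cons]
  | cons a u =>
    cases v with
    | nil => simp [e_mul_cons, apply_ite (fun X : Ser α ℂ => X [])]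
    | cons b v =>
      simp [e_mul_cons, cop_cons_cons, Finset.sum_add_distrib,
        apply_ite (fun X : Ser α ℂ => X (b :: v))]

theorem van2_de (a : α) : Van2 1 (de a : Ser2 α) := van2_inl_add_inr (by simp)

/-- uniqueness principle -/
theorem fix_zero (Ξ : Ser α ℂ → Ser2 α) (h : ∀ F, Ξ F = ∑ a, de a * Ξ (der a F)) (F : Ser α ℂ) :
    Ξ F = 0 := by
  refine eq_zero_of_van2 fun n => ?_
  induction n generalizing F with
  | zero => exact van2_zero _
  | succ n ih =>
    rw [h]
    exact Van2.sum _ fun a _ => (van2_mul (van2_de a) (ih _)).mono (by omega)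

theorem cop_e_mul (a : α) (H : Ser α ℂ) : cop (e a * H) = de a * cop H := by
  rw [cop_expand]
  simp only [der_e_mul, e_mul_nil, C_zero, zero_add]
  rw [Finset.sum_eq_single a]
  · simp
  · intro b _ hb; simp [hb, cop_zero]
  · simp

theorem CC_mul (c : ℂ) (X : Ser2 α) : (C (C c) : Ser2 α) * X = c • X := by
  ext u v; rw [C_mul, lsc_apply, C_mul]; rfl

theorem C_mul_eq_smul (c : ℂ) (X : Ser α ℂ) : (C c : Ser α ℂ) * X = c • X := by
  ext u; rw [C_mul]; rfl

theorem cop_mul (F G : Ser α ℂ) : cop (F * G) = cop F * cop G := by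
  have := fix_zero (fun F => cop (F * G) - cop F * cop G) (fun F => by
    have h1 : cop (F * G) = F [] • cop G + ∑ a, de a * cop (der a F * G) := by
      conv_lhs => rw [expand F]
      rw [add_mul, Finset.sum_mul, cop_add, cop_sum, C_mul_eq_smul, cop_smul]
      simp only [mul_assoc, cop_e_mul]
    have h2 : cop F * cop G = F [] • cop G + ∑ a, de a * (cop (der a F) * cop G) := by
      conv_lhs => rw [cop_expand F]
      rw [add_mul, Finset.sum_mul, CC_mul]
      simp only [mul_assoc]
    rw [h1, h2]
    simp only [mul_sub, Finset.sum_sub_distrib]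
    abel) F
  exact sub_eq_zero.mp this

theorem cop_one : cop (1 : Ser α ℂ) = 1 := by
  rw [cop_expand]; simp [cop_zero, C_one]

theorem cop_e (a : α) : cop (e a : Ser α ℂ) = de a := by
  have := cop_e_mul a (1 : Ser α ℂ)
  rwa [mul_one, cop_one, mul_one] at this

omit [Fintype α] [DecidableEq α] in
/-- characters of the shuffle algebra (group-like series) -/
def IsChar (g : Ser α ℂ) : Prop := g [] = 1 ∧ cop g = inl g * inr g

omit [Fintype α] [DecidableEq α] in
/-- Lie series -/
def IsLie (ψ : Ser α ℂ) : Prop := cop ψ = inl ψ + inr ψ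

theorem isChar_iff (g : Ser α ℂ) : IsChar g ↔ g [] = 1 ∧ ∀ u v, cop g u v = g u * g v := by
  refine and_congr_right fun _ => ⟨fun h u v => ?_, fun h => ?_⟩
  · rw [h, inl_mul_inr_apply]
  · ext u v; rw [h, inl_mul_inr_apply]

theorem IsChar.cop_apply {g : Ser α ℂ} (h : IsChar g) (u v : List α) : cop g u v = g u * g v :=
  ((isChar_iff g).mp h).2 u v

theorem IsChar.mul {g h : Ser α ℂ} (hg : IsChar g) (hh : IsChar h) : IsChar (g * h) := by
  refine ⟨by simp [hg.1, hh.1], ?_⟩
  rw [cop_mul, hg.2, hh.2, inl_mul, inr_mul, mul_assoc, mul_assoc, ← mul_assoc (inr g),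
    ← inl_inr_comm, mul_assoc]

theorem isChar_one : IsChar (1 : Ser α ℂ) := ⟨rfl, by rw [cop_one, inl_one, inr_one, mul_one]⟩

theorem IsLie.nil {ψ : Ser α ℂ} (h : IsLie ψ) : ψ [] = 0 := by
  have := congrFun (congrFun h []) []
  simp at this
  exact this

theorem isLie_iff (ψ : Ser α ℂ) :
    IsLie ψ ↔ ψ [] = 0 ∧ ∀ u v, u ≠ [] → v ≠ [] → cop ψ u v = 0 := by
  constructor
  · intro h
    refine ⟨h.nil, fun u v hu hv => ?_⟩
    obtain ⟨a, u, rfl⟩ := List.exists_cons_of_ne_nil hu
    obtain ⟨b, v, rfl⟩ := List.exists_cons_of_ne_nil hv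
    rw [h]; simp
  · rintro ⟨h0, h⟩
    ext u v
    cases u with
    | nil => cases v <;> simp [h0]
    | cons a u =>
      cases v with
      | nil => simp
      | cons b v => rw [h _ _ (by simp) (by simp)]; simp

theorem IsLie.cop_apply {ψ : Ser α ℂ} (h : IsLie ψ) {u v : List α} (hu : u ≠ []) (hv : v ≠ []) :
    cop ψ u v = 0 := ((isLie_iff ψ).mp h).2 u v hu hv

omit [Fintype α] [DecidableEq α] in
/-- the antipode -/
noncomputable def rev (F : Ser α ℂ) : Ser α ℂ := fun w => (-1) ^ w.length * F w.reverse

theorem telescope_aux (F : Ser α ℂ) (w : List α) : ∀ (a : α) (u : List α),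
    ∑ i ∈ Finset.range (w.length + 1), (-1) ^ i * cop F ((w.take i).reverse ++ a :: u) (w.drop i)
      = cop (der a F) u w := by
  induction w with
  | nil => intro a u; simp
  | cons b w ih =>
    intro a u
    rw [List.length_cons, Finset.sum_range_succ' _ (w.length + 1)]
    have := ih b (a :: u)
    simp only [List.take_succ_cons, List.reverse_cons, List.append_assoc, List.singleton_append,
      List.drop_succ_cons, pow_succ, mul_neg, mul_one, neg_mul, Finset.sum_neg_distrib, this]
    simp [cop_cons_cons]

theorem telescope (F : Ser α ℂ) (b : α) (w : List α) :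
    ∑ i ∈ Finset.range ((b :: w).length + 1),
      (-1) ^ i * cop F (((b :: w).take i).reverse) ((b :: w).drop i) = 0 := by
  rw [List.length_cons, Finset.sum_range_succ' _ (w.length + 1)]
  have := telescope_aux F w b []
  simp only [List.take_succ_cons, List.reverse_cons, List.drop_succ_cons, pow_succ, mul_neg,
    mul_one, neg_mul, Finset.sum_neg_distrib, this]
  simp

theorem IsChar.rev_mul {g : Ser α ℂ} (h : IsChar g) : rev g * g = 1 := by
  ext w
  cases w with
  | nil => simp [rev, h.1]
  | cons b w =>
    rw [mul_app, one_cons, ← telescope g b w]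
    refine Finset.sum_congr rfl fun i hi => ?_
    have hi' : i ≤ (b :: w).length := by simpa [Nat.lt_succ_iff] using hi
    rw [h.cop_apply, rev, List.length_take, min_eq_left hi', mul_assoc]

theorem IsChar.mul_rev {g : Ser α ℂ} (h : IsChar g) : g * rev g = 1 := by
  have h1 : rev g * (g * rev g - 1) = 0 := by
    rw [mul_sub, ← mul_assoc, h.rev_mul]; simp
  exact sub_eq_zero.mp (eq_zero_of_mul_eq_zero (by simp [rev, h.1]) h1)

theorem IsLie.reverse {ψ : Ser α ℂ} (h : IsLie ψ) (w : List α) :
    ψ w = -((-1) ^ w.length * ψ w.reverse) := by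
  cases w with
  | nil => simp [h.nil]
  | cons b w =>
    have := telescope ψ b w
    rw [Finset.sum_range_succ, List.length_cons, Finset.sum_range_succ' _ w.length,
      Finset.sum_eq_zero] at this
    · simp only [List.take_zero, List.reverse_nil, List.drop_zero, cop_nil_left, pow_zero, one_mul,
        zero_add] at this
      rw [List.take_of_length_le (by simp), List.drop_of_length_le (by simp), cop_nil_right] at this
      rw [List.length_cons]
      exact eq_neg_of_add_eq_zero_left this
    · intro i hi
      have hi' : i < w.length := by simpa using hi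
      rw [h.cop_apply (by simp) (by simp; omega), mul_zero]

end Pool.Agent.Lib.MP_e8750f_nt
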