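import Pool.Agent.Lib.MP_e8750f_nt.Check

/-! The table of normal forms. -/

namespace Pool.Agent.Lib.MP_e8750f_nt

open Om

def basis : List OW :=
  [[z, p],
   [m],
   [z, z, p],
   [z, z, z, z, p],
   [z, z, z, z, z, z, p],
   [z, z, z, z, z, z, z, z, p],
   [z, z, z, z, z, z, z, z, z, z, p],
   [z, z, m, m],
   [z, z, p, m],
   [z, z, z, z, m, m],
   [z, z, z, z, p, m],
   [z, z, z, z, p, z, z, p],
   [z, z, z, z, z, z, m, m],
   [z, z, z, z, z, z, p, m],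
   [z, z, z, z, z, z, p, z, z, p],
   [z, z, z, z, z, z, z, z, m, m],
   [z, z, z, z, z, z, z, z, p, m],
   [z, z, z, z, z, z, z, z, p, z, z, p],
   [z, z, z, z, z, z, z, z, p, z, z, m],
   [z, z, z, z, z, z, z, z, z, z, m, m],
   [z, z, z, z, z, z, z, z, z, z, p, m]]

def dbasis : List Poly :=
  [[],
   [(1, [1])],
   [(1, [2])],
   [(1, [3])],
   [(1, [4])],
   [(1, [5])],
   [(1, [6])],
   [(14, [2, 1]), (1, [7])],
   [(14, [1, 2]), (1, [8])],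
   [(-7, [2, 2]), (62, [3, 1]), (1, [9])],
   [(62, [1, 3]), (-7, [2, 2]), (1, [10])],
   [(-5, [3, 2]), (1, [11])],
   [(-7, [2, 3]), (-31, [3, 2]), (254, [4, 1]), (1, [12])],
   [(254, [1, 4]), (-31, [2, 3]), (-7, [3, 2]), (1, [13])],
   [(-6, [3, 3]), (-14, [4, 2]), (1, [14])],
   [(-7, [2, 4]), (-31, [3, 3]), (-127, [4, 2]), (1022, [5, 1]), (1, [15])],
   [(1022, [1, 5]), (-127, [2, 4]), (-31, [3, 3]), (-7, [4, 2]), (1, [16])],
   [(-6, [3, 4]), (-15, [4, 3]), (-27, [5, 2]), (1, [17])],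
   [(3066, [2, 5]), (-762, [3, 4]), (-465, [4, 3]), (-189, [5, 2]), (1, [18])],
   [(-7, [2, 5]), (-31, [3, 4]), (-127, [4, 3]), (-511, [5, 2]), (4094, [6, 1]), (1, [19])],
   [(4094, [1, 6]), (-511, [2, 5]), (-127, [3, 4]), (-31, [4, 3]), (-7, [5, 2]), (1, [20])]]

def entries : List Entry :=
  [([z], [], none),
   ([p], [(-1, [1])], none),
   ([m], [(1, [1])], none),
   ([z, p], [(1, [0])], none),
   ([z, z, p], [(1, [2])], none),
   ([z, z, z, z, p], [(1, [3])], none),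
   ([z, z, z, z, z, z, p], [(1, [4])], none),
   ([z, z, z, z, z, z, z, z, p], [(1, [5])], none),
   ([z, z, z, z, z, z, z, z, z, z, p], [(1, [6])], none),
   ([z, z, m, m], [(1, [7])], none),
   ([z, z, p, m], [(1, [8])], none),
   ([z, z, z, z, m, m], [(1, [9])], none),
   ([z, z, z, z, p, m], [(1, [10])], none),
   ([z, z, z, z, p, z, z, p], [(1, [11])], none),
   ([z, z, z, z, z, z, m, m], [(1, [12])], none),
   ([z, z, z, z, z, z, p, m], [(1, [13])], none),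
   ([z, z, z, z, z, z, p, z, z, p], [(1, [14])], none),
   ([z, z, z, z, z, z, z, z, m, m], [(1, [15])], none),
   ([z, z, z, z, z, z, z, z, p, m], [(1, [16])], none),
   ([z, z, z, z, z, z, z, z, p, z, z, p], [(1, [17])], none),
   ([z, z, z, z, z, z, z, z, p, z, z, m], [(1, [18])], none),
   ([z, z, z, z, z, z, z, z, z, z, m, m], [(1, [19])], none),
   ([z, z, z, z, z, z, z, z, z, z, p, m], [(1, [20])], none),
   ([z, m, m, z, z, p, z, p, z, p, z, p], [(-185264171/70070000, [0, 0, 0, 0, 0, 0]), (9/20, [0, 0, 0, 2, 2]), (-459/50, [0, 0, 11]), (-423/10, [0, 0, 2, 3]), (2223/4, [0, 2, 4]), (2403/56, [0, 14]), (7209/56, [0, 3, 3]), (-637, [2, 5]), (-161/4, [17]), (-987/2, [3, 4]), (-1/4, [18])], none),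
   ([z, p, p, z, z, p, z, p, z, p, z, p], [(-654233507/70070000, [0, 0, 0, 0, 0, 0]), (-9/70, [0, 0, 0, 2, 2]), (171/5, [0, 0, 2, 3]), (81/25, [0, 0, 11]), (-1251/2, [0, 2, 4]), (-12699/28, [0, 3, 3]), (-873/28, [0, 14]), (3233, [2, 5]), (5181/2, [3, 4]), (263/2, [17]), (-1/2, [18])], none),
   ([z, m], [(3, [0])], none),
   ([z, z, m], [(7, [2])], none),
   ([z, z, z, m], [(3, [0, 0])], none),
   ([z, z, z, z, m], [(31, [3])], none),
   ([z, z, z, p], [(1/5, [0, 0])], none),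
   ([z, p, z], [(-2, [2])], some ([z], [z, p])),
   ([z, z, p, z], [(-3/5, [0, 0])], some ([z], [z, z, p])),
   ([z, p, z, z], [(3/5, [0, 0])], some ([z], [z, p, z])),
   ([z, z, z, p, z], [(-4, [3])], some ([z], [z, z, z, p])),
   ([z, z, p, z, z], [(6, [3])], some ([z], [z, z, p, z])),
   ([z, z, z, z, z, p], [(2/35, [0, 0, 0])], none),
   ([z, z, z, z, p, z], [(-2/7, [0, 0, 0])], some ([z], [z, z, z, z, p])),
   ([z, z, z, p, z, z], [(4/7, [0, 0, 0])], some ([z], [z, z, z, p, z])),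
   ([z, z, z, z, z, m], [(18/5, [0, 0, 0])], none),
   ([z, z, z, z, z, z, m], [(127, [4])], none),
   ([z, z, z, z, z, p, z], [(-6, [4])], some ([z], [z, z, z, z, z, p])),
   ([z, z, z, z, p, z, z], [(15, [4])], some ([z], [z, z, z, z, p, z])),
   ([z, z, z, z, z, z, z, p], [(3/175, [0, 0, 0, 0])], none),
   ([z, z, z, z, z, z, p, z], [(-3/25, [0, 0, 0, 0])], some ([z], [z, z, z, z, z, z, p])),
   ([z, z, z, z, z, p, z, z], [(9/25, [0, 0, 0, 0])], some ([z], [z, z, z, z, z, p, z])),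
   ([z, z, z, z, z, z, z, m], [(153/35, [0, 0, 0, 0])], none),
   ([z, z, z, z, z, z, z, z, m], [(511, [5])], none),
   ([z, z, z, z, z, z, z, p, z], [(-8, [5])], some ([z], [z, z, z, z, z, z, z, p])),
   ([z, z, z, z, z, z, p, z, z], [(28, [5])], some ([z], [z, z, z, z, z, z, p, z])),
   ([z, z, z, z, z, z, z, z, z, p], [(2/385, [0, 0, 0, 0, 0])], none),
   ([z, z, z, z, z, z, z, z, p, z], [(-18/385, [0, 0, 0, 0, 0])], some ([z], [z, z, z, z, z, z, z, z, p])),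
   ([z, z, z, z, z, z, z, p, z, z], [(72/385, [0, 0, 0, 0, 0])], some ([z], [z, z, z, z, z, z, z, p, z])),
   ([z, z, z, z, z, z, z, z, z, m], [(186/35, [0, 0, 0, 0, 0])], none),
   ([z, z, z, z, z, z, z, z, z, z, m], [(2047, [6])], none),
   ([z, m, m], [(7, [2])], none),
   ([z, m, m, z, p, z, p, z, p], [(-3/10, [0, 0, 0, 2]), (279/10, [0, 0, 3]), (-1905/4, [0, 4]), (2555/2, [5])], none),
   ([z, p, p, z, p, z, p, z, p], [(-6/35, [0, 0, 0, 2]), (72/5, [0, 0, 3]), (-240, [0, 4]), (641, [5])], none),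
   ([z, z, p, z, p, z, p, z, p], [(9/70, [0, 0, 0, 2]), (-9/2, [0, 0, 3]), (189/4, [0, 4]), (-223/2, [5])], none),
   ([z, p, z, p], [(3/10, [0, 0])], none),
   ([z, z, m, p], [(3/2, [0, 0]), (-1, [8]), (-1, [7])], none),
   ([z, p, z, m], [(3/2, [0, 0])], none),
   ([p, z, z, m], [(-7, [1, 2]), (-3, [0, 0]), (1, [7])], some ([p], [z, z, m])),
   ([z, m, z, m], [(9/2, [0, 0]), (-2, [7])], none),
   ([z, m, m, z], [(-9/2, [0, 0])], some ([z], [z, m, m])),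
   ([z, p, z, z, p], [(9, [3]), (-2, [0, 2])], none),
   ([z, z, p, z, p], [(3, [0, 2]), (-11, [3])], none),
   ([z, p, z, p, z], [(4, [3]), (-2, [0, 2])], some ([z], [z, p, z, p])),
   ([z, p, z, z, m], [(-31, [3]), (12, [0, 2])], none),
   ([z, m, m, z, p, z, p], [(-21/10, [0, 0, 2]), (93, [0, 3]), (-1143/4, [4])], none),
   ([z, p, p, z, p, z, p], [(-6/5, [0, 0, 2]), (48, [0, 3]), (-291/2, [4])], none),
   ([z, p, z, p, z, p], [(3/70, [0, 0, 0])], none),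
   ([z, z, p, z, p, p], [(-29/30, [0, 0, 0]), (6, [2, 2])], none),
   ([z, z, p, p, z, p], [(53/105, [0, 0, 0]), (-3, [2, 2])], none),
   ([p, z, z, p, z, p], [(-3, [0, 1, 2]), (11, [1, 3]), (37/42, [0, 0, 0]), (-6, [2, 2])], some ([p], [z, z, p, z, p])),
   ([m, z, z, p, z, p], [(3, [0, 1, 2]), (-11, [1, 3]), (7/2, [2, 2]), (-1, [0, 7]), (1, [9])], none),
   ([z, p, z, z, m, m], [(7/2, [2, 2]), (-1, [9])], none),
   ([z, m, m, z, z, p], [(27/14, [0, 0, 0]), (-21/2, [2, 2])], none),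
   ([z, p, z, p, z, z, p], [(-291/4, [4]), (-3/5, [0, 0, 2]), (24, [0, 3])], none),
   ([z, p, z, z, p, z, p], [(-11, [0, 3]), (75/2, [4])], none),
   ([z, z, p, z, p, z, p], [(9/10, [0, 0, 2]), (-15, [0, 3]), (157/4, [4])], none),
   ([z, p, z, p, z, p, z], [(-8, [4]), (-3/5, [0, 0, 2]), (4, [0, 3])], some ([z], [z, p, z, p, z, p])),
   ([z, p, z, p, z, z, m], [(381/4, [4]), (6, [0, 0, 2]), (-48, [0, 3])], none),
   ([z, m, m, z, p], [(-7, [0, 2]), (31, [3])], none),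
   ([z, p, p, z, p], [(-4, [0, 2]), (18, [3])], none),
   ([z, z, p, z, p, z, p, p], [(19007/7000, [0, 0, 0, 0]), (-132, [2, 3]), (-72/5, [11]), (18, [0, 2, 2])], none),
   ([z, z, p, z, p, p, z, p], [(-28087/21000, [0, 0, 0, 0]), (-6, [0, 2, 2]), (54, [2, 3]), (54/5, [11])], none),
   ([z, z, p, p, z, p, z, p], [(-9491/7000, [0, 0, 0, 0]), (-9, [0, 2, 2]), (66, [2, 3]), (36/5, [11])], none),
   ([z, p, z, p, z, p, z, p], [(1/280, [0, 0, 0, 0])], none),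
   ([p, z, z, p, z, p, z, p], [(-9/10, [0, 0, 1, 2]), (15, [0, 1, 3]), (-157/4, [1, 4]), (-997/21000, [0, 0, 0, 0]), (24, [2, 3]), (-36/5, [11]), (-6, [0, 2, 2])], some ([p], [z, z, p, z, p, z, p])),
   ([m, z, z, p, z, p, z, p], [(9/10, [0, 0, 1, 2]), (-15, [0, 1, 3]), (157/4, [1, 4]), (-45/4, [2, 3]), (7/2, [0, 2, 2]), (-3/10, [0, 0, 7]), (1, [0, 9]), (-3/4, [12])], none),
   ([z, p, z, p, z, z, m, m], [(-107/4, [2, 3]), (3/4, [12]), (7, [0, 2, 2])], none),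
   ([z, m, m, z, z, p, z, p], [(1539/1000, [0, 0, 0, 0]), (21/2, [0, 2, 2]), (-153/5, [11]), (-75, [2, 3])], none),
   ([z, p, z, p, z, p, z, z, m], [(-511/2, [5]), (6/5, [0, 0, 0, 2]), (-24, [0, 0, 3]), (144, [0, 4])], none),
   ([z, p, p], [(2, [2])], none),
   ([z, z, p, z, p, z, p, z, p, p], [(-377283/107800, [0, 0, 0, 0, 0]), (471, [2, 4]), (2733/7, [3, 3]), (141/7, [14]), (27/5, [0, 0, 2, 2]), (-180, [0, 2, 3])], none),
   ([z, z, p, z, p, z, p, p, z, p], [(-24111/67375, [0, 0, 0, 0, 0]), (-66, [0, 2, 3]), (-36/5, [0, 11]), (867/28, [3, 3]), (9/28, [14]), (225, [2, 4])], none),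
   ([z, z, p, z, p, p, z, p, z, p], [(539051/269500, [0, 0, 0, 0, 0]), (-9/5, [0, 0, 2, 2]), (-1479/7, [3, 3]), (-108/7, [14]), (144, [0, 2, 3]), (54/5, [0, 11]), (-873/2, [2, 4])], none),
   ([z, z, p, p, z, p, z, p, z, p], [(47163/26950, [0, 0, 0, 0, 0]), (-27/10, [0, 0, 2, 2]), (90, [0, 2, 3]), (-471/2, [2, 4]), (-2733/14, [3, 3]), (-141/14, [14])], none),
   ([z, p, z, p, z, p, z, p, z, p], [(3/15400, [0, 0, 0, 0, 0])], none),
   ([p, z, z, p, z, p, z, p, z, p], [(-9/70, [0, 0, 0, 1, 2]), (9/2, [0, 0, 1, 3]), (-189/4, [0, 1, 4]), (223/2, [1, 5]), (115777/539000, [0, 0, 0, 0, 0]), (-48, [2, 4]), (-417/14, [3, 3]), (141/14, [14]), (-9/5, [0, 0, 2, 2]), (24, [0, 2, 3]), (-36/5, [0, 11])], some ([p], [z, z, p, z, p, z, p, z, p])),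
   ([m, z, z, p, z, p, z, p, z, p], [(9/70, [0, 0, 0, 1, 2]), (-9/2, [0, 0, 1, 3]), (189/4, [0, 1, 4]), (-223/2, [1, 5]), (37/2, [2, 4]), (31/4, [3, 3]), (21/20, [0, 0, 2, 2]), (-45/4, [0, 2, 3]), (-3/70, [0, 0, 0, 7]), (3/10, [0, 0, 9]), (-3/4, [0, 12]), (1/2, [15])], none),
   ([z, p, z, p, z, p, z, z, m, m], [(82, [2, 4]), (93/4, [3, 3]), (-1/2, [15]), (21/10, [0, 0, 2, 2]), (-38, [0, 2, 3])], none),
   ([z, m, m, z, z, p, z, p, z, p], [(-316629/539000, [0, 0, 0, 0, 0]), (63/20, [0, 0, 2, 2]), (-153/5, [0, 11]), (-141, [0, 2, 3]), (1597/4, [2, 4]), (2403/56, [14]), (5473/56, [3, 3])], none),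
   ([z, z, p, p], [(1/10, [0, 0])], none),
   ([p, z, z, p], [(-1, [1, 2]), (-1/2, [0, 0])], some ([p], [z, z, p])),
   ([z, p, p, z], [(-1/2, [0, 0])], some ([z], [z, p, p])),
   ([z, p, z, z, p, p], [(53/105, [0, 0, 0]), (-3, [2, 2])], none),
   ([z, p, p, z, z, p], [(-13/70, [0, 0, 0]), (2, [2, 2])], none),
   ([z, p, z, p, z, z, p, p], [(-9491/7000, [0, 0, 0, 0]), (66, [2, 3]), (36/5, [11]), (-9, [0, 2, 2])], none),
   ([z, p, p, z, z, p, z, p], [(-6159/7000, [0, 0, 0, 0]), (-3, [0, 2, 2]), (32, [2, 3]), (54/5, [11])], none),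
   ([z, p, z, p, z, p, z, z, p, p], [(47163/26950, [0, 0, 0, 0, 0]), (-471/2, [2, 4]), (-2733/14, [3, 3]), (-141/14, [14]), (-27/10, [0, 0, 2, 2]), (90, [0, 2, 3])], none),
   ([z, p, p, z, z, p, z, p, z, p], [(1259997/539000, [0, 0, 0, 0, 0]), (-9/10, [0, 0, 2, 2]), (114, [0, 2, 3]), (54/5, [0, 11]), (-358, [2, 4]), (-6399/28, [3, 3]), (-873/28, [14])], none),
   ([p, z, p], [(-1, [0, 1]), (-4, [2])], some ([p], [z, p])),
   ([m, z, p], [(1, [0, 1]), (-7, [2])], none),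
   ([z, p, z, p, p], [(-22, [3]), (6, [0, 2])], none),
   ([p, z, p, z, p], [(-3/10, [0, 0, 1]), (8, [3]), (-4, [0, 2])], some ([p], [z, p, z, p])),
   ([m, z, p, z, p], [(3/10, [0, 0, 1]), (31/2, [3]), (-7, [0, 2])], none),
   ([z, p, z, m, m], [(-93/2, [3]), (14, [0, 2])], none),
   ([z, p, z, p, z, m], [(3/10, [0, 0, 0])], none),
   ([z, p, z, p, z, p, p], [(157/2, [4]), (9/5, [0, 0, 2]), (-30, [0, 3])], none),
   ([z, p, z, p, p, z, p], [(-22, [0, 3]), (75, [4])], none),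
   ([p, z, p, z, p, z, p], [(-3/70, [0, 0, 0, 1]), (-16, [4]), (-6/5, [0, 0, 2]), (8, [0, 3])], some ([p], [z, p, z, p, z, p])),
   ([m, z, p, z, p, z, p], [(3/70, [0, 0, 0, 1]), (-127/4, [4]), (-21/10, [0, 0, 2]), (31/2, [0, 3])], none),
   ([z, p, z, p, z, m, m], [(635/4, [4]), (21/5, [0, 0, 2]), (-62, [0, 3])], none),
   ([z, m, z], [(-14, [2])], some ([z], [z, m])),
   ([z, p, z, p, p, z], [(37/42, [0, 0, 0]), (-6, [2, 2])], some ([z], [z, p, z, p, p])),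
   ([z, p, z, z, p, z, p, p], [(-28087/21000, [0, 0, 0, 0]), (54, [2, 3]), (-6, [0, 2, 2]), (54/5, [11])], none),
   ([z, p, z, p, z, p, p, z], [(-997/21000, [0, 0, 0, 0]), (24, [2, 3]), (-36/5, [11]), (-6, [0, 2, 2])], some ([z], [z, p, z, p, z, p, p])),
   ([z, p, z, p, p, z, z, p], [(-6159/7000, [0, 0, 0, 0]), (32, [2, 3]), (54/5, [11]), (-3, [0, 2, 2])], none),
   ([z, p, z, z, p, p, z, p], [(56249/21000, [0, 0, 0, 0]), (12, [0, 2, 2]), (-108, [2, 3]), (-108/5, [11])], none),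
   ([z, p, z, p, p, z, p, z], [(-3889/4200, [0, 0, 0, 0]), (44, [2, 3]), (-6, [0, 2, 2])], some ([z], [z, p, z, p, p, z, p]))]

end Pool.Agent.Lib.MP_e8750f_nt
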