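import Pool.Agent.Lib.MP_e8750f_nt.RealChk

/-! Relations and normal forms in depth at most two. -/

namespace Pool.Agent.Lib.MP_e8750f_nt

def r (n : ℤ) (d : ℕ) (m : List ℕ) : ℚ × Mono := (mkRat n d, m)
def c (n : ℤ) (d i : ℕ) : ℚ × ℕ := (mkRat n d, i)

def w1x0 : Tag × Poly := (.z0, [r 1 1 [103]])
def w1x1 : Tag × Poly := (.z1, [r 1 1 [104]])
def w1x2 : Tag × Poly := (.bas 1, [r (-1) 1 [104], r 1 1 [105], r (-1) 1 [1]])
def p3 : Poly := []
def c3 : LC ℕ := [c 1 1 0]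
def p4 : Poly := []
def c4 : LC ℕ := [c 1 1 1]
def p5 : Poly := [r 1 1 [1]]
def c5 : LC ℕ := [c 1 1 2, c 1 1 1]
def b1 : Block :=
  ([w1x0, w1x1, w1x2],
   [(3, p3, c3), (4, p4, c4), (5, p5, c5)])

def t1 : Tab2 :=
  [(3, p3), (4, p4), (5, p5)]

def w2x0 : Tag × Poly := (.bas 0, [r (-1) 1 [112], r (-1) 1 [115], r (-1) 1 [0]])
def w2x1 : Tag × Poly := (.dd 2, [r 1 1 [115], r 1 2 [112]])
def p12 : Poly := [r (-2) 1 [0]]
def c12 : LC ℕ := [c (-2) 1 0, c (-2) 1 1]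
def p15 : Poly := [r 1 1 [0]]
def c15 : LC ℕ := [c 2 1 1, c 1 1 0]
def b2 : Block :=
  ([w2x0, w2x1],
   [(12, p12, c12), (15, p15, c15)])

def t2 : Tab2 :=
  [(12, p12), (15, p15), (3, p3), (4, p4), (5, p5)]

def w3x0 : Tag × Poly := (.bas 2, [r (-1) 1 [136], r (-1) 1 [145], r (-1) 1 [2]])
def w3x1 : Tag × Poly := (.dd 3, [r 1 1 [145], r 3 4 [136]])
def p36 : Poly := [r (-4) 1 [2]]
def c36 : LC ℕ := [c (-4) 1 0, c (-4) 1 1]
def p45 : Poly := [r 3 1 [2]]
def c45 : LC ℕ := [c 4 1 1, c 3 1 0]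
def b3 : Block :=
  ([w3x0, w3x1],
   [(36, p36, c36), (45, p45, c45)])

def t3 : Tab2 :=
  [(36, p36), (45, p45), (12, p12), (15, p15), (3, p3), (4, p4), (5, p5)]

def w4x0 : Tag × Poly := (.bas 7, [r 1 1 [217], r (-1) 1 [226], r (-1) 1 [244], r 1 1 [253], r (-1) 1 [7]])
def w4x1 : Tag × Poly := (.bas 8, [r 1 1 [217], r 1 1 [226], r (-1) 1 [244], r (-1) 1 [253], r (-1) 1 [8]])
def w4x2 : Tag × Poly := (.dd 4, [r 1 1 [235], r 7 8 [208]])
def w4x3 : Tag × Poly := (.ze 2, [r 1 1 [208], r 8 5 [0, 0]])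
def w4x4 : Tag × Poly := (.sh [-1] [0, 0, -1], [r 2 1 [253], r 1 1 [241], r 1 1 [237], r (-3) 1 [1, 2]])
def w4x5 : Tag × Poly := (.sh [0, 1] [0, 1], [r 2 1 [211], r 4 1 [217], r (-4) 1 [0, 0]])
def w4x6 : Tag × Poly := (.sh [0, 1] [0, -1], [r 1 1 [214], r 2 1 [226], r 2 1 [244], r 1 1 [238], r 2 1 [0, 0]])
def w4x7 : Tag × Poly := (.sh [0, -1] [0, -1], [r 2 1 [241], r 4 1 [253], r (-1) 1 [0, 0]])
def w4x8 : Tag × Poly := (.st 2 1 2 1, [r 2 1 [211], r (-1) 1 [208], r (-4) 1 [0, 0]])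
def w4x9 : Tag × Poly := (.st 2 1 2 (-1), [r 1 1 [241], r 1 1 [238], r (-1) 1 [235], r 2 1 [0, 0]])
def w4x10 : Tag × Poly := (.st 2 (-1) 2 (-1), [r 2 1 [214], r (-1) 1 [208], r (-1) 1 [0, 0]])
def p108 : Poly := [r (-8) 5 [0, 0]]
def c108 : LC ℕ := [c 1 1 3]
def p111 : Poly := [r 6 5 [0, 0]]
def c111 : LC ℕ := [c 1 2 8, c 1 2 3]
def p114 : Poly := [r (-3) 10 [0, 0]]
def c114 : LC ℕ := [c 1 2 3, c 1 2 10]
def p117 : Poly := [r 2 5 [0, 0]]
def c117 : LC ℕ := [c (-1) 4 8, c 1 4 5, c (-1) 4 3]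
def p126 : Poly := [r 1 2 [8], r (-7) 20 [0, 0]]
def c126 : LC ℕ := [c 1 2 1, c (-1) 8 10, c 1 4 6, c 1 8 8, c (-1) 8 5, c 7 32 3, c (-1) 4 9, c 1 8 7, c (-1) 4 2]
def p135 : Poly := [r 7 5 [0, 0]]
def c135 : LC ℕ := [c (-7) 8 3, c 1 1 2]
def p137 : Poly := [r 3 1 [1, 2], r (-1) 2 [0, 0]]
def c137 : LC ℕ := [c 1 1 4, c (-1) 2 7]
def p138 : Poly := [r (-9) 5 [0, 0], r 1 1 [7]]
def c138 : LC ℕ := [c 1 2 9, c (-1) 4 7, c (-7) 16 3, c 1 2 2, c (-1) 4 10, c 1 2 6, c 1 1 0, c 1 4 8, c (-1) 4 5]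
def p141 : Poly := [r 6 5 [0, 0], r (-1) 1 [7]]
def c141 : LC ℕ := [c 1 4 7, c 1 4 10, c (-1) 2 6, c (-1) 1 0, c (-1) 4 8, c 1 4 5, c (-7) 16 3, c 1 2 9, c 1 2 2]
def p144 : Poly := [r (-1) 2 [7], r (-1) 2 [8], r 2 5 [0, 0]]
def c144 : LC ℕ := [c (-1) 4 8, c 1 4 5, c (-1) 2 0, c (-1) 2 1, c (-1) 4 3]
def p153 : Poly := [r (-7) 20 [0, 0], r 1 2 [7]]
def c153 : LC ℕ := [c (-1) 8 10, c 1 4 6, c 1 2 0, c 1 8 8, c (-1) 8 5, c 7 32 3, c (-1) 4 9, c 1 8 7, c (-1) 4 2]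
def b4 : Block :=
  ([w4x0, w4x1, w4x2, w4x3, w4x4, w4x5, w4x6, w4x7, w4x8, w4x9, w4x10],
   [(108, p108, c108), (111, p111, c111), (114, p114, c114), (117, p117, c117), (126, p126, c126), (135, p135, c135), (137, p137, c137), (138, p138, c138), (141, p141, c141), (144, p144, c144), (153, p153, c153)])

def t4 : Tab2 :=
  [(108, p108), (111, p111), (114, p114), (117, p117), (126, p126), (135, p135), (137, p137), (138, p138), (141, p141), (144, p144), (153, p153), (36, p36), (45, p45), (12, p12), (15, p15), (3, p3), (4, p4), (5, p5)]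

def w5x0 : Tag × Poly := (.bas 3, [r (-1) 1 [424], r (-1) 1 [505], r (-1) 1 [3]])
def w5x1 : Tag × Poly := (.dd 5, [r 1 1 [505], r 15 16 [424]])
def p324 : Poly := [r (-16) 1 [3]]
def c324 : LC ℕ := [c (-16) 1 0, c (-16) 1 1]
def p405 : Poly := [r 15 1 [3]]
def c405 : LC ℕ := [c 16 1 1, c 15 1 0]
def b5 : Block :=
  ([w5x0, w5x1],
   [(324, p324, c324), (405, p405, c405)])

def t5 : Tab2 :=
  [(324, p324), (405, p405), (108, p108), (111, p111), (114, p114), (117, p117), (126, p126), (135, p135), (137, p137), (138, p138), (141, p141), (144, p144), (153, p153), (36, p36), (45, p45), (12, p12), (15, p15), (3, p3), (4, p4), (5, p5)]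

def w6x0 : Tag × Poly := (.bas 9, [r 1 1 [1153], r (-1) 1 [1234], r (-1) 1 [1396], r 1 1 [1477], r (-1) 1 [9]])
def w6x1 : Tag × Poly := (.bas 10, [r 1 1 [1153], r 1 1 [1234], r (-1) 1 [1396], r (-1) 1 [1477], r (-1) 1 [10]])
def w6x2 : Tag × Poly := (.dd 6, [r 1 1 [1315], r 31 32 [1072]])
def w6x3 : Tag × Poly := (.ze 3, [r 1 1 [1072], r 64 35 [0, 0, 0]])
def w6x4 : Tag × Poly := (.sh [-1] [0, 0, 0, 0, -1], [r 2 1 [1477], r 1 1 [1369], r 1 1 [1333], r 1 1 [1321], r 1 1 [1317], r (-15) 1 [1, 3]])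
def w6x5 : Tag × Poly := (.sh [0, 1] [0, 0, 0, 1], [r 4 1 [1099], r 8 1 [1153], r 2 1 [1081], r 1 1 [1075], r (-16) 5 [0, 0, 0]])
def w6x6 : Tag × Poly := (.sh [0, 1] [0, 0, 0, -1], [r 1 1 [1126], r 4 1 [1234], r 4 1 [1396], r 3 1 [1342], r 2 1 [1324], r 1 1 [1318], r 14 5 [0, 0, 0]])
def w6x7 : Tag × Poly := (.sh [0, -1] [0, 0, 0, 1], [r 1 1 [1342], r 4 1 [1396], r 4 1 [1234], r 3 1 [1126], r 2 1 [1090], r 1 1 [1078], r 8 5 [0, 0, 0]])
def w6x8 : Tag × Poly := (.sh [0, -1] [0, 0, 0, -1], [r 4 1 [1369], r 8 1 [1477], r 2 1 [1333], r 1 1 [1321], r (-7) 5 [0, 0, 0]])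
def w6x9 : Tag × Poly := (.sh [0, 0, 1] [0, 0, 1], [r 2 1 [1081], r 6 1 [1099], r 12 1 [1153], r (-16) 1 [2, 2]])
def w6x10 : Tag × Poly := (.sh [0, 0, 1] [0, 0, -1], [r 1 1 [1090], r 3 1 [1126], r 6 1 [1234], r 6 1 [1396], r 3 1 [1342], r 1 1 [1324], r 12 1 [2, 2]])
def w6x11 : Tag × Poly := (.sh [0, 0, -1] [0, 0, -1], [r 2 1 [1333], r 6 1 [1369], r 12 1 [1477], r (-9) 1 [2, 2]])
def w6x12 : Tag × Poly := (.st 2 1 4 1, [r 1 1 [1099], r 1 1 [1075], r (-1) 1 [1072], r (-16) 5 [0, 0, 0]])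
def w6x13 : Tag × Poly := (.st 2 1 4 (-1), [r 1 1 [1369], r 1 1 [1318], r (-1) 1 [1315], r 14 5 [0, 0, 0]])
def w6x14 : Tag × Poly := (.st 2 (-1) 4 1, [r 1 1 [1342], r 1 1 [1321], r (-1) 1 [1315], r 8 5 [0, 0, 0]])
def w6x15 : Tag × Poly := (.st 2 (-1) 4 (-1), [r 1 1 [1126], r 1 1 [1078], r (-1) 1 [1072], r (-7) 5 [0, 0, 0]])
def w6x16 : Tag × Poly := (.st 3 1 3 1, [r 2 1 [1081], r (-1) 1 [1072], r (-16) 1 [2, 2]])
def w6x17 : Tag × Poly := (.st 3 1 3 (-1), [r 1 1 [1333], r 1 1 [1324], r (-1) 1 [1315], r 12 1 [2, 2]])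
def w6x18 : Tag × Poly := (.gd 2 4, [r 7 8 [1099], r (-1) 2 [1126], r 2 1 [1153], r 2 1 [1477], r 13 16 [1072], r 3 2 [1369], r 3 4 [1081], r 1 1 [1333], r 1 4 [1075], r 1 2 [1321]])
def p972 : Poly := [r (-64) 35 [0, 0, 0]]
def c972 : LC ℕ := [c 1 1 3]
def p975 : Poly := [r 80 21 [0, 0, 0], r (-16) 1 [2, 2]]
def c975 : LC ℕ := [c 1 1 5, c (-2) 3 9, c (-1) 3 3, c (-1) 3 16]
def p978 : Poly := [r (-239) 105 [0, 0, 0], r 12 1 [2, 2]]
def c978 : LC ℕ := [c 1 4 7, c (-1) 2 10, c 457 384 3, c (-5) 4 2, c (-1) 4 14, c (-1) 4 8, c 3 4 15, c (-1) 12 16, c 1 12 9, c (-3) 8 5, c 1 8 12, c (-1) 2 17, c 1 1 18, c 1 2 6, c (-1) 2 13]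
def p981 : Poly := [r 8 1 [2, 2], r (-32) 35 [0, 0, 0]]
def c981 : LC ℕ := [c 1 2 3, c 1 2 16]
def p990 : Poly := [r 9 2 [2, 2], r (-32) 35 [0, 0, 0]]
def c990 : LC ℕ := [c (-1) 2 10, c (-251) 128 3, c 5 4 2, c 3 4 14, c (-3) 4 8, c 1 2 11, c (-3) 4 15, c 3 4 7, c 1 2 17]
def p999 : Poly := [r (-256) 105 [0, 0, 0], r 16 1 [2, 2]]
def c999 : LC ℕ := [c (-1) 1 5, c 2 3 9, c 1 1 12, c 4 3 3, c 1 3 16]
def p1026 : Poly := [r 194 105 [0, 0, 0], r (-12) 1 [2, 2]]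
def c1026 : LC ℕ := [c (-73) 384 3, c 5 4 2, c 1 4 14, c 1 4 8, c 1 4 15, c (-1) 4 7, c 1 2 10, c 1 12 16, c (-1) 12 9, c 3 8 5, c (-1) 8 12, c 1 2 17, c (-1) 1 18, c (-1) 2 6, c 1 2 13]
def p1053 : Poly := [r 48 35 [0, 0, 0], r (-8) 1 [2, 2]]
def c1053 : LC ℕ := [c (-3) 4 3, c (-1) 4 16, c (-1) 4 9, c 1 2 5, c (-1) 2 12]
def p1134 : Poly := [r 1 2 [10], r 31 4 [2, 2], r (-93) 70 [0, 0, 0]]
def c1134 : LC ℕ := [c 1 2 1, c (-3) 8 17, c (-1) 4 11, c 1 8 16, c 1 8 9, c (-1) 4 5, c 1 4 12, c 687 512 3, c (-1) 16 15, c 1 4 6, c (-1) 4 13, c (-17) 16 2, c (-7) 16 14, c 7 16 8, c 1 16 7, c (-1) 8 10]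
def p1215 : Poly := [r 62 35 [0, 0, 0]]
def c1215 : LC ℕ := [c (-31) 32 3, c 1 1 2]
def p1217 : Poly := [r 15 1 [1, 3], r (-7) 5 [0, 0, 0], r 9 2 [2, 2]]
def c1217 : LC ℕ := [c 1 1 4, c (-1) 1 8, c 1 2 11]
def p1221 : Poly := [r 71 21 [0, 0, 0], r (-16) 1 [2, 2], r (-2) 1 [9]]
def c1221 : LC ℕ := [c 3 4 8, c 1 2 17, c (-1) 3 16, c (-2) 3 9, c 7 4 5, c (-5) 4 12, c (-2) 1 0, c (-731) 384 3, c (-1) 4 15, c 7 4 2, c 5 4 14, c 1 4 7, c (-1) 2 10, c (-2) 1 18]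
def p1224 : Poly := [r (-27) 1 [2, 2], r 166 35 [0, 0, 0], r (-3) 1 [9]]
def c1224 : LC ℕ := [c (-1) 2 16, c (-1) 1 9, c 21 8 5, c (-15) 8 12, c (-3) 1 0, c (-979) 256 3, c (-3) 8 15, c 29 8 2, c 15 8 14, c (-3) 8 8, c 1 1 11, c 3 8 7, c (-3) 4 10, c 7 4 17, c (-3) 1 18]
def p1233 : Poly := [r 15 1 [2, 2], r (-104) 35 [0, 0, 0], r 3 1 [9]]
def c1233 : LC ℕ := [c (-1) 1 11, c (-3) 4 17, c 1 2 16, c 1 1 9, c (-21) 8 5, c 15 8 12, c 3 1 0, c 731 256 3, c 3 8 15, c (-21) 8 2, c (-15) 8 14, c 3 8 8, c (-3) 8 7, c 3 4 10, c 3 1 18]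
def p1242 : Poly := [r (-337) 105 [0, 0, 0], r 16 1 [2, 2], r 2 1 [9]]
def c1242 : LC ℕ := [c (-1) 4 14, c (-3) 4 8, c 359 384 3, c (-3) 4 2, c (-1) 2 17, c 1 3 16, c 2 3 9, c (-7) 4 5, c 5 4 12, c 2 1 0, c 1 4 15, c (-1) 4 7, c 1 2 10, c 2 1 18]
def p1269 : Poly := [r 383 105 [0, 0, 0], r (-19) 1 [2, 2], r (-2) 1 [9]]
def c1269 : LC ℕ := [c (-1) 1 18, c 11 8 5, c (-7) 12 9, c (-9) 8 12, c (-349) 96 3, c (-5) 12 16, c 3 1 2, c 3 2 14, c (-1) 1 8, c 1 1 17, c (-1) 2 6, c 1 2 13, c 1 1 11, c (-2) 1 0]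
def p1296 : Poly := [r 48 35 [0, 0, 0], r (-1) 2 [10], r (-1) 2 [9], r (-8) 1 [2, 2]]
def c1296 : LC ℕ := [c (-1) 2 1, c (-1) 2 0, c (-3) 4 3, c (-1) 4 16, c (-1) 4 9, c 1 2 5, c (-1) 2 12]
def p1377 : Poly := [r 31 4 [2, 2], r (-93) 70 [0, 0, 0], r 1 2 [9]]
def c1377 : LC ℕ := [c (-3) 8 17, c (-1) 4 11, c 1 8 16, c 1 8 9, c (-1) 4 5, c 1 4 12, c 1 2 0, c 687 512 3, c (-1) 16 15, c 1 4 6, c (-1) 4 13, c (-17) 16 2, c (-7) 16 14, c 7 16 8, c 1 16 7, c (-1) 8 10]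
def b6 : Block :=
  ([w6x0, w6x1, w6x2, w6x3, w6x4, w6x5, w6x6, w6x7, w6x8, w6x9, w6x10, w6x11, w6x12, w6x13, w6x14, w6x15, w6x16, w6x17, w6x18],
   [(972, p972, c972), (975, p975, c975), (978, p978, c978), (981, p981, c981), (990, p990, c990), (999, p999, c999), (1026, p1026, c1026), (1053, p1053, c1053), (1134, p1134, c1134), (1215, p1215, c1215), (1217, p1217, c1217), (1221, p1221, c1221), (1224, p1224, c1224), (1233, p1233, c1233), (1242, p1242, c1242), (1269, p1269, c1269), (1296, p1296, c1296), (1377, p1377, c1377)])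

def t6 : Tab2 :=
  [(972, p972), (975, p975), (978, p978), (981, p981), (990, p990), (999, p999), (1026, p1026), (1053, p1053), (1134, p1134), (1215, p1215), (1217, p1217), (1221, p1221), (1224, p1224), (1233, p1233), (1242, p1242), (1269, p1269), (1296, p1296), (1377, p1377), (324, p324), (405, p405), (108, p108), (111, p111), (114, p114), (117, p117), (126, p126), (135, p135), (137, p137), (138, p138), (141, p141), (144, p144), (153, p153), (36, p36), (45, p45), (12, p12), (15, p15), (3, p3), (4, p4), (5, p5)]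

def w7x0 : Tag × Poly := (.bas 4, [r (-1) 1 [3016], r (-1) 1 [3745], r (-1) 1 [4]])
def w7x1 : Tag × Poly := (.dd 7, [r 1 1 [3745], r 63 64 [3016]])
def p2916 : Poly := [r (-64) 1 [4]]
def c2916 : LC ℕ := [c (-64) 1 0, c (-64) 1 1]
def p3645 : Poly := [r 63 1 [4]]
def c3645 : LC ℕ := [c 64 1 1, c 63 1 0]
def b7 : Block :=
  ([w7x0, w7x1],
   [(2916, p2916, c2916), (3645, p3645, c3645)])

def t7 : Tab2 :=
  [(2916, p2916), (3645, p3645), (972, p972), (975, p975), (978, p978), (981, p981), (990, p990), (999, p999), (1026, p1026), (1053, p1053), (1134, p1134), (1215, p1215), (1217, p1217), (1221, p1221), (1224, p1224), (1233, p1233), (1242, p1242), (1269, p1269), (1296, p1296), (1377, p1377), (324, p324), (405, p405), (108, p108), (111, p111), (114, p114), (117, p117), (126, p126), (135, p135), (137, p137), (138, p138), (141, p141), (144, p144), (153, p153), (36, p36), (45, p45), (12, p12), (15, p15), (3, p3),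 (4, p4), (5, p5)]

def w8x0 : Tag × Poly := (.bas 11, [r 1 1 [8929], r 1 1 [9010], r 1 1 [11116], r 1 1 [11197], r (-1) 1 [11]])
def w8x1 : Tag × Poly := (.bas 12, [r 1 1 [9577], r (-1) 1 [10306], r (-1) 1 [11764], r 1 1 [12493], r (-1) 1 [12]])
def w8x2 : Tag × Poly := (.bas 13, [r 1 1 [9577], r 1 1 [10306], r (-1) 1 [11764], r (-1) 1 [12493], r (-1) 1 [13]])
def w8x3 : Tag × Poly := (.dd 8, [r 1 1 [11035], r 127 128 [8848]])
def w8x4 : Tag × Poly := (.ze 4, [r 1 1 [8848], r 384 175 [0, 0, 0, 0]])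
def w8x5 : Tag × Poly := (.sh [-1] [0, 0, 0, 0, 0, 0, -1], [r 2 1 [12493], r 1 1 [11521], r 1 1 [11197], r 1 1 [11089], r 1 1 [11053], r 1 1 [11041], r 1 1 [11037], r (-63) 1 [1, 4]])
def w8x6 : Tag × Poly := (.sh [0, 1] [0, 0, 0, 0, 0, 1], [r 6 1 [9091], r 12 1 [9577], r 4 1 [8929], r 3 1 [8875], r 2 1 [8857], r 1 1 [8851], r (-128) 35 [0, 0, 0, 0]])
def w8x7 : Tag × Poly := (.sh [0, 1] [0, 0, 0, 0, 0, -1], [r 1 1 [9334], r 6 1 [10306], r 6 1 [11764], r 5 1 [11278], r 4 1 [11116], r 3 1 [11062], r 2 1 [11044], r 1 1 [11038], r 124 35 [0, 0, 0, 0]])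
def w8x8 : Tag × Poly := (.sh [0, -1] [0, 0, 0, 0, 0, 1], [r 1 1 [11278], r 6 1 [11764], r 6 1 [10306], r 5 1 [9334], r 4 1 [9010], r 3 1 [8902], r 2 1 [8866], r 1 1 [8854], r 64 35 [0, 0, 0, 0]])
def w8x9 : Tag × Poly := (.sh [0, -1] [0, 0, 0, 0, 0, -1], [r 6 1 [11521], r 12 1 [12493], r 4 1 [11197], r 3 1 [11089], r 2 1 [11053], r 1 1 [11041], r (-62) 35 [0, 0, 0, 0]])
def w8x10 : Tag × Poly := (.sh [0, 0, 1] [0, 0, 0, 0, 1], [r 7 1 [8929], r 15 1 [9091], r 30 1 [9577], r 3 1 [8875], r 1 1 [8857], r (-64) 1 [2, 3]])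
def w8x11 : Tag × Poly := (.sh [0, 0, 1] [0, 0, 0, 0, -1], [r 1 1 [9010], r 5 1 [9334], r 15 1 [10306], r 15 1 [11764], r 10 1 [11278], r 6 1 [11116], r 3 1 [11062], r 1 1 [11044], r 60 1 [2, 3]])
def w8x12 : Tag × Poly := (.sh [0, 0, -1] [0, 0, 0, 0, 1], [r 1 1 [11116], r 5 1 [11278], r 15 1 [11764], r 15 1 [10306], r 10 1 [9334], r 6 1 [9010], r 3 1 [8902], r 1 1 [8866], r 48 1 [2, 3]])
def w8x13 : Tag × Poly := (.sh [0, 0, -1] [0, 0, 0, 0, -1], [r 7 1 [11197], r 15 1 [11521], r 30 1 [12493], r 3 1 [11089], r 1 1 [11053], r (-45) 1 [2, 3]])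
def w8x14 : Tag × Poly := (.sh [0, 0, 0, 1] [0, 0, 0, 1], [r 2 1 [8875], r 8 1 [8929], r 20 1 [9091], r 40 1 [9577], r (-64) 25 [0, 0, 0, 0]])
def w8x15 : Tag × Poly := (.sh [0, 0, 0, 1] [0, 0, 0, -1], [r 1 1 [8902], r 4 1 [9010], r 10 1 [9334], r 20 1 [10306], r 20 1 [11764], r 10 1 [11278], r 4 1 [11116], r 1 1 [11062], r 56 25 [0, 0, 0, 0]])
def w8x16 : Tag × Poly := (.sh [0, 0, 0, -1] [0, 0, 0, -1], [r 2 1 [11089], r 8 1 [11197], r 20 1 [11521], r 40 1 [12493], r (-49) 25 [0, 0, 0, 0]])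
def w8x17 : Tag × Poly := (.st 2 1 6 1, [r 1 1 [9091], r 1 1 [8851], r (-1) 1 [8848], r (-128) 35 [0, 0, 0, 0]])
def w8x18 : Tag × Poly := (.st 2 1 6 (-1), [r 1 1 [11521], r 1 1 [11038], r (-1) 1 [11035], r 124 35 [0, 0, 0, 0]])
def w8x19 : Tag × Poly := (.st 2 (-1) 6 1, [r 1 1 [11278], r 1 1 [11041], r (-1) 1 [11035], r 64 35 [0, 0, 0, 0]])
def w8x20 : Tag × Poly := (.st 2 (-1) 6 (-1), [r 1 1 [9334], r 1 1 [8854], r (-1) 1 [8848], r (-62) 35 [0, 0, 0, 0]])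
def w8x21 : Tag × Poly := (.st 3 1 5 1, [r 1 1 [8929], r 1 1 [8857], r (-1) 1 [8848], r (-64) 1 [2, 3]])
def w8x22 : Tag × Poly := (.st 3 1 5 (-1), [r 1 1 [11197], r 1 1 [11044], r (-1) 1 [11035], r 60 1 [2, 3]])
def w8x23 : Tag × Poly := (.st 3 (-1) 5 1, [r 1 1 [11116], r 1 1 [11053], r (-1) 1 [11035], r 48 1 [2, 3]])
def w8x24 : Tag × Poly := (.st 3 (-1) 5 (-1), [r 1 1 [9010], r 1 1 [8866], r (-1) 1 [8848], r (-45) 1 [2, 3]])
def w8x25 : Tag × Poly := (.di 2 6, [r 63 64 [9091], r 1 1 [11521], r 1 1 [11278], r 1 1 [9334]])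
def w8x26 : Tag × Poly := (.gd 2 6, [r 31 16 [9091], r (-1) 2 [9334], r 3 1 [9577], r 3 1 [12493], r 15 16 [8848], r 5 2 [11521], r 15 8 [8929], r 2 1 [11197], r 21 16 [8875], r 3 2 [11089], r 3 4 [8857], r 1 1 [11053], r 1 4 [8851], r 1 2 [11041]])
def p8748 : Poly := [r (-384) 175 [0, 0, 0, 0]]
def c8748 : LC ℕ := [c 1 1 4]
def p8751 : Poly := [r 5984 875 [0, 0, 0, 0], r 128 5 [11], r (-128) 1 [2, 3]]
def c8751 : LC ℕ := [c (-63) 1 17, c 64 1 6, c 128 5 0, c (-512) 5 10, c (-512) 5 11, c 64 1 7, c 288 5 14, c (-2) 5 4, c (-64) 1 18, c (-896) 5 3, c (-64) 1 19, c 64 1 9, c (-512) 5 13, c 288 5 16, c (-64) 1 20, c 64 1 8, c (-512) 5 12, c 576 5 15, c (-128) 5 21, c (-128) 5 22, c (-128) 5 23, c (-128) 5 24, c 64 1 25]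
def p8754 : Poly := [r (-7769) 1750 [0, 0, 0, 0], r 96 1 [2, 3], r (-144) 5 [11]]
def c8754 : LC ℕ := [c (-214) 3 8, c (-71) 1 7, c 1137 10 11, c 3421 30 12, c 71 1 18, c (-129) 1280 4, c 6013 30 3, c 433 6 19, c (-218) 3 9, c 3461 30 13, c (-324) 5 16, c 217 3 20, c 283 10 21, c (-5049) 80 14, c 4493 40 10, c (-1131) 16 6, c 1127 16 17, c 283 10 22, c 869 30 23, c 859 30 24, c 1 1 26, c (-144) 5 0, c (-1281) 10 15, c (-72) 1 25]
def p8757 : Poly := [r (-384) 175 [0, 0, 0, 0], r 64 1 [2, 3], r (-64) 1 [11]]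
def c8757 : LC ℕ := [c (-567) 4 14, c 252 1 10, c (-315) 2 6, c 315 2 17, c (-64) 1 0, c 256 1 11, c (-160) 1 7, c 1 1 4, c 160 1 18, c 448 1 3, c 160 1 19, c (-160) 1 9, c 256 1 13, c (-144) 1 16, c 160 1 20, c (-160) 1 8, c 256 1 12, c (-288) 1 15, c 64 1 21, c 64 1 22, c 64 1 23, c 64 1 24, c (-160) 1 25]
def p8766 : Poly := [r (-48) 1 [2, 3], r 1551 875 [0, 0, 0, 0], r 207 5 [11]]
def c8766 : LC ℕ := [c (-1661) 10 12, c 1863 10 15, c 1577 1280 4, c (-2903) 10 3, c (-209) 2 19, c 105 1 9, c (-1671) 10 13, c 939 10 16, c (-104) 1 20, c 104 1 8, c (-409) 10 21, c 7317 80 14, c (-6509) 40 10, c 1635 16 6, c (-1631) 16 17, c (-409) 10 22, c (-419) 10 23, c (-1651) 10 11, c (-409) 10 24, c 103 1 7, c (-103) 1 18, c 104 1 25, c 207 5 0, c (-1) 1 26]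
def p8775 : Poly := [r 32 175 [0, 0, 0, 0]]
def c8775 : LC ℕ := [c 2 3 10, c (-1) 2 14, c (-2) 3 4, c (-2) 3 21]
def p8802 : Poly := [r (-41) 350 [0, 0, 0, 0]]
def c8802 : LC ℕ := [c (-851) 384 4, c 7 9 3, c 5 9 19, c (-5) 9 9, c 8 9 13, c (-1) 2 16, c (-5) 9 20, c 5 9 8, c (-2) 9 12, c 2 9 23, c (-8) 9 24]
def p8829 : Poly := [r 64 1 [11]]
def c8829 : LC ℕ := [c 64 1 0, c (-256) 1 11, c 160 1 7, c (-160) 1 18, c (-448) 1 3, c (-160) 1 19, c 160 1 9, c (-256) 1 13, c 144 1 16, c (-160) 1 20, c 160 1 8, c (-256) 1 12, c 288 1 15, c (-63) 1 21, c 567 4 14, c (-252) 1 10, c 315 2 6, c (-315) 2 17, c (-64) 1 22, c (-64) 1 23, c (-64) 1 24, c 160 1 25]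
def p8910 : Poly := [r 93 1 [2, 3], r (-3471) 875 [0, 0, 0, 0], r (-207) 5 [11]]
def c8910 : LC ℕ := [c 1651 10 11, c (-103) 1 7, c 103 1 18, c (-297) 1280 4, c 2903 10 3, c 209 2 19, c (-105) 1 9, c (-939) 10 16, c 104 1 20, c (-104) 1 8, c 1661 10 12, c (-1863) 10 15, c 409 10 21, c (-7317) 80 14, c 6509 40 10, c (-1635) 16 6, c 1631 16 17, c 409 10 22, c 419 10 23, c 419 10 24, c 1671 10 13, c (-104) 1 25, c (-207) 5 0, c 1 1 26]
def p8991 : Poly := [r (-672) 125 [0, 0, 0, 0], r (-128) 5 [11], r 128 1 [2, 3]]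
def c8991 : LC ℕ := [c (-64) 1 6, c (-128) 5 0, c 512 5 10, c 512 5 11, c (-64) 1 7, c (-288) 5 14, c 64 1 17, c 7 5 4, c 64 1 18, c 896 5 3, c 64 1 19, c (-64) 1 9, c 512 5 13, c (-288) 5 16, c 64 1 20, c (-64) 1 8, c 512 5 12, c (-576) 5 15, c 128 5 21, c 128 5 22, c 128 5 23, c 128 5 24, c (-64) 1 25]
def p9234 : Poly := [r 7029 1750 [0, 0, 0, 0], r (-96) 1 [2, 3], r 144 5 [11]]
def c9234 : LC ℕ := [c 71 1 7, c (-71) 1 18, c 1409 1280 4, c (-6013) 30 3, c (-433) 6 19, c 218 3 9, c (-3461) 30 13, c 324 5 16, c (-214) 3 20, c 214 3 8, c (-1137) 10 11, c (-3421) 30 12, c (-283) 10 21, c 5049 80 14, c (-4493) 40 10, c 1131 16 6, c (-1127) 16 17, c (-283) 10 22, c (-869) 30 23, c (-859) 30 24, c (-1) 1 26, c 144 5 0, c 1281 10 15, c 72 1 25]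
def p9477 : Poly := [r 96 35 [0, 0, 0, 0], r (-64) 1 [2, 3]]
def c9477 : LC ℕ := [c (-2) 3 4, c (-1) 6 21, c 1 2 14, c (-5) 6 10, c 1 2 6, c (-1) 2 17]
def p10206 : Poly := [r 1 2 [13], r 127 2 [2, 3], r (-381) 140 [0, 0, 0, 0]]
def c10206 : LC ℕ := [c 1 2 2, c (-1) 12 24, c (-5) 12 11, c 1 4 7, c (-1) 4 18, c 127 192 4, c (-2) 3 3, c (-1) 4 19, c 1 4 9, c 1 4 16, c (-1) 4 20, c 1 4 8, c (-5) 12 12, c 1 2 15, c 1 12 21, c (-1) 4 14, c 5 12 10, c (-1) 4 6, c 1 4 17, c (-1) 12 22, c (-1) 12 23, c (-5) 12 13]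
def p10935 : Poly := [r 381 175 [0, 0, 0, 0]]
def c10935 : LC ℕ := [c (-127) 128 4, c 1 1 3]
def p10937 : Poly := [r 63 1 [1, 4], r (-963) 350 [0, 0, 0, 0], r 45 1 [2, 3]]
def c10937 : LC ℕ := [c 1 1 5, c (-1) 1 9, c 1 1 13, c (-1) 2 16]
def p10941 : Poly := [r 4616 875 [0, 0, 0, 0], r (-111) 1 [2, 3], r (-3) 1 [12], r 162 5 [11]]
def c10941 : LC ℕ := [c 161 2 9, c (-1271) 10 13, c 357 5 16, c (-319) 10 24, c (-1271) 10 11, c 159 2 7, c (-159) 2 18, c (-469) 640 4, c (-1109) 5 3, c (-157) 2 19, c (-159) 2 20, c 159 2 8, c (-1271) 10 12, c 714 5 15, c (-319) 10 21, c 2841 40 14, c (-2527) 20 10, c 639 8 6, c (-635) 8 17, c (-3) 1 1, c (-319) 10 22, c (-319) 10 23, c 80 1 25, c 162 5 0, c (-2) 1 26]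
def p10944 : Poly := [r (-225) 2 [2, 3], r 16581 3500 [0, 0, 0, 0], r (-15) 2 [12], r 513 5 [11]]
def c10944 : LC ℕ := [c (-2037) 20 22, c (-2591) 640 4, c (-3551) 5 3, c 256 1 25, c 255 1 6, c (-15) 2 1, c 513 5 0, c (-8103) 20 10, c (-8173) 20 11, c 1023 4 7, c 4557 20 14, c (-254) 1 17, c (-1023) 4 18, c (-1007) 4 19, c 1015 4 9, c (-8053) 20 13, c 4527 20 16, c (-1019) 4 20, c 1019 4 8, c (-8153) 20 12, c 4587 10 15, c (-2037) 20 21, c (-2017) 20 23, c (-2037) 20 24, c (-4) 1 26]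
def p10953 : Poly := [r 195 2 [2, 3], r (-87) 20 [0, 0, 0, 0], r 15 2 [12], r (-81) 1 [11]]
def c10953 : LC ℕ := [c 1255 4 13, c (-705) 4 16, c 319 4 24, c 1271 4 11, c (-795) 4 7, c 795 4 18, c 469 256 4, c 1109 2 3, c 785 4 19, c (-795) 4 9, c 795 4 20, c (-795) 4 8, c 1271 4 12, c (-357) 1 15, c 319 4 21, c (-2841) 16 14, c 2527 8 10, c (-3195) 16 6, c 3175 16 17, c 15 2 1, c 319 4 22, c 319 4 23, c (-200) 1 25, c (-81) 1 0, c 5 1 26]
def p10962 : Poly := [r 70 1 [2, 3], r (-6457) 1750 [0, 0, 0, 0], r 10 1 [12], r (-612) 5 [11]]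
def c10962 : LC ℕ := [c 5378 45 23, c 1816 15 21, c 7274 15 11, c (-303) 1 7, c 303 1 18, c 981 160 4, c 37876 45 3, c 2683 9 19, c (-2710) 9 9, c 21452 45 13, c (-2679) 10 16, c 2726 9 20, c (-2726) 9 8, c 21802 45 12, c (-2724) 5 15, c (-10811) 40 14, c 28841 60 10, c (-2425) 8 6, c 2413 8 17, c 10 1 1, c 1816 15 22, c 5458 45 24, c (-304) 1 25, c (-612) 5 0, c 6 1 26]
def p10989 : Poly := [r 6347 1750 [0, 0, 0, 0], r (-70) 1 [2, 3], r (-10) 1 [12], r 612 5 [11]]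
def c10989 : LC ℕ := [c 2679 10 16, c (-1816) 15 24, c (-7264) 15 11, c 303 1 7, c (-303) 1 18, c (-6257) 1920 4, c (-4219) 5 3, c (-896) 3 19, c 905 3 9, c (-907) 3 20, c 907 3 8, c (-2418) 5 12, c 2719 5 15, c (-1816) 15 21, c 10811 40 14, c (-28841) 60 10, c 2425 8 6, c (-2413) 8 17, c (-10) 1 1, c (-1826) 15 22, c (-602) 5 23, c (-7154) 15 13, c 304 1 25, c 612 5 0, c (-6) 1 26]
def p11016 : Poly := [r (-291) 2 [2, 3], r 4569 700 [0, 0, 0, 0], r (-15) 2 [12], r 81 1 [11]]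
def c11016 : LC ℕ := [c (-723) 256 4, c (-1107) 2 3, c (-1255) 4 13, c 705 4 16, c (-315) 4 23, c (-319) 4 24, c (-1271) 4 11, c 795 4 7, c (-795) 4 18, c (-785) 4 19, c 795 4 9, c (-795) 4 20, c 795 4 8, c (-1271) 4 12, c 357 1 15, c (-319) 4 21, c 2841 16 14, c (-2527) 8 10, c 3195 16 6, c (-3175) 16 17, c (-15) 2 1, c (-319) 4 22, c 200 1 25, c 81 1 0, c (-5) 1 26]
def p11097 : Poly := [r (-8961) 3500 [0, 0, 0, 0], r 15 2 [12], r (-513) 5 [11], r 105 2 [2, 3]]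
def c11097 : LC ℕ := [c (-256) 1 25, c (-255) 1 6, c 15 2 1, c (-513) 5 0, c 8103 20 10, c 8173 20 11, c (-1023) 4 7, c (-4557) 20 14, c 254 1 17, c 489 160 4, c 1023 4 18, c 3556 5 3, c 1007 4 19, c (-1015) 4 9, c 8053 20 13, c (-4527) 20 16, c 1019 4 20, c (-1019) 4 8, c 8153 20 12, c (-4587) 10 15, c 2037 20 21, c 2057 20 22, c 2017 20 23, c 2037 20 24, c 4 1 26]
def p11178 : Poly := [r (-4311) 875 [0, 0, 0, 0], r 111 1 [2, 3], r 3 1 [12], r (-162) 5 [11]]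
def c11178 : LC ℕ := [c 159 2 19, c (-161) 2 9, c 1271 10 13, c (-357) 5 16, c (-83) 320 4, c 1114 5 3, c 319 10 24, c 1271 10 11, c (-159) 2 7, c 159 2 18, c 159 2 20, c (-159) 2 8, c 1271 10 12, c (-714) 5 15, c 319 10 21, c (-2841) 40 14, c 2527 20 10, c (-639) 8 6, c 635 8 17, c 3 1 1, c 319 10 22, c 319 10 23, c (-80) 1 25, c (-162) 5 0, c 2 1 26]
def p11421 : Poly := [r 5427 875 [0, 0, 0, 0], r 144 5 [11], r (-141) 1 [2, 3], r (-3) 1 [12]]
def c11421 : LC ℕ := [c (-1) 1 26, c 1155 16 6, c 144 5 0, c (-4593) 40 10, c (-571) 5 11, c 143 2 7, c 5169 80 14, c (-1151) 16 17, c (-2841) 1280 4, c (-143) 2 18, c (-5963) 30 3, c (-211) 3 19, c 425 6 9, c (-1688) 15 13, c 633 10 16, c (-427) 6 20, c 427 6 8, c (-1708) 15 12, c 1281 10 15, c (-144) 5 21, c (-144) 5 22, c (-422) 15 23, c (-427) 15 24, c 72 1 25, c (-3) 1 1]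
def p11664 : Poly := [r 96 35 [0, 0, 0, 0], r (-1) 2 [13], r (-1) 2 [12], r (-64) 1 [2, 3]]
def c11664 : LC ℕ := [c (-1) 2 2, c (-1) 2 1, c (-2) 3 4, c (-1) 6 21, c 1 2 14, c (-5) 6 10, c 1 2 6, c (-1) 2 17]
def p12393 : Poly := [r 127 2 [2, 3], r (-381) 140 [0, 0, 0, 0], r 1 2 [12]]
def c12393 : LC ℕ := [c (-1) 12 24, c (-5) 12 11, c 1 4 7, c (-1) 4 18, c 127 192 4, c (-2) 3 3, c (-1) 4 19, c 1 4 9, c 1 4 16, c (-1) 4 20, c 1 4 8, c (-5) 12 12, c 1 2 15, c 1 12 21, c (-1) 4 14, c 5 12 10, c (-1) 4 6, c 1 4 17, c 1 2 1, c (-1) 12 22, c (-1) 12 23, c (-5) 12 13]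
def b8 : Block :=
  ([w8x0, w8x1, w8x2, w8x3, w8x4, w8x5, w8x6, w8x7, w8x8, w8x9, w8x10, w8x11, w8x12, w8x13, w8x14, w8x15, w8x16, w8x17, w8x18, w8x19, w8x20, w8x21, w8x22, w8x23, w8x24, w8x25, w8x26],
   [(8748, p8748, c8748), (8751, p8751, c8751), (8754, p8754, c8754), (8757, p8757, c8757), (8766, p8766, c8766), (8775, p8775, c8775), (8802, p8802, c8802), (8829, p8829, c8829), (8910, p8910, c8910), (8991, p8991, c8991), (9234, p9234, c9234), (9477, p9477, c9477), (10206, p10206, c10206), (10935, p10935, c10935), (10937, p10937, c10937), (10941, p10941, c10941), (10944, p10944, c10944), (10953, p10953, c10953), (10962, p10962, c10962), (10989, p10989, c10989), (11016, p11016, c11016), (11097, p11097, c11097), (11178, p11178, c11178), (11421, p11421, c11421), (11664, p11664, c11664), (12393, p12393, c12393)])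

def t8 : Tab2 :=
  [(8748, p8748), (8751, p8751), (8754, p8754), (8757, p8757), (8766, p8766), (8775, p8775), (8802, p8802), (8829, p8829), (8910, p8910), (8991, p8991), (9234, p9234), (9477, p9477), (10206, p10206), (10935, p10935), (10937, p10937), (10941, p10941), (10944, p10944), (10953, p10953), (10962, p10962), (10989, p10989), (11016, p11016), (11097, p11097), (11178, p11178), (11421, p11421), (11664, p11664), (12393, p12393), (2916, p2916), (3645, p3645), (972, p972), (975, p975), (978, p978), (981, p981), (990, p990), (999, p999), (1026, p1026), (1053, p1053), (1134, p1134), (1215, p1215), (1217, p1217), (1221, p1221), (1224, p1224), (1233, p1233), (1242, p1242), (1269, p1269), (1296, p1296), (1377, p1377), (324, p324), (405, p405), (108, p108), (111, p111), (114, p114), (117, p117), (126, p126), (135, p135), (137, p137), (138, p138), (141, p141), (144, p144), (153, p153), (36, p36), (45, p45), (12,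 p12), (15, p15), (3, p3), (4, p4), (5, p5)]

def w9x0 : Tag × Poly := (.bas 5, [r (-1) 1 [26344], r (-1) 1 [32905], r (-1) 1 [5]])
def w9x1 : Tag × Poly := (.dd 9, [r 1 1 [32905], r 255 256 [26344]])
def p26244 : Poly := [r (-256) 1 [5]]
def c26244 : LC ℕ := [c (-256) 1 0, c (-256) 1 1]
def p32805 : Poly := [r 255 1 [5]]
def c32805 : LC ℕ := [c 256 1 1, c 255 1 0]
def b9 : Block :=
  ([w9x0, w9x1],
   [(26244, p26244, c26244), (32805, p32805, c32805)])

def t9 : Tab2 :=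
  [(26244, p26244), (32805, p32805), (8748, p8748), (8751, p8751), (8754, p8754), (8757, p8757), (8766, p8766), (8775, p8775), (8802, p8802), (8829, p8829), (8910, p8910), (8991, p8991), (9234, p9234), (9477, p9477), (10206, p10206), (10935, p10935), (10937, p10937), (10941, p10941), (10944, p10944), (10953, p10953), (10962, p10962), (10989, p10989), (11016, p11016), (11097, p11097), (11178, p11178), (11421, p11421), (11664, p11664), (12393, p12393), (2916, p2916), (3645, p3645), (972, p972), (975, p975), (978, p978), (981, p981), (990, p990), (999, p999), (1026, p1026), (1053, p1053), (1134, p1134), (1215, p1215), (1217, p1217), (1221, p1221), (1224, p1224), (1233, p1233), (1242, p1242), (1269, p1269), (1296, p1296), (1377, p1377), (324, p324), (405, p405), (108, p108), (111, p111), (114, p114), (117, p117), (126, p126), (135, p135), (137, p137), (138, p138), (141, p141), (144, p144), (153, p153), (36, p36),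 (45, p45), (12, p12), (15, p15), (3, p3), (4, p4), (5, p5)]

def w10x0 : Tag × Poly := (.bas 14, [r 1 1 [79561], r 1 1 [80290], r 1 1 [99244], r 1 1 [99973], r (-1) 1 [14]])
def w10x1 : Tag × Poly := (.bas 15, [r 1 1 [85393], r (-1) 1 [91954], r (-1) 1 [105076], r 1 1 [111637], r (-1) 1 [15]])
def w10x2 : Tag × Poly := (.bas 16, [r 1 1 [85393], r 1 1 [91954], r (-1) 1 [105076], r (-1) 1 [111637], r (-1) 1 [16]])
def w10x3 : Tag × Poly := (.dd 10, [r 1 1 [98515], r 511 512 [78832]])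
def w10x4 : Tag × Poly := (.ze 5, [r 1 1 [78832], r 1024 385 [0, 0, 0, 0, 0]])
def w10x5 : Tag × Poly := (.sh [-1] [0, 0, 0, 0, 0, 0, 0, 0, -1], [r 2 1 [111637], r 1 1 [102889], r 1 1 [99973], r 1 1 [99001], r 1 1 [98677], r 1 1 [98569], r 1 1 [98533], r 1 1 [98521], r 1 1 [98517], r (-255) 1 [1, 5]])
def w10x6 : Tag × Poly := (.sh [0, 1] [0, 0, 0, 0, 0, 0, 0, 1], [r 8 1 [81019], r 16 1 [85393], r 6 1 [79561], r 5 1 [79075], r 4 1 [78913], r 3 1 [78859], r 2 1 [78841], r 1 1 [78835], r (-768) 175 [0, 0, 0, 0, 0]])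
def w10x7 : Tag × Poly := (.sh [0, 1] [0, 0, 0, 0, 0, 0, 0, -1], [r 1 1 [83206], r 8 1 [91954], r 8 1 [105076], r 7 1 [100702], r 6 1 [99244], r 5 1 [98758], r 4 1 [98596], r 3 1 [98542], r 2 1 [98524], r 1 1 [98518], r 762 175 [0, 0, 0, 0, 0]])
def w10x8 : Tag × Poly := (.sh [0, -1] [0, 0, 0, 0, 0, 0, 0, 1], [r 1 1 [100702], r 8 1 [105076], r 8 1 [91954], r 7 1 [83206], r 6 1 [80290], r 5 1 [79318], r 4 1 [78994], r 3 1 [78886], r 2 1 [78850], r 1 1 [78838], r 384 175 [0, 0, 0, 0, 0]])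
def w10x9 : Tag × Poly := (.sh [0, -1] [0, 0, 0, 0, 0, 0, 0, -1], [r 8 1 [102889], r 16 1 [111637], r 6 1 [99973], r 5 1 [99001], r 4 1 [98677], r 3 1 [98569], r 2 1 [98533], r 1 1 [98521], r (-381) 175 [0, 0, 0, 0, 0]])
def w10x10 : Tag × Poly := (.sh [0, 0, 1] [0, 0, 0, 0, 0, 0, 1], [r 16 1 [79561], r 28 1 [81019], r 56 1 [85393], r 10 1 [79075], r 6 1 [78913], r 3 1 [78859], r 1 1 [78841], r (-256) 1 [2, 4]])
def w10x11 : Tag × Poly := (.sh [0, 0, 1] [0, 0, 0, 0, 0, 0, -1], [r 1 1 [80290], r 7 1 [83206], r 28 1 [91954], r 28 1 [105076], r 21 1 [100702], r 15 1 [99244], r 10 1 [98758], r 6 1 [98596], r 3 1 [98542], r 1 1 [98524], r 252 1 [2, 4]])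
def w10x12 : Tag × Poly := (.sh [0, 0, -1] [0, 0, 0, 0, 0, 0, 1], [r 1 1 [99244], r 7 1 [100702], r 28 1 [105076], r 28 1 [91954], r 21 1 [83206], r 15 1 [80290], r 10 1 [79318], r 6 1 [78994], r 3 1 [78886], r 1 1 [78850], r 192 1 [2, 4]])
def w10x13 : Tag × Poly := (.sh [0, 0, -1] [0, 0, 0, 0, 0, 0, -1], [r 16 1 [99973], r 28 1 [102889], r 56 1 [111637], r 10 1 [99001], r 6 1 [98677], r 3 1 [98569], r 1 1 [98533], r (-189) 1 [2, 4]])
def w10x14 : Tag × Poly := (.sh [0, 0, 0, 1] [0, 0, 0, 0, 0, 1], [r 11 1 [79075], r 26 1 [79561], r 56 1 [81019], r 112 1 [85393], r 4 1 [78913], r 1 1 [78859], r (-512) 175 [0, 0, 0, 0, 0]])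
def w10x15 : Tag × Poly := (.sh [0, 0, 0, 1] [0, 0, 0, 0, 0, -1], [r 1 1 [79318], r 6 1 [80290], r 21 1 [83206], r 56 1 [91954], r 56 1 [105076], r 35 1 [100702], r 20 1 [99244], r 10 1 [98758], r 4 1 [98596], r 1 1 [98542], r 496 175 [0, 0, 0, 0, 0]])
def w10x16 : Tag × Poly := (.sh [0, 0, 0, -1] [0, 0, 0, 0, 0, 1], [r 1 1 [98758], r 6 1 [99244], r 21 1 [100702], r 56 1 [105076], r 56 1 [91954], r 35 1 [83206], r 20 1 [80290], r 10 1 [79318], r 4 1 [78994], r 1 1 [78886], r 64 25 [0, 0, 0, 0, 0]])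
def w10x17 : Tag × Poly := (.sh [0, 0, 0, -1] [0, 0, 0, 0, 0, -1], [r 11 1 [99001], r 26 1 [99973], r 56 1 [102889], r 112 1 [111637], r 4 1 [98677], r 1 1 [98569], r (-62) 25 [0, 0, 0, 0, 0]])
def w10x18 : Tag × Poly := (.sh [0, 0, 0, 0, 1] [0, 0, 0, 0, 1], [r 2 1 [78913], r 10 1 [79075], r 30 1 [79561], r 70 1 [81019], r 140 1 [85393], r (-256) 1 [3, 3]])
def w10x19 : Tag × Poly := (.sh [0, 0, 0, 0, 1] [0, 0, 0, 0, -1], [r 1 1 [78994], r 5 1 [79318], r 15 1 [80290], r 35 1 [83206], r 70 1 [91954], r 70 1 [105076], r 35 1 [100702], r 15 1 [99244], r 5 1 [98758], r 1 1 [98596], r 240 1 [3, 3]])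
def w10x20 : Tag × Poly := (.sh [0, 0, 0, 0, -1] [0, 0, 0, 0, -1], [r 2 1 [98677], r 10 1 [99001], r 30 1 [99973], r 70 1 [102889], r 140 1 [111637], r (-225) 1 [3, 3]])
def w10x21 : Tag × Poly := (.st 2 1 8 1, [r 1 1 [81019], r 1 1 [78835], r (-1) 1 [78832], r (-768) 175 [0, 0, 0, 0, 0]])
def w10x22 : Tag × Poly := (.st 2 1 8 (-1), [r 1 1 [102889], r 1 1 [98518], r (-1) 1 [98515], r 762 175 [0, 0, 0, 0, 0]])
def w10x23 : Tag × Poly := (.st 2 (-1) 8 1, [r 1 1 [100702], r 1 1 [98521], r (-1) 1 [98515], r 384 175 [0, 0, 0, 0, 0]])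
def w10x24 : Tag × Poly := (.st 2 (-1) 8 (-1), [r 1 1 [83206], r 1 1 [78838], r (-1) 1 [78832], r (-381) 175 [0, 0, 0, 0, 0]])
def w10x25 : Tag × Poly := (.st 3 1 7 1, [r 1 1 [79561], r 1 1 [78841], r (-1) 1 [78832], r (-256) 1 [2, 4]])
def w10x26 : Tag × Poly := (.st 3 1 7 (-1), [r 1 1 [99973], r 1 1 [98524], r (-1) 1 [98515], r 252 1 [2, 4]])
def w10x27 : Tag × Poly := (.st 3 (-1) 7 1, [r 1 1 [99244], r 1 1 [98533], r (-1) 1 [98515], r 192 1 [2, 4]])
def w10x28 : Tag × Poly := (.st 3 (-1) 7 (-1), [r 1 1 [80290], r 1 1 [78850], r (-1) 1 [78832], r (-189) 1 [2, 4]])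
def w10x29 : Tag × Poly := (.st 4 1 6 1, [r 1 1 [79075], r 1 1 [78859], r (-1) 1 [78832], r (-512) 175 [0, 0, 0, 0, 0]])
def w10x30 : Tag × Poly := (.st 4 1 6 (-1), [r 1 1 [99001], r 1 1 [98542], r (-1) 1 [98515], r 496 175 [0, 0, 0, 0, 0]])
def w10x31 : Tag × Poly := (.st 4 (-1) 6 1, [r 1 1 [98758], r 1 1 [98569], r (-1) 1 [98515], r 64 25 [0, 0, 0, 0, 0]])
def w10x32 : Tag × Poly := (.di 2 8, [r 255 256 [81019], r 1 1 [102889], r 1 1 [100702], r 1 1 [83206]])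
def w10x33 : Tag × Poly := (.gd 2 8, [r 381 128 [81019], r (-1) 2 [83206], r 4 1 [85393], r 4 1 [111637], r 251 256 [78832], r 7 2 [102889], r 189 64 [79561], r 3 1 [99973], r 155 64 [79075], r 5 2 [99001], r 15 8 [78913], r 2 1 [98677], r 21 16 [78859], r 3 2 [98569], r 3 4 [78841], r 1 1 [98533], r 1 4 [78835], r 1 2 [98521]])
def w10x34 : Tag × Poly := (.gd 4 6, [r 279 64 [79075], r (-1) 2 [79318], r 28 1 [85393], r 2233 128 [81019], r 633 64 [79561], r 28 1 [111637], r 191 256 [78832], r 35 2 [102889], r 10 1 [99973], r 5 1 [99001], r 15 8 [78913], r 2 1 [98677], r 7 16 [78859], r 1 2 [98569]])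
def p78732 : Poly := [r (-1024) 385 [0, 0, 0, 0, 0]]
def c78732 : LC ℕ := [c 1 1 4]
def p78735 : Poly := [r (-512) 1 [2, 4], r 512 7 [14], r 153856 13475 [0, 0, 0, 0, 0], r (-2048) 7 [3, 3]]
def c78735 : LC ℕ := [c (-512) 7 25, c 512 7 0, c (-3072) 7 11, c 256 1 7, c (-256) 1 22, c (-2) 7 4, c (-4608) 7 3, c (-256) 1 23, c 256 1 9, c 3840 7 17, c (-2048) 7 20, c (-256) 1 24, c 256 1 8, c (-3072) 7 12, c 3840 7 15, c 3840 7 16, c (-4096) 7 19, c (-2048) 7 18, c 3840 7 14, c (-3072) 7 10, c 256 1 6, c (-512) 7 26, c (-512) 7 27, c (-512) 7 28, c (-3072) 7 13, c (-255) 1 21, c 256 1 32]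
def p78738 : Poly := [r (-107203) 13475 [0, 0, 0, 0, 0], r 384 1 [2, 4], r 1668 7 [3, 3], r (-564) 7 [14]]
def c78738 : LC ℕ := [c (-4501) 16 8, c (-561) 2 7, c 26953 56 11, c 13501 28 12, c (-67435) 112 15, c (-67491) 112 16, c 561 2 22, c (-15671) 57344 4, c 80985 112 3, c 4515 16 23, c (-4523) 16 9, c 2256 7 20, c 4517 16 24, c 4463 56 26, c 2263 28 27, c 4505 56 28, c 27079 56 13, c (-63) 512 29, c 859759 1792 10, c (-17931) 64 6, c (-2150409) 3584 14, c 143397 448 18, c 17915 64 21, c (-4230) 7 17, c 143033 1792 25, c (-5) 16 30, c 3 16 31, c 1 1 33, c (-564) 7 0, c 4498 7 19, c (-282) 1 32]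
def p78741 : Poly := [r (-1024) 385 [0, 0, 0, 0, 0], r 256 1 [2, 4], r (-256) 1 [14]]
def c78741 : LC ℕ := [c 256 1 25, c (-256) 1 0, c 1536 1 11, c (-896) 1 7, c 896 1 22, c 1 1 4, c 2304 1 3, c 896 1 23, c (-896) 1 9, c (-1920) 1 17, c 1024 1 20, c 896 1 24, c (-896) 1 8, c 1536 1 12, c (-1920) 1 15, c (-1920) 1 16, c 2048 1 19, c 256 1 26, c 256 1 27, c 256 1 28, c 1536 1 13, c 1530 1 10, c (-1785) 2 6, c (-3825) 2 14, c 1020 1 18, c 1785 2 21, c (-896) 1 32]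
def p78750 : Poly := [r (-192) 1 [2, 4], r 7123 2695 [0, 0, 0, 0, 0], r (-639) 14 [3, 3], r 3147 14 [14]]
def c78750 : LC ℕ := [c (-9434) 7 12, c (-18833) 14 11, c 11782 7 15, c 47163 28 16, c (-12574) 7 19, c 56341 14336 4, c (-56569) 28 3, c (-3153) 4 23, c 3155 4 9, c (-12595) 14 20, c (-3145) 4 24, c 3145 4 8, c (-1556) 7 26, c (-1584) 7 27, c (-3133) 14 28, c (-18903) 14 13, c 257 1024 29, c (-4800465) 3584 10, c 100029 128 6, c 12007095 7168 14, c (-800571) 896 18, c (-99997) 128 21, c 11810 7 17, c (-798471) 3584 25, c 5 4 30, c (-1) 1 31, c (-1) 1 33, c 3147 14 0, c 3135 4 7, c (-3135) 4 22, c 787 1 32, c (-1) 2 34]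
def p78759 : Poly := [r (-1024) 385 [0, 0, 0, 0, 0], r 256 1 [14], r 256 1 [3, 3]]
def c78759 : LC ℕ := [c (-1785) 2 21, c 1785 2 6, c 256 1 0, c (-6117) 4 10, c (-1536) 1 11, c 896 1 7, c 15287 8 14, c (-1019) 1 18, c (-3) 8 4, c (-896) 1 22, c (-2304) 1 3, c (-896) 1 23, c 896 1 9, c (-1536) 1 13, c 1920 1 17, c (-1024) 1 20, c (-896) 1 24, c 896 1 8, c (-1536) 1 12, c 1920 1 15, c 1920 1 16, c (-2048) 1 19, c (-1023) 4 25, c (-256) 1 26, c (-256) 1 27, c (-256) 1 28, c 3 8 29, c 896 1 32]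
def p78786 : Poly := [r 228 77 [0, 0, 0, 0, 0], r (-276) 1 [3, 3], r (-252) 1 [14]]
def c78786 : LC ℕ := [c (-30191) 16 16, c (-1757) 2 7, c 12069 8 11, c (-30207) 16 15, c 2014 1 19, c 1757 2 22, c (-91763) 8192 4, c 36285 16 3, c 14161 16 23, c (-14161) 16 9, c 1008 1 20, c 14063 16 24, c (-14063) 16 8, c 6033 4 12, c 1987 8 26, c 1023 4 27, c 1997 8 28, c 12115 8 13, c (-131) 512 29, c 384181 256 10, c (-56007) 64 6, c (-961011) 512 14, c 64071 64 18, c 56007 64 21, c (-1891) 1 17, c 63875 256 25, c (-39) 16 30, c 41 16 31, c (-882) 1 32, c (-252) 1 0, c 1 1 34]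
def p78813 : Poly := [r (-512) 385 [0, 0, 0, 0, 0], r 128 1 [3, 3]]
def c78813 : LC ℕ := [c (-15) 16 14, c 5 8 10, c 1 2 18, c (-25) 16 4, c (-5) 8 25, c (-15) 16 29]
def p78894 : Poly := [r 225 2 [3, 3], r (-512) 385 [0, 0, 0, 0, 0]]
def c78894 : LC ℕ := [c 45 32 15, c (-15) 16 11, c 186161 16384 4, c (-207) 32 3, c (-91) 32 23, c 91 32 9, c 1 2 20, c 91 32 24, c (-91) 32 8, c 29 8 12, c 15 16 26, c (-29) 8 27, c 33 16 28, c (-33) 16 13, c (-75) 32 16, c 45 32 30, c (-75) 32 31]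
def p78975 : Poly := [r (-256) 1 [14], r 512 175 [0, 0, 0, 0, 0], r (-256) 1 [3, 3]]
def c78975 : LC ℕ := [c 6117 4 10, c (-256) 1 0, c (-1785) 2 6, c 1536 1 11, c (-896) 1 7, c (-15287) 8 14, c 1019 1 18, c 1785 2 21, c 11 8 4, c 896 1 22, c 2304 1 3, c 896 1 23, c (-896) 1 9, c 1536 1 13, c (-1920) 1 17, c 1024 1 20, c 896 1 24, c (-896) 1 8, c 1536 1 12, c (-1920) 1 15, c (-1920) 1 16, c 2048 1 19, c 1023 4 25, c 256 1 26, c 256 1 27, c 256 1 28, c 5 8 29, c (-896) 1 32]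
def p79218 : Poly := [r (-6046) 1925 [0, 0, 0, 0, 0], r 276 1 [3, 3], r 252 1 [14]]
def c79218 : LC ℕ := [c 30183 16 15, c (-12061) 8 11, c 1757 2 7, c (-1757) 2 22, c (-22805) 8192 4, c (-36165) 16 3, c (-14105) 16 23, c 14105 16 9, c 1890 1 17, c (-1008) 1 20, c (-14119) 16 24, c 14119 16 8, c (-6049) 4 12, c 30231 16 16, c (-2014) 1 19, c (-1995) 8 26, c (-1007) 4 27, c (-2021) 8 28, c (-12091) 8 13, c 131 512 29, c (-384181) 256 10, c 56007 64 6, c 961011 512 14, c (-64071) 64 18, c (-56007) 64 21, c (-63875) 256 25, c 15 16 30, c (-1) 16 31, c 882 1 32, c 252 1 0, c (-1) 1 34]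
def p79461 : Poly := [r 256 1 [14]]
def c79461 : LC ℕ := [c 256 1 0, c (-1536) 1 11, c 896 1 7, c (-896) 1 22, c (-2304) 1 3, c (-896) 1 23, c 896 1 9, c 1920 1 17, c (-1024) 1 20, c (-896) 1 24, c 896 1 8, c (-1536) 1 12, c 1920 1 15, c 1920 1 16, c (-2048) 1 19, c (-256) 1 26, c (-256) 1 27, c (-256) 1 28, c (-1536) 1 13, c (-1530) 1 10, c 1785 2 6, c 3825 2 14, c (-1020) 1 18, c (-1785) 2 21, c (-255) 1 25, c 896 1 32]
def p80190 : Poly := [r 381 1 [2, 4], r (-14291) 2695 [0, 0, 0, 0, 0], r 639 14 [3, 3], r (-3147) 14 [14]]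
def c80190 : LC ℕ := [c 18833 14 11, c (-42005) 14336 4, c 56569 28 3, c 3153 4 23, c (-3155) 4 9, c 18903 14 13, c 12595 14 20, c 3145 4 24, c (-3145) 4 8, c 9434 7 12, c (-11782) 7 15, c (-47163) 28 16, c 12574 7 19, c 1556 7 26, c 1584 7 27, c 3147 14 28, c (-257) 1024 29, c 4800465 3584 10, c (-100029) 128 6, c (-12007095) 7168 14, c 800571 896 18, c 99997 128 21, c (-11810) 7 17, c 798471 3584 25, c (-5) 4 30, c 1 1 31, c 1 1 33, c (-3147) 14 0, c (-3135) 4 7, c 3135 4 22, c (-787) 1 32, c 1 2 34]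
def p80919 : Poly := [r (-26112) 2695 [0, 0, 0, 0, 0], r 512 1 [2, 4], r (-512) 7 [14], r 2048 7 [3, 3]]
def c80919 : LC ℕ := [c 256 1 21, c 9 7 4, c 512 7 25, c (-512) 7 0, c 3072 7 11, c (-256) 1 7, c 256 1 22, c 4608 7 3, c 256 1 23, c (-256) 1 9, c (-3840) 7 17, c 2048 7 20, c 256 1 24, c (-256) 1 8, c 3072 7 12, c (-3840) 7 15, c (-3840) 7 16, c 4096 7 19, c 2048 7 18, c (-3840) 7 14, c 3072 7 10, c (-256) 1 6, c 512 7 26, c 512 7 27, c 512 7 28, c 3072 7 13, c (-256) 1 32]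
def p83106 : Poly := [r 4028 539 [0, 0, 0, 0, 0], r (-384) 1 [2, 4], r (-1668) 7 [3, 3], r 564 7 [14]]
def c83106 : LC ℕ := [c 561 2 7, c (-561) 2 22, c 73015 57344 4, c (-80985) 112 3, c (-4515) 16 23, c 4523 16 9, c (-2256) 7 20, c (-4501) 16 24, c 4501 16 8, c (-26953) 56 11, c (-13501) 28 12, c 67435 112 15, c 67491 112 16, c (-4463) 56 26, c (-2263) 28 27, c (-4505) 56 28, c (-27079) 56 13, c 63 512 29, c (-859759) 1792 10, c 17931 64 6, c 2150409 3584 14, c (-143397) 448 18, c (-17915) 64 21, c 4230 7 17, c (-143033) 1792 25, c 5 16 30, c (-3) 16 31, c (-1) 1 33, c 564 7 0, c (-4498) 7 19, c 282 1 32]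
def p85293 : Poly := [r 256 55 [0, 0, 0, 0, 0], r (-256) 1 [2, 4], r (-128) 1 [3, 3]]
def c85293 : LC ℕ := [c (-23) 32 4, c (-1) 32 29, c (-13) 16 10, c 1 2 6, c 31 32 14, c (-1) 2 18, c (-1) 2 21, c (-3) 16 25]
def p91854 : Poly := [r 1 2 [16], r (-511) 110 [0, 0, 0, 0, 0], r 511 4 [3, 3], r 511 2 [2, 4]]
def c91854 : LC ℕ := [c 1 2 2, c (-7) 128 31, c (-3) 64 28, c (-27) 64 11, c 62357 65536 4, c (-107) 128 3, c (-39) 128 23, c 39 128 9, c (-29) 64 13, c 1 2 17, c (-1) 4 20, c (-25) 128 24, c 25 128 8, c (-11) 32 12, c 65 128 15, c 57 128 16, c (-1) 2 19, c (-5) 64 26, c (-5) 32 27, c 1 64 29, c 13 32 10, c (-1) 4 6, c 1 4 7, c (-31) 64 14, c 1 4 18, c 1 4 21, c (-1) 4 22, c 3 32 25, c 1 128 30]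
def p98415 : Poly := [r 146 55 [0, 0, 0, 0, 0]]
def c98415 : LC ℕ := [c (-511) 512 4, c 1 1 3]
def p98417 : Poly := [r 255 1 [1, 5], r (-163) 35 [0, 0, 0, 0, 0], r 189 1 [2, 4], r 225 2 [3, 3]]
def c98417 : LC ℕ := [c 1 1 5, c (-1) 1 9, c 1 1 13, c (-1) 1 17, c 1 2 20]
def p98421 : Poly := [r 113357 13475 [0, 0, 0, 0, 0], r (-406) 1 [2, 4], r (-1730) 7 [3, 3], r (-4) 1 [15], r 618 7 [14]]
def c98421 : LC ℕ := [c 4921 16 9, c (-29461) 56 13, c 4607 7 17, c (-2458) 7 20, c 7 16 31, c (-4923) 56 28, c (-29475) 56 11, c (-131363) 57344 4, c (-88131) 112 3, c (-4889) 16 23, c (-4919) 16 24, c 4919 16 8, c (-14755) 28 12, c 73705 112 15, c 73761 112 16, c (-4916) 7 19, c (-4909) 56 26, c (-2437) 28 27, c 31 256 29, c (-470991) 896 10, c 9835 32 6, c 307 1 7, c (-4) 1 1, c 1178153 1792 14, c (-78565) 224 18, c (-9819) 32 21, c (-307) 1 22, c (-78425) 896 25, c (-1) 16 30, c 308 1 32, c 618 7 0, c (-2) 1 33]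
def p98424 : Poly := [r (-350) 1 [2, 4], r 8704 2695 [0, 0, 0, 0, 0], r 4749 14 [14], r 1129 14 [3, 3], r (-14) 1 [15]]
def c98424 : LC ℕ := [c (-38027) 112 26, c (-1484509) 114688 4, c (-680013) 224 3, c 1 2 34, c (-7276929) 3584 10, c 4749 14 0, c 151901 128 6, c (-227693) 112 11, c 4747 4 7, c 18195847 7168 14, c (-1213259) 896 18, c (-151709) 128 21, c (-4747) 4 22, c (-37671) 32 23, c 37767 32 9, c (-226363) 112 13, c 17702 7 17, c (-18891) 14 20, c (-37945) 32 24, c 37945 32 8, c (-113829) 56 12, c 568991 224 15, c 569103 224 16, c (-18968) 7 19, c (-1213399) 3584 25, c (-18667) 56 27, c (-37957) 112 28, c 177 1024 29, c 1187 1 32, c (-14) 1 1, c (-47) 32 30, c 81 32 31, c (-6) 1 33]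
def p98433 : Poly := [r 287 1 [2, 4], r (-1241) 385 [0, 0, 0, 0, 0], r (-35) 1 [3, 3], r 14 1 [15], r (-309) 1 [14]]
def c98433 : LC ℕ := [c 29365 16 13, c (-2296) 1 17, c 1225 1 20, c (-49) 32 31, c 4923 16 28, c 29475 16 11, c 131363 16384 4, c 88131 32 3, c 34223 32 23, c (-34335) 32 9, c 34433 32 24, c (-34433) 32 8, c 14755 8 12, c (-73705) 32 15, c (-73761) 32 16, c 2458 1 19, c 4909 16 26, c 2437 8 27, c (-217) 512 29, c 470991 256 10, c (-68845) 64 6, c (-2149) 2 7, c 14 1 1, c (-1178153) 512 14, c 78565 64 18, c 68733 64 21, c 2149 2 22, c 78425 256 25, c 7 32 30, c (-1078) 1 32, c (-309) 1 0, c 7 1 33]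
def p98442 : Poly := [r 17559 2695 [0, 0, 0, 0, 0], r 196 1 [2, 4], r (-4167) 7 [14], r (-6103) 7 [3, 3], r 28 1 [15]]
def c98442 : LC ℕ := [c 53 16 30, c 1633927 57344 4, c 595799 112 3, c (-2082) 1 32, c 133127 64 21, c 1064813 1792 25, c (-4167) 7 0, c 199631 56 11, c (-4161) 2 7, c 4161 2 22, c 32989 16 23, c (-33109) 16 9, c (-31011) 7 17, c 16549 7 20, c 33307 16 24, c (-33307) 16 8, c 99903 28 12, c (-498997) 112 15, c (-499389) 112 16, c 33280 7 19, c 1064393 448 18, c (-15961597) 3584 14, c 6383579 1792 10, c (-133367) 64 6, c 33385 56 26, c 16325 28 27, c 33343 56 28, c 198273 56 13, c (-235) 512 29, c 28 1 1, c (-83) 16 31, c 15 1 33, c (-2) 1 34]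
def p98469 : Poly := [r (-18399) 2695 [0, 0, 0, 0, 0], r 6250 7 [3, 3], r 4146 7 [14], r (-196) 1 [2, 4], r (-28) 1 [15]]
def c98469 : LC ℕ := [c 30794 7 17, c (-16430) 7 20, c 63 16 31, c (-33091) 56 28, c (-198035) 56 11, c (-1292411) 57344 4, c (-591515) 112 3, c (-32793) 16 23, c 32913 16 9, c (-196957) 56 13, c (-33055) 16 24, c 33055 16 8, c (-99147) 28 12, c 495161 112 15, c 495609 112 16, c (-33028) 7 19, c (-33021) 56 26, c (-16297) 28 27, c 183 256 29, c (-3165543) 896 10, c 66127 32 6, c 2063 1 7, c 7917137 1792 14, c (-527965) 224 18, c (-66007) 32 21, c (-2063) 1 22, c (-527489) 896 25, c (-17) 16 30, c 2068 1 32, c 4146 7 0, c (-15) 1 33, c 1 1 34, c (-28) 1 1]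
def p98496 : Poly := [r (-27143) 2695 [0, 0, 0, 0, 0], r (-245) 1 [2, 4], r (-35) 1 [15], r 17215 14 [3, 3], r 9915 14 [14]]
def c98496 : LC ℕ := [c 745 1024 29, c (-15170745) 3584 10, c 317045 128 6, c (-948585) 224 11, c 9885 4 7, c (-35) 1 1, c 37936015 7168 14, c (-2529875) 896 18, c (-316405) 128 21, c (-7353209) 229376 4, c (-9885) 4 22, c (-2832217) 448 3, c (-156843) 64 23, c 157483 64 9, c (-942383) 224 13, c 36840 7 17, c (-39317) 14 20, c (-158357) 64 24, c 158357 64 8, c (-474961) 112 12, c 2371515 448 15, c 2374035 448 16, c (-39548) 7 19, c (-2530015) 3584 25, c (-158535) 224 26, c (-77759) 112 27, c (-158577) 224 28, c (-195) 64 30, c 325 64 31, c 2475 1 32, c 9915 14 0, c (-20) 1 33, c 5 2 34]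
def p98577 : Poly := [r (-20575) 14 [3, 3], r 34297 2695 [0, 0, 0, 0, 0], r 245 1 [2, 4], r 35 1 [15], r (-9915) 14 [14]]
def c98577 : LC ℕ := [c 39317 14 20, c (-385) 64 31, c 158605 224 28, c 948725 224 11, c 8326405 229376 4, c 2830565 448 3, c 156815 64 23, c (-157455) 64 9, c 942355 224 13, c (-36840) 7 17, c 158385 64 24, c (-158385) 64 8, c 475045 112 12, c (-2371935) 448 15, c (-2374455) 448 16, c 39555 7 19, c 158395 224 26, c 77675 112 27, c (-745) 1024 29, c 15170745 3584 10, c (-317045) 128 6, c (-9885) 4 7, c 35 1 1, c (-37936015) 7168 14, c 2529875 896 18, c 316405 128 21, c 9885 4 22, c 2530015 3584 25, c 135 64 30, c (-2475) 1 32, c (-9915) 14 0, c 20 1 33, c (-5) 2 34]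
def p98658 : Poly := [r 8479 1225 [0, 0, 0, 0, 0], r (-6250) 7 [3, 3], r (-4146) 7 [14], r 196 1 [2, 4], r 28 1 [15]]
def c98658 : LC ℕ := [c 33091 56 28, c 198035 56 11, c 1235179 57344 4, c 591627 112 3, c 32793 16 23, c (-32913) 16 9, c 196957 56 13, c (-30794) 7 17, c 16430 7 20, c 33055 16 24, c (-33055) 16 8, c 99147 28 12, c (-495161) 112 15, c (-495609) 112 16, c 33028 7 19, c 33021 56 26, c 16297 28 27, c (-183) 256 29, c 3165543 896 10, c (-66127) 32 6, c (-2063) 1 7, c (-7917137) 1792 14, c 527965 224 18, c 66007 32 21, c 2063 1 22, c 527489 896 25, c 17 16 30, c (-47) 16 31, c (-2068) 1 32, c (-4146) 7 0, c 15 1 33, c (-1) 1 34, c 28 1 1]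
def p98901 : Poly := [r (-90217) 13475 [0, 0, 0, 0, 0], r (-196) 1 [2, 4], r 4167 7 [14], r 6103 7 [3, 3], r (-28) 1 [15]]
def c98901 : LC ℕ := [c 2082 1 32, c (-133127) 64 21, c (-1691159) 57344 4, c (-1064813) 1792 25, c 4167 7 0, c (-199631) 56 11, c 4161 2 7, c (-4161) 2 22, c (-595687) 112 3, c (-32989) 16 23, c 33109 16 9, c 31011 7 17, c (-16549) 7 20, c (-33307) 16 24, c 33307 16 8, c (-99903) 28 12, c 498997 112 15, c 499389 112 16, c (-33280) 7 19, c (-1064393) 448 18, c 15961597 3584 14, c (-6383579) 1792 10, c 133367 64 6, c (-33385) 56 26, c (-16325) 28 27, c (-33343) 56 28, c (-198273) 56 13, c 235 512 29, c (-28) 1 1, c (-37) 16 30, c 83 16 31, c (-15) 1 33, c 2 1 34]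
def p99144 : Poly := [r (-479) 1 [2, 4], r 2263 385 [0, 0, 0, 0, 0], r 35 1 [3, 3], r (-14) 1 [15], r 309 1 [14]]
def c99144 : LC ℕ := [c (-2429) 8 27, c (-29365) 16 13, c 2296 1 17, c (-1225) 1 20, c (-147715) 16384 4, c (-88099) 32 3, c 49 32 31, c (-4923) 16 28, c (-29475) 16 11, c (-34223) 32 23, c 34335 32 9, c (-34433) 32 24, c 34433 32 8, c (-14755) 8 12, c 73705 32 15, c 73761 32 16, c (-2458) 1 19, c (-4909) 16 26, c 217 512 29, c (-470991) 256 10, c 68845 64 6, c 2149 2 7, c (-14) 1 1, c 1178153 512 14, c (-78565) 64 18, c (-68733) 64 21, c (-2149) 2 22, c (-78425) 256 25, c (-7) 32 30, c 1078 1 32, c 309 1 0, c (-7) 1 33]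
def p99873 : Poly := [r (-4749) 14 [14], r (-310) 539 [0, 0, 0, 0, 0], r (-1129) 14 [3, 3], r 98 1 [2, 4], r 14 1 [15]]
def c99873 : LC ℕ := [c (-1) 2 34, c 7276929 3584 10, c (-4749) 14 0, c (-151901) 128 6, c 227693 112 11, c (-4747) 4 7, c (-18195847) 7168 14, c 1213259 896 18, c 151709 128 21, c 1370045 114688 4, c 4747 4 22, c 680237 224 3, c 37671 32 23, c (-37767) 32 9, c 226363 112 13, c (-17702) 7 17, c 18891 14 20, c 37945 32 24, c (-37945) 32 8, c 113829 56 12, c (-568991) 224 15, c (-569103) 224 16, c 18968 7 19, c 1213399 3584 25, c 38139 112 26, c 18667 56 27, c 37957 112 28, c (-177) 1024 29, c (-1187) 1 32, c 14 1 1, c 47 32 30, c (-81) 32 31, c 6 1 33]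
def p100602 : Poly := [r (-21431) 2695 [0, 0, 0, 0, 0], r 406 1 [2, 4], r 1730 7 [3, 3], r 4 1 [15], r (-618) 7 [14]]
def c100602 : LC ℕ := [c 4905 16 23, c (-4921) 16 9, c 29461 56 13, c (-4607) 7 17, c 2458 7 20, c 74131 57344 4, c 88243 112 3, c (-7) 16 31, c 4923 56 28, c 29475 56 11, c 4919 16 24, c (-4919) 16 8, c 14755 28 12, c (-73705) 112 15, c (-73761) 112 16, c 4916 7 19, c 4909 56 26, c 2437 28 27, c (-31) 256 29, c 470991 896 10, c (-9835) 32 6, c (-307) 1 7, c 4 1 1, c (-1178153) 1792 14, c 78565 224 18, c 9819 32 21, c 307 1 22, c 78425 896 25, c 1 16 30, c (-308) 1 32, c (-618) 7 0, c 2 1 33]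
def p102789 : Poly := [r 27301 2695 [0, 0, 0, 0, 0], r (-532) 1 [2, 4], r 564 7 [14], r (-2102) 7 [3, 3], r (-4) 1 [15]]
def c102789 : LC ℕ := [c (-1) 1 33, c (-18043) 64 21, c (-110293) 28672 4, c (-144377) 1792 25, c 564 7 0, c (-13501) 28 11, c 563 2 7, c (-563) 2 22, c (-40349) 56 3, c (-2235) 8 23, c 2239 8 9, c 4202 7 17, c (-2242) 7 20, c (-2249) 8 24, c 2249 8 8, c (-6747) 14 12, c 33735 56 15, c 33735 56 16, c (-4498) 7 19, c (-144293) 448 18, c 2164297 3584 14, c (-865583) 1792 10, c 18059 64 6, c (-2263) 28 26, c (-1107) 14 27, c (-2249) 28 28, c (-13431) 28 13, c 282 1 32, c (-1) 512 29, c (-3) 8 30, c 5 8 31, c (-4) 1 1]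
def p104976 : Poly := [r 256 55 [0, 0, 0, 0, 0], r (-1) 2 [16], r (-1) 2 [15], r (-256) 1 [2, 4], r (-128) 1 [3, 3]]
def c104976 : LC ℕ := [c (-1) 2 2, c (-1) 2 1, c (-23) 32 4, c (-1) 32 29, c (-13) 16 10, c 1 2 6, c 31 32 14, c (-1) 2 18, c (-1) 2 21, c (-3) 16 25]
def p111537 : Poly := [r (-511) 110 [0, 0, 0, 0, 0], r 511 4 [3, 3], r 511 2 [2, 4], r 1 2 [15]]
def c111537 : LC ℕ := [c (-7) 128 31, c (-3) 64 28, c (-27) 64 11, c 62357 65536 4, c (-107) 128 3, c (-39) 128 23, c 39 128 9, c (-29) 64 13, c 1 2 17, c (-1) 4 20, c (-25) 128 24, c 25 128 8, c (-11) 32 12, c 65 128 15, c 57 128 16, c (-1) 2 19, c (-5) 64 26, c (-5) 32 27, c 1 64 29, c 13 32 10, c (-1) 4 6, c 1 4 7, c 1 2 1, c (-31) 64 14, c 1 4 18, c 1 4 21, c (-1) 4 22, c 3 32 25, c 1 128 30]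
def b10 : Block :=
  ([w10x0, w10x1, w10x2, w10x3, w10x4, w10x5, w10x6, w10x7, w10x8, w10x9, w10x10, w10x11, w10x12, w10x13, w10x14, w10x15, w10x16, w10x17, w10x18, w10x19, w10x20, w10x21, w10x22, w10x23, w10x24, w10x25, w10x26, w10x27, w10x28, w10x29, w10x30, w10x31, w10x32, w10x33, w10x34],
   [(78732, p78732, c78732), (78735, p78735, c78735), (78738, p78738, c78738), (78741, p78741, c78741), (78750, p78750, c78750), (78759, p78759, c78759), (78786, p78786, c78786), (78813, p78813, c78813), (78894, p78894, c78894), (78975, p78975, c78975), (79218, p79218, c79218), (79461, p79461, c79461), (80190, p80190, c80190), (80919, p80919, c80919), (83106, p83106, c83106), (85293, p85293, c85293), (91854, p91854, c91854), (98415, p98415, c98415), (98417, p98417, c98417), (98421, p98421, c98421), (98424, p98424, c98424), (98433, p98433, c98433), (98442, p98442, c98442), (98469, p98469, c98469), (98496, p98496, c98496),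 (98577, p98577, c98577), (98658, p98658, c98658), (98901, p98901, c98901), (99144, p99144, c99144), (99873, p99873, c99873), (100602, p100602, c100602), (102789, p102789, c102789), (104976, p104976, c104976), (111537, p111537, c111537)])

def t10 : Tab2 :=
  [(78732, p78732), (78735, p78735), (78738, p78738), (78741, p78741), (78750, p78750), (78759, p78759), (78786, p78786), (78813, p78813), (78894, p78894), (78975, p78975), (79218, p79218), (79461, p79461), (80190, p80190), (80919, p80919), (83106, p83106), (85293, p85293), (91854, p91854), (98415, p98415), (98417, p98417), (98421, p98421), (98424, p98424), (98433, p98433), (98442, p98442), (98469, p98469), (98496, p98496), (98577, p98577), (98658, p98658), (98901, p98901), (99144, p99144), (99873, p99873), (100602, p100602), (102789, p102789), (104976, p104976), (111537, p111537), (26244, p26244), (32805, p32805), (8748, p8748), (8751, p8751), (8754, p8754),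 (8757, p8757), (8766, p8766), (8775, p8775), (8802, p8802), (8829, p8829), (8910, p8910), (8991, p8991), (9234, p9234), (9477, p9477), (10206, p10206), (10935, p10935), (10937, p10937), (10941, p10941), (10944, p10944), (10953, p10953), (10962, p10962), (10989, p10989), (11016, p11016), (11097, p11097), (11178, p11178), (11421, p11421), (11664, p11664), (12393, p12393), (2916, p2916), (3645, p3645), (972, p972), (975, p975), (978, p978), (981, p981), (990, p990), (999, p999), (1026, p1026), (1053, p1053), (1134, p1134), (1215, p1215), (1217, p1217), (1221, p1221), (1224, p1224), (1233, p1233), (1242, p1242), (1269, p1269), (1296, p1296), (1377, p1377), (324, p324), (405, p405), (108, p108), (111, p111), (114, p114), (117, p117), (126, p126), (135, p135), (137, p137), (138, p138), (141, p141), (144, p144), (153, p153), (36, p36), (45, p45), (12, p12), (15, p15), (3, p3), (4, p4), (5, p5)]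

def w11x0 : Tag × Poly := (.bas 6, [r (-1) 1 [236296], r (-1) 1 [295345], r (-1) 1 [6]])
def w11x1 : Tag × Poly := (.dd 11, [r 1 1 [295345], r 1023 1024 [236296]])
def p236196 : Poly := [r (-1024) 1 [6]]
def c236196 : LC ℕ := [c (-1024) 1 0, c (-1024) 1 1]
def p295245 : Poly := [r 1023 1 [6]]
def c295245 : LC ℕ := [c 1024 1 1, c 1023 1 0]
def b11 : Block :=
  ([w11x0, w11x1],
   [(236196, p236196, c236196), (295245, p295245, c295245)])

def t11 : Tab2 :=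
  [(236196, p236196), (295245, p295245), (78732, p78732), (78735, p78735), (78738, p78738), (78741, p78741), (78750, p78750), (78759, p78759), (78786, p78786), (78813, p78813), (78894, p78894), (78975, p78975), (79218, p79218), (79461, p79461), (80190, p80190), (80919, p80919), (83106, p83106), (85293, p85293), (91854, p91854), (98415, p98415), (98417, p98417), (98421, p98421), (98424, p98424), (98433, p98433), (98442, p98442), (98469, p98469), (98496, p98496), (98577, p98577), (98658, p98658), (98901, p98901), (99144, p99144), (99873, p99873), (100602, p100602), (102789, p102789), (104976, p104976), (111537, p111537), (26244, p26244), (32805, p32805), (8748, p8748), (8751, p8751), (8754, p8754), (8757, p8757), (8766, p8766), (8775, p8775), (8802, p8802), (8829, p8829), (8910, p8910), (8991, p8991), (9234, p9234), (9477, p9477), (10206, p10206), (10935, p10935), (10937, p10937), (10941, p10941), (10944, p10944),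 (10953, p10953), (10962, p10962), (10989, p10989), (11016, p11016), (11097, p11097), (11178, p11178), (11421, p11421), (11664, p11664), (12393, p12393), (2916, p2916), (3645, p3645), (972, p972), (975, p975), (978, p978), (981, p981), (990, p990), (999, p999), (1026, p1026), (1053, p1053), (1134, p1134), (1215, p1215), (1217, p1217), (1221, p1221), (1224, p1224), (1233, p1233), (1242, p1242), (1269, p1269), (1296, p1296), (1377, p1377), (324, p324), (405, p405), (108, p108), (111, p111), (114, p114), (117, p117), (126, p126), (135, p135), (137, p137), (138, p138), (141, p141), (144, p144), (153, p153), (36, p36), (45, p45), (12, p12), (15, p15), (3, p3), (4, p4), (5, p5)]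

def w12x0 : Tag × Poly := (.bas 17, [r 1 1 [715249], r 1 1 [721810], r 1 1 [892396], r 1 1 [898957], r (-1) 1 [17]])
def w12x1 : Tag × Poly := (.bas 18, [r 1 1 [715249], r 1 1 [721810], r (-1) 1 [892396], r (-1) 1 [898957], r (-1) 1 [18]])
def w12x2 : Tag × Poly := (.bas 19, [r 1 1 [767737], r (-1) 1 [826786], r (-1) 1 [944884], r 1 1 [1003933], r (-1) 1 [19]])
def w12x3 : Tag × Poly := (.bas 20, [r 1 1 [767737], r 1 1 [826786], r (-1) 1 [944884], r (-1) 1 [1003933], r (-1) 1 [20]])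
def w12x4 : Tag × Poly := (.dd 12, [r 1 1 [885835], r 2047 2048 [708688]])
def w12x5 : Tag × Poly := (.ze 6, [r 1 1 [708688], r 2830336 875875 [0, 0, 0, 0, 0, 0]])
def w12x6 : Tag × Poly := (.sh [0, 1] [0, 0, 0, 0, 0, 0, 0, 0, 0, 1], [r 10 1 [728371], r 20 1 [767737], r 8 1 [715249], r 7 1 [710875], r 6 1 [709417], r 5 1 [708931], r 4 1 [708769], r 3 1 [708715], r 2 1 [708697], r 1 1 [708691], r (-2048) 385 [0, 0, 0, 0, 0, 0]])
def w12x7 : Tag × Poly := (.sh [0, 1] [0, 0, 0, 0, 0, 0, 0, 0, 0, -1], [r 1 1 [748054], r 10 1 [826786], r 10 1 [944884], r 9 1 [905518], r 8 1 [892396], r 7 1 [888022], r 6 1 [886564], r 5 1 [886078], r 4 1 [885916], r 3 1 [885862], r 2 1 [885844], r 1 1 [885838], r 292 55 [0, 0, 0, 0, 0, 0]])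
def w12x8 : Tag × Poly := (.sh [0, -1] [0, 0, 0, 0, 0, 0, 0, 0, 0, 1], [r 1 1 [905518], r 10 1 [944884], r 10 1 [826786], r 9 1 [748054], r 8 1 [721810], r 7 1 [713062], r 6 1 [710146], r 5 1 [709174], r 4 1 [708850], r 3 1 [708742], r 2 1 [708706], r 1 1 [708694], r 1024 385 [0, 0, 0, 0, 0, 0]])
def w12x9 : Tag × Poly := (.sh [0, -1] [0, 0, 0, 0, 0, 0, 0, 0, 0, -1], [r 10 1 [925201], r 20 1 [1003933], r 8 1 [898957], r 7 1 [890209], r 6 1 [887293], r 5 1 [886321], r 4 1 [885997], r 3 1 [885889], r 2 1 [885853], r 1 1 [885841], r (-146) 55 [0, 0, 0, 0, 0, 0]])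
def w12x10 : Tag × Poly := (.sh [0, 0, 1] [0, 0, 0, 0, 0, 0, 0, 0, 1], [r 29 1 [715249], r 45 1 [728371], r 90 1 [767737], r 21 1 [710875], r 15 1 [709417], r 10 1 [708931], r 6 1 [708769], r 3 1 [708715], r 1 1 [708697], r (-1024) 1 [2, 5]])
def w12x11 : Tag × Poly := (.sh [0, 0, 1] [0, 0, 0, 0, 0, 0, 0, 0, -1], [r 1 1 [721810], r 9 1 [748054], r 45 1 [826786], r 45 1 [944884], r 36 1 [905518], r 28 1 [892396], r 21 1 [888022], r 15 1 [886564], r 10 1 [886078], r 6 1 [885916], r 3 1 [885862], r 1 1 [885844], r 1020 1 [2, 5]])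
def w12x12 : Tag × Poly := (.sh [0, 0, -1] [0, 0, 0, 0, 0, 0, 0, 0, 1], [r 1 1 [892396], r 9 1 [905518], r 45 1 [944884], r 45 1 [826786], r 36 1 [748054], r 28 1 [721810], r 21 1 [713062], r 15 1 [710146], r 10 1 [709174], r 6 1 [708850], r 3 1 [708742], r 1 1 [708706], r 768 1 [2, 5]])
def w12x13 : Tag × Poly := (.sh [0, 0, -1] [0, 0, 0, 0, 0, 0, 0, 0, -1], [r 29 1 [898957], r 45 1 [925201], r 90 1 [1003933], r 21 1 [890209], r 15 1 [887293], r 10 1 [886321], r 6 1 [885997], r 3 1 [885889], r 1 1 [885853], r (-765) 1 [2, 5]])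
def w12x14 : Tag × Poly := (.sh [0, 0, 0, 1] [0, 0, 0, 0, 0, 0, 0, 1], [r 36 1 [710875], r 64 1 [715249], r 120 1 [728371], r 240 1 [767737], r 20 1 [709417], r 10 1 [708931], r 4 1 [708769], r 1 1 [708715], r (-3072) 875 [0, 0, 0, 0, 0, 0]])
def w12x15 : Tag × Poly := (.sh [0, 0, 0, 1] [0, 0, 0, 0, 0, 0, 0, -1], [r 1 1 [713062], r 8 1 [721810], r 36 1 [748054], r 120 1 [826786], r 120 1 [944884], r 84 1 [905518], r 56 1 [892396], r 35 1 [888022], r 20 1 [886564], r 10 1 [886078], r 4 1 [885916], r 1 1 [885862], r 3048 875 [0, 0, 0, 0, 0, 0]])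
def w12x16 : Tag × Poly := (.sh [0, 0, 0, -1] [0, 0, 0, 0, 0, 0, 0, 1], [r 1 1 [888022], r 8 1 [892396], r 36 1 [905518], r 120 1 [944884], r 120 1 [826786], r 84 1 [748054], r 56 1 [721810], r 35 1 [713062], r 20 1 [710146], r 10 1 [709174], r 4 1 [708850], r 1 1 [708742], r 384 125 [0, 0, 0, 0, 0, 0]])
def w12x17 : Tag × Poly := (.sh [0, 0, 0, -1] [0, 0, 0, 0, 0, 0, 0, -1], [r 36 1 [890209], r 64 1 [898957], r 120 1 [925201], r 240 1 [1003933], r 20 1 [887293], r 10 1 [886321], r 4 1 [885997], r 1 1 [885889], r (-381) 125 [0, 0, 0, 0, 0, 0]])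
def w12x18 : Tag × Poly := (.sh [0, 0, 0, 0, 1] [0, 0, 0, 0, 0, 0, 1], [r 16 1 [709417], r 42 1 [710875], r 98 1 [715249], r 210 1 [728371], r 420 1 [767737], r 5 1 [708931], r 1 1 [708769], r (-1024) 1 [3, 4]])
def w12x19 : Tag × Poly := (.sh [0, 0, 0, 0, 1] [0, 0, 0, 0, 0, 0, -1], [r 1 1 [710146], r 7 1 [713062], r 28 1 [721810], r 84 1 [748054], r 210 1 [826786], r 210 1 [944884], r 126 1 [905518], r 70 1 [892396], r 35 1 [888022], r 15 1 [886564], r 5 1 [886078], r 1 1 [885916], r 1008 1 [3, 4]])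
def w12x20 : Tag × Poly := (.sh [0, 0, 0, 0, -1] [0, 0, 0, 0, 0, 0, 1], [r 1 1 [886564], r 7 1 [888022], r 28 1 [892396], r 84 1 [905518], r 210 1 [944884], r 210 1 [826786], r 126 1 [748054], r 70 1 [721810], r 35 1 [713062], r 15 1 [710146], r 5 1 [709174], r 1 1 [708850], r 960 1 [3, 4]])
def w12x21 : Tag × Poly := (.sh [0, 0, 0, 0, -1] [0, 0, 0, 0, 0, 0, -1], [r 16 1 [887293], r 42 1 [890209], r 98 1 [898957], r 210 1 [925201], r 420 1 [1003933], r 5 1 [886321], r 1 1 [885997], r (-945) 1 [3, 4]])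
def w12x22 : Tag × Poly := (.sh [0, 0, 0, 0, 0, 1] [0, 0, 0, 0, 0, 1], [r 2 1 [708931], r 12 1 [709417], r 42 1 [710875], r 112 1 [715249], r 252 1 [728371], r 504 1 [767737], r (-4096) 1225 [0, 0, 0, 0, 0, 0]])
def w12x23 : Tag × Poly := (.sh [0, 0, 0, 0, 0, 1] [0, 0, 0, 0, 0, -1], [r 1 1 [709174], r 6 1 [710146], r 21 1 [713062], r 56 1 [721810], r 126 1 [748054], r 252 1 [826786], r 252 1 [944884], r 126 1 [905518], r 56 1 [892396], r 21 1 [888022], r 6 1 [886564], r 1 1 [886078], r 3968 1225 [0, 0, 0, 0, 0, 0]])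
def w12x24 : Tag × Poly := (.sh [0, 0, 0, 0, 0, -1] [0, 0, 0, 0, 0, -1], [r 2 1 [886321], r 12 1 [887293], r 42 1 [890209], r 112 1 [898957], r 252 1 [925201], r 504 1 [1003933], r (-3844) 1225 [0, 0, 0, 0, 0, 0]])
def w12x25 : Tag × Poly := (.st 2 1 10 1, [r 1 1 [728371], r 1 1 [708691], r (-1) 1 [708688], r (-2048) 385 [0, 0, 0, 0, 0, 0]])
def w12x26 : Tag × Poly := (.st 2 1 10 (-1), [r 1 1 [925201], r 1 1 [885838], r (-1) 1 [885835], r 292 55 [0, 0, 0, 0, 0, 0]])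
def w12x27 : Tag × Poly := (.st 2 (-1) 10 1, [r 1 1 [905518], r 1 1 [885841], r (-1) 1 [885835], r 1024 385 [0, 0, 0, 0, 0, 0]])
def w12x28 : Tag × Poly := (.st 2 (-1) 10 (-1), [r 1 1 [748054], r 1 1 [708694], r (-1) 1 [708688], r (-146) 55 [0, 0, 0, 0, 0, 0]])
def w12x29 : Tag × Poly := (.st 3 1 9 1, [r 1 1 [715249], r 1 1 [708697], r (-1) 1 [708688], r (-1024) 1 [2, 5]])
def w12x30 : Tag × Poly := (.st 3 1 9 (-1), [r 1 1 [898957], r 1 1 [885844], r (-1) 1 [885835], r 1020 1 [2, 5]])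
def w12x31 : Tag × Poly := (.st 3 (-1) 9 1, [r 1 1 [892396], r 1 1 [885853], r (-1) 1 [885835], r 768 1 [2, 5]])
def w12x32 : Tag × Poly := (.st 3 (-1) 9 (-1), [r 1 1 [721810], r 1 1 [708706], r (-1) 1 [708688], r (-765) 1 [2, 5]])
def w12x33 : Tag × Poly := (.st 4 1 8 1, [r 1 1 [710875], r 1 1 [708715], r (-1) 1 [708688], r (-3072) 875 [0, 0, 0, 0, 0, 0]])
def w12x34 : Tag × Poly := (.st 4 1 8 (-1), [r 1 1 [890209], r 1 1 [885862], r (-1) 1 [885835], r 3048 875 [0, 0, 0, 0, 0, 0]])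
def w12x35 : Tag × Poly := (.st 4 (-1) 8 1, [r 1 1 [888022], r 1 1 [885889], r (-1) 1 [885835], r 384 125 [0, 0, 0, 0, 0, 0]])
def w12x36 : Tag × Poly := (.st 4 (-1) 8 (-1), [r 1 1 [713062], r 1 1 [708742], r (-1) 1 [708688], r (-381) 125 [0, 0, 0, 0, 0, 0]])
def w12x37 : Tag × Poly := (.st 5 1 7 1, [r 1 1 [709417], r 1 1 [708769], r (-1) 1 [708688], r (-1024) 1 [3, 4]])
def w12x38 : Tag × Poly := (.st 5 1 7 (-1), [r 1 1 [887293], r 1 1 [885916], r (-1) 1 [885835], r 1008 1 [3, 4]])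
def w12x39 : Tag × Poly := (.di 2 10, [r 1023 1024 [728371], r 1 1 [925201], r 1 1 [905518], r 1 1 [748054]])
def w12x40 : Tag × Poly := (.gd 2 10, [r 511 128 [728371], r (-1) 2 [748054], r 5 1 [767737], r 5 1 [1003933], r 509 512 [708688], r 9 2 [925201], r 255 64 [715249], r 4 1 [898957], r 889 256 [710875], r 7 2 [890209], r 189 64 [709417], r 3 1 [887293], r 155 64 [708931], r 5 2 [886321], r 15 8 [708769], r 2 1 [885997], r 21 16 [708715], r 3 2 [885889], r 3 4 [708697], r 1 1 [885853], r 1 4 [708691], r 1 2 [885841]])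
def w12x41 : Tag × Poly := (.gd 4 8, [r 2159 128 [710875], r (-1) 2 [713062], r 60 1 [767737], r 2685 64 [728371], r 893 32 [715249], r 60 1 [1003933], r 227 256 [708688], r 42 1 [925201], r 28 1 [898957], r 35 2 [890209], r 315 32 [709417], r 10 1 [887293], r 155 32 [708931], r 5 1 [886321], r 15 8 [708769], r 2 1 [885997], r 7 16 [708715], r 1 2 [885889]])
def p708588 : Poly := [r (-2830336) 875875 [0, 0, 0, 0, 0, 0]]
def c708588 : LC ℕ := [c 1 1 5]
def p715149 : Poly := [r 1024 1 [17]]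
def c715149 : LC ℕ := [c 1024 1 0, c (-8192) 1 11, c 4608 1 7, c (-4608) 1 26, c (-11264) 1 4, c (-4608) 1 27, c 4608 1 9, c 10752 1 17, c (-12288) 1 21, c 6400 1 24, c (-4608) 1 28, c 4608 1 8, c (-8192) 1 12, c 10752 1 15, c 10752 1 16, c (-12288) 1 20, c 12800 1 23, c (-1024) 1 30, c (-1024) 1 31, c (-1024) 1 32, c (-8192) 1 13, c 21483 2 14, c (-8184) 1 10, c 9207 2 6, c (-12276) 1 18, c 25575 4 22, c (-9207) 2 25, c (-1023) 1 29, c (-12288) 1 19, c 4608 1 39]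
def p721710 : Poly := [r (-2047) 2 [17], r 1 2 [18]]
def c721710 : LC ℕ := [c 8192 1 11, c (-4608) 1 7, c 4608 1 26, c 11264 1 4, c 4608 1 27, c (-4608) 1 9, c (-10752) 1 17, c 12288 1 21, c (-6400) 1 24, c 4608 1 28, c (-4608) 1 8, c 8192 1 12, c (-10752) 1 15, c (-10752) 1 16, c 12288 1 20, c (-12800) 1 23, c 1024 1 30, c 1024 1 31, c 1024 1 32, c 8192 1 13, c (-21483) 2 14, c 8184 1 10, c (-9207) 2 6, c 12276 1 18, c (-25575) 4 22, c 9207 2 25, c 1023 1 29, c 12288 1 19, c (-4608) 1 39, c (-2047) 2 0, c 1 2 1]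
def p728271 : Poly := [r (-12028928) 716625 [0, 0, 0, 0, 0, 0], r 2048 1 [2, 5], r (-2048) 9 [17], r 8192 3 [3, 4]]
def c728271 : LC ℕ := [c 1024 1 25, c 11 9 5, c 2048 9 29, c (-2048) 9 0, c 16384 9 11, c (-1024) 1 7, c 1024 1 26, c 22528 9 4, c 1024 1 27, c (-1024) 1 9, c (-7168) 3 17, c 8192 3 21, c (-12800) 9 24, c 1024 1 28, c (-1024) 1 8, c 16384 9 12, c (-7168) 3 15, c (-7168) 3 16, c 8192 3 20, c (-25600) 9 23, c (-12800) 9 22, c (-7168) 3 14, c 16384 9 10, c (-1024) 1 6, c 8192 3 18, c 2048 9 30, c 2048 9 31, c 2048 9 32, c 16384 9 13, c 8192 3 19, c (-1024) 1 39]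
def p767637 : Poly := [r 6368256 875875 [0, 0, 0, 0, 0, 0], r (-1024) 1 [2, 5], r (-1024) 1 [3, 4]]
def c767637 : LC ℕ := [c (-41) 50 5, c (-1) 50 37, c 23 25 14, c (-39) 50 10, c 1 2 6, c (-49) 50 18, c 1 2 22, c (-1) 2 25, c (-11) 50 29, c (-2) 25 33]
def p826686 : Poly := [r 1 2 [20], r 2047 2 [3, 4], r 2047 2 [2, 5], r (-12730293) 1751750 [0, 0, 0, 0, 0, 0]]
def c826686 : LC ℕ := [c 1 2 3, c (-3) 100 38, c (-13) 100 31, c (-43) 100 13, c 49 100 17, c (-1) 2 21, c 1 4 24, c 212899 204800 5, c (-93) 100 4, c 1 100 37, c (-23) 50 14, c 39 100 10, c (-1) 4 6, c 49 100 18, c (-1) 4 22, c 1 4 25, c (-37) 100 11, c 1 4 7, c (-1) 4 26, c (-7) 25 27, c 7 25 9, c (-11) 50 28, c 11 50 8, c (-37) 100 12, c 43 100 15, c 23 50 16, c (-47) 100 19, c (-1) 2 20, c 1 2 23, c 11 100 29, c (-13) 100 30, c (-7) 100 32, c 1 25 33, c (-7) 100 34, c (-1) 25 35, c (-1) 100 36]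
def p885735 : Poly := [r 2828954 875875 [0, 0, 0, 0, 0, 0]]
def c885735 : LC ℕ := [c (-2047) 2048 5, c 1 1 4]
def p885744 : Poly := [r (-5421) 2 [2, 5], r 988059 134750 [0, 0, 0, 0, 0, 0], r 2369 2 [17], r 1 2 [18], r 1485 2 [3, 4], r (-45) 2 [19]]
def c885744 : LC ℕ := [c (-23563) 20 30, c (-108641) 8192 5, c (-259733) 20 4, c 5328 1 39, c (-681039) 128 25, c (-188811) 160 29, c 2369 2 0, c 1 2 1, c (-189267) 20 11, c 21285 4 7, c (-21285) 4 26, c (-26577) 5 27, c 53199 10 9, c 248199 20 17, c (-28371) 2 21, c 29555 4 24, c (-26613) 5 28, c 26613 5 8, c (-189267) 20 12, c 248463 20 15, c 62109 5 16, c (-28395) 2 20, c 14790 1 23, c 946335 128 22, c 15895323 1280 14, c (-3026853) 320 10, c 681327 128 6, c (-4542213) 320 18, c (-23563) 20 31, c (-23637) 20 32, c 63 20 34, c 9 5 35, c 9 20 36, c (-189053) 20 13, c 69 160 37, c (-45) 2 2, c 2223 1280 33, c 27 20 38, c (-283977) 20 19, c (-9) 1 40]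
def p885753 : Poly := [r 1845 2 [2, 5], r (-1528951) 1751750 [0, 0, 0, 0, 0, 0], r (-1185) 1 [17], r (-1485) 2 [3, 4], r 45 2 [19]]
def c885753 : LC ℕ := [c 23583 20 31, c (-1185) 1 0, c 92265 8192 5, c 259773 20 4, c (-5328) 1 39, c 681039 128 25, c 188811 160 29, c 189267 20 11, c (-21285) 4 7, c 21285 4 26, c 26577 5 27, c (-53199) 10 9, c (-248199) 20 17, c 28371 2 21, c (-29555) 4 24, c 26613 5 28, c (-26613) 5 8, c 189267 20 12, c (-248463) 20 15, c (-62109) 5 16, c 28395 2 20, c (-14790) 1 23, c (-946335) 128 22, c (-15895323) 1280 14, c 3026853 320 10, c (-681327) 128 6, c 4542213 320 18, c 23583 20 30, c 23637 20 32, c (-63) 20 34, c (-9) 5 35, c (-9) 20 36, c 189053 20 13, c (-69) 160 37, c 45 2 2, c (-2223) 1280 33, c (-27) 20 38, c 283977 20 19, c 9 1 40]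
def p885762 : Poly := [r (-25148021) 2627625 [0, 0, 0, 0, 0, 0], r (-7372) 3 [17], r (-11900) 1 [3, 4], r 12684 1 [2, 5], r (-4) 1 [18], r 60 1 [19]]
def c885762 : LC ℕ := [c (-35) 2 34, c 3605087 61440 5, c 160867 6 4, c 1 1 41, c 9384971 480 10, c (-7372) 3 0, c (-704163) 64 6, c 58670 3 11, c (-10986) 1 7, c (-16437347) 640 14, c 4698457 160 18, c (-2936905) 192 22, c 703587 64 25, c 10986 1 26, c 11004 1 27, c (-11022) 1 9, c 58718 3 13, c (-51401) 2 17, c 29380 1 21, c (-45910) 3 24, c 11034 1 28, c (-11034) 1 8, c 58838 3 12, c (-51387) 2 15, c (-51473) 2 16, c 29406 1 20, c 582257 240 29, c 7246 3 30, c 7306 3 31, c 7366 3 32, c (-8167) 640 33, c (-91865) 3 23, c (-261) 80 37, c 29384 1 19, c (-11040) 1 39, c (-6) 1 35, c 1 2 36, c (-6) 1 38, c (-4) 1 1, c 36 1 40, c 60 1 2]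
def p885789 : Poly := [r 1532821 175175 [0, 0, 0, 0, 0, 0], r 12120 1 [3, 4], r (-12684) 1 [2, 5], r 4 1 [18], r 2452 1 [17], r (-60) 1 [19]]
def c885789 : LC ℕ := [c 128109 5 17, c (-29288) 1 21, c 15255 1 24, c (-12148) 5 31, c 4 1 1, c 2452 1 0, c (-97568) 5 13, c (-301723) 5120 5, c (-133558) 5 4, c 32 5 38, c 21 5 37, c 1023657 40 14, c (-389569) 20 10, c 87669 8 6, c (-585249) 20 18, c 121945 8 22, c (-87597) 8 25, c (-60) 1 2, c (-97412) 5 11, c 10942 1 7, c (-10942) 1 26, c (-54858) 5 27, c 54948 5 9, c (-55012) 5 28, c 55012 5 8, c (-97772) 5 12, c 128003 5 15, c 128286 5 16, c (-146412) 5 19, c (-29312) 1 20, c 30520 1 23, c (-12059) 5 29, c (-12008) 5 30, c (-12252) 5 32, c 647 40 33, c 103 5 34, c 31 5 35, c (-6) 5 36, c 11008 1 39, c (-36) 1 40, c (-2) 1 41]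
def p885816 : Poly := [r 24687 1 [3, 4], r 59128112 875875 [0, 0, 0, 0, 0, 0], r (-39060) 1 [2, 5], r (-105) 1 [19], r 6475 2 [17], r 25 2 [18]]
def c885816 : LC ℕ := [c 1683 160 37, c 43055541 1280 14, c (-8185491) 320 10, c 1841913 128 6, c (-12313491) 320 18, c 2566025 128 22, c (-1839321) 128 25, c (-105) 1 2, c 6475 2 0, c 25 2 1, c (-127879) 5 11, c 28685 2 7, c (-6045319) 40960 5, c (-28685) 2 26, c (-700119) 20 4, c (-144447) 10 27, c 72426 5 9, c (-128501) 5 13, c 675127 20 17, c (-38593) 1 21, c 40205 2 24, c (-72574) 5 28, c 72574 5 8, c (-128929) 5 12, c 336487 10 15, c 676353 20 16, c (-192624) 5 19, c (-38615) 1 20, c 80365 2 23, c (-502317) 160 29, c (-15546) 5 30, c (-15946) 5 31, c (-16219) 5 32, c 51841 1280 33, c 256 5 34, c 253 20 35, c (-93) 20 36, c 79 5 38, c 14512 1 39, c (-81) 1 40, c (-5) 1 41]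
def p885897 : Poly := [r (-24780) 1 [3, 4], r (-74192152) 875875 [0, 0, 0, 0, 0, 0], r 43659 1 [2, 5], r (-14) 1 [18], r (-3052) 1 [17], r 105 1 [19]]
def c885897 : LC ℕ := [c 36324 1 21, c (-18920) 1 24, c 30009 10 31, c (-14) 1 1, c (-3052) 1 0, c 241899 10 13, c (-317737) 10 17, c 3147697 20480 5, c 328769 10 4, c (-161) 10 38, c (-203) 16 37, c (-4047141) 128 14, c 769055 32 10, c (-864969) 64 6, c 1157695 32 18, c (-1206345) 64 22, c 863625 64 25, c 105 1 2, c 240261 10 11, c (-26929) 2 7, c 26929 2 26, c 67977 5 27, c (-68187) 5 9, c 68348 5 28, c (-68348) 5 8, c 242781 10 12, c (-158137) 5 15, c (-159159) 5 16, c 362271 10 19, c 36337 1 20, c (-37800) 1 23, c 46949 16 29, c 29029 10 30, c 30611 10 32, c (-6209) 128 33, c (-287) 5 34, c (-133) 10 35, c 63 10 36, c (-13664) 1 39, c 84 1 40, c 7 1 41]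
def p885978 : Poly := [r (-1704781) 13475 [0, 0, 0, 0, 0, 0], r 59136 1 [2, 5], r (-19) 1 [18], r (-3241) 1 [17], r (-30018) 1 [3, 4], r 126 1 [19]]
def c885978 : LC ℕ := [c 417 50 36, c (-1674711) 50 15, c 635637 25 11, c (-19) 1 1, c (-3241) 1 0, c 20699081 102400 5, c 1737721 50 4, c 360333 25 27, c (-361683) 25 9, c 641233 25 13, c (-1684833) 50 17, c 38526 1 21, c (-40135) 2 24, c 362667 25 28, c (-362667) 25 8, c 643967 25 12, c (-1688217) 50 16, c 959667 25 19, c (-40070) 1 23, c 76113 25 30, c 79433 25 31, c 81367 25 32, c (-3861) 50 34, c (-396) 25 35, c (-6597) 400 37, c (-107144979) 3200 14, c 20349209 800 10, c (-915399) 64 6, c 30657369 800 18, c (-1277927) 64 22, c 913671 64 25, c 126 1 2, c (-14235) 1 7, c 14235 1 26, c 38532 1 20, c 1235483 400 29, c (-201879) 3200 33, c (-567) 25 38, c (-14496) 1 39, c 108 1 40, c 9 1 41]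
def p886221 : Poly := [r 110802599 875875 [0, 0, 0, 0, 0, 0], r (-59136) 1 [2, 5], r 19 1 [18], r 3241 1 [17], r 30018 1 [3, 4], r (-126) 1 [19]]
def c886221 : LC ℕ := [c 40135 2 24, c (-79401) 25 31, c 19 1 1, c 3241 1 0, c (-641211) 25 13, c 1684821 50 17, c (-38526) 1 21, c (-20666439) 102400 5, c (-1737847) 50 4, c 519 25 38, c 6597 400 37, c 107144979 3200 14, c (-20349209) 800 10, c 915399 64 6, c (-30657369) 800 18, c 1277927 64 22, c (-913671) 64 25, c (-126) 1 2, c (-635599) 25 11, c 14235 1 7, c (-14235) 1 26, c (-360306) 25 27, c 361656 25 9, c (-362694) 25 28, c 362694 25 8, c (-643999) 25 12, c 1674597 50 15, c 1688259 50 16, c (-959619) 25 19, c (-38532) 1 20, c 40069 1 23, c (-1235483) 400 29, c (-76151) 25 30, c (-81389) 25 32, c 201879 3200 33, c 3747 50 34, c 417 25 35, c (-429) 50 36, c 14496 1 39, c (-108) 1 40, c (-9) 1 41]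
def p886464 : Poly := [r 77021106 875875 [0, 0, 0, 0, 0, 0], r (-43659) 1 [2, 5], r 14 1 [18], r 3052 1 [17], r 23820 1 [3, 4], r (-105) 1 [19]]
def c886464 : LC ℕ := [c 231 20 35, c (-30601) 10 32, c (-240271) 10 11, c 14 1 1, c 3052 1 0, c (-6111109) 40960 5, c (-657573) 20 4, c (-135969) 10 27, c 136389 10 9, c (-241909) 10 13, c 635479 20 17, c (-36324) 1 21, c 18920 1 24, c (-136681) 10 28, c 136681 10 8, c (-242761) 10 12, c 316289 10 15, c 636601 20 16, c (-362281) 10 19, c (-36336) 1 20, c (-29019) 10 30, c (-30029) 10 31, c 589 10 34, c (-121) 20 36, c 203 16 37, c 4047141 128 14, c (-769055) 32 10, c 864969 64 6, c (-1157695) 32 18, c 1206345 64 22, c (-863625) 64 25, c (-105) 1 2, c 26929 2 7, c (-26929) 2 26, c 37800 1 23, c (-46949) 16 29, c 6209 128 33, c 171 10 38, c 13664 1 39, c (-84) 1 40, c (-7) 1 41]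
def p887193 : Poly := [r 39060 1 [2, 5], r (-25) 2 [18], r (-6475) 2 [17], r (-56299158) 875875 [0, 0, 0, 0, 0, 0], r (-25695) 1 [3, 4], r 105 1 [19]]
def c887193 : LC ℕ := [c 15946 5 31, c (-25) 2 1, c (-6475) 2 0, c 128501 5 13, c (-675127) 20 17, c 38593 1 21, c (-40205) 2 24, c 6004379 40960 5, c 700139 20 4, c (-74) 5 38, c (-1683) 160 37, c (-43055541) 1280 14, c 8185491 320 10, c (-1841913) 128 6, c 12313491 320 18, c (-2566025) 128 22, c 1839321 128 25, c 105 1 2, c 127879 5 11, c (-28685) 2 7, c 28685 2 26, c 144447 10 27, c (-72426) 5 9, c 72574 5 28, c (-72574) 5 8, c 128929 5 12, c (-336487) 10 15, c (-676353) 20 16, c 192624 5 19, c 38615 1 20, c (-80365) 2 23, c 502317 160 29, c 15546 5 30, c 16219 5 32, c (-51841) 1280 33, c (-256) 5 34, c (-253) 20 35, c 93 20 36, c (-14512) 1 39, c 81 1 40, c 5 1 41]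
def p887922 : Poly := [r 12684 1 [2, 5], r (-7525839) 875875 [0, 0, 0, 0, 0, 0], r (-4) 1 [18], r (-2452) 1 [17], r (-12120) 1 [3, 4], r 60 1 [19]]
def c887922 : LC ℕ := [c (-4) 1 1, c (-2452) 1 0, c 593211 10240 5, c 133563 5 4, c 97568 5 13, c (-128109) 5 17, c 29288 1 21, c (-15255) 1 24, c 12148 5 31, c (-26) 5 35, c (-32) 5 38, c (-21) 5 37, c (-1023657) 40 14, c 389569 20 10, c (-87669) 8 6, c 585249 20 18, c (-121945) 8 22, c 87597 8 25, c 60 1 2, c 97412 5 11, c (-10942) 1 7, c 10942 1 26, c 54858 5 27, c (-54948) 5 9, c 55012 5 28, c (-55012) 5 8, c 97772 5 12, c (-128003) 5 15, c (-128286) 5 16, c 146412 5 19, c 29312 1 20, c (-30520) 1 23, c 12059 5 29, c 12008 5 30, c 12252 5 32, c (-647) 40 33, c (-103) 5 34, c 6 5 36, c (-11008) 1 39, c 36 1 40, c 2 1 41]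
def p890109 : Poly := [r 7372 3 [17], r 24481739 2627625 [0, 0, 0, 0, 0, 0], r 11900 1 [3, 4], r (-12684) 1 [2, 5], r 4 1 [18], r (-60) 1 [19]]
def c890109 : LC ℕ := [c (-1) 1 41, c (-9384971) 480 10, c 7372 3 0, c 704163 64 6, c (-58670) 3 11, c 10986 1 7, c 16437347 640 14, c (-4698457) 160 18, c 2936905 192 22, c (-703587) 64 25, c (-3666497) 61440 5, c (-10986) 1 26, c (-160861) 6 4, c (-11004) 1 27, c 11022 1 9, c (-58718) 3 13, c 51401 2 17, c (-29380) 1 21, c 45910 3 24, c (-11034) 1 28, c 11034 1 8, c (-58838) 3 12, c 51387 2 15, c 51473 2 16, c (-29406) 1 20, c (-582257) 240 29, c (-7246) 3 30, c (-7306) 3 31, c (-7366) 3 32, c 8167 640 33, c 91865 3 23, c 261 80 37, c (-29384) 1 19, c 11040 1 39, c 37 2 34, c 6 1 35, c (-1) 2 36, c 6 1 38, c 4 1 1, c (-36) 1 40, c (-60) 1 2]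
def p892296 : Poly := [r 1185 1 [17], r 7186859 1751750 [0, 0, 0, 0, 0, 0], r (-3381) 2 [2, 5], r 1485 2 [3, 4], r (-45) 2 [19]]
def c892296 : LC ℕ := [c 1185 1 0, c 5328 1 39, c (-681039) 128 25, c (-100453) 8192 5, c (-188811) 160 29, c (-189267) 20 11, c 21285 4 7, c (-21285) 4 26, c (-259753) 20 4, c (-26577) 5 27, c 53199 10 9, c 248199 20 17, c (-28371) 2 21, c 29555 4 24, c (-26613) 5 28, c 26613 5 8, c (-189267) 20 12, c 248463 20 15, c 62109 5 16, c (-28395) 2 20, c 14790 1 23, c 946335 128 22, c 15895323 1280 14, c (-3026853) 320 10, c 681327 128 6, c (-4542213) 320 18, c (-23583) 20 30, c (-23563) 20 31, c (-23637) 20 32, c 63 20 34, c 9 5 35, c 9 20 36, c (-189053) 20 13, c 69 160 37, c (-45) 2 2, c 2223 1280 33, c 27 20 38, c (-283977) 20 19, c (-9) 1 40]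
def p898857 : Poly := [r (-7186859) 1751750 [0, 0, 0, 0, 0, 0], r 3381 2 [2, 5], r (-2369) 2 [17], r (-1) 2 [18], r (-1485) 2 [3, 4], r 45 2 [19]]
def c898857 : LC ℕ := [c (-5328) 1 39, c 681039 128 25, c 100453 8192 5, c 188811 160 29, c (-2369) 2 0, c (-1) 2 1, c 189267 20 11, c (-21285) 4 7, c 21285 4 26, c 259753 20 4, c 26577 5 27, c (-53199) 10 9, c (-248199) 20 17, c 28371 2 21, c (-29555) 4 24, c 26613 5 28, c (-26613) 5 8, c 189267 20 12, c (-248463) 20 15, c (-62109) 5 16, c 28395 2 20, c (-14790) 1 23, c (-946335) 128 22, c (-15895323) 1280 14, c 3026853 320 10, c (-681327) 128 6, c 4542213 320 18, c 23583 20 30, c 23563 20 31, c 23637 20 32, c (-63) 20 34, c (-9) 5 35, c (-9) 20 36, c 189053 20 13, c (-69) 160 37, c 45 2 2, c (-2223) 1280 33, c (-27) 20 38, c 283977 20 19, c 9 1 40]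
def p905418 : Poly := [r (-926316) 67375 [0, 0, 0, 0, 0, 0], r 1565 1 [2, 5], r 2355 1 [3, 4], r (-790) 3 [17], r 5 1 [19]]
def c905418 : LC ℕ := [c 5911 5 27, c (-5916) 5 9, c 63071 30 13, c (-27601) 10 17, c 3155 1 21, c (-4930) 3 24, c 18473 12288 5, c 86621 30 4, c 7861 30 31, c (-790) 3 0, c (-1184) 1 39, c 75671 64 25, c 20979 80 29, c 63089 30 11, c (-2365) 2 7, c 2365 2 26, c 5914 5 28, c (-5914) 5 8, c 63089 30 12, c (-27607) 10 15, c (-13802) 5 16, c 3155 1 20, c (-9860) 3 23, c (-315445) 192 22, c (-1766147) 640 14, c 336317 160 10, c (-75703) 64 6, c 1514071 480 18, c 7861 30 30, c 7879 30 32, c (-7) 10 34, c (-2) 5 35, c (-1) 10 36, c (-23) 240 37, c 5 1 2, c (-247) 640 33, c (-3) 10 38, c 31553 10 19, c 2 1 40]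
def p925101 : Poly := [r 44339128 2627625 [0, 0, 0, 0, 0, 0], r (-2075) 1 [2, 5], r 736 3 [17], r (-2715) 1 [3, 4], r (-5) 1 [19]]
def c925101 : LC ℕ := [c (-1) 1 40, c (-141303) 128 25, c (-24263) 8192 5, c (-117761) 480 29, c 736 3 0, c (-29428) 15 11, c 2207 2 7, c (-2207) 2 26, c (-161593) 60 4, c (-11013) 10 27, c 5509 5 9, c 51423 20 17, c (-2939) 1 21, c 9185 6 24, c (-5511) 5 28, c 5511 5 8, c (-29398) 15 12, c 12874 5 15, c 51457 20 16, c (-2941) 1 20, c 18385 6 23, c 588725 384 22, c 3296771 1280 14, c (-1883783) 960 10, c 141335 128 6, c (-2825863) 960 18, c (-3677) 15 30, c (-3662) 15 31, c (-3668) 15 32, c (-29377) 15 13, c (-14711) 5 19, c 1104 1 39, c 3 10 34, c 7 20 35, c 3 20 36, c (-1) 480 37, c (-9) 1280 33, c 1 5 38, c (-5) 1 2]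
def p944784 : Poly := [r 6368256 875875 [0, 0, 0, 0, 0, 0], r (-1) 2 [20], r (-1) 2 [19], r (-1024) 1 [2, 5], r (-1024) 1 [3, 4]]
def c944784 : LC ℕ := [c (-1) 2 3, c (-1) 2 2, c (-41) 50 5, c (-1) 50 37, c 23 25 14, c (-39) 50 10, c 1 2 6, c (-49) 50 18, c 1 2 22, c (-1) 2 25, c (-11) 50 29, c (-2) 25 33]
def p1003833 : Poly := [r 2047 2 [3, 4], r 2047 2 [2, 5], r (-12730293) 1751750 [0, 0, 0, 0, 0, 0], r 1 2 [19]]
def c1003833 : LC ℕ := [c (-3) 100 38, c (-13) 100 31, c (-43) 100 13, c 49 100 17, c (-1) 2 21, c 1 4 24, c 212899 204800 5, c (-93) 100 4, c 1 100 37, c (-23) 50 14, c 39 100 10, c (-1) 4 6, c 49 100 18, c (-1) 4 22, c 1 4 25, c 1 2 2, c (-37) 100 11, c 1 4 7, c (-1) 4 26, c (-7) 25 27, c 7 25 9, c (-11) 50 28, c 11 50 8, c (-37) 100 12, c 43 100 15, c 23 50 16, c (-47) 100 19, c (-1) 2 20, c 1 2 23, c 11 100 29, c (-13) 100 30, c (-7) 100 32, c 1 25 33, c (-7) 100 34, c (-1) 25 35, c (-1) 100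 36]
def b12 : Block :=
  ([w12x0, w12x1, w12x2, w12x3, w12x4, w12x5, w12x6, w12x7, w12x8, w12x9, w12x10, w12x11, w12x12, w12x13, w12x14, w12x15, w12x16, w12x17, w12x18, w12x19, w12x20, w12x21, w12x22, w12x23, w12x24, w12x25, w12x26, w12x27, w12x28, w12x29, w12x30, w12x31, w12x32, w12x33, w12x34, w12x35, w12x36, w12x37, w12x38, w12x39, w12x40, w12x41],
   [(708588, p708588, c708588), (715149, p715149, c715149), (721710, p721710, c721710), (728271, p728271, c728271), (767637, p767637, c767637), (826686, p826686, c826686), (885735, p885735, c885735), (885744, p885744, c885744), (885753, p885753, c885753), (885762, p885762, c885762), (885789, p885789, c885789), (885816, p885816, c885816), (885897, p885897, c885897), (885978, p885978, c885978), (886221, p886221, c886221), (886464, p886464, c886464), (887193, p887193, c887193), (887922, p887922, c887922), (890109, p890109, c890109), (892296, p892296, c892296), (898857,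 p898857, c898857), (905418, p905418, c905418), (925101, p925101, c925101), (944784, p944784, c944784), (1003833, p1003833, c1003833)])

def t12 : Tab2 :=
  [(708588, p708588), (715149, p715149), (721710, p721710), (728271, p728271), (767637, p767637), (826686, p826686), (885735, p885735), (885744, p885744), (885753, p885753), (885762, p885762), (885789, p885789), (885816, p885816), (885897, p885897), (885978, p885978), (886221, p886221), (886464, p886464), (887193, p887193), (887922, p887922), (890109, p890109), (892296, p892296), (898857, p898857), (905418, p905418), (925101, p925101), (944784, p944784), (1003833, p1003833), (236196, p236196), (295245, p295245), (78732, p78732), (78735, p78735), (78738, p78738), (78741, p78741), (78750, p78750), (78759, p78759), (78786, p78786), (78813, p78813), (78894, p78894), (78975, p78975), (79218, p79218), (79461, p79461), (80190, p80190), (80919, p80919), (83106, p83106),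 (85293, p85293), (91854, p91854), (98415, p98415), (98417, p98417), (98421, p98421), (98424, p98424), (98433, p98433), (98442, p98442), (98469, p98469), (98496, p98496), (98577, p98577), (98658, p98658), (98901, p98901), (99144, p99144), (99873, p99873), (100602, p100602), (102789, p102789), (104976, p104976), (111537, p111537), (26244, p26244), (32805, p32805), (8748, p8748), (8751, p8751), (8754, p8754), (8757, p8757), (8766, p8766), (8775, p8775), (8802, p8802), (8829, p8829), (8910, p8910), (8991, p8991), (9234, p9234), (9477, p9477), (10206, p10206), (10935, p10935), (10937, p10937), (10941, p10941), (10944, p10944), (10953, p10953), (10962, p10962), (10989, p10989), (11016, p11016), (11097, p11097), (11178, p11178), (11421, p11421), (11664, p11664), (12393, p12393), (2916, p2916), (3645, p3645), (972, p972), (975, p975), (978, p978), (981, p981), (990, p990), (999, p999), (1026, p1026), (1053, p1053),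 (1134, p1134), (1215, p1215), (1217, p1217), (1221, p1221), (1224, p1224), (1233, p1233), (1242, p1242), (1269, p1269), (1296, p1296), (1377, p1377), (324, p324), (405, p405), (108, p108), (111, p111), (114, p114), (117, p117), (126, p126), (135, p135), (137, p137), (138, p138), (141, p141), (144, p144), (153, p153), (36, p36), (45, p45), (12, p12), (15, p15), (3, p3), (4, p4), (5, p5)]

end Pool.Agent.Lib.MP_e8750f_nt
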