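import Pool.Agent.Lib.MP_e8750f_nt.Table2
import Pool.Agent.Lib.MP_e8750f_nt.TableOK

/-! Verification of the depth two table. -/

namespace Pool.Agent.Lib.MP_e8750f_nt

theorem pi_rr : (Real.pi : ℂ) ^ 2 = 12 * rr basis 0 := by
  rw [rr, if_pos (by norm_num), rho, show bw basis 0 = [.z, .p] from rfl, om_zp]; ring

theorem cb1 : chkBlock basis [] b1 = true := by decide +kernel
theorem v1 : Valid2 basis t1 := chkBlock_sound basis pi_rr (fun _ h => by simp at h) cb1

theorem cb2 : chkBlock basis t1 b2 = true := by decide +kernel
theorem v2 : Valid2 basis t2 := chkBlock_sound basis pi_rr v1 cb2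

theorem cb3 : chkBlock basis t2 b3 = true := by decide +kernel
theorem v3 : Valid2 basis t3 := chkBlock_sound basis pi_rr v2 cb3

theorem cb4 : chkBlock basis t3 b4 = true := by decide +kernel
theorem v4 : Valid2 basis t4 := chkBlock_sound basis pi_rr v3 cb4

theorem cb5 : chkBlock basis t4 b5 = true := by decide +kernel
theorem v5 : Valid2 basis t5 := chkBlock_sound basis pi_rr v4 cb5

theorem cb6 : chkBlock basis t5 b6 = true := by decide +kernel
theorem v6 : Valid2 basis t6 := chkBlock_sound basis pi_rr v5 cb6

theorem cb7 : chkBlock basis t6 b7 = true := by decide +kernel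
theorem v7 : Valid2 basis t7 := chkBlock_sound basis pi_rr v6 cb7

theorem r8x0 : ((b8.1.drop 0).take 9).all (chkRow basis t7) = true := by decide +kernel
theorem r8x9 : ((b8.1.drop 9).take 9).all (chkRow basis t7) = true := by decide +kernel
theorem r8x18 : ((b8.1.drop 18).take 9).all (chkRow basis t7) = true := by decide +kernel
theorem r8y27 : (b8.1.drop 27).all (chkRow basis t7) = true := by decide +kernel
theorem r8y18 : (b8.1.drop 18).all (chkRow basis t7) = true := all_step r8x18 r8y27
theorem r8y9 : (b8.1.drop 9).all (chkRow basis t7) = true := all_step r8x9 r8y18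
theorem r8y0 : (b8.1.drop 0).all (chkRow basis t7) = true := all_step r8x0 r8y9
theorem e8x0 : ((b8.2.drop 0).take 9).all (chkEnt b8.1) = true := by decide +kernel
theorem e8x9 : ((b8.2.drop 9).take 9).all (chkEnt b8.1) = true := by decide +kernel
theorem e8x18 : ((b8.2.drop 18).take 8).all (chkEnt b8.1) = true := by decide +kernel
theorem e8y26 : (b8.2.drop 26).all (chkEnt b8.1) = true := by decide +kernel
theorem e8y18 : (b8.2.drop 18).all (chkEnt b8.1) = true := all_step e8x18 e8y26
theorem e8y9 : (b8.2.drop 9).all (chkEnt b8.1) = true := all_step e8x9 e8y18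
theorem e8y0 : (b8.2.drop 0).all (chkEnt b8.1) = true := all_step e8x0 e8y9
theorem cb8 : chkBlock basis t7 b8 = true := (Bool.and_eq_true _ _).mpr ⟨r8y0, e8y0⟩
theorem v8 : Valid2 basis t8 := chkBlock_sound basis pi_rr v7 cb8

theorem cb9 : chkBlock basis t8 b9 = true := by decide +kernel
theorem v9 : Valid2 basis t9 := chkBlock_sound basis pi_rr v8 cb9

theorem r10x0 : ((b10.1.drop 0).take 5).all (chkRow basis t9) = true := by decide +kernel
theorem r10x5 : ((b10.1.drop 5).take 5).all (chkRow basis t9) = true := by decide +kernel
theorem r10x10 : ((b10.1.drop 10).take 5).all (chkRow basis t9) = true := by decide +kernel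
theorem r10x15 : ((b10.1.drop 15).take 5).all (chkRow basis t9) = true := by decide +kernel
theorem r10x20 : ((b10.1.drop 20).take 5).all (chkRow basis t9) = true := by decide +kernel
theorem r10x25 : ((b10.1.drop 25).take 5).all (chkRow basis t9) = true := by decide +kernel
theorem r10x30 : ((b10.1.drop 30).take 5).all (chkRow basis t9) = true := by decide +kernel
theorem r10y35 : (b10.1.drop 35).all (chkRow basis t9) = true := by decide +kernel
theorem r10y30 : (b10.1.drop 30).all (chkRow basis t9) = true := all_step r10x30 r10y35
theorem r10y25 : (b10.1.drop 25).all (chkRow basis t9) = true := all_step r10x25 r10y30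
theorem r10y20 : (b10.1.drop 20).all (chkRow basis t9) = true := all_step r10x20 r10y25
theorem r10y15 : (b10.1.drop 15).all (chkRow basis t9) = true := all_step r10x15 r10y20
theorem r10y10 : (b10.1.drop 10).all (chkRow basis t9) = true := all_step r10x10 r10y15
theorem r10y5 : (b10.1.drop 5).all (chkRow basis t9) = true := all_step r10x5 r10y10
theorem r10y0 : (b10.1.drop 0).all (chkRow basis t9) = true := all_step r10x0 r10y5
theorem e10x0 : ((b10.2.drop 0).take 4).all (chkEnt b10.1) = true := by decide +kernel
theorem e10x4 : ((b10.2.drop 4).take 4).all (chkEnt b10.1) = true := by decide +kernel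
theorem e10x8 : ((b10.2.drop 8).take 4).all (chkEnt b10.1) = true := by decide +kernel
theorem e10x12 : ((b10.2.drop 12).take 4).all (chkEnt b10.1) = true := by decide +kernel
theorem e10x16 : ((b10.2.drop 16).take 4).all (chkEnt b10.1) = true := by decide +kernel
theorem e10x20 : ((b10.2.drop 20).take 4).all (chkEnt b10.1) = true := by decide +kernel
theorem e10x24 : ((b10.2.drop 24).take 4).all (chkEnt b10.1) = true := by decide +kernel
theorem e10x28 : ((b10.2.drop 28).take 4).all (chkEnt b10.1) = true := by decide +kernel
theorem e10x32 : ((b10.2.drop 32).take 2).all (chkEnt b10.1) = true := by decide +kernel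
theorem e10y34 : (b10.2.drop 34).all (chkEnt b10.1) = true := by decide +kernel
theorem e10y32 : (b10.2.drop 32).all (chkEnt b10.1) = true := all_step e10x32 e10y34
theorem e10y28 : (b10.2.drop 28).all (chkEnt b10.1) = true := all_step e10x28 e10y32
theorem e10y24 : (b10.2.drop 24).all (chkEnt b10.1) = true := all_step e10x24 e10y28
theorem e10y20 : (b10.2.drop 20).all (chkEnt b10.1) = true := all_step e10x20 e10y24
theorem e10y16 : (b10.2.drop 16).all (chkEnt b10.1) = true := all_step e10x16 e10y20
theorem e10y12 : (b10.2.drop 12).all (chkEnt b10.1) = true := all_step e10x12 e10y16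
theorem e10y8 : (b10.2.drop 8).all (chkEnt b10.1) = true := all_step e10x8 e10y12
theorem e10y4 : (b10.2.drop 4).all (chkEnt b10.1) = true := all_step e10x4 e10y8
theorem e10y0 : (b10.2.drop 0).all (chkEnt b10.1) = true := all_step e10x0 e10y4
theorem cb10 : chkBlock basis t9 b10 = true := (Bool.and_eq_true _ _).mpr ⟨r10y0, e10y0⟩
theorem v10 : Valid2 basis t10 := chkBlock_sound basis pi_rr v9 cb10

theorem cb11 : chkBlock basis t10 b11 = true := by decide +kernel
theorem v11 : Valid2 basis t11 := chkBlock_sound basis pi_rr v10 cb11

theorem r12x0 : ((b12.1.drop 0).take 3).all (chkRow basis t11) = true := by decide +kernel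
theorem r12x3 : ((b12.1.drop 3).take 3).all (chkRow basis t11) = true := by decide +kernel
theorem r12x6 : ((b12.1.drop 6).take 3).all (chkRow basis t11) = true := by decide +kernel
theorem r12x9 : ((b12.1.drop 9).take 3).all (chkRow basis t11) = true := by decide +kernel
theorem r12x12 : ((b12.1.drop 12).take 3).all (chkRow basis t11) = true := by decide +kernel
theorem r12x15 : ((b12.1.drop 15).take 3).all (chkRow basis t11) = true := by decide +kernel
theorem r12x18 : ((b12.1.drop 18).take 3).all (chkRow basis t11) = true := by decide +kernel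
theorem r12x21 : ((b12.1.drop 21).take 3).all (chkRow basis t11) = true := by decide +kernel
theorem r12x24 : ((b12.1.drop 24).take 3).all (chkRow basis t11) = true := by decide +kernel
theorem r12x27 : ((b12.1.drop 27).take 3).all (chkRow basis t11) = true := by decide +kernel
theorem r12x30 : ((b12.1.drop 30).take 3).all (chkRow basis t11) = true := by decide +kernel
theorem r12x33 : ((b12.1.drop 33).take 3).all (chkRow basis t11) = true := by decide +kernel
theorem r12x36 : ((b12.1.drop 36).take 3).all (chkRow basis t11) = true := by decide +kernel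
theorem r12x39 : ((b12.1.drop 39).take 3).all (chkRow basis t11) = true := by decide +kernel
theorem r12y42 : (b12.1.drop 42).all (chkRow basis t11) = true := by decide +kernel
theorem r12y39 : (b12.1.drop 39).all (chkRow basis t11) = true := all_step r12x39 r12y42
theorem r12y36 : (b12.1.drop 36).all (chkRow basis t11) = true := all_step r12x36 r12y39
theorem r12y33 : (b12.1.drop 33).all (chkRow basis t11) = true := all_step r12x33 r12y36
theorem r12y30 : (b12.1.drop 30).all (chkRow basis t11) = true := all_step r12x30 r12y33
theorem r12y27 : (b12.1.drop 27).all (chkRow basis t11) = true := all_step r12x27 r12y30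
theorem r12y24 : (b12.1.drop 24).all (chkRow basis t11) = true := all_step r12x24 r12y27
theorem r12y21 : (b12.1.drop 21).all (chkRow basis t11) = true := all_step r12x21 r12y24
theorem r12y18 : (b12.1.drop 18).all (chkRow basis t11) = true := all_step r12x18 r12y21
theorem r12y15 : (b12.1.drop 15).all (chkRow basis t11) = true := all_step r12x15 r12y18
theorem r12y12 : (b12.1.drop 12).all (chkRow basis t11) = true := all_step r12x12 r12y15
theorem r12y9 : (b12.1.drop 9).all (chkRow basis t11) = true := all_step r12x9 r12y12
theorem r12y6 : (b12.1.drop 6).all (chkRow basis t11) = true := all_step r12x6 r12y9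
theorem r12y3 : (b12.1.drop 3).all (chkRow basis t11) = true := all_step r12x3 r12y6
theorem r12y0 : (b12.1.drop 0).all (chkRow basis t11) = true := all_step r12x0 r12y3
theorem e12x0 : ((b12.2.drop 0).take 2).all (chkEnt b12.1) = true := by decide +kernel
theorem e12x2 : ((b12.2.drop 2).take 2).all (chkEnt b12.1) = true := by decide +kernel
theorem e12x4 : ((b12.2.drop 4).take 2).all (chkEnt b12.1) = true := by decide +kernel
theorem e12x6 : ((b12.2.drop 6).take 2).all (chkEnt b12.1) = true := by decide +kernel
theorem e12x8 : ((b12.2.drop 8).take 2).all (chkEnt b12.1) = true := by decide +kernel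
theorem e12x10 : ((b12.2.drop 10).take 2).all (chkEnt b12.1) = true := by decide +kernel
theorem e12x12 : ((b12.2.drop 12).take 2).all (chkEnt b12.1) = true := by decide +kernel
theorem e12x14 : ((b12.2.drop 14).take 2).all (chkEnt b12.1) = true := by decide +kernel
theorem e12x16 : ((b12.2.drop 16).take 2).all (chkEnt b12.1) = true := by decide +kernel
theorem e12x18 : ((b12.2.drop 18).take 2).all (chkEnt b12.1) = true := by decide +kernel
theorem e12x20 : ((b12.2.drop 20).take 2).all (chkEnt b12.1) = true := by decide +kernel
theorem e12x22 : ((b12.2.drop 22).take 2).all (chkEnt b12.1) = true := by decide +kernel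
theorem e12x24 : ((b12.2.drop 24).take 1).all (chkEnt b12.1) = true := by decide +kernel
theorem e12y25 : (b12.2.drop 25).all (chkEnt b12.1) = true := by decide +kernel
theorem e12y24 : (b12.2.drop 24).all (chkEnt b12.1) = true := all_step e12x24 e12y25
theorem e12y22 : (b12.2.drop 22).all (chkEnt b12.1) = true := all_step e12x22 e12y24
theorem e12y20 : (b12.2.drop 20).all (chkEnt b12.1) = true := all_step e12x20 e12y22
theorem e12y18 : (b12.2.drop 18).all (chkEnt b12.1) = true := all_step e12x18 e12y20
theorem e12y16 : (b12.2.drop 16).all (chkEnt b12.1) = true := all_step e12x16 e12y18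
theorem e12y14 : (b12.2.drop 14).all (chkEnt b12.1) = true := all_step e12x14 e12y16
theorem e12y12 : (b12.2.drop 12).all (chkEnt b12.1) = true := all_step e12x12 e12y14
theorem e12y10 : (b12.2.drop 10).all (chkEnt b12.1) = true := all_step e12x10 e12y12
theorem e12y8 : (b12.2.drop 8).all (chkEnt b12.1) = true := all_step e12x8 e12y10
theorem e12y6 : (b12.2.drop 6).all (chkEnt b12.1) = true := all_step e12x6 e12y8
theorem e12y4 : (b12.2.drop 4).all (chkEnt b12.1) = true := all_step e12x4 e12y6
theorem e12y2 : (b12.2.drop 2).all (chkEnt b12.1) = true := all_step e12x2 e12y4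
theorem e12y0 : (b12.2.drop 0).all (chkEnt b12.1) = true := all_step e12x0 e12y2
theorem cb12 : chkBlock basis t11 b12 = true := (Bool.and_eq_true _ _).mpr ⟨r12y0, e12y0⟩
theorem v12 : Valid2 basis t12 := chkBlock_sound basis pi_rr v11 cb12

end Pool.Agent.Lib.MP_e8750f_nt
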