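import Pool.Agent.Lib.MP_e8750f_nt.Arc
import Pool.Agent.Lib.MP_e8750f_nt.Check

/-! The Wallis transform. -/

namespace Pool.Agent.Lib.MP_e8750f_nt

set_option linter.unusedSectionVars false

open Ser Filter Topology Set MeasureTheory Real

noncomputable def gam : ℕ → ℝ
  | 0 => 1
  | 1 => π / 2
  | m + 2 => gam m * (m + 2) / (m + 1)

theorem gam_bound : ∀ m, 0 < gam m ∧ gam m ≤ 2 * (m + 1)
  | 0 => by simp [gam]
  | 1 => ⟨by rw [gam]; positivity, by rw [gam]; norm_num; linarith [pi_le_four]⟩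
  | m + 2 => by
    obtain ⟨h1, h2⟩ := gam_bound m
    refine ⟨by rw [gam]; positivity, ?_⟩
    rw [gam, div_le_iff₀ (by positivity)]
    push_cast
    nlinarith [(Nat.cast_nonneg m : (0 : ℝ) ≤ m)]

theorem gam_int : ∀ m, ∫ θ in (0 : ℝ)..π / 2, gam m * sin θ ^ m = π / 2
  | 0 => by simp [gam]
  | 1 => by simp [gam]
  | m + 2 => by
    have h := gam_int m
    rw [intervalIntegral.integral_const_mul] at h ⊢
    rw [integral_sin_pow, gam, sin_zero, cos_pi_div_two, zero_pow (by omega)]
    generalize ∫ θ in (0 : ℝ)..π / 2, sin θ ^ m = x at *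
    rw [← h]
    field_simp
    ring

theorem gam_int' (m : ℕ) :
    ∫ θ in (0 : ℝ)..π / 2, cos θ ^ 2 * (gam m * sin θ ^ m) = π / 2 / (m + 2) := by
  have h1 : ∀ θ, cos θ ^ 2 * (gam m * sin θ ^ m)
      = gam m * sin θ ^ m - (m + 1) / (m + 2) * (gam (m + 2) * sin θ ^ (m + 2)) := fun θ => by
    rw [gam, cos_sq']; field_simp; ring
  simp only [h1]
  rw [intervalIntegral.integral_sub (Continuous.intervalIntegrable (by fun_prop) _ _)
    (Continuous.intervalIntegrable (by fun_prop) _ _), gam_int, intervalIntegral.integral_const_mul,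
    gam_int]
  field_simp; ring

def Bdd (c : ℕ → ℝ) : Prop := ∃ K, ∀ m, |c m| ≤ K

noncomputable def ps (c : ℕ → ℝ) (y : ℝ) : ℝ := ∑' m, c m * gam m * y ^ m
noncomputable def ps' (c : ℕ → ℝ) (y : ℝ) : ℝ := ∑' m, c m * gam m * (m * y ^ (m - 1))

theorem ps_spec {c : ℕ → ℝ} (hc : Bdd c) {y : ℝ} (hy : |y| < 1) :
    HasSum (fun m => c m * gam m * y ^ m) (ps c y) ∧ HasDerivAt (ps c) (ps' c y) y ∧
      HasSum (fun m : ℕ => m * (c m * gam m * y ^ m)) (y * ps' c y) := by
  obtain ⟨K, hK⟩ := hc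
  have hK0 : 0 ≤ K := (abs_nonneg _).trans (hK 0)
  have hb : ∀ m, |c m * gam m| ≤ K * (2 * (m + 1)) := fun m => by
    rw [abs_mul, abs_of_pos (gam_bound m).1]
    exact mul_le_mul (hK m) (gam_bound m).2 (gam_bound m).1.le hK0
  set r := (1 + |y|) / 2 with hr
  have hr0 : 0 < r := by positivity
  have hr1 : ‖r‖ < 1 := by rw [Real.norm_of_nonneg hr0.le, hr]; linarith
  have hyr : y ∈ Metric.ball (0 : ℝ) r := by
    simp only [Metric.mem_ball, dist_zero_right, hr, Real.norm_eq_abs]; linarith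
  have s0 := summable_geometric_of_norm_lt_one hr1
  have s1 := summable_pow_mul_geometric_of_norm_lt_one 1 hr1
  have s2 := summable_pow_mul_geometric_of_norm_lt_one 2 hr1
  have hsum : Summable fun n : ℕ => K * (2 * (n + 1)) * ((n : ℝ) * r ^ (n - 1)) := by
    refine (summable_nat_add_iff 1).mp ?_
    refine (((s2.add (s1.mul_left 3)).add (s0.mul_left 2)).mul_left (2 * K)).congr fun n => ?_
    simp only [Nat.add_sub_cancel]; push_cast; ring
  have hb' : ∀ (n : ℕ) (x : ℝ), x ∈ Metric.ball (0 : ℝ) r →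
      ‖c n * gam n * (n * x ^ (n - 1))‖ ≤ K * (2 * (n + 1)) * ((n : ℝ) * r ^ (n - 1)) := by
    intro n x hx
    have : ‖x‖ ≤ r := by simpa using (Metric.mem_ball.mp hx).le
    rw [norm_mul, norm_mul (n : ℝ), norm_pow, Real.norm_natCast]
    exact mul_le_mul (hb n) (by gcongr) (by positivity) (by positivity)
  have h1 : Summable fun m => c m * gam m * y ^ m := by
    refine .of_norm_bounded ((s1.add s0).mul_left (2 * K)) fun n => ?_
    have : ‖y‖ ≤ r := by simpa using (Metric.mem_ball.mp hyr).le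
    rw [norm_mul, norm_pow]
    refine (mul_le_mul (hb n) (pow_le_pow_left₀ (norm_nonneg _) this n) (by positivity)
      (by positivity)).trans_eq (by ring)
  refine ⟨h1.hasSum, hasDerivAt_tsum_of_isPreconnected hsum Metric.isOpen_ball
    (convex_ball (0 : ℝ) r).isPreconnected (g := fun n x => c n * gam n * x ^ n)
    (fun n x _ => (hasDerivAt_pow n x).const_mul _) hb' hyr h1 hyr, ?_⟩
  refine ((Summable.of_norm_bounded hsum fun n => hb' n y hyr).hasSum.mul_left y).congr_fun
    fun n => ?_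
  cases n with
  | zero => simp
  | succ n => simp only [Nat.add_sub_cancel, pow_succ]; ring

def sh2 (f : ℕ → ℝ) : ℕ → ℝ
  | 0 => 0
  | 1 => 0
  | k + 2 => f k

theorem hasSum_sh2 {f : ℕ → ℝ} {s : ℝ} (h : HasSum f s) : HasSum (sh2 f) s :=
  (hasSum_nat_add_iff' 2).mp (by simpa [Finset.sum_range_succ, sh2] using h)

theorem abs_sin_lt {φ : ℝ} (h : φ ∈ J) : |sin φ| < 1 := by
  rw [abs_of_pos (sin_pos' h)]
  nlinarith [sin_sq_add_cos_sq φ, cos_pos' h, sin_pos' h]

theorem eq_of_deriv {f g f' : ℝ → ℝ} {c : ℝ} (hf : ∀ t ∈ J, HasDerivAt f (f' t) t)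
    (hg : ∀ t ∈ J, HasDerivAt g (f' t) t) (h1 : Tendsto f (𝓝[>] 0) (𝓝 c))
    (h2 : Tendsto g (𝓝[>] 0) (𝓝 c)) {x : ℝ} (hx : x ∈ J) : f x = g x := by
  have := ftc (f := fun t => f t - g t) (f' := fun _ => 0) hx
    (fun t ht => ((hf t ht).sub (hg t ht)).congr_deriv (sub_self _)) intervalIntegrable_const
    (h1.sub h2)
  simp only [intervalIntegral.integral_zero, sub_self, sub_zero] at this
  exact sub_eq_zero.mp this.symm

theorem ps_tendsto {c : ℕ → ℝ} (hc : Bdd c) :
    Tendsto (fun φ => ps c (sin φ)) (𝓝[>] 0) (𝓝 (c 0)) := by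
  have h1 := (ps_spec hc (y := sin 0) (by simp)).2.1.continuousAt.comp continuous_sin.continuousAt
  have h2 : ps c (sin 0) = c 0 := by
    rw [ps, tsum_eq_single 0] <;> simp +contextual [gam]
  rw [← h2]
  exact h1.tendsto.mono_left nhdsWithin_le_nhds

theorem lemA {c d : ℕ → ℝ} (hc : Bdd c) (hd : Bdd d) (h0 : c 0 = 0)
    (h : ∀ k : ℕ, (k + 2) * c (k + 2) = k * c k + 2 * d k) :
    (∀ φ ∈ J, HasDerivAt (fun φ => cos φ / sin φ * ps c (sin φ)) (2 * ps d (sin φ)) φ) ∧
    Tendsto (fun φ => cos φ / sin φ * ps c (sin φ)) (𝓝[>] 0) (𝓝 (c 1 * (π / 2))) := by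
  refine ⟨fun φ hφ => ?_, ?_⟩
  · obtain ⟨a1, a2, a3⟩ := ps_spec hc (abs_sin_lt hφ)
    have a4 := (ps_spec hd (abs_sin_lt hφ)).1
    have hs := (sin_pos' hφ).ne'
    have key := (a3.sub a1).unique ((hasSum_sh2 ((a3.add (a4.mul_left 2)).mul_left
      (sin φ ^ 2))).congr_fun fun m => by
        match m with
        | 0 => simp [sh2, h0]
        | 1 => simp [sh2]
        | k + 2 =>
          simp only [sh2, gam]
          push_cast
          field_simp
          linear_combination (gam k * sin φ ^ (k + 2) * (k + 1)) * h k)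
    refine (((hasDerivAt_cos φ).div (hasDerivAt_sin φ) hs).mul
      (a2.comp φ (hasDerivAt_sin φ))).congr_deriv ?_
    simp only [Function.comp_apply, Pi.div_apply]
    field_simp
    linear_combination key + (sin φ * ps' c (sin φ) - ps c (sin φ)) * sin_sq_add_cos_sq φ
  · have h1 := (ps_spec hc (y := 0) (by simp)).2.1.tendsto_slope_zero_right
    have h2 : ps c 0 = 0 := by rw [ps, tsum_eq_single 0] <;> simp +contextual [h0]
    have h3 : ps' c 0 = c 1 * (π / 2) := by
      rw [ps', tsum_eq_single 1]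
      · simp [gam]
      · intro m hm
        match m, hm with
        | 0, _ => simp
        | k + 2, _ => simp
    have h4 : Tendsto sin (𝓝[>] 0) (𝓝[>] 0) := by
      refine tendsto_nhdsWithin_iff.mpr ⟨?_, ?_⟩
      · simpa using (continuous_sin.tendsto 0).mono_left nhdsWithin_le_nhds
      · filter_upwards [Ioo_mem_nhdsGT (show (0 : ℝ) < π / 2 by positivity)] with θ hθ
        exact sin_pos' hθ
    have h5 := ((continuous_cos.tendsto 0).mono_left nhdsWithin_le_nhds).mul (h1.comp h4)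
    rw [h2, h3, cos_zero, one_mul] at h5
    refine h5.congr fun φ => ?_
    simp only [Function.comp_apply, zero_add, sub_zero, smul_eq_mul]; ring

theorem lemB {a d : ℕ → ℝ} (ha : Bdd a) (hd : Bdd d) (h0 : d 0 = 2 * a 0) (h1 : d 1 = a 1)
    (h : ∀ k : ℕ, (k + 3) * d (k + 2) = (k + 1) * d k + 2 * a (k + 2)) :
    (∀ φ ∈ J, HasDerivAt (fun φ => sin φ * cos φ * ps d (sin φ)) (2 * ps a (sin φ)) φ) ∧
    Tendsto (fun φ => sin φ * cos φ * ps d (sin φ)) (𝓝[>] 0) (𝓝 0) := by
  refine ⟨fun φ hφ => ?_, ?_⟩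
  · obtain ⟨a1, a2, a3⟩ := ps_spec hd (abs_sin_lt hφ)
    have a4 := (ps_spec ha (abs_sin_lt hφ)).1
    have key := ((a1.add a3).sub (a4.mul_left 2)).unique ((hasSum_sh2 (((a1.mul_left 2).add
      a3).mul_left (sin φ ^ 2))).congr_fun fun m => by
        match m with
        | 0 => simp [sh2, h0]; ring
        | 1 => simp [sh2, h1]; ring
        | k + 2 =>
          simp only [sh2, gam]
          push_cast
          field_simp
          linear_combination (gam k * sin φ ^ (k + 2) * (k + 2)) * h k)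
    refine (((hasDerivAt_sin φ).mul (hasDerivAt_cos φ)).mul
      (a2.comp φ (hasDerivAt_sin φ))).congr_deriv ?_
    simp only [Function.comp_apply, Pi.mul_apply]
    linear_combination key + (sin φ * ps' d (sin φ) + ps d (sin φ)) * sin_sq_add_cos_sq φ
  · have h5 : Tendsto (fun φ => sin φ * cos φ) (𝓝[>] 0) (𝓝 0) := by
      simpa using ((continuous_sin.fun_mul continuous_cos).tendsto 0).mono_left nhdsWithin_le_nhds
    simpa using h5.mul (ps_tendsto hd)

theorem lemC {a c : ℕ → ℝ} (ha : Bdd a) (hc : Bdd c) (h : ∀ k : ℕ, k * c k = a k) {φ : ℝ}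
    (hφ : φ ∈ J) : HasDerivAt (fun φ => ps c (sin φ)) (cos φ / sin φ * ps a (sin φ)) φ := by
  obtain ⟨a1, a2, a3⟩ := ps_spec hc (abs_sin_lt hφ)
  have key := a3.unique ((ps_spec ha (abs_sin_lt hφ)).1.congr_fun fun m => by rw [← h]; ring)
  have hs := (sin_pos' hφ).ne'
  refine (a2.comp φ (hasDerivAt_sin φ)).congr_deriv ?_
  rw [← key]; field_simp

noncomputable def Sg (σ : ℝ) (a : ℕ → ℝ) (m : ℕ) : ℝ :=
  ∑ k ∈ Finset.range m, a k * (1 + σ * (-1) ^ (m - k))

/-- Taylor coefficients of `ω`-words -/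
noncomputable def ac : OW → ℕ → ℝ
  | [], m => if m = 0 then 1 else 0
  | .z :: W, m => ac W m / m
  | .p :: W, m => Sg 1 (ac W) m / m
  | .m :: W, m => Sg (-1) (ac W) m / m

theorem Sg_succ (σ : ℝ) (a : ℕ → ℝ) (m : ℕ) : Sg σ a (m + 1) = Sg (-σ) a m + a m * (1 - σ) := by
  rw [Sg, Sg, Finset.sum_range_succ, Nat.add_sub_cancel_left]
  congr 1
  · refine Finset.sum_congr rfl fun k hk => ?_
    rw [show m + 1 - k = m - k + 1 by have := Finset.mem_range.mp hk; omega, pow_succ]; ring
  · ring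

theorem ac_p (W : OW) (m : ℕ) : m * ac (.p :: W) m = Sg 1 (ac W) m := by
  cases m with
  | zero => simp [Sg]
  | succ m => rw [ac]; field_simp

theorem ac_m (W : OW) (m : ℕ) : m * ac (.m :: W) m = Sg (-1) (ac W) m := by
  cases m with
  | zero => simp [Sg]
  | succ m => rw [ac]; field_simp

theorem ac_zero (o : Om) (W : OW) : ac (o :: W) 0 = 0 := by cases o <;> simp [ac]

theorem ac_z {W : OW} (hW : W ≠ []) (m : ℕ) : m * ac (.z :: W) m = ac W m := by
  cases m with
  | zero => obtain ⟨o, V, rfl⟩ := List.exists_cons_of_ne_nil hW; simp [ac_zero]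
  | succ m => rw [ac]; field_simp

theorem ac_bound (W : OW) (m : ℕ) : 0 ≤ ac W m ∧ ac W m ≤ 2 ^ W.length := by
  induction W generalizing m with
  | nil => rw [ac]; split_ifs <;> simp
  | cons o W ih =>
    rcases Nat.eq_zero_or_pos m with rfl | hm
    · rw [ac_zero]; exact ⟨le_rfl, by positivity⟩
    have hm' : (1 : ℝ) ≤ m := by exact_mod_cast hm
    have h : ∀ σ : ℝ, |σ| = 1 → 0 ≤ Sg σ (ac W) m / m ∧ Sg σ (ac W) m / m ≤ 2 ^ (W.length + 1) := by
      intro σ hσ
      have h1 : ∀ j : ℕ, |σ * (-1) ^ j| ≤ 1 := fun j => by simp [abs_mul, hσ]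
      refine ⟨div_nonneg (Finset.sum_nonneg fun k _ => mul_nonneg (ih k).1 ?_) (by linarith), ?_⟩
      · linarith [(abs_le.mp (h1 (m - k))).1]
      · rw [div_le_iff₀ (by linarith)]
        refine (Finset.sum_le_sum (g := fun _ => (2 : ℝ) ^ (W.length + 1)) fun k _ => ?_).trans
          (by simp [mul_comm])
        rw [pow_succ]
        exact mul_le_mul (ih k).2 (by linarith [(abs_le.mp (h1 (m - k))).2])
          (by linarith [(abs_le.mp (h1 (m - k))).1]) (by positivity)
    cases o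
    · rw [ac]
      refine ⟨div_nonneg (ih m).1 (by linarith), (div_le_self (ih m).1 hm').trans ((ih m).2.trans ?_)⟩
      exact pow_le_pow_right₀ (by norm_num) (by simp)
    · exact h 1 (by simp)
    · exact h (-1) (by simp)

theorem bdd_ac (W : OW) : Bdd (ac W) :=
  ⟨2 ^ W.length, fun m => by rw [abs_of_nonneg (ac_bound W m).1]; exact (ac_bound W m).2⟩

theorem bdd_ac' (W : OW) : Bdd fun k => ac W (k + 1) := by
  obtain ⟨K, hK⟩ := bdd_ac W
  exact ⟨K, fun m => hK _⟩

def nx (pd : Bool) : Fm := if pd then .t else .d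
def nz (pd : Bool) : Fm := if pd then .d else .c

/-- constant, class, pending factor, forms -/
def forms : OW → Option (ℕ × Bool × Bool × List Fm)
  | [] => some (1, false, false, [])
  | [.m] => some (1, true, true, [])
  | .z :: W => (forms W).bind fun x =>
      if x.2.2.2 = [] ∧ x.2.2.1 = false then none else some (x.1, x.2.1, false, nz x.2.2.1 :: x.2.2.2)
  | .p :: W => (forms W).map fun x => (2 * x.1, x.2.1, true, nx x.2.2.1 :: x.2.2.2)
  | .m :: .m :: W => (forms W).map fun x => (4 * x.1, x.2.1, true, .s :: nx x.2.2.1 :: x.2.2.2)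
  | _ => none

noncomputable def piB (cl : Bool) : ℝ := if cl then π else 1

theorem adm_nx {fs : List Fm} (h : fs = [] ∨ Adm fs) (pd : Bool) : Adm (nx pd :: fs) := by
  cases fs with
  | nil => cases pd <;> simp [Adm, nx]
  | cons g fs => simpa [Adm] using h

theorem adm_cons {fs : List Fm} (h : Adm fs) (f : Fm) : Adm (f :: fs) := by
  cases fs with
  | nil => simp [Adm] at h
  | cons g fs => simpa [Adm] using h

theorem stepV {W : OW} {K : ℝ} {pd : Bool} {fs : List Fm} (h : fs = [] ∨ Adm fs)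
    (hU : ∀ φ ∈ J, ps (ac W) (sin φ) = K * (fm (nx pd) φ * G fs φ)) {φ : ℝ} (hφ : φ ∈ J) :
    sin φ * cos φ * ps (fun k => ac (.m :: W) (k + 1)) (sin φ) = 2 * K * G (nx pd :: fs) φ := by
  obtain ⟨h1, h2⟩ := lemB (bdd_ac W) (bdd_ac' (.m :: W))
    (by have := ac_m W 1; rw [Sg_succ] at this; simp [Sg] at this ⊢; linarith)
    (by have := ac_m W 2; rw [Sg_succ, Sg_succ] at this; simp [Sg] at this ⊢; linarith)
    (fun k => by
      have e1 := ac_m W (k + 3)
      have e2 := ac_m W (k + 1)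
      rw [Sg_succ, Sg_succ, neg_neg] at e1
      push_cast at e1 e2
      linear_combination e1 - e2)
  refine eq_of_deriv h1 (fun t ht => ((G_deriv (adm_nx h pd) ht).const_mul (2 * K)).congr_deriv ?_)
    h2 (by simpa using (G_tendsto (adm_nx h pd)).const_mul (2 * K)) hφ
  rw [hU t ht]; ring

theorem forms_spec : ∀ (W : OW) {K : ℕ} {cl pd : Bool} {fs : List Fm},
    forms W = some (K, cl, pd, fs) → (fs = [] ∨ Adm fs) ∧ W.getLast? ≠ some .z ∧
      ∀ φ ∈ J, ps (ac W) (sin φ) = K * piB cl * (fm (nx pd) φ * G fs φ)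
  | [], K, cl, pd, fs, h => by
    simp only [forms, Option.some.injEq, Prod.mk.injEq] at h
    obtain ⟨rfl, rfl, rfl, rfl⟩ := h
    refine ⟨Or.inl rfl, by simp, fun φ _ => ?_⟩
    rw [ps, tsum_eq_single 0] <;> simp +contextual [ac, gam, piB, nx, fm, G]
  | [.m], K, cl, pd, fs, h => by
    simp only [forms, Option.some.injEq, Prod.mk.injEq] at h
    obtain ⟨rfl, rfl, rfl, rfl⟩ := h
    refine ⟨Or.inl rfl, by simp, fun φ hφ => ?_⟩
    obtain ⟨h1, h2⟩ := lemA (bdd_ac [.m]) (d := fun _ => 0) ⟨0, by simp⟩ (ac_zero _ _) (fun k => by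
      have e1 := ac_m [] (k + 2)
      have e2 := ac_m [] k
      rw [Sg_succ, Sg_succ, neg_neg] at e1
      push_cast at e1
      simp only [ac.eq_1, Nat.add_eq_zero_iff, one_ne_zero, and_false, if_false] at e1
      linear_combination e1 - e2)
    have h3 : ac [.m] 1 * (π / 2) = π := by
      have := ac_m [] 1; rw [Sg_succ] at this; simp [Sg, ac.eq_1] at this; rw [this]; ring
    have := eq_of_deriv (g := fun _ => π) h1
      (fun t _ => (hasDerivAt_const t π).congr_deriv (by simp [ps])) h2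
      (by rw [h3]; exact tendsto_const_nhds) hφ
    have hs := (sin_pos' hφ).ne'
    have hc := (cos_pos' hφ).ne'
    simp only [piB, nx, fm, G, if_true, ← this]
    field_simp
    simp
  | .z :: W, K, cl, pd, fs, h => by
    simp only [forms, Option.bind_eq_some_iff] at h
    obtain ⟨⟨K', cl', pd', fs'⟩, h1, h2⟩ := h
    split_ifs at h2 with h3
    simp only [Option.some.injEq, Prod.mk.injEq] at h2 h3
    obtain ⟨rfl, rfl, rfl, rfl⟩ := h2
    obtain ⟨a1, a2, a3⟩ := forms_spec W h1
    have hW : W ≠ [] := by rintro rfl; simp [forms] at h1; simp [h1] at h3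
    have a4 : Adm (nz pd' :: fs') := by
      rcases a1 with rfl | a1
      · cases pd' <;> simp_all [Adm, nz]
      · exact adm_cons a1 _
    refine ⟨Or.inr a4, by cases W <;> simp_all, fun φ hφ => ?_⟩
    have := eq_of_deriv (fun t ht => lemC (bdd_ac W) (bdd_ac _) (ac_z hW) ht)
      (fun t ht => ((G_deriv a4 ht).const_mul (K' * piB cl')).congr_deriv ?_)
      (ps_tendsto (bdd_ac _)) (by simpa [ac_zero] using (G_tendsto a4).const_mul (K' * piB cl')) hφ
    · simpa [nx, fm] using this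
    · have hs := (sin_pos' ht).ne'
      have hc := (cos_pos' ht).ne'
      rw [a3 t ht]
      cases pd' <;> simp [nx, nz, fm] <;> field_simp
  | .p :: W, K, cl, pd, fs, h => by
    simp only [forms, Option.map_eq_some_iff, Prod.mk.injEq] at h
    obtain ⟨⟨K', cl', pd', fs'⟩, h1, rfl, rfl, rfl, rfl⟩ := h
    obtain ⟨a1, a2, a3⟩ := forms_spec W h1
    have a4 := adm_nx a1 pd'
    refine ⟨Or.inr a4, by cases W <;> simp_all, fun φ hφ => ?_⟩
    obtain ⟨h2, h3⟩ := lemA (bdd_ac (.p :: W)) (bdd_ac W) (ac_zero _ _) (fun k => by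
      have e1 := ac_p W (k + 2)
      have e2 := ac_p W k
      rw [Sg_succ, Sg_succ, neg_neg] at e1
      push_cast at e1
      linear_combination e1 - e2)
    have h4 : ac (.p :: W) 1 = 0 := by
      have := ac_p W 1; rw [Sg_succ] at this; simpa [Sg] using this
    have := eq_of_deriv h2
      (fun t ht => ((G_deriv a4 ht).const_mul (2 * K' * piB cl')).congr_deriv (by rw [a3 t ht]; ring))
      h3 (by simpa [h4] using (G_tendsto a4).const_mul (2 * K' * piB cl')) hφ
    have hs := (sin_pos' hφ).ne'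
    have hc := (cos_pos' hφ).ne'
    simp only [nx, fm, if_true] at this ⊢
    push_cast
    rw [mul_left_comm, ← this]
    field_simp
  | .m :: .m :: W, K, cl, pd, fs, h => by
    simp only [forms, Option.map_eq_some_iff, Prod.mk.injEq] at h
    obtain ⟨⟨K', cl', pd', fs'⟩, h1, rfl, rfl, rfl, rfl⟩ := h
    obtain ⟨a1, a2, a3⟩ := forms_spec W h1
    have a4 := adm_cons (adm_nx a1 pd') .s
    refine ⟨Or.inr a4, by cases W <;> simp_all, fun φ hφ => ?_⟩
    obtain ⟨h2, h3⟩ := lemA (bdd_ac (.m :: .m :: W)) (bdd_ac' (.m :: W)) (ac_zero _ _) (fun k => by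
      have e1 := ac_m (.m :: W) (k + 2)
      have e2 := ac_m (.m :: W) k
      rw [Sg_succ, Sg_succ, neg_neg] at e1
      push_cast at e1
      linear_combination e1 - e2)
    have h4 : ac (.m :: .m :: W) 1 = 0 := by
      have := ac_m (.m :: W) 1; rw [Sg_succ] at this; simpa [Sg, ac_zero] using this
    have := eq_of_deriv h2
      (fun t ht => ((G_deriv a4 ht).const_mul (4 * K' * piB cl')).congr_deriv ?_)
      h3 (by simpa [h4] using (G_tendsto a4).const_mul (4 * K' * piB cl')) hφ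
    · have hs := (sin_pos' hφ).ne'
      have hc := (cos_pos' hφ).ne'
      simp only [nx, fm, if_true] at this ⊢
      push_cast
      rw [mul_left_comm, ← this]
      field_simp
    · have hs := (sin_pos' ht).ne'
      have hc := (cos_pos' ht).ne'
      have := stepV a1 a3 ht
      simp only [fm]
      field_simp
      linear_combination (-2) * this + (4 * K' * piB cl' * G (nx pd' :: fs') t) * sin_sq_add_cos_sq t
  | .m :: .z :: W, _, _, _, _, h => by simp [forms] at h
  | .m :: .p :: W, _, _, _, _, h => by simp [forms] at h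

end Pool.Agent.Lib.MP_e8750f_nt
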