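import Pool.Agent.Lib.MP_e8750f_nt.Theta

/-! Values of `ω`-words as trigonometric integrals, and of those as polylogarithm values. -/

namespace Pool.Agent.Lib.MP_e8750f_nt

set_option linter.unusedSectionVars false

open Ser Filter Topology Set MeasureTheory Real

noncomputable def cfS (m : ℕ) : S := fun w => (cf w m : ℂ)

theorem der_cfS (a : SignType) (m : ℕ) : der a (cfS m) = if a = 0 then (1 / m : ℂ) • cfS m
    else ∑ k ∈ Finset.range m, (-(a : ℂ) ^ (m - k) / m) • cfS k := by
  ext w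
  rw [der_apply, cfS, cf]
  split_ifs
  · simp [cfS]; ring
  · simp only [sum_app, smul_app, cfS, smul_eq_mul]
    push_cast
    rw [← Finset.sum_neg_distrib, Finset.sum_div]
    exact Finset.sum_congr rfl fun k _ => by rw [coe_coe]; ring

theorem om_cf (W : OW) (m : ℕ) : om (cfS m) W = ac W m := by
  induction W generalizing m with
  | nil => simp [om, cfS, cf, ac]
  | cons o W ih =>
    simp only [om] at ih
    cases o <;> simp [om, lin_cons, Rw, der_cfS, lin_smul, lin_sum, sum_app, ih, ac, Sg]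
    · ring
    · rw [← Finset.sum_neg_distrib, ← Finset.sum_neg_distrib, ← Finset.sum_add_distrib,
        Finset.sum_div]
      exact Finset.sum_congr rfl fun k _ => by ring
    · rw [← Finset.sum_neg_distrib, ← Finset.sum_add_distrib, Finset.sum_div]
      exact Finset.sum_congr rfl fun k _ => by ring

theorem Sh_last {α β : Type} {R : β → List (ℚ × α)} {W : List β} {w : List α} (h : Sh R W w)
    {a : α} (ha : w.getLast? = some a) : ∃ o c, W.getLast? = some o ∧ (c, a) ∈ R o := by
  induction h with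
  | nil => simp at ha
  | @cons o b W w h1 h2 ih =>
    cases h2 with
    | nil =>
      obtain rfl : b = a := by simpa using ha
      obtain ⟨c, hc⟩ := h1
      exact ⟨o, c, rfl, hc⟩
    | cons h3 h4 => simpa using ih (by simpa using ha)

theorem hasSum_omF {W : OW} (hW : W.getLast? ≠ some .z) {x : ℝ} (hx : x ∈ Ioo (0 : ℝ) 1) :
    HasSum (fun m => ((ac W m * x ^ m : ℝ) : ℂ)) (om (F x) W) := by
  have h1 := lin_hasSum Rw (F := fun m => (x : ℂ) ^ m • cfS m) (G := fun w => Li w x)
    (fun w => (hasSum_Li w (norm_lt_one hx)).congr_fun fun m => mul_comm _ _) W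
  rw [om, lin_congr Rw (F := F x) (G := fun w => Li w x) fun w hw => hyp_reg _ _ fun h => ?_]
  · refine h1.congr_fun fun m => ?_
    rw [lin_smul, smul_app, ← om, om_cf]; push_cast; exact mul_comm _ _
  · obtain ⟨o, c, h2, h3⟩ := Sh_last hw h
    cases o <;> simp_all [Rw]

theorem abel_nonneg {c : ℕ → ℝ → ℝ} {ℓ : ℕ → ℝ} {f : ℝ → ℂ} {L : ℂ}
    (h1 : ∀ x ∈ Ioo (0 : ℝ) 1, HasSum (fun m => (c m x : ℂ)) (f x))
    (h2 : ∀ x ∈ Ioo (0 : ℝ) 1, ∀ m, 0 ≤ c m x ∧ c m x ≤ ℓ m)
    (h3 : ∀ m, Tendsto (c m) (𝓝[<] 1) (𝓝 (ℓ m))) (h4 : Tendsto f (𝓝[<] 1) (𝓝 L)) :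
    ∃ r : ℝ, L = r ∧ HasSum ℓ r := by
  have a1 : ∀ x ∈ Ioo (0 : ℝ) 1, HasSum (fun m => c m x) (f x).re := fun x hx => by
    simpa using Complex.hasSum_re (h1 x hx)
  have a2 : L.im = 0 := by
    refine tendsto_nhds_unique ((Complex.continuous_im.tendsto _).comp h4)
      (tendsto_const_nhds.congr' ?_)
    filter_upwards [ev_Ioo] with x hx
    exact hasSum_zero.unique (by simpa using Complex.hasSum_im (h1 x hx))
  have a3 := (Complex.continuous_re.tendsto _).comp h4
  have a4 : ∀ m, 0 ≤ ℓ m := fun m => (h2 (1 / 2) (by norm_num) m).1.trans (h2 _ (by norm_num) m).2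
  have a5 : ∀ n, ∑ m ∈ Finset.range n, ℓ m ≤ L.re := fun n =>
    le_of_tendsto_of_tendsto (tendsto_finsetSum _ fun m _ => h3 m) a3
      (ev_Ioo.mono fun x hx => sum_le_hasSum _ (fun m _ => (h2 x hx m).1) (a1 x hx))
  have a6 := summable_of_sum_range_le a4 a5
  refine ⟨L.re, Complex.ext (by simp) (by simp [a2]), ?_⟩
  rw [le_antisymm (le_of_tendsto a3 (ev_Ioo.mono fun x hx =>
    hasSum_le (fun m => (h2 x hx m).2) (a1 x hx) a6.hasSum)) (a6.tsum_le_of_sum_range_le a5)]
  exact a6.hasSum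

theorem wallis_sum {c ℓ : ℕ → ℝ} {g : ℝ → ℝ} (hc : ∀ m, 0 ≤ c m) (hg : Continuous g)
    (hg' : ∀ θ, 0 ≤ g θ) (h : ∀ m, ∫ θ in (0 : ℝ)..π / 2, g θ * (gam m * sin θ ^ m) = ℓ m) {L : ℝ}
    (hL : HasSum (fun m => c m * ℓ m) L) {u : ℝ → ℝ} (hu : ∀ θ ∈ J, g θ * ps c (sin θ) = u θ) :
    L = ∫ θ in (0 : ℝ)..π / 2, u θ := by
  have h0 : (0 : ℝ) ≤ π / 2 := by positivity
  simp only [intervalIntegral.integral_of_le h0, integral_Ioc_eq_integral_Ioo] at h ⊢
  have h1 : ∀ m, ∫ θ in J, c m * (g θ * (gam m * sin θ ^ m)) = c m * ℓ m := fun m => by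
    rw [integral_const_mul, h]
  have h2 := hasSum_integral_of_summable_integral_norm (μ := volume.restrict J)
    (F := fun m θ => c m * (g θ * (gam m * sin θ ^ m)))
    (fun m => (Continuous.integrableOn_Icc (by fun_prop)).mono_set Ioo_subset_Icc_self)
    (hL.summable.congr fun m => by
      rw [← h1]
      refine setIntegral_congr_fun measurableSet_Ioo fun θ hθ => ?_
      have := hc m; have := hg' θ; have := (gam_bound m).1; have := sin_pos' hθ
      exact (Real.norm_of_nonneg (by positivity)).symm)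
  simp only [h1] at h2
  rw [hL.unique h2]
  refine setIntegral_congr_fun measurableSet_Ioo fun θ hθ => ?_
  rw [← hu θ hθ, ps, ← tsum_mul_left]
  exact tsum_congr fun m => by ring

theorem pow_tendsto (m : ℕ) : Tendsto (fun x : ℝ => x ^ m) (𝓝[<] 1) (𝓝 1) := by
  simpa using ((continuous_pow m).tendsto (1 : ℝ)).mono_left nhdsWithin_le_nhds

theorem valE {W : OW} {K : ℕ} {cl pd : Bool} {fs : List Fm}
    (h : forms (.z :: W) = some (K, cl, pd, fs)) :
    om Φ (.z :: W) * (π / 2 : ℝ) = (K * piB cl * G (nx pd :: fs) (π / 2) : ℝ) := by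
  obtain ⟨-, a2, a3⟩ := forms_spec _ h
  obtain ⟨r, h1, h2⟩ := abel_nonneg (ℓ := ac (.z :: W)) (L := om Φ (.z :: W))
    (fun x hx => hasSum_omF a2 hx)
    (fun x hx m => ⟨mul_nonneg (ac_bound _ _).1 (pow_nonneg hx.1.le _),
      mul_le_of_le_one_right (ac_bound _ _).1 (pow_le_one₀ hx.1.le hx.2.le)⟩)
    (fun m => by simpa using (pow_tendsto m).const_mul (ac (.z :: W) m))
    (lin_tendsto Rw fun w hw => F_tendsto (by
      cases hw with
      | cons h1 h2 => simp [Rw] at h1; simp [h1]))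
  have := wallis_sum (g := fun _ => 1) (fun m => (ac_bound _ m).1) continuous_const (by simp)
    (fun m => by simpa only [one_mul] using gam_int m) (h2.mul_right (π / 2))
    (fun θ hθ => (one_mul _).trans (a3 θ hθ))
  rw [h1, ← Complex.ofReal_mul, this, intervalIntegral.integral_const_mul, G]

theorem pow_aux {x : ℝ} (hx : x ∈ Ioo (0 : ℝ) 1) (n : ℕ) : x ^ n * (1 + n * (1 - x)) ≤ 1 := by
  induction n with
  | zero => simp
  | succ n ih =>
    refine le_trans ?_ ih
    rw [pow_succ, mul_assoc]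
    refine mul_le_mul_of_nonneg_left ?_ (pow_nonneg hx.1.le n)
    push_cast
    nlinarith [mul_nonneg (Nat.cast_nonneg n : (0 : ℝ) ≤ n) (sq_nonneg (1 - x)), sq_nonneg (1 - x)]

theorem om_m_sub_p (H : S) (W : OW) :
    om H (.m :: W) - om H (.p :: W) = 2 * om (der (-1) H) W := by
  simp [om, lin_cons, Rw]; ring

theorem valM {W : OW} {K : ℕ} {cl pd : Bool} {fs : List Fm}
    (h : forms W = some (K, cl, pd, fs)) :
    (om Φ (.m :: W) - om Φ (.p :: W)) * (π / 2 : ℝ)
      = (2 * K * piB cl * G (.c :: nx pd :: fs) (π / 2) : ℝ) := by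
  obtain ⟨a1, a2, a3⟩ := forms_spec _ h
  have hp : ∀ k : ℕ, ac (.p :: W) (k + 2) = (k + 1) / (k + 2) * ac (.m :: W) (k + 1) := fun k => by
    have e1 := ac_p W (k + 2)
    have e2 := ac_m W (k + 1)
    rw [Sg_succ] at e1
    push_cast at e1 e2
    field_simp
    linear_combination e1 - e2
  refine Exists.elim (abel_nonneg (ℓ := fun k => ac (.m :: W) (k + 1) * (1 / (k + 2)))
    (c := fun k x => ac (.m :: W) (k + 1) * (x ^ (k + 1) * (1 + (k + 1) * (1 - x)) / (k + 2)))
    (f := fun x => om (F x) (.m :: W) - om (F x) (.p :: W))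
    (L := om Φ (.m :: W) - om Φ (.p :: W)) (fun x hx => ?_) (fun x hx k => ?_) (fun k => ?_) ?_)
    fun r ⟨h1, h2⟩ => ?_
  rotate_right
  · have := wallis_sum (g := fun θ => cos θ ^ 2) (fun m => (ac_bound (.m :: W) (m + 1)).1)
      (by fun_prop) (fun θ => sq_nonneg _) gam_int'
      ((h2.mul_right (π / 2)).congr_fun fun k => by ring)
      (u := fun θ => 2 * (K * piB cl) * (fm .c θ * G (nx pd :: fs) θ)) fun θ hθ => by
        have hs := (sin_pos' hθ).ne'
        rw [mul_left_comm, ← stepV a1 a3 hθ, fm]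
        field_simp
    rw [h1, ← Complex.ofReal_mul, this, intervalIntegral.integral_const_mul, G,
      mul_assoc 2 (K : ℝ)]
  · have b1 := (hasSum_nat_add_iff' 1).mpr (hasSum_omF (W := .m :: W) (by cases W <;> simp_all) hx)
    have b2 := (hasSum_nat_add_iff' 2).mpr (hasSum_omF (W := .p :: W) (by cases W <;> simp_all) hx)
    have h4 : ac (.p :: W) 1 = 0 := by
      have := ac_p W 1; rw [Sg_succ] at this; simpa [Sg] using this
    simp only [Finset.sum_range_succ, Finset.sum_range_zero, ac_zero, h4, zero_mul, add_zero,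
      Complex.ofReal_zero, sub_zero, hp] at b1 b2
    refine (b1.sub b2).congr_fun fun k => ?_
    rw [← Complex.ofReal_sub]
    congr 1
    field_simp; ring
  · have h3 := pow_aux hx (k + 1)
    have h4 := (ac_bound (.m :: W) (k + 1)).1
    have h5 := hx.1
    have h6 : 0 ≤ 1 - x := by linarith [hx.2]
    push_cast at h3
    exact ⟨by positivity, by gcongr⟩
  · have : Continuous fun x : ℝ =>
        ac (.m :: W) (k + 1) * (x ^ (k + 1) * (1 + (k + 1) * (1 - x)) / (k + 2)) := by fun_prop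
    simpa using (this.tendsto 1).mono_left nhdsWithin_le_nhds
  · simp only [om_m_sub_p]
    exact (lin_tendsto Rw fun w _ => F_tendsto (w := -1 :: w) (by simp)).const_mul 2

theorem antiAux_mem (j : ℕ) (a : SignType) (v : Word) : ∀ t ∈ antiAux j (a :: v),
    (t.2.2.head? = some a ∨ t.2.2.head? = some 0) ∧ t.2.2.getLast? = (a :: v).getLast? := by
  induction j generalizing a v with
  | zero => simp [antiAux]
  | succ j ih =>
    intro t ht
    simp only [antiAux, scl, List.mem_cons, List.mem_map] at ht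
    rcases ht with rfl | ⟨s, hs, rfl⟩
    · simp
    · have := ih 0 (a :: v) s hs
      simp only [or_self, List.getLast?_cons_cons] at this
      exact ⟨Or.inr this.1, this.2⟩

theorem HL_last (w : Word) : ∀ t ∈ HL w, t.2.2.getLast? ≠ some 0 := by
  induction w with
  | nil => simp [HL]
  | cons a w ih =>
    refine key_mem_nrm (P := fun k : ℕ × Word => k.2.getLast? ≠ some 0) fun t ht => ?_
    simp only [List.mem_flatMap, scl, List.mem_map] at ht
    obtain ⟨s, hs, r, hr, rfl⟩ := ht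
    unfold anti at hr
    split_ifs at hr with h
    · simp at hr; simp [hr]
    · rw [(antiAux_mem _ _ _ r hr).2]
      have := ih s hs
      cases h' : s.2.2 <;> simp_all

theorem HL_head {w : Word} {b : SignType} (hb : b ≠ 0) (hw : w.head? ≠ some b) :
    ∀ t ∈ HL w, t.2.2.head? ≠ some b := by
  cases w with
  | nil => simp [HL]
  | cons a w =>
    refine key_mem_nrm (P := fun k : ℕ × Word => k.2.head? ≠ some b) fun t ht => ?_
    simp only [List.mem_flatMap, scl, List.mem_map] at ht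
    obtain ⟨s, hs, r, hr, rfl⟩ := ht
    unfold anti at hr
    split_ifs at hr with h
    · simp at hr; simp [hr]
    · rcases (antiAux_mem _ _ _ r hr).1 with h' | h' <;> rw [h']
      · exact hw
      · simpa using hb.symm

theorem tendsto_evalF {κ X : Type} {l : Filter X} {f : X → κ → ℂ} {g : κ → ℂ} (L : LC κ)
    (h : ∀ t ∈ L, Tendsto (fun x => f x t.2) l (𝓝 (g t.2))) :
    Tendsto (fun x => evalF (f x) L) l (𝓝 (evalF g L)) :=
  tendsto_list_sum' L fun t ht => (h t ht).const_mul _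

theorem Φ_HL {w : Word} (hw : w.head? ≠ some 1) :
    Φ w = evalF (fun k => 0 ^ k.1 * Φ k.2) (HL w) := by
  have h := tendsto_evalF (l := 𝓝[<] (1 : ℝ)) (g := fun k : ℕ × Word => 0 ^ k.1 * Φ k.2)
    (f := fun (x : ℝ) (k : ℕ × Word) => (Real.log x : ℂ) ^ k.1 * Li k.2 x) (HL w) fun t ht =>
      (log_tendsto.pow t.2.1).mul (Li_tendsto (HL_head (by simp) hw t ht) (HL_last w t ht))
  exact tendsto_nhds_unique (F_tendsto hw) h

def neg (w : Word) : Word := w.map fun a => -a

theorem neg_head {w : Word} (h : w.head? ≠ some (-1)) : (neg w).head? ≠ some 1 := by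
  cases w with
  | nil => simp [neg]
  | cons a w => cases a <;> simp_all [neg]

theorem neg_last {w : Word} (h : w.getLast? ≠ some 0) : (neg w).getLast? ≠ some 0 := by
  simpa [neg] using h

noncomputable def Hl : S := fun u => evalF (fun k => (π * Complex.I) ^ k.1 * Φ (neg k.2)) (HL u)

theorem hyp_end {u : Word} (hu : u.head? ≠ some (-1)) : Tendsto (fun ρ : ℝ =>
    hyp (zz ρ (π / 2)) (Real.log ρ + 2 * Complex.I * (π / 2 : ℝ)) u) (𝓝[<] 1) (𝓝 (Hl u)) := by
  have h1 : ∀ ρ : ℝ, zz ρ (π / 2) = -ρ := fun ρ => by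
    rw [zz_eq]; simp
  have h2 : 2 * Complex.I * (π / 2 : ℝ) = π * Complex.I := by push_cast; ring
  simp only [h1, h2, hyp, Hl]
  refine tendsto_evalF
    (f := fun (x : ℝ) (k : ℕ × Word) => (Real.log x + π * Complex.I : ℂ) ^ k.1 * Li k.2 (-x))
    (g := fun k : ℕ × Word => (π * Complex.I) ^ k.1 * Φ (neg k.2)) (HL u)
    fun t ht => Tendsto.mul ?_ ?_
  · simpa using (log_tendsto.add_const (π * Complex.I)).pow t.2.1
  · simp only [Li_neg]
    exact Li_tendsto (neg_head (HL_head (by simp) hu t ht)) (neg_last (HL_last u t ht))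

theorem sh_ends {f : Fm} {fs : List Fm} (h : Adm fs) (hf : f = .d ∨ f = .c) {w : Word}
    (hw : Sh Rf (f :: fs) w) {x : Word × Word} (hx : x ∈ splits w) :
    x.1.head? ≠ some (-1) ∧ x.2.reverse.head? ≠ some 1 := by
  have h1 : w.head? ≠ some (-1) := by
    cases hw with
    | cons h1 h2 => rcases hf with rfl | rfl <;> simp [Rf] at h1 <;> aesop
  have h2 : w.getLast? ≠ some 1 := fun h' => by
    obtain ⟨o, c, h3, h4⟩ := Sh_last hw h'
    rcases adm_cons h f with h5 | h5 <;> rw [h5] at h3 <;> obtain rfl := Option.some.inj h3 <;>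
      simp [Rf] at h4
  rw [← mem_splits hx] at h1 h2
  obtain ⟨u, v⟩ := x
  constructor
  · cases u <;> simp_all
  · rw [List.head?_reverse]
    intro h3
    exact h2 (by rw [List.getLast?_append, h3]; rfl)

theorem arc_val {f : Fm} {fs : List Fm} (h : Adm fs) (hf : f = .d ∨ f = .c) :
    kap (f :: fs) * G (f :: fs) (π / 2) = lin Rf (Hl * rev Φ) (f :: fs) := by
  refine tendsto_nhds_unique (arc_end h hf) (lin_tendsto Rf fun w hw => ?_)
  simp only [mul_eq_splits]
  refine tendsto_list_sum' _ fun x hx => ?_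
  obtain ⟨h1, h2⟩ := sh_ends h hf hw hx
  exact (hyp_end h1).mul ((F_tendsto h2).const_mul _)

end Pool.Agent.Lib.MP_e8750f_nt
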